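import Mathlib

set_option autoImplicit false

/-!
The Pfaffian system of rank six on configurations of four points, and the integrals of the dual
system. Throughout `e = 1 / m`.
-/

namespace Pool.Agent.Lib.MP_0c623d_al.BP

open Complex MeasureTheory
open scoped ComplexConjugate

noncomputable section

/-- four points of the plane -/
abbrev Cf := Fin 4 → ℂ

/-- the six pairs `01 02 03 12 13 23`: first index -/
def fst : Fin 6 → Fin 4 := ![0, 0, 0, 1, 1, 2]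

/-- second index -/
def snd : Fin 6 → Fin 4 := ![1, 2, 3, 2, 3, 3]

/-- the complementary pair -/
def cpl : Fin 6 → Fin 6 := ![5, 4, 3, 2, 1, 0]

/-- the number of the pair `{i, j}` -/
def ix : Fin 4 → Fin 4 → Fin 6 := ![![0, 0, 1, 2], ![0, 0, 3, 4], ![1, 3, 0, 5], ![2, 4, 5, 0]]

/-- the exponent of the points -/
def al (e : ℝ) : ℂ := -1 / 2 + e

/-- the exponent of the diagonal -/
def be (e : ℝ) : ℂ := 1 / 2 - 3 * e

/-- coefficient of `al` in the residue along the pair `n` -/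
def ResA : Fin 6 → Matrix (Fin 6) (Fin 6) ℤ :=
  ![!![4, 1, 1, 1, 1, 0; 0, 1, 0, -1, 0, 0; 0, 0, 1, 0, -1, 0; 0, -1, 0, 1, 0, 0;
      0, 0, -1, 0, 1, 0; 0, 0, 0, 0, 0, 0],
    !![1, 0, 0, -1, 0, 0; 1, 4, 1, 1, 0, 1; 0, 0, 1, 0, 0, -1; -1, 0, 0, 1, 0, 0;
      0, 0, 0, 0, 0, 0; 0, 0, -1, 0, 0, 1],
    !![1, 0, 0, 0, -1, 0; 0, 1, 0, 0, 0, -1; 1, 1, 4, 0, 1, 1; 0, 0, 0, 0, 0, 0;
      -1, 0, 0, 0, 1, 0; 0, -1, 0, 0, 0, 1],
    !![1, -1, 0, 0, 0, 0; -1, 1, 0, 0, 0, 0; 0, 0, 0, 0, 0, 0; 1, 1, 0, 4, 1, 1;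
      0, 0, 0, 0, 1, -1; 0, 0, 0, 0, -1, 1],
    !![1, 0, -1, 0, 0, 0; 0, 0, 0, 0, 0, 0; -1, 0, 1, 0, 0, 0; 0, 0, 0, 1, 0, -1;
      1, 0, 1, 1, 4, 1; 0, 0, 0, -1, 0, 1],
    !![0, 0, 0, 0, 0, 0; 0, 1, -1, 0, 0, 0; 0, -1, 1, 0, 0, 0; 0, 0, 0, 1, -1, 0;
      0, 0, 0, -1, 1, 0; 0, 1, 1, 1, 1, 4]]

/-- the residue of the connection along the pair `n` -/
def Res (e : ℝ) (n : Fin 6) : Matrix (Fin 6) (Fin 6) ℂ :=
  Matrix.of fun r c => al e * ResA n r c + if r = n ∧ c = n then be e else 0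

/-- the connection: the system is `dM = conn a · M`, the dual system is `dE = -(conn a)ᵀ E` -/
def conn (e : ℝ) (a v : Cf) : Matrix (Fin 6) (Fin 6) ℂ :=
  ∑ n, ((v (fst n) - v (snd n)) / (a (fst n) - a (snd n))) • Res e n

/-- the coefficients of the period map -/
def cw (a : Cf) : Fin 6 → ℂ := fun n => (a (fst n) - a (snd n)) ^ 2

/-- `P n x` is the product of `x - a i` over the two indices not in the pair `n` -/
def Pc (a : Cf) (n : Fin 6) (x : ℂ) : ℂ := (x - a (fst (cpl n))) * (x - a (snd (cpl n)))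

/-- the symmetric form `l 0 + l 1 (x + y) + l 2 x y` -/
def ell (l : Fin 3 → ℂ) (x y : ℂ) : ℂ := l 0 + l 1 * (x + y) + l 2 * (x * y)

/-- the coordinates of `ell l` in the frame `cw a n * Pc a n x * Pc a n y` -/
def Srow (a : Cf) (l : Fin 3 → ℂ) : Fin 6 → ℂ := fun n =>
  ell l (a (fst n)) (a (snd n)) / (cw a n * Pc a n (a (fst n)) * Pc a n (a (snd n)))

/-- the kernel `|z|^(2s) z^p conj(z)^q` -/
def E (s : ℝ) (p q : ℤ) (z : ℂ) : ℂ := (‖z‖ ^ (2 * s) : ℝ) * z ^ p * conj z ^ q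

/-- the integrand -/
def Ig (e : ℝ) (p q r t : Fin 4 → ℤ) (a : Cf) (z : ℂ × ℂ) : ℂ :=
  (∏ i, E (-1 / 2 - e) (p i) (q i) (z.1 - a i)) * (∏ i, E (-1 / 2 - e) (r i) (t i) (z.2 - a i)) *
    (‖z.1 - z.2‖ ^ (2 * (-1 / 2 + 3 * e)) : ℝ)

/-- the integrals of the dual system -/
def In (e : ℝ) (p q r t : Fin 4 → ℤ) (a : Cf) : ℂ := ∫ z : ℂ × ℂ, Ig e p q r t a z

/-- the exponents for which the integral converges -/
def Ok (p q r t : Fin 4 → ℤ) : Prop :=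
  (∀ i, 0 ≤ p i + q i) ∧ (∀ i, 0 ≤ r i + t i) ∧ ∑ i, (p i + q i) ≤ 3 ∧ ∑ i, (r i + t i) ≤ 2

/-- the weight `|Φ'|^2` -/
def wt (e : ℝ) (a : Cf) (z : ℂ × ℂ) : ℝ :=
  (∏ i, ‖z.1 - a i‖ ^ (2 * (-1 / 2 - e))) * (∏ i, ‖z.2 - a i‖ ^ (2 * (-1 / 2 - e))) *
    ‖z.1 - z.2‖ ^ (2 * (-1 / 2 + 3 * e))

/-- the square norm of the form `ell l · Φ'` -/
def G (e : ℝ) (a : Cf) (l : Fin 3 → ℂ) : ℝ := ∫ z : ℂ × ℂ, ‖ell l z.1 z.2‖ ^ 2 * wt e a z

/-- the exponent vector of `Pc a n` -/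
def pc (n : Fin 6) : Fin 4 → ℤ := Pi.single (fst (cpl n)) 1 + Pi.single (snd (cpl n)) 1

/-- the column of integrals of the frame against `conj ((x - a 0) ^ j)` -/
def Jc (e : ℝ) (j : ℤ) (a : Cf) : Fin 6 → ℂ := fun n =>
  cw a n * In e (pc n) (Pi.single 0 j) (pc n) 0 a

/-- the derivative of `In` when the points in `D` move -/
def dIn (e : ℝ) (p q r t : Fin 4 → ℤ) (D : Finset (Fin 4)) (a v : Cf) : ℂ :=
  -∑ i ∈ D, (v i * ((-1 / 2 - e + p i) * In e (p - Pi.single i 1) q r t a +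
      (-1 / 2 - e + r i) * In e p q (r - Pi.single i 1) t a) +
    conj (v i) * ((-1 / 2 - e + q i) * In e p (q - Pi.single i 1) r t a +
      (-1 / 2 - e + t i) * In e p q r (t - Pi.single i 1) a))

/-- statement A1: convergence -/
def IntSt : Prop := ∀ e : ℝ, 0 < e → e < 1 / 12 → ∀ p q r t : Fin 4 → ℤ, Ok p q r t →
  ∀ a : Cf, Function.Injective a → Integrable (Ig e p q r t a)

/-- statement A1: differentiation -/
def DerSt : Prop := ∀ e : ℝ, 0 < e → e < 1 / 12 → ∀ (p q r t : Fin 4 → ℤ) (D : Finset (Fin 4)),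
  Ok p q r t → (∀ i ∈ D, Ok (p - Pi.single i 1) q r t ∧ Ok p q (r - Pi.single i 1) t) →
  ∀ a : Cf, Function.Injective a → ∃ L : Cf →L[ℝ] ℂ, (∀ v, L v = dIn e p q r t D a v) ∧
    HasFDerivAt (fun v : Cf => In e p q r t (a + fun i => if i ∈ D then v i else 0)) L 0

/-- statement A2: covariance under affine maps -/
def CovSt : Prop := ∀ (e : ℝ) (p q r t : Fin 4 → ℤ) (a : Cf) (c d : ℂ), c ≠ 0 →
  In e p q r t (fun i => c * a i + d) =
    E (-5 / 2 - 5 * e) (∑ i, (p i + r i)) (∑ i, (q i + t i)) c * In e p q r t a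

end

end Pool.Agent.Lib.MP_0c623d_al.BP
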