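import Pool.Agent.Lib.MP_0c623d_al.BP.Conn
import Pool.Agent.Lib.MP_0c623d_al.E.Defs

set_option autoImplicit false

/-!
Algebra of the connection: symmetry under permutations, action on the rows `Bm u v`.
-/

namespace Pool.Agent.Lib.MP_0c623d_al.BP.W

open Matrix

noncomputable section

/-- the difference of the two coordinates of the pair `n` -/
def df (v : Cf) (n : Fin 6) : ℂ := v (fst n) - v (snd n)

theorem Bm_apply (u v : Cf) (n : Fin 6) : Bm u v n = df u n * df v n := rfl

/-- the homogeneity degree -/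
def dg (e : ℝ) : ℂ := -3 / 2 + 5 * e

theorem fst_lt_snd : ∀ n, fst n < snd n := by decide

theorem ix_fst_snd : ∀ n, ix (fst n) (snd n) = n := by decide

theorem ix_spec : ∀ i j, i ≠ j →
    (fst (ix i j) = i ∧ snd (ix i j) = j) ∨ (fst (ix i j) = j ∧ snd (ix i j) = i) := by decide

theorem ix_comm : ∀ i j, ix i j = ix j i := by decide

theorem pp_spec (s : Equiv.Perm (Fin 4)) (n : Fin 6) :
    (fst (pp s n) = s (fst n) ∧ snd (pp s n) = s (snd n)) ∨
      (fst (pp s n) = s (snd n) ∧ snd (pp s n) = s (fst n)) :=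
  ix_spec _ _ fun h => (fst_lt_snd n).ne (s.injective h)

theorem pp_one (n : Fin 6) : pp 1 n = n := ix_fst_snd n

theorem pp_mul (s t : Equiv.Perm (Fin 4)) (n : Fin 6) : pp (s * t) n = pp s (pp t n) := by
  rcases pp_spec t n with h | h
  · simp only [pp, Equiv.Perm.mul_apply] at h ⊢
    rw [h.1, h.2]
  · simp only [pp, Equiv.Perm.mul_apply] at h ⊢
    rw [h.1, h.2, ix_comm]

/-- the permutation of the pairs, as an equivalence -/
def ppe (s : Equiv.Perm (Fin 4)) : Equiv.Perm (Fin 6) where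
  toFun := pp s
  invFun := pp s⁻¹
  left_inv n := by rw [← pp_mul, inv_mul_cancel, pp_one]
  right_inv n := by rw [← pp_mul, mul_inv_cancel, pp_one]

theorem ResA_pp : ∀ (s : Equiv.Perm (Fin 4)) (n r c : Fin 6),
    ResA (pp s n) (pp s r) (pp s c) = ResA n r c := by decide +kernel

theorem Res_pp (e : ℝ) (s : Equiv.Perm (Fin 4)) (n r c : Fin 6) :
    Res e (pp s n) (pp s r) (pp s c) = Res e n r c := by
  have h : ∀ a b, pp s a = pp s b ↔ a = b := fun a b => (ppe s).injective.eq_iff
  simp only [Res, of_apply, ResA_pp, h]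

theorem df_pp (s : Equiv.Perm (Fin 4)) (n : Fin 6) :
    (∀ v : Cf, df (v ∘ s) n = df v (pp s n)) ∨ (∀ v : Cf, df (v ∘ s) n = -df v (pp s n)) := by
  rcases pp_spec s n with h | h
  · left; intro v; simp [df, h.1, h.2]
  · right; intro v; simp [df, h.1, h.2]

theorem conn_eq (e : ℝ) (a v : Cf) : conn e a v = ∑ n, (df v n / df a n) • Res e n := rfl

theorem cw_eq (a : Cf) : cw a = Bm a a := by
  ext n; simp [cw, Bm, sq]

theorem Bm_comm (u v : Cf) : Bm u v = Bm v u := by
  ext n; simp [Bm, mul_comm]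

theorem Bm_perm (s : Equiv.Perm (Fin 4)) (u v : Cf) (n : Fin 6) :
    Bm (u ∘ s) (v ∘ s) n = Bm u v (pp s n) := by
  rcases df_pp s n with h | h <;> simp [Bm_apply, h]

theorem cw_perm (s : Equiv.Perm (Fin 4)) (a : Cf) (n : Fin 6) : cw (a ∘ s) n = cw a (pp s n) := by
  rw [cw_eq, cw_eq, Bm_perm]

theorem conn_perm (e : ℝ) (s : Equiv.Perm (Fin 4)) (a v : Cf) :
    conn e (a ∘ s) (v ∘ s) = (conn e a v).submatrix (pp s) (pp s) := by
  ext r c
  simp only [conn_eq, submatrix_apply, Matrix.sum_apply, Matrix.smul_apply, smul_eq_mul]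
  rw [← Equiv.sum_comp (ppe s) fun n => df v n / df a n * Res e n (pp s r) (pp s c)]
  refine Finset.sum_congr rfl fun n _ => ?_
  show _ = df v (pp s n) / df a (pp s n) * Res e (pp s n) (pp s r) (pp s c)
  rw [Res_pp]
  rcases df_pp s n with h | h <;> simp [h, neg_div_neg_eq]

theorem df_ne {a : Cf} (ha : Function.Injective a) (n : Fin 6) : df a n ≠ 0 :=
  sub_ne_zero.2 fun h => (fst_lt_snd n).ne (ha h)

theorem sum_Res (e : ℝ) : ∑ n, Res e n = (dg e - 2) • (1 : Matrix (Fin 6) (Fin 6) ℂ) := by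
  ext r c
  fin_cases r <;> fin_cases c <;>
    simp [Fin.sum_univ_six, Res, ResA, al, be, dg] <;> ring

theorem conn_self (e : ℝ) {a : Cf} (ha : Function.Injective a) :
    conn e a a = (dg e - 2) • (1 : Matrix (Fin 6) (Fin 6) ℂ) := by
  rw [conn_eq, ← sum_Res]
  exact Finset.sum_congr rfl fun n _ => by rw [div_self (df_ne ha n), one_smul]

theorem conn_const (e : ℝ) (a : Cf) (c : ℂ) : conn e a (fun _ => c) = 0 := by
  simp [conn_eq, df]

theorem conn_add (e : ℝ) (a u v : Cf) : conn e a (u + v) = conn e a u + conn e a v := by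
  simp only [conn_eq, ← Finset.sum_add_distrib, ← add_smul]
  refine Finset.sum_congr rfl fun n _ => ?_
  congr 1; simp only [df, Pi.add_apply]; ring

theorem conn_smul (e : ℝ) (a v : Cf) (c : ℂ) : conn e a (c • v) = c • conn e a v := by
  simp only [conn_eq, Finset.smul_sum, smul_smul]
  refine Finset.sum_congr rfl fun n _ => ?_
  congr 1; simp only [df, Pi.smul_apply, smul_eq_mul]; ring

/-- the vector `d_i - d_j` of the pair `n` -/
def rv (n : Fin 6) : Cf := Pi.single (fst n) 1 - Pi.single (snd n) 1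

theorem Bm_Res (e : ℝ) (u v : Cf) (n : Fin 6) : Bm u v ᵥ* Res e n =
    (al e * df u n) • Bm v (rv n) + (al e * df v n) • Bm u (rv n) +
      (be e * (df u n * df v n)) • (Pi.single n 1 : Fin 6 → ℂ) := by
  ext c
  fin_cases n <;> fin_cases c <;>
    simp [vecMul, dotProduct, Fin.sum_univ_six, Res, ResA, Bm, df, rv, fst, snd] <;> ring

theorem Bm_sum (u : Cf) (c : Fin 6 → ℂ) :
    ∑ n, c n • Bm u (rv n) = Bm u (∑ n, c n • rv n) := by
  ext m
  simp only [Bm, Finset.sum_apply, Pi.smul_apply, smul_eq_mul, ← Finset.sum_sub_distrib,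
    Finset.mul_sum]
  exact Finset.sum_congr rfl fun n _ => by ring

theorem Bm_rv (u v : Cf) : ∑ n, df v n • Bm u (rv n) = (4 : ℂ) • Bm u v := by
  ext c
  fin_cases c <;> simp [Fin.sum_univ_six, Bm, df, rv, fst, snd] <;> ring

/-- the correction vector of the second derivative -/
def cv (a x v : Cf) : Cf := ∑ n, (df x n / df a n * df v n) • rv n

theorem Bm_conn (e : ℝ) {a : Cf} (ha : Function.Injective a) (v x : Cf) :
    Bm a v ᵥ* conn e a x = (4 * al e + be e) • Bm x v + al e • Bm a (cv a x v) := by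
  rw [conn_eq, vecMul_sum]
  have h : ∀ n, Bm a v ᵥ* ((df x n / df a n) • Res e n) =
      al e • (df x n • Bm v (rv n)) + al e • ((df x n / df a n * df v n) • Bm a (rv n)) +
        be e • ((df x n * df v n) • (Pi.single n 1 : Fin 6 → ℂ)) := by
    intro n
    have h0 := df_ne ha n
    rw [vecMul_smul, Bm_Res]
    simp only [smul_add, smul_smul]
    congr 1
    · congr 1
      · congr 1; field_simp
      · congr 1; ring
    · congr 1; field_simp
  have h2 : ∑ n, (df x n * df v n) • (Pi.single n 1 : Fin 6 → ℂ) = Bm x v := by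
    ext c; simp [Bm_apply, Pi.single_apply]
  simp only [h, Finset.sum_add_distrib, ← Finset.smul_sum, Bm_rv, h2]
  rw [Bm_sum, Bm_comm v x, cv]
  module

theorem cw_conn (e : ℝ) {a : Cf} (ha : Function.Injective a) (x : Cf) :
    cw a ᵥ* conn e a x = (dg e - 2) • Bm a x := by
  rw [cw_eq, Bm_conn e ha, cv, ← Bm_sum]
  have h : ∀ n, df x n / df a n * df a n = df x n := fun n => div_mul_cancel₀ _ (df_ne ha n)
  simp only [h, Bm_rv, Bm_comm x a]
  have : dg e - 2 = 8 * al e + be e := by simp only [dg, al, be]; ring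
  rw [this]; module

end

end Pool.Agent.Lib.MP_0c623d_al.BP.W
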