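import Mathlib

set_option autoImplicit false

/-!
Majorants for the two-dimensional Coulomb gas integrals: the kernel `kr`, its integrability,
product bounds, and the null sets swept out by moving points.
-/

namespace Pool.Agent.Lib.MP_0c623d_al.BP

open MeasureTheory Filter Topology Set

/-- The kernel `|z|^u (1+|z|)^v`. -/
noncomputable def kr (u v : ℝ) (z : ℂ) : ℝ := ‖z‖ ^ u * (1 + ‖z‖) ^ v

lemma kr_nonneg (u v : ℝ) (z : ℂ) : 0 ≤ kr u v z := by unfold kr; positivity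

lemma kr_meas (u v : ℝ) : Measurable (kr u v) := by unfold kr; fun_prop

lemma kr_cont (u v : ℝ) {z : ℂ} (hz : z ≠ 0) : ContinuousAt (kr u v) z := by
  unfold kr
  exact (continuous_norm.continuousAt.rpow_const (Or.inl (norm_ne_zero_iff.mpr hz))).mul
    ((continuous_const.add continuous_norm).continuousAt.rpow_const
      (Or.inl (show (1 : ℝ) + ‖z‖ ≠ 0 by positivity)))

lemma kr_int {u v : ℝ} (hu : -2 < u) (hu0 : u ≤ 0) (huv : u + v < -2) : Integrable (kr u v) := by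
  have hm := (kr_meas u v).aestronglyMeasurable (μ := volume)
  rw [← integrableOn_univ, ← union_compl_self (Metric.ball (0 : ℂ) 1)]
  refine IntegrableOn.union ?_ ?_
  · refine integrableOn_ball_of_norm_le_rpow (C := 2 ^ |v|) (α := -u) (by simp) (by simp; linarith)
      ?_ hm
    refine (ae_restrict_iff' measurableSet_ball).mpr (Eventually.of_forall fun z hz => ?_)
    rw [mem_ball_zero_iff] at hz
    rw [Real.norm_of_nonneg (kr_nonneg _ _ _), neg_neg, kr, mul_comm]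
    gcongr
    calc (1 + ‖z‖) ^ v ≤ (1 + ‖z‖) ^ |v| :=
          Real.rpow_le_rpow_of_exponent_le (by linarith [norm_nonneg z]) (le_abs_self v)
      _ ≤ 2 ^ |v| := by gcongr; linarith
  · have h1 : Integrable (fun z : ℂ => (2 : ℝ) ^ (-u) * (1 + ‖z‖) ^ (-(-(u + v)))) :=
      (integrable_one_add_norm (by simp; linarith)).const_mul _
    refine Integrable.mono' h1.integrableOn hm.restrict ?_
    refine (ae_restrict_iff' measurableSet_ball.compl).mpr (Eventually.of_forall fun z hz => ?_)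
    rw [mem_compl_iff, mem_ball_zero_iff, not_lt] at hz
    have h0 : 0 < 1 + ‖z‖ := by positivity
    rw [Real.norm_of_nonneg (kr_nonneg _ _ _), neg_neg, kr, Real.rpow_add h0, ← mul_assoc]
    gcongr
    calc ‖z‖ ^ u ≤ ((1 + ‖z‖) / 2) ^ u :=
          Real.rpow_le_rpow_of_nonpos (by positivity) (by linarith) hu0
      _ = 2 ^ (-u) * (1 + ‖z‖) ^ u := by
          rw [Real.div_rpow h0.le (by norm_num), Real.rpow_neg (by norm_num)]; ring

/-- The kernel decreases in the modulus. -/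
lemma kr_anti {u v : ℝ} (hu : u ≤ 0) (hv : v ≤ 0) {z w : ℂ} (hz : z ≠ 0) (h : ‖z‖ ≤ ‖w‖) :
    kr u v w ≤ kr u v z := by
  have h0 : 0 < ‖z‖ := norm_pos_iff.mpr hz
  exact mul_le_mul (Real.rpow_le_rpow_of_nonpos h0 h hu)
    (Real.rpow_le_rpow_of_nonpos (by positivity) (by linarith) hv) (by positivity) (by positivity)

/-- Absorbing the diagonal factor. -/
lemma kr_diag {u v c : ℝ} (hu : u ≤ 0) (hv : v ≤ 0) (hc : c ≤ 0) {z w : ℂ} (hz : z ≠ 0)
    (hw : w ≠ 0) : kr u v z * ‖w‖ ^ c ≤ kr (u + c) v z + kr (u + c) v w := by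
  have e : ∀ {x : ℂ}, x ≠ 0 → kr (u + c) v x = kr u v x * ‖x‖ ^ c := fun {x} hx => by
    rw [kr, kr, Real.rpow_add (norm_pos_iff.mpr hx)]; ring
  rcases le_total ‖z‖ ‖w‖ with h | h
  · refine le_add_of_le_of_nonneg ?_ (kr_nonneg _ _ _)
    rw [e hz]
    exact mul_le_mul_of_nonneg_left (Real.rpow_le_rpow_of_nonpos (norm_pos_iff.mpr hz) h hc)
      (kr_nonneg _ _ _)
  · refine le_add_of_nonneg_of_le (kr_nonneg _ _ _) ?_
    rw [e hw]
    exact mul_le_mul_of_nonneg_right (kr_anti hu hv hw h) (by positivity)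

/-- The constant in the product bound. -/
noncomputable def kc (u δ D N : ℝ) : ℝ := (min (δ / 2) 1 / 2) ^ (3 * u) * (max D 1) ^ N

lemma kc_nonneg (u D N : ℝ) {δ : ℝ} (hδ : 0 < δ) : 0 ≤ kc u δ D N := by unfold kc; positivity

/-- A product of four powers is bounded by a sum of translates of one kernel. -/
lemma prod_le_kr {u δ D N : ℝ} (hu : u ≤ 0) (hδ : 0 < δ) {a : Fin 4 → ℂ}
    (h1 : ∀ i j, i ≠ j → δ ≤ ‖a i - a j‖) (h2 : ∀ i j, ‖a i - a j‖ ≤ D) {n : Fin 4 → ℝ}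
    (hn : ∀ i, 0 ≤ n i) (hN : ∑ i, n i ≤ N) {x : ℂ} (hx : ∀ i, x - a i ≠ 0) :
    ∏ i, ‖x - a i‖ ^ (u + n i) ≤ kc u δ D N * ∑ j, kr u (3 * u + N) (x - a j) := by
  obtain ⟨j, -, hj⟩ := Finset.exists_min_image Finset.univ (fun j => ‖x - a j‖) Finset.univ_nonempty
  set r := ‖x - a j‖ with hr
  have hr0 : 0 < r := norm_pos_iff.mpr (hx j)
  set c := min (δ / 2) 1 / 2 with hc
  set M := max D 1 with hM
  have hc0 : 0 < c := by positivity
  have hM1 : 1 ≤ M := le_max_right _ _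
  have lo : ∀ i, i ≠ j → c * (1 + r) ≤ ‖x - a i‖ := by
    intro i hi
    have e1 := hj i (Finset.mem_univ _)
    have e2 : ‖a i - a j‖ ≤ ‖x - a i‖ + r := by
      rw [show a i - a j = -(x - a i) + (x - a j) by ring]
      exact (norm_add_le _ _).trans (by rw [norm_neg])
    have e3 := h1 i j hi
    have e4 : min (δ / 2) 1 ≤ δ / 2 := min_le_left _ _
    have e5 : min (δ / 2) 1 * r ≤ 1 * r := by gcongr; exact min_le_right _ _
    rw [hc]; nlinarith
  have hi : ∀ i, ‖x - a i‖ ≤ M * (1 + r) := by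
    intro i
    have e2 : ‖x - a i‖ ≤ r + ‖a j - a i‖ := by
      rw [show x - a i = (x - a j) + (a j - a i) by ring]
      exact norm_add_le _ _
    have e3 := (h2 j i).trans (le_max_left D 1)
    nlinarith
  have p1 : ∏ i, ‖x - a i‖ ^ u ≤ r ^ u * (c * (1 + r)) ^ (3 * u) := by
    rw [← Finset.mul_prod_erase _ _ (Finset.mem_univ j)]
    gcongr
    calc ∏ i ∈ Finset.univ.erase j, ‖x - a i‖ ^ u
        ≤ ∏ _i ∈ Finset.univ.erase j, (c * (1 + r)) ^ u :=
          Finset.prod_le_prod (fun i _ => by positivity) fun i hi =>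
            Real.rpow_le_rpow_of_nonpos (by positivity) (lo i (Finset.ne_of_mem_erase hi)) hu
      _ = (c * (1 + r)) ^ (3 * u) := by
          rw [Finset.prod_const, Finset.card_erase_of_mem (Finset.mem_univ _), mul_comm 3 u,
            Real.rpow_mul (by positivity)]
          norm_num
  have hb : 1 ≤ M * (1 + r) := by nlinarith
  have p2 : ∏ i, ‖x - a i‖ ^ n i ≤ (M * (1 + r)) ^ N :=
    calc ∏ i, ‖x - a i‖ ^ n i ≤ ∏ i, (M * (1 + r)) ^ n i :=
          Finset.prod_le_prod (fun i _ => by positivity) fun i _ =>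
            Real.rpow_le_rpow (norm_nonneg _) (hi i) (hn i)
      _ = (M * (1 + r)) ^ ∑ i, n i := (Real.rpow_sum_of_pos (by positivity) _ _).symm
      _ ≤ (M * (1 + r)) ^ N := Real.rpow_le_rpow_of_exponent_le hb hN
  calc ∏ i, ‖x - a i‖ ^ (u + n i) = (∏ i, ‖x - a i‖ ^ u) * ∏ i, ‖x - a i‖ ^ n i := by
        rw [← Finset.prod_mul_distrib]
        exact Finset.prod_congr rfl fun i _ => Real.rpow_add (norm_pos_iff.mpr (hx i)) _ _
    _ ≤ (r ^ u * (c * (1 + r)) ^ (3 * u)) * (M * (1 + r)) ^ N :=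
        mul_le_mul p1 p2 (Finset.prod_nonneg fun i _ => by positivity) (by positivity)
    _ = kc u δ D N * kr u (3 * u + N) (x - a j) := by
        rw [kc, kr, ← hr, ← hc, ← hM, Real.mul_rpow hc0.le (by positivity),
          Real.mul_rpow (by positivity) (by positivity),
          Real.rpow_add (by positivity : 0 < 1 + r)]
        ring
    _ ≤ kc u δ D N * ∑ j, kr u (3 * u + N) (x - a j) :=
        mul_le_mul_of_nonneg_left (Finset.single_le_sum (f := fun j => kr u (3 * u + N) (x - a j))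
          (fun i _ => kr_nonneg _ _ _) (Finset.mem_univ j)) (kc_nonneg _ _ _ hδ)

/-- Almost every point of the plane misses a given real line. -/
lemma ae_line (a h : ℂ) : ∀ᵐ z : ℂ, ∀ t : ℝ, z - (a + t • h) ≠ 0 := by
  have h1 : (Submodule.span ℝ {h}) ≠ ⊤ := fun e => by
    have := finrank_span_le_card (R := ℝ) ({h} : Set ℂ)
    rw [e] at this
    simp at this
  have h2 := Measure.addHaar_submodule (volume : Measure ℂ) _ h1
  have h3 : ∀ᵐ z : ℂ, z ∉ Submodule.span ℝ {h} := measure_eq_zero_iff_ae_notMem.mp h2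
  filter_upwards [(measurePreserving_sub_right volume a).quasiMeasurePreserving.ae h3] with z hz t e
  exact hz (Submodule.mem_span_singleton.mpr ⟨t, by linear_combination -e⟩)

lemma ae_diag : ∀ᵐ z : ℂ × ℂ, z.1 - z.2 ≠ 0 := by
  have h1 : LinearMap.ker (LinearMap.fst ℝ ℂ ℂ - LinearMap.snd ℝ ℂ ℂ) ≠ ⊤ := fun e => by
    have : ((1, 0) : ℂ × ℂ) ∈ LinearMap.ker (LinearMap.fst ℝ ℂ ℂ - LinearMap.snd ℝ ℂ ℂ) :=
      e ▸ Submodule.mem_top
    simp at this
  have h2 := Measure.addHaar_submodule ((volume : Measure ℂ).prod (volume : Measure ℂ)) _ h1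
  filter_upwards [measure_eq_zero_iff_ae_notMem.mp h2] with z hz
  simpa using hz

/-- Regular points of the integrand. -/
def Rg (a : Fin 4 → ℂ) (z : ℂ × ℂ) : Prop :=
  (∀ i, z.1 - a i ≠ 0) ∧ (∀ i, z.2 - a i ≠ 0) ∧ z.1 - z.2 ≠ 0

lemma ae_rg_line (a h : Fin 4 → ℂ) : ∀ᵐ z : ℂ × ℂ, ∀ t : ℝ, Rg (a + t • h) z := by
  have h1 : ∀ᵐ z : ℂ, ∀ i, ∀ t : ℝ, z - (a i + t • h i) ≠ 0 :=
    ae_all_iff.mpr fun i => ae_line _ _
  filter_upwards [Measure.quasiMeasurePreserving_fst.ae h1, Measure.quasiMeasurePreserving_snd.ae h1,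
    ae_diag] with z e1 e2 e3 t
  exact ⟨fun i => e1 i t, fun i => e2 i t, e3⟩

lemma ae_rg (a : Fin 4 → ℂ) : ∀ᵐ z : ℂ × ℂ, Rg a z := by
  filter_upwards [ae_rg_line a 0] with z hz
  simpa using hz 0

/-- The majorant: a sum of products of translates. -/
noncomputable def maj (u v u' v' : ℝ) (a : Fin 4 → ℂ) (z : ℂ × ℂ) : ℝ :=
  ∑ j, ∑ k, (kr u v (z.1 - a j) * kr u' v' (z.2 - a k) + kr u v (z.1 - z.2) * kr u' v' (z.2 - a k))

lemma maj_nonneg (u v u' v' : ℝ) (a : Fin 4 → ℂ) (z : ℂ × ℂ) : 0 ≤ maj u v u' v' a z :=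
  Finset.sum_nonneg fun _ _ => Finset.sum_nonneg fun _ _ =>
    add_nonneg (mul_nonneg (kr_nonneg _ _ _) (kr_nonneg _ _ _))
      (mul_nonneg (kr_nonneg _ _ _) (kr_nonneg _ _ _))

lemma mp_shift (c d : ℂ) : MeasurePreserving (fun z : ℂ × ℂ => (z.1 - c, z.2 - d)) :=
  (measurePreserving_sub_right volume c).prod (measurePreserving_sub_right volume d)

lemma mp_shear (d : ℂ) : MeasurePreserving (fun z : ℂ × ℂ => (z.1 - z.2, z.2 - d)) := by
  have h1 := measurePreserving_prod_sub_swap (volume : Measure ℂ) (volume : Measure ℂ)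
  have h2 := (mp_shift d 0).comp h1
  have h3 := (Measure.measurePreserving_swap (μ := (volume : Measure ℂ))
    (ν := (volume : Measure ℂ))).comp h2
  have e : (fun z : ℂ × ℂ => (z.1 - z.2, z.2 - d)) =
      Prod.swap ∘ (fun z => (z.1 - d, z.2 - 0)) ∘ fun z => (z.2, z.1 - z.2) := by
    funext z
    simp
  rw [e]
  exact h3

section
variable {g h : ℂ → ℝ}

lemma int_comp {T : ℂ × ℂ → ℂ × ℂ} (hT : MeasurePreserving T) (hg : Integrable g)
    (hh : Integrable h) :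
    Integrable (fun z => g (T z).1 * h (T z).2) ∧
      ∫ z, g (T z).1 * h (T z).2 = (∫ z, g z) * ∫ z, h z := by
  have h1 : Integrable (fun z : ℂ × ℂ => g z.1 * h z.2) := hg.mul_prod hh
  refine ⟨(hT.integrable_comp h1.1).mpr h1, ?_⟩
  rw [← integral_prod_mul, ← Measure.volume_eq_prod]
  have h2 := integral_map (f := fun z : ℂ × ℂ => g z.1 * h z.2) hT.aemeasurable
    (by rw [hT.map_eq]; exact h1.1)
  rw [hT.map_eq] at h2
  exact h2.symm

end

lemma maj_int {u v u' v' : ℝ} (hg : Integrable (kr u v)) (hh : Integrable (kr u' v'))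
    (a : Fin 4 → ℂ) : Integrable (maj u v u' v' a) ∧
      ∫ z, maj u v u' v' a z = 32 * ((∫ z, kr u v z) * ∫ z, kr u' v' z) := by
  have h1 := fun j k => int_comp (mp_shift (a j) (a k)) hg hh
  have h2 := fun k => int_comp (mp_shear (a k)) hg hh
  have h3 : ∀ j k, Integrable fun z : ℂ × ℂ => kr u v (z.1 - a j) * kr u' v' (z.2 - a k) +
      kr u v (z.1 - z.2) * kr u' v' (z.2 - a k) := fun j k => (h1 j k).1.add (h2 k).1
  refine ⟨integrable_finsetSum _ fun j _ => integrable_finsetSum _ fun k _ => h3 j k, ?_⟩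
  unfold maj
  rw [integral_finsetSum _ fun j _ => integrable_finsetSum _ fun k _ => h3 j k]
  have h4 : ∀ j, ∫ z : ℂ × ℂ, ∑ k, (kr u v (z.1 - a j) * kr u' v' (z.2 - a k) +
      kr u v (z.1 - z.2) * kr u' v' (z.2 - a k)) = 8 * ((∫ z, kr u v z) * ∫ z, kr u' v' z) := by
    intro j
    rw [integral_finsetSum _ fun k _ => h3 j k]
    have h5 : ∀ k, ∫ z : ℂ × ℂ, (kr u v (z.1 - a j) * kr u' v' (z.2 - a k) +
        kr u v (z.1 - z.2) * kr u' v' (z.2 - a k)) = 2 * ((∫ z, kr u v z) * ∫ z, kr u' v' z) := by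
      intro k
      rw [integral_add (h1 j k).1 (h2 k).1, (h1 j k).2, (h2 k).2]; ring
    simp only [h5, Finset.sum_const, Finset.card_univ, Fintype.card_fin, nsmul_eq_mul]
    push_cast; ring
  simp only [h4, Finset.sum_const, Finset.card_univ, Fintype.card_fin, nsmul_eq_mul]
  push_cast; ring

lemma maj_cont (u v u' v' : ℝ) {a : Fin 4 → ℂ} {z : ℂ × ℂ} (hz : Rg a z) :
    ContinuousAt (fun a => maj u v u' v' a z) a := by
  have h1 : ∀ (u v : ℝ) (x : ℂ) (i : Fin 4), x - a i ≠ 0 →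
      ContinuousAt (fun a : Fin 4 → ℂ => kr u v (x - a i)) a := fun u v x i hx =>
    ContinuousAt.comp (f := fun a : Fin 4 → ℂ => x - a i) (kr_cont u v hx)
      (continuous_const.sub (continuous_apply i)).continuousAt
  unfold maj
  refine tendsto_finsetSum _ fun j _ => tendsto_finsetSum _ fun k _ => ?_
  exact ((h1 _ _ _ _ (hz.1 j)).mul (h1 _ _ _ _ (hz.2.1 k))).add
    (continuousAt_const.mul (h1 _ _ _ _ (hz.2.1 k)))

/-- The pointwise bound for the modulus of the integrand. -/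
lemma le_maj {u c δ D N N' : ℝ} (hu : u ≤ 0) (hc : c ≤ 0) (hN0 : 3 * u + N ≤ 0) (hδ : 0 < δ)
    {a : Fin 4 → ℂ} (h1 : ∀ i j, i ≠ j → δ ≤ ‖a i - a j‖) (h2 : ∀ i j, ‖a i - a j‖ ≤ D)
    {n n' : Fin 4 → ℝ} (hn : ∀ i, 0 ≤ n i) (hN : ∑ i, n i ≤ N) (hn' : ∀ i, 0 ≤ n' i)
    (hN' : ∑ i, n' i ≤ N') {z : ℂ × ℂ} (hz : Rg a z) :
    (∏ i, ‖z.1 - a i‖ ^ (u + n i)) * (∏ i, ‖z.2 - a i‖ ^ (u + n' i)) * ‖z.1 - z.2‖ ^ c ≤
      kc u δ D N * kc u δ D N' * maj (u + c) (3 * u + N) u (3 * u + N') a z := by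
  have p1 := prod_le_kr hu hδ h1 h2 hn hN hz.1
  have p2 := prod_le_kr hu hδ h1 h2 hn' hN' hz.2.1
  have c1 := kc_nonneg u D N hδ
  have c2 := kc_nonneg u D N' hδ
  have s1 : 0 ≤ ∑ j, kr u (3 * u + N) (z.1 - a j) := Finset.sum_nonneg fun _ _ => kr_nonneg _ _ _
  calc _ ≤ (kc u δ D N * ∑ j, kr u (3 * u + N) (z.1 - a j)) *
        (kc u δ D N' * ∑ j, kr u (3 * u + N') (z.2 - a j)) * ‖z.1 - z.2‖ ^ c :=
        mul_le_mul_of_nonneg_right (mul_le_mul p1 p2 (Finset.prod_nonneg fun i _ => by positivity)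
          (mul_nonneg c1 s1)) (by positivity)
    _ = kc u δ D N * kc u δ D N' * ∑ j, ∑ k, kr u (3 * u + N) (z.1 - a j) * ‖z.1 - z.2‖ ^ c *
          kr u (3 * u + N') (z.2 - a k) := by
        rw [← Finset.sum_mul_sum, ← Finset.sum_mul]; ring
    _ ≤ _ := by
        refine mul_le_mul_of_nonneg_left (Finset.sum_le_sum fun j _ => Finset.sum_le_sum
          fun k _ => ?_) (mul_nonneg c1 c2)
        rw [← add_mul]
        exact mul_le_mul_of_nonneg_right (kr_diag hu hN0 hc (hz.1 j) hz.2.2) (kr_nonneg _ _ _)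

end Pool.Agent.Lib.MP_0c623d_al.BP
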