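import Mathlib

set_option autoImplicit false

/-!
Differentiation under the integral sign when the singularities of the integrand move with the
parameter: Pratt's lemma, the fundamental theorem of calculus on segments, and Tonelli.
-/

namespace Pool.Agent.Lib.MP_0c623d_al.BP

open MeasureTheory Filter Topology Set

section
variable {Z : Type*} [MeasurableSpace Z] {μ : Measure Z}

/-- Pratt's lemma in `L¹` form: dominated convergence with moving majorants. -/
theorem pratt_l1 {ι G : Type*} [NormedAddCommGroup G] {l : Filter ι} [l.IsCountablyGenerated]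
    {f : ι → Z → G} {f0 : Z → G} {g : ι → Z → ℝ} {g0 : Z → ℝ}
    (hf : ∀ᶠ i in l, AEStronglyMeasurable (f i) μ) (hf0 : AEStronglyMeasurable f0 μ)
    (hg : ∀ᶠ i in l, Integrable (g i) μ) (hg0 : Integrable g0 μ)
    (hle : ∀ᶠ i in l, ∀ᵐ z ∂μ, ‖f i z‖ ≤ g i z) (hle0 : ∀ᵐ z ∂μ, ‖f0 z‖ ≤ g0 z)
    (hft : ∀ᵐ z ∂μ, Tendsto (fun i => f i z) l (𝓝 (f0 z)))
    (hgt : ∀ᵐ z ∂μ, Tendsto (fun i => g i z) l (𝓝 (g0 z)))
    (hI : Tendsto (fun i => ∫ z, g i z ∂μ) l (𝓝 (∫ z, g0 z ∂μ))) :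
    Tendsto (fun i => ∫ z, ‖f i z - f0 z‖ ∂μ) l (𝓝 0) := by
  set w : ι → Z → ℝ := fun i z => max (‖f i z - f0 z‖ - (g i z - g0 z)) 0 with hw
  have hwm : ∀ᶠ i in l, AEStronglyMeasurable (w i) μ := by
    filter_upwards [hf, hg] with i h1 h2
    exact ((h1.sub hf0).norm.sub (h2.1.sub hg0.1)).sup aestronglyMeasurable_const
  have hwb : ∀ᶠ i in l, ∀ᵐ z ∂μ, ‖w i z‖ ≤ 2 * g0 z := by
    filter_upwards [hle] with i h1
    filter_upwards [h1, hle0] with z h2 h3
    have h4 := norm_sub_le (f i z) (f0 z)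
    have h5 := norm_nonneg (f0 z)
    rw [Real.norm_eq_abs, abs_of_nonneg (le_max_right _ _)]
    exact max_le (by linarith) (by linarith)
  have hw0 : Tendsto (fun i => ∫ z, w i z ∂μ) l (𝓝 (∫ _z, (0 : ℝ) ∂μ)) := by
    refine tendsto_integral_filter_of_dominated_convergence (fun z => 2 * g0 z) hwm hwb
      (hg0.const_mul 2) ?_
    filter_upwards [hft, hgt] with z h1 h2
    have h3 : Tendsto (fun i => ‖f i z - f0 z‖ - (g i z - g0 z)) l
        (𝓝 (‖f0 z - f0 z‖ - (g0 z - g0 z))) :=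
      ((h1.sub_const _).norm).sub (h2.sub_const _)
    have h4 := h3.max (tendsto_const_nhds (x := (0 : ℝ)))
    simpa using h4
  rw [integral_zero] at hw0
  have hs : Tendsto (fun i => ∫ z, w i z ∂μ + (∫ z, g i z ∂μ - ∫ z, g0 z ∂μ)) l (𝓝 0) := by
    have := hw0.add (hI.sub_const (∫ z, g0 z ∂μ))
    simpa using this
  refine squeeze_zero' (Eventually.of_forall fun i => integral_nonneg fun z => norm_nonneg _) ?_ hs
  filter_upwards [hf, hg, hle, hwm, hwb] with i h1 h2 h3 h4 h5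
  have hwi : Integrable (w i) μ := (hg0.const_mul 2).mono' h4 h5
  rw [← integral_sub h2 hg0, ← integral_add (g := fun z => g i z - g0 z) hwi (h2.sub hg0)]
  refine integral_mono_of_nonneg (Eventually.of_forall fun z => norm_nonneg _)
    (hwi.add (h2.sub hg0)) (Eventually.of_forall fun z => ?_)
  have := le_max_left (‖f i z - f0 z‖ - (g i z - g0 z)) 0
  simp only [hw]
  linarith

/-- Pratt's lemma. -/
theorem pratt {ι G : Type*} [NormedAddCommGroup G] [NormedSpace ℝ G] {l : Filter ι}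
    [l.IsCountablyGenerated] {f : ι → Z → G} {f0 : Z → G} {g : ι → Z → ℝ} {g0 : Z → ℝ}
    (hf : ∀ᶠ i in l, AEStronglyMeasurable (f i) μ) (hf0 : AEStronglyMeasurable f0 μ)
    (hg : ∀ᶠ i in l, Integrable (g i) μ) (hg0 : Integrable g0 μ)
    (hle : ∀ᶠ i in l, ∀ᵐ z ∂μ, ‖f i z‖ ≤ g i z) (hle0 : ∀ᵐ z ∂μ, ‖f0 z‖ ≤ g0 z)
    (hft : ∀ᵐ z ∂μ, Tendsto (fun i => f i z) l (𝓝 (f0 z)))
    (hgt : ∀ᵐ z ∂μ, Tendsto (fun i => g i z) l (𝓝 (g0 z)))
    (hI : Tendsto (fun i => ∫ z, g i z ∂μ) l (𝓝 (∫ z, g0 z ∂μ))) :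
    Tendsto (fun i => ∫ z, f i z ∂μ) l (𝓝 (∫ z, f0 z ∂μ)) := by
  have h := pratt_l1 hf hf0 hg hg0 hle hle0 hft hgt hI
  rw [tendsto_iff_norm_sub_tendsto_zero]
  refine squeeze_zero' (Eventually.of_forall fun i => norm_nonneg _) ?_ h
  filter_upwards [hf, hg, hle] with i h1 h2 h3
  rw [← integral_sub (h2.mono' h1 h3) (hg0.mono' hf0 hle0)]
  exact norm_integral_le_integral_norm _

variable {E F : Type*} [NormedAddCommGroup E] [NormedSpace ℝ E] [NormedAddCommGroup F]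
  [NormedSpace ℝ F] [CompleteSpace F]

/-- First order Taylor bound along a segment on which the derivative is continuous. -/
lemma seg_bound {f : E → F} {f1 : E → E →L[ℝ] F} {a h : E}
    (hd : ∀ t ∈ Icc (0 : ℝ) 1, HasFDerivAt f (f1 (a + t • h)) (a + t • h))
    (hc : ∀ t ∈ Icc (0 : ℝ) 1, ContinuousAt f1 (a + t • h)) :
    ‖f (a + h) - f a - f1 a h‖ₑ ≤ ∫⁻ t in Ioc (0 : ℝ) 1, ‖f1 (a + t • h) - f1 a‖ₑ * ‖h‖ₑ := by
  have hl : ∀ t : ℝ, HasDerivAt (fun t : ℝ => a + t • h) h t := fun t => by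
    simpa using ((hasDerivAt_id t).smul_const h).const_add a
  have h1 : ∀ t ∈ uIcc (0 : ℝ) 1, HasDerivAt (fun t : ℝ => f (a + t • h) - t • f1 a h)
      ((f1 (a + t • h) - f1 a) h) t := by
    intro t ht
    rw [uIcc_of_le zero_le_one] at ht
    have := ((hd t ht).comp_hasDerivAt t (hl t)).fun_sub ((hasDerivAt_id t).smul_const (f1 a h))
    simpa [Function.comp_def] using this
  have h2 : ContinuousOn (fun t : ℝ => (f1 (a + t • h) - f1 a) h) (uIcc (0 : ℝ) 1) := by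
    intro t ht
    rw [uIcc_of_le zero_le_one] at ht
    have h3 : ContinuousAt (fun t : ℝ => f1 (a + t • h)) t :=
      ContinuousAt.comp (f := fun t : ℝ => a + t • h) (hc t ht) (hl t).continuousAt
    exact ((h3.sub continuousAt_const).clm_apply continuousAt_const).continuousWithinAt
  have h3 := intervalIntegral.integral_eq_sub_of_hasDerivAt h1 h2.intervalIntegrable
  have h4 : f (a + h) - f a - f1 a h = ∫ t in Ioc (0 : ℝ) 1, (f1 (a + t • h) - f1 a) h := by
    rw [← intervalIntegral.integral_of_le zero_le_one, h3]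
    simp only [one_smul, zero_smul, add_zero, sub_zero]
    abel
  rw [h4]
  refine (enorm_integral_le_lintegral_enorm _).trans (lintegral_mono fun t => ?_)
  exact ContinuousLinearMap.le_opENorm _ _

/-- Differentiation under the integral sign with moving singularities. `R a z` says that the
point `z` is regular for the parameter `a`. -/
theorem mov [SFinite μ] [MeasurableSpace E] [BorelSpace E] {U : Set E} (hU : IsOpen U)
    {f : E → Z → F} {f1 : E → Z → E →L[ℝ] F} {g : E → Z → ℝ} {R : E → Z → Prop}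
    (hd : ∀ a ∈ U, ∀ z, R a z → HasFDerivAt (fun a => f a z) (f1 a z) a)
    (hc : ∀ a ∈ U, ∀ z, R a z → ContinuousAt (fun a => f1 a z) a)
    (hgc : ∀ a ∈ U, ∀ z, R a z → ContinuousAt (fun a => g a z) a)
    (hseg : ∀ a h : E, ∀ᵐ z ∂μ, ∀ t ∈ Icc (0 : ℝ) 1, R (a + t • h) z)
    (hm : StronglyMeasurable (Function.uncurry f1))
    (hle : ∀ a ∈ U, ∀ z, R a z → ‖f1 a z‖ ≤ g a z)
    (hg : ∀ a ∈ U, Integrable (g a) μ) (hI : ContinuousOn (fun a => ∫ z, g a z ∂μ) U)
    (hf : ∀ a ∈ U, Integrable (f a) μ) :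
    (∀ a ∈ U, Integrable (f1 a) μ) ∧ ContinuousOn (fun a => ∫ z, f1 a z ∂μ) U ∧
      ∀ a ∈ U, HasFDerivAt (fun a => ∫ z, f a z ∂μ) (∫ z, f1 a z ∂μ) a := by
  have hR : ∀ a, ∀ᵐ z ∂μ, R a z := fun a => by
    filter_upwards [hseg a 0] with z hz
    simpa using hz 0 (by simp)
  have hm1 : ∀ a, AEStronglyMeasurable (f1 a) μ := fun a =>
    (hm.comp_measurable measurable_prodMk_left).aestronglyMeasurable
  have hle1 : ∀ a ∈ U, ∀ᵐ z ∂μ, ‖f1 a z‖ ≤ g a z := fun a ha => by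
    filter_upwards [hR a] with z hz using hle a ha z hz
  have hi1 : ∀ a ∈ U, Integrable (f1 a) μ := fun a ha => (hg a ha).mono' (hm1 a) (hle1 a ha)
  have hP : ∀ a ∈ U, Tendsto (fun b => ∫ z, ‖f1 b z - f1 a z‖ ∂μ) (𝓝 a) (𝓝 0) := by
    intro a ha
    have hn := hU.mem_nhds ha
    refine pratt_l1 (g := g) (g0 := g a) (Eventually.of_forall hm1) (hm1 a)
      (mem_of_superset hn hg) (hg a ha) (mem_of_superset hn hle1) (hle1 a ha) ?_ ?_
      (hI.continuousAt hn)
    · filter_upwards [hR a] with z hz using hc a ha z hz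
    · filter_upwards [hR a] with z hz using hgc a ha z hz
  refine ⟨hi1, fun a ha => ContinuousAt.continuousWithinAt ?_, fun a ha => ?_⟩
  · rw [ContinuousAt, tendsto_iff_norm_sub_tendsto_zero]
    refine squeeze_zero' (Eventually.of_forall fun i => norm_nonneg _) ?_ (hP a ha)
    filter_upwards [hU.mem_nhds ha] with b hb
    rw [← integral_sub (hi1 b hb) (hi1 a ha)]
    exact norm_integral_le_integral_norm _
  rw [hasFDerivAt_iff_isLittleO_nhds_zero, Asymptotics.isLittleO_iff]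
  intro ε hε
  have h1 : ∀ᶠ b in 𝓝 a, b ∈ U ∧ ∫ z, ‖f1 b z - f1 a z‖ ∂μ ≤ ε :=
    Filter.Eventually.and (hU.mem_nhds ha) ((hP a ha).eventually (Iic_mem_nhds hε))
  obtain ⟨r, hr, h2⟩ := Metric.eventually_nhds_iff_ball.mp h1
  filter_upwards [Metric.ball_mem_nhds (0 : E) hr] with h hh
  rw [mem_ball_zero_iff] at hh
  have h3 : ∀ t ∈ Icc (0 : ℝ) 1, a + t • h ∈ Metric.ball a r := by
    intro t ht
    rw [mem_ball_iff_norm, add_sub_cancel_left, norm_smul, Real.norm_of_nonneg ht.1]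
    nlinarith [norm_nonneg h, ht.1, ht.2]
  have hah : a + h ∈ U := by simpa using (h2 _ (h3 1 (by simp))).1
  rw [ContinuousLinearMap.integral_apply (hi1 a ha), ← integral_sub (hf _ hah) (hf a ha),
    ← integral_sub (f := fun z => f (a + h) z - f a z) ((hf _ hah).sub (hf a ha))
      ((hi1 a ha).apply_continuousLinearMap h)]
  have hmeas : AEMeasurable (Function.uncurry fun (z : Z) (t : ℝ) =>
      ‖f1 (a + t • h) z - f1 a z‖ₑ * ‖h‖ₑ) (μ.prod (volume.restrict (Ioc (0 : ℝ) 1))) := by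
    have e1 : Measurable fun p : Z × ℝ => (a + p.2 • h, p.1) :=
      (((continuous_const.add (continuous_id.smul continuous_const)).measurable).comp
        measurable_snd).prodMk measurable_fst
    have e2 : Measurable fun p : Z × ℝ => (a, p.1) := measurable_const.prodMk measurable_fst
    exact ((((hm.comp_measurable e1).sub (hm.comp_measurable e2)).enorm).mul_const _).aemeasurable
  have key : ‖∫ z, (f (a + h) z - f a z - f1 a z h) ∂μ‖ₑ ≤ ENNReal.ofReal ε * ‖h‖ₑ := by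
    calc ‖∫ z, (f (a + h) z - f a z - f1 a z h) ∂μ‖ₑ
        ≤ ∫⁻ z, ‖f (a + h) z - f a z - f1 a z h‖ₑ ∂μ := enorm_integral_le_lintegral_enorm _
      _ ≤ ∫⁻ z, (∫⁻ t in Ioc (0 : ℝ) 1, ‖f1 (a + t • h) z - f1 a z‖ₑ * ‖h‖ₑ) ∂μ := by
          refine lintegral_mono_ae ?_
          filter_upwards [hseg a h] with z hz
          exact seg_bound (f := fun a => f a z) (f1 := fun a => f1 a z)
            (fun t ht => hd _ (h2 _ (h3 t ht)).1 z (hz t ht))
            (fun t ht => hc _ (h2 _ (h3 t ht)).1 z (hz t ht))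
      _ = ∫⁻ t in Ioc (0 : ℝ) 1, ∫⁻ z, ‖f1 (a + t • h) z - f1 a z‖ₑ * ‖h‖ₑ ∂μ :=
          lintegral_lintegral_swap hmeas
      _ ≤ ∫⁻ _t in Ioc (0 : ℝ) 1, ENNReal.ofReal ε * ‖h‖ₑ := by
          refine setLIntegral_mono' measurableSet_Ioc fun t ht => ?_
          have h4 := h2 _ (h3 t (Ioc_subset_Icc_self ht))
          rw [lintegral_mul_const' _ _ (by simp), ← ofReal_integral_norm_eq_lintegral_enorm
            (f := fun z => f1 (a + t • h) z - f1 a z) ((hi1 _ h4.1).sub (hi1 a ha))]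
          gcongr
          exact h4.2
      _ = ENNReal.ofReal ε * ‖h‖ₑ := by simp
  rw [← ofReal_norm, ← ofReal_norm, ← ENNReal.ofReal_mul hε.le] at key
  exact (ENNReal.ofReal_le_ofReal_iff (by positivity)).mp key

end

end Pool.Agent.Lib.MP_0c623d_al.BP
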