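import Pool.Agent.Lib.MP_0c623d_al.BP.ADefs
import Pool.Agent.Lib.MP_0c623d_al.BP.Mov
import Pool.Agent.Lib.MP_0c623d_al.BP.Ker

set_option autoImplicit false

/-!
Convergence of the integrals `In` and differentiation in the moving points.
-/

namespace Pool.Agent.Lib.MP_0c623d_al.BP

open Complex MeasureTheory Filter Topology Set
open scoped ComplexConjugate

lemma norm_E1 (s : ℝ) (p q : ℤ) {z : ℂ} (hz : z ≠ 0) :
    ‖E s p q z‖ = ‖z‖ ^ (2 * s + ((p + q : ℤ) : ℝ)) := by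
  have h0 : 0 < ‖z‖ := norm_pos_iff.mpr hz
  rw [E, norm_mul, norm_mul, norm_zpow, norm_zpow, norm_conj, norm_real,
    Real.norm_of_nonneg (by positivity), Real.rpow_add h0, Real.rpow_intCast, zpow_add₀ h0.ne',
    mul_assoc]

lemma E_meas (s : ℝ) (p q : ℤ) : Measurable (E s p q) := by
  unfold E
  exact ((measurable_ofReal.comp (measurable_norm.pow_const _)).mul (measurable_id.pow_const _)).mul
    (continuous_conj.measurable.pow_const _)

lemma E_lo1 (s : ℝ) (p q : ℤ) {z : ℂ} (hz : z ≠ 0) : E s (p - 1) q z = E s p q z / z := by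
  rw [E, E, zpow_sub_one₀ hz]; ring

lemma E_lo2 (s : ℝ) (p q : ℤ) {z : ℂ} (hz : z ≠ 0) : E s p (q - 1) z = E s p q z / conj z := by
  have : conj z ≠ 0 := (map_ne_zero _).mpr hz
  rw [E, E, zpow_sub_one₀ this]; ring

/-- The logarithmic derivative of the kernel. -/
noncomputable def lgE (s : ℝ) (p q : ℤ) (z : ℂ) : ℂ →L[ℝ] ℂ :=
  ((s + p) / z : ℂ) • ContinuousLinearMap.id ℝ ℂ + ((s + q) / conj z : ℂ) • (conjCLE : ℂ →L[ℝ] ℂ)

lemma E_deriv (s : ℝ) (p q : ℤ) {z : ℂ} (hz : z ≠ 0) :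
    HasFDerivAt (E s p q) (E s p q z • lgE s p q z) z := by
  have h0 : 0 < ‖z‖ := norm_pos_iff.mpr hz
  have hc : conj z ≠ 0 := (map_ne_zero _).mpr hz
  have h1 := ((hasFDerivAt_id z).norm_sq).rpow_const (p := s) (Or.inl (by simpa using hz))
  have h2 := ofRealCLM.hasFDerivAt.comp z h1
  have h3 : HasFDerivAt (fun w : ℂ => w ^ p) _ z :=
    (hasDerivAt_zpow p z (Or.inl hz)).hasFDerivAt.restrictScalars ℝ
  have h4 := ((hasDerivAt_zpow q (conj z) (Or.inl hc)).hasFDerivAt.restrictScalars ℝ).comp z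
    (conjCLE : ℂ →L[ℝ] ℂ).hasFDerivAt
  have h5 := (h2.mul h3).mul h4
  have e : ∀ w : ℂ, ‖w‖ ^ (2 * s) = (‖w‖ ^ 2) ^ s := fun w => by
    rw [Real.rpow_mul (norm_nonneg _), Real.rpow_two]
  have e2 : ((‖z‖ ^ 2 : ℝ) : ℂ) = z * conj z := by rw [mul_conj, normSq_eq_norm_sq]
  have e3 : (((‖z‖ ^ 2) ^ (s - 1) : ℝ) : ℂ) = ((‖z‖ ^ 2) ^ s : ℝ) / (z * conj z) := by
    rw [Real.rpow_sub_one (by positivity), ofReal_div, e2]
  refine (h5.congr_fderiv ?_).congr_of_eventuallyEq (Eventually.of_forall fun w => ?_)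
  swap
  · simp [E, e]
  · refine ContinuousLinearMap.ext fun w => ?_
    have e4 : ((2 * (w * conj z).re : ℝ) : ℂ) = w * conj z + conj w * z := by
      rw [← add_conj]; simp
    simp only [lgE, E, e, _root_.add_apply, _root_.smul_apply,
      ContinuousLinearMap.comp_apply, Function.comp_apply, ContinuousLinearMap.id_apply, id,
      ContinuousLinearEquiv.coe_coe, conjCLE_apply, ofRealCLM_apply, smul_eq_mul, Pi.mul_apply,
      ContinuousLinearMap.coe_restrictScalars', ContinuousLinearMap.toSpanSingleton_apply,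
      innerSL_apply_apply, Complex.inner, nsmul_eq_mul, Nat.cast_ofNat, ofReal_mul, e3,
      zpow_sub_one₀ hz, zpow_sub_one₀ hc]
    rw [← ofReal_mul 2, e4]
    field_simp
    ring

lemma prod_logd {X : Type*} [NormedAddCommGroup X] [NormedSpace ℝ X] {ι : Type*} (S : Finset ι)
    {f : ι → X → ℂ} {L : ι → X →L[ℝ] ℂ} {x : X} (h : ∀ i, HasFDerivAt (f i) (f i x • L i) x) :
    HasFDerivAt (fun y => ∏ i ∈ S, f i y) ((∏ i ∈ S, f i x) • ∑ i ∈ S, L i) x := by
  classical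
  induction S using Finset.induction_on with
  | empty => simpa using hasFDerivAt_const (1 : ℂ) x
  | insert i S hi ih =>
    simp only [Finset.prod_insert hi, Finset.sum_insert hi]
    refine ((h i).fun_mul ih).congr_fderiv (ContinuousLinearMap.ext fun w => ?_)
    simp only [_root_.add_apply, _root_.smul_apply, smul_eq_mul]
    ring

lemma prodE_lo1 (s : ℝ) (p q : Fin 4 → ℤ) (b : Cf) (x : ℂ) (i : Fin 4) (hx : x - b i ≠ 0) :
    ∏ j, E s ((p - Pi.single i 1 : Fin 4 → ℤ) j) (q j) (x - b j) =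
      (∏ j, E s (p j) (q j) (x - b j)) / (x - b i) := by
  rw [← Finset.mul_prod_erase _ _ (Finset.mem_univ i),
    ← Finset.mul_prod_erase _ (fun j => E s (p j) (q j) (x - b j)) (Finset.mem_univ i),
    Finset.prod_congr rfl (g := fun j => E s (p j) (q j) (x - b j)) fun j hj => by
      simp [Pi.single_eq_of_ne (Finset.ne_of_mem_erase hj)]]
  simp only [Pi.sub_apply, Pi.single_eq_same]
  rw [E_lo1 _ _ _ hx]; ring

lemma prodE_lo2 (s : ℝ) (p q : Fin 4 → ℤ) (b : Cf) (x : ℂ) (i : Fin 4) (hx : x - b i ≠ 0) :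
    ∏ j, E s (p j) ((q - Pi.single i 1 : Fin 4 → ℤ) j) (x - b j) =
      (∏ j, E s (p j) (q j) (x - b j)) / conj (x - b i) := by
  rw [← Finset.mul_prod_erase _ _ (Finset.mem_univ i),
    ← Finset.mul_prod_erase _ (fun j => E s (p j) (q j) (x - b j)) (Finset.mem_univ i),
    Finset.prod_congr rfl (g := fun j => E s (p j) (q j) (x - b j)) fun j hj => by
      simp [Pi.single_eq_of_ne (Finset.ne_of_mem_erase hj)]]
  simp only [Pi.sub_apply, Pi.single_eq_same]
  rw [E_lo2 _ _ _ hx]; ring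

lemma Ig_meas (e : ℝ) (p q r t : Fin 4 → ℤ) :
    Measurable fun w : Cf × (ℂ × ℂ) => Ig e p q r t w.1 w.2 := by
  unfold Ig
  refine Measurable.mul (Measurable.mul (Finset.measurable_prod _ fun i _ => ?_)
    (Finset.measurable_prod _ fun i _ => ?_)) ?_
  · exact (E_meas _ _ _).comp (by fun_prop)
  · exact (E_meas _ _ _).comp (by fun_prop)
  · fun_prop

/-- The majorant of the dual integrands. -/
noncomputable def mj (e : ℝ) (a : Cf) (z : ℂ × ℂ) : ℝ :=
  maj (2 * (-1 / 2 - e) + 2 * (-1 / 2 + 3 * e)) (3 * (2 * (-1 / 2 - e)) + 3) (2 * (-1 / 2 - e))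
    (3 * (2 * (-1 / 2 - e)) + 2) a z

lemma mj_int {e : ℝ} (h0 : 0 < e) (h1 : e < 1 / 12) : ∃ C : ℝ, ∀ a : Cf,
    Integrable (mj e a) ∧ ∫ z, mj e a z = C :=
  ⟨_, fun a => maj_int (kr_int (by linarith) (by linarith) (by linarith))
    (kr_int (by linarith) (by linarith) (by linarith)) a⟩

lemma Ig_le {e : ℝ} (h0 : 0 < e) (h1 : e < 1 / 12) {δ D : ℝ} (hδ : 0 < δ) : ∃ C : ℝ, 0 ≤ C ∧
    ∀ p q r t : Fin 4 → ℤ, Ok p q r t → ∀ a : Cf, (∀ i j, i ≠ j → δ ≤ ‖a i - a j‖) →
      (∀ i j, ‖a i - a j‖ ≤ D) → ∀ z, Rg a z → ‖Ig e p q r t a z‖ ≤ C * mj e a z := by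
  refine ⟨kc (2 * (-1 / 2 - e)) δ D 3 * kc (2 * (-1 / 2 - e)) δ D 2,
    mul_nonneg (kc_nonneg _ _ _ hδ) (kc_nonneg _ _ _ hδ), fun p q r t ho a ha hD z hz => ?_⟩
  have h := le_maj (u := 2 * (-1 / 2 - e)) (c := 2 * (-1 / 2 + 3 * e)) (N := 3) (N' := 2)
    (by linarith) (by linarith) (by linarith) hδ ha hD (n := fun i => ((p i + q i : ℤ) : ℝ))
    (n' := fun i => ((r i + t i : ℤ) : ℝ)) (fun i => by exact_mod_cast ho.1 i)
    (by exact_mod_cast ho.2.2.1) (fun i => by exact_mod_cast ho.2.1 i)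
    (by exact_mod_cast ho.2.2.2) hz
  refine le_of_eq_of_le ?_ h
  rw [Ig, norm_mul, norm_mul, norm_prod, norm_prod, norm_real, Real.norm_of_nonneg (by positivity)]
  congr 2
  · exact Finset.prod_congr rfl fun i _ => norm_E1 _ _ _ (hz.1 i)
  · exact Finset.prod_congr rfl fun i _ => norm_E1 _ _ _ (hz.2.1 i)

/-- Uniform separation near an injective configuration. -/
lemma exists_sep {a : Cf} (ha : Function.Injective a) : ∃ δ D : ℝ, 0 < δ ∧ ∀ w : Cf, ‖w‖ < δ →
    (∀ i j, i ≠ j → δ ≤ ‖(a + w) i - (a + w) j‖) ∧ ∀ i j, ‖(a + w) i - (a + w) j‖ ≤ D := by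
  obtain ⟨m, hm, hmin⟩ := Finset.exists_min_image (Finset.univ : Finset (Fin 4)).offDiag
    (fun m => ‖a m.1 - a m.2‖) ⟨(0, 1), by decide⟩
  have h0 : 0 < ‖a m.1 - a m.2‖ :=
    norm_pos_iff.mpr (sub_ne_zero.mpr (ha.ne (Finset.mem_offDiag.mp hm).2.2))
  refine ⟨‖a m.1 - a m.2‖ / 3, 2 * (‖a‖ + ‖a m.1 - a m.2‖ / 3), by positivity,
    fun w hw => ⟨fun i j hij => ?_, fun i j => ?_⟩⟩
  · have e1 := hmin (i, j) (by simp [hij])
    have e2 : ‖a i - a j‖ ≤ ‖(a + w) i - (a + w) j‖ + (‖w i‖ + ‖w j‖) := by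
      rw [show a i - a j = ((a + w) i - (a + w) j) - (w i - w j) by simp; ring]
      exact (norm_sub_le _ _).trans (by gcongr; exact norm_sub_le _ _)
    have e3 := norm_le_pi_norm w i
    have e4 := norm_le_pi_norm w j
    simp only at e1
    linarith
  · have e1 := norm_sub_le ((a + w) i) ((a + w) j)
    have e2 := norm_le_pi_norm (a + w) i
    have e3 := norm_le_pi_norm (a + w) j
    have e4 := norm_add_le a w
    linarith

theorem intSt : IntSt := by
  intro e h0 h1 p q r t ho a ha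
  obtain ⟨δ, D, hδ, hs⟩ := exists_sep ha
  have hs0 := hs 0 (by simpa using hδ)
  rw [add_zero] at hs0
  obtain ⟨C, -, hC⟩ := Ig_le h0 h1 (D := D) hδ
  obtain ⟨K, hK⟩ := mj_int h0 h1
  refine ((hK a).1.const_mul C).mono'
    ((Ig_meas e p q r t).comp measurable_prodMk_left).aestronglyMeasurable ?_
  filter_upwards [ae_rg a] with z hz using hC p q r t ho a hs0.1 hs0.2 z hz

/-- The map that moves only the points in `D`. -/
noncomputable def mv (D : Finset (Fin 4)) : Cf →L[ℝ] Cf :=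
  ContinuousLinearMap.pi fun i => if i ∈ D then ContinuousLinearMap.proj i else 0

lemma mv_apply (D : Finset (Fin 4)) (v : Cf) : mv D v = fun i => if i ∈ D then v i else 0 := by
  funext i
  simp only [mv, ContinuousLinearMap.pi_apply]
  split_ifs <;> simp

/-- The derivative of the integrand. -/
noncomputable def dIg (e : ℝ) (p q r t : Fin 4 → ℤ) (D : Finset (Fin 4)) (b : Cf) (z : ℂ × ℂ) :
    Cf →L[ℝ] ℂ :=
  -∑ i ∈ D, (((-1 / 2 - e + p i) * Ig e (p - Pi.single i 1) q r t b z +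
      (-1 / 2 - e + r i) * Ig e p q (r - Pi.single i 1) t b z : ℂ) •
        (ContinuousLinearMap.proj i : Cf →L[ℝ] ℂ) +
    ((-1 / 2 - e + q i) * Ig e p (q - Pi.single i 1) r t b z +
      (-1 / 2 - e + t i) * Ig e p q r (t - Pi.single i 1) b z : ℂ) •
        (conjCLE : ℂ →L[ℝ] ℂ).comp (ContinuousLinearMap.proj i : Cf →L[ℝ] ℂ))

lemma dIg_apply (e : ℝ) (p q r t : Fin 4 → ℤ) (D : Finset (Fin 4)) (b : Cf) (z : ℂ × ℂ) (v : Cf) :
    dIg e p q r t D b z v =
      -∑ i ∈ D, (v i * ((-1 / 2 - e + p i) * Ig e (p - Pi.single i 1) q r t b z +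
        (-1 / 2 - e + r i) * Ig e p q (r - Pi.single i 1) t b z) +
      conj (v i) * ((-1 / 2 - e + q i) * Ig e p (q - Pi.single i 1) r t b z +
        (-1 / 2 - e + t i) * Ig e p q r (t - Pi.single i 1) b z)) := by
  simp only [dIg, _root_.neg_apply, _root_.sum_apply,
    _root_.add_apply, _root_.smul_apply, ContinuousLinearMap.comp_apply,
    ContinuousLinearMap.proj_apply, ContinuousLinearEquiv.coe_coe, conjCLE_apply, smul_eq_mul]
  congr 1
  exact Finset.sum_congr rfl fun i _ => by ring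

lemma Ig_deriv (e : ℝ) (p q r t : Fin 4 → ℤ) {b : Cf} {z : ℂ × ℂ} (hz : Rg b z) :
    HasFDerivAt (fun b => Ig e p q r t b z) (dIg e p q r t Finset.univ b z) b := by
  have h1 : ∀ (p q : ℤ) (x : ℂ) (i : Fin 4), x - b i ≠ 0 →
      HasFDerivAt (fun b : Cf => E (-1 / 2 - e) p q (x - b i)) (E (-1 / 2 - e) p q (x - b i) •
        (lgE (-1 / 2 - e) p q (x - b i)).comp (-(ContinuousLinearMap.proj i : Cf →L[ℝ] ℂ))) b :=
    fun p q x i hx => HasFDerivAt.comp (g := E (-1 / 2 - e) p q) (f := fun b : Cf => x - b i) b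
      (E_deriv _ p q hx) ((ContinuousLinearMap.proj i : Cf →L[ℝ] ℂ).hasFDerivAt.const_sub x)
  have h2 := ((prod_logd Finset.univ fun i => h1 (p i) (q i) z.1 i (hz.1 i)).mul
    (prod_logd Finset.univ fun i => h1 (r i) (t i) z.2 i (hz.2.1 i))).mul_const
      ((‖z.1 - z.2‖ ^ (2 * (-1 / 2 + 3 * e)) : ℝ) : ℂ)
  refine h2.congr_fderiv (ContinuousLinearMap.ext fun v => Eq.symm ?_)
  rw [dIg_apply]
  simp only [Ig, lgE, _root_.add_apply, _root_.smul_apply,
    _root_.sum_apply, ContinuousLinearMap.comp_apply, _root_.neg_apply,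
    ContinuousLinearMap.proj_apply, ContinuousLinearMap.id_apply, ContinuousLinearEquiv.coe_coe,
    conjCLE_apply, smul_eq_mul, Finset.mul_sum, ← Finset.sum_add_distrib, ← Finset.sum_neg_distrib,
    mul_add]
  refine Finset.sum_congr rfl fun i _ => ?_
  rw [prodE_lo1 _ _ _ _ _ _ (hz.1 i), prodE_lo1 _ _ _ _ _ _ (hz.2.1 i),
    prodE_lo2 _ _ _ _ _ _ (hz.1 i), prodE_lo2 _ _ _ _ _ _ (hz.2.1 i), map_neg]
  push_cast
  ring

lemma dIg_mv (e : ℝ) (p q r t : Fin 4 → ℤ) (D : Finset (Fin 4)) (b : Cf) (z : ℂ × ℂ) :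
    (dIg e p q r t Finset.univ b z).comp (mv D) = dIg e p q r t D b z := by
  refine ContinuousLinearMap.ext fun v => ?_
  rw [ContinuousLinearMap.comp_apply, dIg_apply, dIg_apply, mv_apply]
  congr 1
  rw [← Finset.sum_subset (Finset.subset_univ D) fun i _ hi => by simp [hi]]
  exact Finset.sum_congr rfl fun i hi => by simp [hi]

lemma Ok.sw1 {p q r t : Fin 4 → ℤ} {i : Fin 4} (h : Ok (p - Pi.single i 1) q r t) :
    Ok p (q - Pi.single i 1) r t := by
  have e : ∀ j, p j + (q - Pi.single i 1 : Fin 4 → ℤ) j =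
      (p - Pi.single i 1 : Fin 4 → ℤ) j + q j := fun j => by simp only [Pi.sub_apply]; ring
  simpa only [Ok, e] using h

lemma Ok.sw2 {p q r t : Fin 4 → ℤ} {i : Fin 4} (h : Ok p q (r - Pi.single i 1) t) :
    Ok p q r (t - Pi.single i 1) := by
  have e : ∀ j, r j + (t - Pi.single i 1 : Fin 4 → ℤ) j =
      (r - Pi.single i 1 : Fin 4 → ℤ) j + t j := fun j => by simp only [Pi.sub_apply]; ring
  simpa only [Ok, e] using h

lemma dIg_cont {X : Type*} [TopologicalSpace X] {e : ℝ} (p q r t : Fin 4 → ℤ) (D : Finset (Fin 4))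
    {b : X → Cf} {z : ℂ × ℂ} {v : X}
    (h : ∀ p q r t : Fin 4 → ℤ, ContinuousAt (fun v => Ig e p q r t (b v) z) v) :
    ContinuousAt (fun v => dIg e p q r t D (b v) z) v := by
  have k : ∀ (c d : ℂ) (L : Cf →L[ℝ] ℂ) {x y : X → ℂ}, ContinuousAt x v → ContinuousAt y v →
      ContinuousAt (fun v => (c * x v + d * y v) • L) v := fun c d L x y hx hy =>
    ((continuousAt_const.mul hx).add (continuousAt_const.mul hy)).smul continuousAt_const
  exact Tendsto.neg (tendsto_finsetSum _ fun i _ =>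
    Tendsto.add (k _ _ _ (h _ _ _ _) (h _ _ _ _)) (k _ _ _ (h _ _ _ _) (h _ _ _ _)))

lemma dIg_meas {X : Type*} [MeasurableSpace X] {e : ℝ} (p q r t : Fin 4 → ℤ) (D : Finset (Fin 4))
    {b : X → Cf} {z : X → ℂ × ℂ}
    (h : ∀ p q r t : Fin 4 → ℤ, Measurable fun w => Ig e p q r t (b w) (z w)) :
    StronglyMeasurable fun w => dIg e p q r t D (b w) (z w) := by
  have k : ∀ (c d : ℂ) (L : Cf →L[ℝ] ℂ) {x y : X → ℂ}, Measurable x → Measurable y →
      StronglyMeasurable (fun w => (c * x w + d * y w) • L) := fun c d L x y hx hy =>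
    ((hx.const_mul c).add (hy.const_mul d)).stronglyMeasurable.smul_const L
  exact StronglyMeasurable.fun_neg (Finset.stronglyMeasurable_fun_sum _ fun i _ =>
    (k _ _ _ (h _ _ _ _) (h _ _ _ _)).fun_add (k _ _ _ (h _ _ _ _) (h _ _ _ _)))

theorem derSt : DerSt := by
  intro e h0 h1 p q r t D ho hl a ha
  obtain ⟨δ, Dm, hδ, hs⟩ := exists_sep ha
  obtain ⟨C, hC0, hC⟩ := Ig_le h0 h1 (D := Dm) hδ
  obtain ⟨K, hK⟩ := mj_int h0 h1
  have hmv : ∀ v ∈ Metric.ball (0 : Cf) δ, ‖mv D v‖ < δ := by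
    intro v hv
    rw [mem_ball_zero_iff] at hv
    rw [pi_norm_lt_iff hδ]
    intro i
    rw [mv_apply]
    dsimp only
    split_ifs
    · exact (norm_le_pi_norm v i).trans_lt hv
    · simpa using hδ
  have hinj : ∀ v ∈ Metric.ball (0 : Cf) δ, Function.Injective (a + mv D v) := by
    intro v hv i j hij
    by_contra hne
    have := (hs _ (hmv v hv)).1 i j hne
    rw [hij, sub_self, norm_zero] at this
    linarith
  have hb : ∀ v, HasFDerivAt (fun v => a + mv D v) (mv D) v := fun v =>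
    (mv D).hasFDerivAt.const_add a
  have hdI : ∀ (p q r t : Fin 4 → ℤ) v z, Rg (a + mv D v) z →
      HasFDerivAt (fun v => Ig e p q r t (a + mv D v) z) (dIg e p q r t D (a + mv D v) z) v :=
    fun p q r t v z hz => (HasFDerivAt.comp (g := fun b => Ig e p q r t b z)
      (f := fun v => a + mv D v) v (Ig_deriv e p q r t hz) (hb v)).congr_fderiv
        (dIg_mv e p q r t D _ z)
  have hcI : ∀ (p q r t : Fin 4 → ℤ) v z, Rg (a + mv D v) z →
      ContinuousAt (fun v => Ig e p q r t (a + mv D v) z) v := fun p q r t v z hz =>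
    (hdI p q r t v z hz).continuousAt
  have hmI : ∀ p q r t : Fin 4 → ℤ,
      Measurable fun w : Cf × (ℂ × ℂ) => Ig e p q r t (a + mv D w.1) w.2 := fun p q r t =>
    Measurable.comp (g := fun w : Cf × (ℂ × ℂ) => Ig e p q r t w.1 w.2)
      (f := fun w : Cf × (ℂ × ℂ) => (a + mv D w.1, w.2)) (Ig_meas e p q r t)
      (((continuous_const.add (mv D).continuous).measurable.comp measurable_fst).prodMk
        measurable_snd)
  obtain ⟨B, hB⟩ : ∃ B : ℝ, B = ∑ i ∈ D, (‖(-1 / 2 - e + p i : ℂ)‖ + ‖(-1 / 2 - e + r i : ℂ)‖ +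
    (‖(-1 / 2 - e + q i : ℂ)‖ + ‖(-1 / 2 - e + t i : ℂ)‖)) := ⟨_, rfl⟩
  have c1 : ∀ v z, Rg (a + mv D v) z →
      ContinuousAt (fun v => dIg e p q r t D (a + mv D v) z) v := fun v z hz =>
    dIg_cont p q r t D (b := fun v => a + mv D v) fun p q r t => hcI p q r t v z hz
  have c2 : ∀ v z, Rg (a + mv D v) z →
      ContinuousAt (fun v => B * (C * mj e (a + mv D v) z)) v := fun v z hz =>
    continuousAt_const.mul (continuousAt_const.mul
      (ContinuousAt.comp (g := fun b => mj e b z) (f := fun v => a + mv D v)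
        (maj_cont _ _ _ _ hz) (hb v).continuousAt))
  have c3 : ∀ v h : Cf, ∀ᵐ z : ℂ × ℂ, ∀ s ∈ Icc (0 : ℝ) 1, Rg (a + mv D (v + s • h)) z := by
    intro v h
    filter_upwards [ae_rg_line (a + mv D v) (mv D h)] with z hz s _
    rw [map_add, map_smul, ← add_assoc]
    exact hz s
  have c4 : StronglyMeasurable
      (Function.uncurry fun (v : Cf) (z : ℂ × ℂ) => dIg e p q r t D (a + mv D v) z) :=
    dIg_meas p q r t D (b := fun w : Cf × (ℂ × ℂ) => a + mv D w.1) (z := fun w => w.2) hmI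
  have c5 : ∀ v ∈ Metric.ball (0 : Cf) δ, ∀ z, Rg (a + mv D v) z →
      ‖dIg e p q r t D (a + mv D v) z‖ ≤ B * (C * mj e (a + mv D v) z) := by
    intro v hv z hz
    have hs1 := hs _ (hmv v hv)
    have hX : 0 ≤ C * mj e (a + mv D v) z := mul_nonneg hC0 (maj_nonneg _ _ _ _ _ _)
    have hC1 := fun p q r t ho => hC p q r t ho _ hs1.1 hs1.2 z hz
    generalize C * mj e (a + mv D v) z = X at hX hC1
    refine ContinuousLinearMap.opNorm_le_bound _ (mul_nonneg (hB ▸ Finset.sum_nonneg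
      fun i _ => by positivity) hX) fun w => ?_
    rw [dIg_apply, norm_neg, hB, Finset.sum_mul, Finset.sum_mul]
    refine (norm_sum_le _ _).trans (Finset.sum_le_sum fun i hi => ?_)
    have bw := norm_le_pi_norm w i
    have k : ∀ (u c d x y : ℂ), ‖u‖ ≤ ‖w‖ → ‖x‖ ≤ X → ‖y‖ ≤ X →
        ‖u * (c * x + d * y)‖ ≤ (‖c‖ + ‖d‖) * X * ‖w‖ := by
      intro u c d x y hu hx hy
      rw [norm_mul, mul_comm, add_mul]
      gcongr
      refine (norm_add_le _ _).trans ?_
      rw [norm_mul, norm_mul]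
      gcongr
    refine (norm_add_le _ _).trans ?_
    exact (add_le_add (k _ _ _ _ _ bw (hC1 _ _ _ _ (hl i hi).1) (hC1 _ _ _ _ (hl i hi).2))
      (k _ _ _ _ _ (by rwa [norm_conj]) (hC1 _ _ _ _ (hl i hi).1.sw1)
        (hC1 _ _ _ _ (hl i hi).2.sw2))).trans_eq (by ring)
  have c6 : ContinuousOn (fun v => ∫ z, B * (C * mj e (a + mv D v) z)) (Metric.ball (0 : Cf) δ) := by
    simp only [integral_const_mul, fun a => (hK a).2]
    exact continuousOn_const
  obtain ⟨m1, -, m3⟩ := mov (μ := (volume : Measure (ℂ × ℂ))) (U := Metric.ball (0 : Cf) δ)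
    Metric.isOpen_ball (f := fun v z => Ig e p q r t (a + mv D v) z)
    (f1 := fun v z => dIg e p q r t D (a + mv D v) z)
    (g := fun v z => B * (C * mj e (a + mv D v) z)) (R := fun v z => Rg (a + mv D v) z)
    (fun v _ z hz => hdI p q r t v z hz) (fun v _ z hz => c1 v z hz) (fun v _ z hz => c2 v z hz)
    c3 c4 c5 (fun v _ => ((hK _).1.const_mul C).const_mul B) c6
    (fun v hv => intSt e h0 h1 p q r t ho _ (hinj v hv))
  have hz : (0 : Cf) ∈ Metric.ball (0 : Cf) δ := Metric.mem_ball_self hδ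
  refine ⟨_, fun v => ?_, by simp only [← mv_apply]; exact m3 0 hz⟩
  rw [ContinuousLinearMap.integral_apply (m1 0 hz)]
  simp only [map_zero, add_zero, dIg_apply, dIn, In]
  have I := fun p q r t ho => intSt e h0 h1 p q r t ho a ha
  have J : ∀ (u c d : ℂ) {x y : ℂ × ℂ → ℂ}, Integrable x → Integrable y →
      Integrable (fun z => u * (c * x z + d * y z)) ∧
        ∫ z, u * (c * x z + d * y z) = u * (c * (∫ z, x z) + d * ∫ z, y z) := by
    intro u c d x y hx hy
    refine ⟨((hx.const_mul c).add (hy.const_mul d)).const_mul u, ?_⟩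
    rw [integral_const_mul, integral_add (hx.const_mul c) (hy.const_mul d), integral_const_mul,
      integral_const_mul]
  have J1 := fun i hi => J (v i) (-1 / 2 - e + p i) (-1 / 2 - e + r i) (I _ _ _ _ (hl i hi).1)
    (I _ _ _ _ (hl i hi).2)
  have J2 := fun i hi => J (conj (v i)) (-1 / 2 - e + q i) (-1 / 2 - e + t i)
    (I _ _ _ _ (hl i hi).1.sw1) (I _ _ _ _ (hl i hi).2.sw2)
  rw [integral_neg]
  congr 1
  refine (integral_finsetSum D fun i hi => (J1 i hi).1.add (J2 i hi).1).trans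
    (Finset.sum_congr rfl fun i hi => ?_)
  simp only [Pi.add_apply]
  rw [integral_add (J1 i hi).1 (J2 i hi).1, (J1 i hi).2, (J2 i hi).2]

end Pool.Agent.Lib.MP_0c623d_al.BP
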