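import Pool.Agent.Lib.MP_0c623d_al.BP.Conn
import Pool.Agent.Lib.MP_0c623d_al.F.Defs
import Pool.Agent.Lib.MP_0c623d_al.E.Defs

set_option autoImplicit false

/-!
The interfaces between the analytic blocks: the frame on the slit domain, the single-valued Gram
matrix, charts, the two statements at a triple point, the signs.
-/

namespace Pool.Agent.Lib.MP_0c623d_al.BP

open Complex Matrix Filter Topology Set Function
open Pool.Agent.BP.F (V Mat E3 hh Om Ch NoTriple cfg Adm pw Sect Spacelike QQ AN sw)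

noncomputable section

/-- `1 / m` for `m = 2 k` -/
def ee (k : ℕ) : ℝ := 1 / (2 * k)

/-- the degree of the period map -/
def dl (e : ℝ) : ℝ := -3 / 2 + 5 * e

/-- the coefficients of the derivative of the period map, up to the factor `dl e` -/
def th (a v : Cf) : V := fun n => (a (fst n) - a (snd n)) * (v (fst n) - v (snd n))

/-- `Y` solves the system at `a` -/
def Sol (e : ℝ) (Y : Cf → Mat) (a : Cf) : Prop :=
  ∃ L : Cf →L[ℂ] Mat, (∀ v, L v = conn e a v * Y a) ∧ HasFDerivAt Y L a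

/-- the convex set on which the `p`-th wall is crossed -/
def WallSet (p : Fin 3) : Set Cf := {b | (b p.castSucc).im < (b p.succ).im ∧
  ∀ i j : Fin 4, i < j → ¬ (i = p.castSucc ∧ j = p.succ) → (b i).re < (b j).re}

/-- a fundamental solution on the slit domain with its wall matrices -/
structure FR (e : ℝ) where
  Y : Cf → Mat
  C : Fin 3 → Mat
  unit : ∀ a ∈ Om, IsUnit (Y a)
  sol : ∀ a ∈ Om, Sol e Y a
  wall : ∀ p, ∀ b ∈ WallSet p, Y b = (Y (b ∘ sw p)).submatrix (pp (sw p)) id * C p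

variable {e : ℝ}

/-- the period map -/
def FR.W (f : FR e) (a : Cf) : V := cw a ᵥ* f.Y a

/-- the wall matrices acting on the values of the period map -/
def FR.R (f : FR e) (p : Fin 3) : Mat := (f.C p)ᵀ

/-- the dual fundamental solution -/
def FR.Y1 (f : FR e) (a : Cf) : Mat := (f.Y a)⁻¹ᵀ

/-- the dual periods -/
def FR.y (f : FR e) (a : Cf) (l : Fin 3 → ℂ) : V := Srow a l ᵥ* f.Y1 a

/-- irreducibility of the monodromy and of its dual -/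
def FR.Irr (f : FR e) : Prop :=
  (∀ S : Submodule ℂ V, (∀ p, ∀ v ∈ S, f.R p *ᵥ v ∈ S) → S = ⊥ ∨ S = ⊤) ∧
    ∀ S : Submodule ℂ V, (∀ p, ∀ v ∈ S, f.C p *ᵥ v ∈ S) → S = ⊥ ∨ S = ⊤

/-- the invariant form and the single-valued Gram matrix of the frame -/
structure GR (f : FR e) where
  Hm : Mat
  Gam : Cf → Mat
  herm : Hm.IsHermitian
  unitH : IsUnit Hm
  uni : ∀ p, (f.R p)ᴴ * Hm * f.R p = Hm
  loc : ∀ a ∈ Om, Gam a = (f.Y a)ᵀᴴ * Hm * (f.Y a)ᵀ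
  perm : ∀ a : Cf, Injective a → ∀ σ : Equiv.Perm (Fin 4),
    Gam (a ∘ σ) = (Gam a).submatrix (pp σ) (pp σ)
  der : ∀ a : Cf, Injective a → ∃ L : Cf →L[ℝ] Mat,
    (∀ v, L v = (conn e a v)ᵀᴴ * Gam a + Gam a * (conn e a v)ᵀ) ∧ HasFDerivAt Gam L a
  aff : ∀ a : Cf, Injective a → ∀ c d : ℂ, c ≠ 0 →
    Gam (fun i => c * a i + d) = ((‖c‖ ^ (2 * (dl e - 2)) : ℝ) : ℂ) • Gam a
  cong : ∀ a : Cf, Injective a → ∃ P : Mat, IsUnit P ∧ Gam a = Pᴴ * Hm * P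
  pos : ∀ a : Cf, Injective a → ∀ l,
    hh (Gam a)⁻¹ (star (Srow a l)) (star (Srow a l)) = (G e a l : ℂ)

variable {f : FR e}

/-- the square norm of the period map -/
def GR.phi (g : GR f) (a : Cf) : ℝ := (hh (g.Gam a) (cw a) (cw a)).re

/-- a chart function centred at `d0`, before the signs are known -/
def PreChart (k : ℕ) (g : GR f) (d0 : E3) (Gc : E3 → V) : Prop :=
  AnalyticAt ℂ Gc d0 ∧ (∀ᶠ ζ in 𝓝 d0, Sect k d0 ζ → Gc ζ = f.W (cfg (pw k d0 ζ))) ∧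
    (∀ᶠ ζ in 𝓝 d0, Injective (cfg (pw k d0 ζ)) →
      (hh g.Hm (Gc ζ) (Gc ζ)).re = g.phi (cfg (pw k d0 ζ))) ∧
    Injective (fderiv ℂ Gc d0) ∧ (∃ v, fderiv ℂ Gc d0 v = Gc d0) ∧
    ∃ U : Submodule ℂ V, Module.finrank ℂ U = 3 ∧ (∀ u ∈ U, u ≠ 0 → 0 < (hh g.Hm u u).re) ∧
      ∀ u ∈ U, ∀ v, hh g.Hm u (fderiv ℂ Gc d0 v) = 0

/-- every admissible centre has a chart function -/
def GR.Charts (k : ℕ) (g : GR f) : Prop := ∀ d0, Adm d0 → ∃ Gc, PreChart k g d0 Gc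

/-- a plane on which the form is not positive -/
def GR.Neg (g : GR f) : Prop :=
  ∃ I : Submodule ℂ V, 2 ≤ Module.finrank ℂ I ∧ ∀ x ∈ I, (hh g.Hm x x).re ≤ 0

/-- growth of the square norm at a triple point -/
def GR.Small (g : GR f) : Prop :=
  ∀ ε : ℝ, 0 < ε → ∃ η : ℝ, 0 < η ∧ ∀ a : Cf, Injective a →
    ‖a 0 - a 1‖ + ‖a 1 - a 2‖ ≤ η * ‖a 3 - a 0‖ →
      |g.phi a| * (‖a 0 - a 1‖ + ‖a 1 - a 2‖) ≤ ε * ‖a 3 - a 0‖ ^ (2 * dl e + 1)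

/-- the signs at configurations of distinct points -/
def GR.Sgn0 (g : GR f) : Prop :=
  ∀ a : Cf, Injective a → 0 < g.phi a ∧ ∀ v, th a v ≠ 0 → hh (g.Gam a) (cw a) (th a v) = 0 →
    (hh (g.Gam a) (th a v) (th a v)).re < 0

/-- the signs at the centres of charts -/
def GR.Sgn (k : ℕ) (g : GR f) : Prop :=
  ∀ d0 Gc, Adm d0 → PreChart k g d0 Gc → Spacelike g.Hm (Gc d0) (fderiv ℂ Gc d0)

/-- an exhaustion function with bounded gradient -/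
def GR.Cusp (g : GR f) : Prop :=
  ∃ (ψ : Cf → ℝ) (C R0 : ℝ), (∀ b, NoTriple b → ContDiffAt ℝ 1 ψ b) ∧
    (∀ (b : Cf) (π : Equiv.Perm (Fin 4)), ψ (b ∘ π) = ψ b) ∧
    (∀ (b : Cf) (c : ℂ), ψ (fun i => b i + c) = ψ b) ∧
    (∀ R : ℝ, ∃ η : ℝ, 0 < η ∧ ∀ b, NoTriple b → ψ b ≤ R →
      ∀ i j l : Fin 4, i ≠ j → j ≠ l → i ≠ l → ∀ i' j' : Fin 4,
        η * ‖b i' - b j'‖ ≤ ‖b i - b j‖ + ‖b j - b l‖) ∧
    ∀ b : Cf, Injective b → R0 < ψ b → ∀ v : Cf,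
      (fderiv ℝ ψ b v) ^ 2 * g.phi b ^ 2 ≤ C * QQ (g.Gam b) (cw b) (th b v)

/-! The statements of the blocks. -/

/-- block W, existence -/
def FrSt : Prop := ∀ e : ℝ, Nonempty (FR e)

/-- block W, the period map -/
def WSt : Prop := ∀ e : ℝ, 0 < e → e < 1 / 12 → ∀ f : FR e, AnalyticOnNhd ℂ f.W Om ∧
  (∀ b ∈ Om, ∀ c : ℂ, f.W (fun i => b i + c) = f.W b) ∧
  (∀ b ∈ Om, ∀ v, fderiv ℂ f.W b v = (dl e : ℂ) • (th b v ᵥ* f.Y b)) ∧
  (∀ p, ∀ b ∈ WallSet p, f.W b = f.R p *ᵥ f.W (b ∘ sw p)) ∧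
  Submodule.span ℂ (f.W '' Om) = ⊤

/-- block Mono -/
def MonoSt : Prop := ∀ k : ℕ, Odd k → 61 ≤ k → ∀ f : FR (ee k), f.Irr

/-- block A, positivity -/
def PosSt : Prop := ∀ e : ℝ, 0 < e → e < 1 / 12 → ∀ a : Cf, Injective a → ∀ l, l ≠ 0 → 0 < G e a l

/-- block A, the constant form -/
def HermSt : Prop := ∀ e : ℝ, 0 < e → e < 1 / 12 → ∀ f : FR e,
  Submodule.span ℂ ((fun a => f.y a ![1, 0, 0]) '' Om) = ⊤ → ∃ H1 : Mat, H1.IsHermitian ∧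
    (∀ a ∈ Om, Jc e 0 a = f.Y1 a *ᵥ (H1 *ᵥ star (f.y a ![1, 0, 0]))) ∧
    ∀ a ∈ Om, ∀ l, f.y a l ⬝ᵥ H1 *ᵥ star (f.y a l) = (G e a l : ℂ)

/-- block Gram -/
def GramSt : Prop := HermSt → PosSt → ∀ e : ℝ, 0 < e → e < 1 / 12 → ∀ f : FR e, f.Irr →
  Nonempty (GR f)

/-- block B -/
def ChartSt : Prop := ∀ k : ℕ, Odd k → 61 ≤ k → ∀ (f : FR (ee k)) (g : GR f), g.Charts k

/-- block E, first part -/
def E1St : Prop := ∀ k : ℕ, Odd k → 61 ≤ k → ∀ (f : FR (ee k)) (g : GR f), g.Neg ∧ g.Small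

/-- block Signs -/
def SgnSt : Prop := ∀ k : ℕ, Odd k → 61 ≤ k → ∀ (f : FR (ee k)) (g : GR f),
  g.Charts k → g.Neg → g.Small → g.Sgn k ∧ g.Sgn0

/-- block E, second part -/
def E2St : Prop := ∀ k : ℕ, Odd k → 61 ≤ k → ∀ (f : FR (ee k)) (g : GR f), g.Sgn0 → g.Cusp

/-- the determinant of the Gram matrix of the first derivatives -/
def DetSt : Prop := ∀ e : ℝ, 0 < e → e < 1 / 12 → ∀ (f : FR e) (g : GR f), ∃ c : ℝ, 0 < c ∧
  ∀ a : Cf, Injective a →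
    ‖(Matrix.of fun r s : Fin 3 =>
        hh (g.Gam a) (th a (Pi.single r.castSucc 1)) (th a (Pi.single s.castSucc 1))).det‖ =
      c * (∏ n, ‖a (fst n) - a (snd n)‖ ^ (2 * (dl e + 1))) *
        ‖(Matrix.of fun r s : Fin 3 => hh (g.Gam a)⁻¹ (star (Srow a (Pi.single r 1)))
          (star (Srow a (Pi.single s 1)))).det‖

end

end Pool.Agent.Lib.MP_0c623d_al.BP
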