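import Pool.Agent.Lib.MP_0c623d_al.BP.W
import Pool.Agent.Lib.MP_0c623d_al.BP.Sk

set_option autoImplicit false

/-!
The statements `FrSt` and `WSt`.
-/

namespace Pool.Agent.Lib.MP_0c623d_al.BP

open Matrix Set
open Pool.Agent.BP.F (Om b0 sw)

variable {e : ℝ}

theorem FR.wsol (f : FR e) : W.Sol e Om f.Y := fun a ha => ⟨f.unit a ha, f.sol a ha⟩

theorem FR.wsol1 (f : FR e) : W.Sol1 e Om f.Y1 := f.wsol.dual

theorem frSt : FrSt := fun e =>
  ⟨⟨W.Yf e, W.Cw e, fun a ha => (W.Yf_sol e a ha).1, fun a ha => (W.Yf_sol e a ha).2,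
    fun p b hb => W.Yf_wall e p b hb⟩⟩

theorem FR.C_unit (f : FR e) (p : Fin 3) : IsUnit (f.C p) := by
  have h2 := f.unit _ (W.wall_om p (W.wall_ne p))
  rw [f.wall p _ (W.wall_ne p)] at h2
  exact isUnit_of_mul_isUnit_right h2

theorem FR.wall1 (f : FR e) (p : Fin 3) : ∀ b ∈ WallSet p,
    f.Y1 b = (f.Y1 (b ∘ sw p)).submatrix (pp (sw p)) id * ((f.C p)⁻¹)ᵀ := by
  intro b hb
  rw [FR.Y1, FR.Y1, f.wall p b hb, Matrix.mul_inv_rev, transpose_mul]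
  congr 1
  exact congrArg transpose (inv_submatrix_equiv _ (W.ppe (sw p)) (Equiv.refl _))

theorem FR.W_fderiv (f : FR e) {b : Cf} (hb : b ∈ Om) (v : Cf) :
    fderiv ℂ f.W b v = (dl e : ℂ) • (th b v ᵥ* f.Y b) := by
  obtain ⟨L, hL, hd⟩ := f.wsol.period hb (W.om_inj b hb)
  have h : fderiv ℂ f.W b = L := hd.fderiv
  rw [h, hL, W.dg_eq]; rfl

theorem FR.W_an (f : FR e) : AnalyticOnNhd ℂ f.W Om :=
  Pool.Agent.Lib.MP_caab05_ag.GB.osg _ _ _ _ W.om_open fun b hb => by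
    obtain ⟨L, -, hd⟩ := f.wsol.period hb (W.om_inj b hb)
    exact hd.differentiableAt.differentiableWithinAt

theorem FR.W_transl (f : FR e) : ∀ b ∈ Om, ∀ c : ℂ, f.W (fun i => b i + c) = f.W b := by
  intro b hb c
  rw [FR.W, FR.W, f.wsol.transl hb c]
  congr 1
  ext n; simp [cw]

theorem FR.W_euler (f : FR e) : ∀ b ∈ Om, fderiv ℂ f.W b b = (dl e : ℂ) • f.W b := by
  intro b hb
  rw [f.W_fderiv hb, FR.W, W.cw_eq]; rfl

theorem FR.W_wall (f : FR e) (p : Fin 3) : ∀ b ∈ WallSet p, f.W b = f.R p *ᵥ f.W (b ∘ sw p) := by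
  intro b hb
  rw [FR.R, mulVec_transpose, FR.W, FR.W, f.wall p b hb, ← vecMul_vecMul]
  congr 1
  have := W.row_perm (sw p) (cw b) (f.Y (b ∘ sw p))
  rw [W.sw_inv] at this
  rw [this]
  congr 1
  ext n; rw [W.cw_perm]

theorem FR.W_span (f : FR e) (he : e < 1 / 12) : Submodule.span ℂ (f.W '' Om) = ⊤ := by
  by_contra hne
  obtain ⟨g, hg, hle⟩ := Submodule.exists_le_ker_of_lt_top _ (lt_top_iff_ne_top.2 hne)
  have := f.wsol.form_zero he W.om_open W.om_inj W.b0_mem (LinearMap.toContinuousLinearMap g)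
    fun b hb => hle (Submodule.subset_span ⟨b, hb, rfl⟩)
  exact hg (LinearMap.toContinuousLinearMap.map_eq_zero_iff.1 this)

theorem wSt : WSt := fun _ _ he f =>
  ⟨f.W_an, f.W_transl, fun _ hb v => f.W_fderiv hb v, f.W_wall, f.W_span he⟩

end Pool.Agent.Lib.MP_0c623d_al.BP
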