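import Mathlib

set_option autoImplicit false

/-!
Flat frames of a holomorphic flat connection on a convex open set.
-/

namespace Pool.Agent.Lib.MP_0c623d_al.BP

open Set Filter Topology intervalIntegral MeasureTheory
open scoped Interval

section ode

variable {A : Type*} [NormedRing A] [NormedAlgebra ℝ A] [CompleteSpace A]

/-- The Picard iterates of a linear equation. -/
noncomputable def pic (w : ℝ → A) : ℕ → ℝ → A
  | 0 => fun _ => 1
  | n + 1 => fun s => ∫ r in (0 : ℝ)..s, w r * pic w n r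

omit [CompleteSpace A] in
theorem pic_cont {w : ℝ → A} (hw : Continuous w) : ∀ n, Continuous (pic w n)
  | 0 => continuous_const
  | n + 1 => continuous_primitive
      (fun a b => (hw.mul (pic_cont hw n)).intervalIntegrable a b) 0

theorem pic_deriv {w : ℝ → A} (hw : Continuous w) (n : ℕ) (s : ℝ) :
    HasDerivAt (pic w (n + 1)) (w s * pic w n s) s :=
  ((hw.mul (pic_cont hw n)).integral_hasStrictDerivAt 0 s).hasDerivAt

omit [CompleteSpace A] in
theorem pic_le {w : ℝ → A} (hw : Continuous w) {K : ℝ} (hK : ∀ s, ‖w s‖ ≤ K) :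
    ∀ n s, ‖pic w n s‖ ≤ ‖(1 : A)‖ * (K ^ n / n.factorial) * |s| ^ n
  | 0, s => by simp [pic]
  | n + 1, s => by
    have K0 : 0 ≤ K := (norm_nonneg _).trans (hK 0)
    have h1 : ‖pic w (n + 1) s‖ ≤
        ∫ r in Ι 0 s, (K * (‖(1 : A)‖ * (K ^ n / n.factorial))) * |r - 0| ^ n := by
      refine norm_integral_le_integral_norm_uIoc.trans ?_
      refine setIntegral_mono_on ?_ ?_ measurableSet_uIoc fun r _ => ?_
      · exact intervalIntegrable_iff.1 ((hw.mul (pic_cont hw n)).norm.intervalIntegrable 0 s)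
      · exact intervalIntegrable_iff.1 (Continuous.intervalIntegrable (by fun_prop) 0 s)
      · rw [sub_zero, mul_assoc]
        exact (norm_mul_le _ _).trans
          (mul_le_mul (hK r) (pic_le hw hK n r) (norm_nonneg _) K0)
    rw [MeasureTheory.integral_const_mul, integral_pow_abs_sub_uIoc, sub_zero] at h1
    refine h1.trans (le_of_eq ?_)
    rw [Nat.factorial_succ]
    push_cast
    field_simp
    ring

/-- A linear equation with bounded continuous coefficient has a solution. -/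
theorem lin_ode {w : ℝ → A} (hw : Continuous w) {K : ℝ} (hK : ∀ s, ‖w s‖ ≤ K) :
    ∃ y : ℝ → A, y 0 = 1 ∧ ∀ s ∈ Ioo (-2 : ℝ) 2, HasDerivAt y (w s * y s) s := by
  have K0 : 0 ≤ K := (norm_nonneg _).trans (hK 0)
  have hb : ∀ n, ∀ s ∈ Ioo (-2 : ℝ) 2,
      ‖pic w n s‖ ≤ ‖(1 : A)‖ * ((2 * K) ^ n / n.factorial) := by
    intro n s hs
    refine (pic_le hw hK n s).trans ?_
    have : |s| ^ n ≤ 2 ^ n := pow_le_pow_left₀ (abs_nonneg _) (abs_le.2 ⟨hs.1.le, hs.2.le⟩) n
    calc _ ≤ ‖(1 : A)‖ * (K ^ n / n.factorial) * 2 ^ n := by gcongr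
      _ = _ := by rw [mul_pow]; ring
  have hsum : Summable fun n : ℕ => ‖(1 : A)‖ * ((2 * K) ^ n / n.factorial) :=
    (Real.summable_pow_div_factorial _).mul_left _
  have hs : ∀ s ∈ Ioo (-2 : ℝ) 2, Summable fun n => pic w n s := fun s hs =>
    .of_norm_bounded hsum fun n => hb n s hs
  have h0 : ∀ n, pic w (n + 1) 0 = 0 := fun n => by simp [pic]
  refine ⟨fun s => 1 + ∑' n, pic w (n + 1) s, by simp [h0], fun s hs' => ?_⟩
  have h := hasDerivAt_tsum_of_isPreconnected (g := fun n => pic w (n + 1))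
    (g' := fun n s => w s * pic w n s) (hsum.mul_left K) isOpen_Ioo isPreconnected_Ioo
    (fun n s _ => pic_deriv hw n s)
    (fun n s hs => (norm_mul_le _ _).trans (mul_le_mul (hK s) (hb n s hs) (norm_nonneg _) K0))
    (y₀ := 0) (by constructor <;> norm_num) (by simp [h0]) hs'
  rw [(hs s hs').tsum_mul_left, (hs s hs').tsum_eq_zero_add] at h
  exact h.const_add 1

/-- The same on the unit interval, for a coefficient continuous there. -/
theorem lin_ode' {w : ℝ → A} (hw : ContinuousOn w (Icc 0 1)) :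
    ∃ y : ℝ → A, y 0 = 1 ∧ ∀ s ∈ Icc (0 : ℝ) 1, HasDerivAt y (w s * y s) s := by
  obtain ⟨K, hK⟩ := isCompact_Icc.exists_bound_of_continuousOn hw
  obtain ⟨y, h0, hy⟩ := lin_ode (w := fun s => w (projIcc (0 : ℝ) 1 zero_le_one s))
    (hw.comp_continuous (continuous_subtype_val.comp continuous_projIcc) fun s => Subtype.prop _)
    fun s => hK _ (Subtype.prop _)
  refine ⟨y, h0, fun s hs => ?_⟩
  have := hy s ⟨by linarith [hs.1], by linarith [hs.2]⟩
  rwa [projIcc_of_mem _ hs] at this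

theorem gron {F : Type*} [NormedAddCommGroup F] [NormedSpace ℝ F] {f f' : ℝ → F} {d K e : ℝ}
    (hK : 0 ≤ K) (hd : 0 ≤ d) (he : 0 ≤ e) (hf : ∀ s ∈ Icc (0 : ℝ) 1, HasDerivAt f (f' s) s)
    (h0 : ‖f 0‖ ≤ d) (hb : ∀ s ∈ Icc (0 : ℝ) 1, ‖f' s‖ ≤ K * ‖f s‖ + e) :
    ∀ s ∈ Icc (0 : ℝ) 1, ‖f s‖ ≤ (d + e) * Real.exp K := by
  intro s hs
  have h := norm_le_gronwallBound_of_norm_deriv_right_le (f := f) (f' := f') (δ := d) (K := K)
    (ε := e) (a := 0) (b := 1) (fun s hs => (hf s hs).continuousAt.continuousWithinAt)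
    (fun s hs => (hf s ⟨hs.1, hs.2.le⟩).hasDerivWithinAt) h0
    (fun s hs => hb s ⟨hs.1, hs.2.le⟩) s hs
  refine h.trans ((gronwallBound_mono hd he hK (show s - 0 ≤ 1 by linarith [hs.2])).trans ?_)
  rcases hK.eq_or_lt with rfl | hK
  · simp [gronwallBound_K0]
  · rw [gronwallBound_of_K_ne_0 hK.ne']
    simp only [mul_one]
    have h1 : Real.exp K - 1 ≤ K * Real.exp K := by
      have h2 := Real.add_one_le_exp (-K)
      have h3 : Real.exp (-K) * Real.exp K = 1 := by rw [← Real.exp_add]; simp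
      nlinarith [Real.exp_pos K]
    have : e / K * (Real.exp K - 1) ≤ e * Real.exp K := by
      calc _ ≤ e / K * (K * Real.exp K) := by gcongr
        _ = _ := by field_simp
    linarith

/-- A solution that starts at the identity is invertible. -/
theorem lin_inv {w y : ℝ → A} (hw : ContinuousOn w (Icc 0 1)) (h0 : y 0 = 1)
    (hy : ∀ s ∈ Icc (0 : ℝ) 1, HasDerivAt y (w s * y s) s) : IsUnit (y 1) := by
  obtain ⟨z, z0, hz⟩ := lin_ode' (A := Aᵐᵒᵖ) (w := fun s => MulOpposite.op (-w s))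
    (MulOpposite.continuous_op.comp_continuousOn hw.neg)
  have hz' : ∀ s ∈ Icc (0 : ℝ) 1,
      HasDerivAt (fun s => (z s).unop) ((z s).unop * -w s) s := fun s hs =>
    ((MulOpposite.opLinearIsometryEquiv ℝ A).symm.toContinuousLinearEquiv.toContinuousLinearMap
      |>.hasFDerivAt).comp_hasDerivAt s (hz s hs)
  obtain ⟨K, hK⟩ := isCompact_Icc.exists_bound_of_continuousOn hw
  have K0 : 0 ≤ K := (norm_nonneg _).trans (hK 0 (by simp))
  have h1 := gron (f := fun s => (z s).unop * y s - 1) (f' := fun _ => 0) (K := 0) le_rfl le_rfl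
    le_rfl (fun s hs => (((hz' s hs).mul (hy s hs)).sub_const 1).congr_deriv
      (by noncomm_ring)) (by simp [z0, h0]) (by simp) 1 (by simp)
  have h2 := gron (f := fun s => y s * (z s).unop - 1)
    (f' := fun s => w s * (y s * (z s).unop - 1) - (y s * (z s).unop - 1) * w s) (K := K + K)
    (by positivity) le_rfl le_rfl (fun s hs => (((hy s hs).mul (hz' s hs)).sub_const 1).congr_deriv
      (by noncomm_ring)) (by simp [z0, h0]) (fun s hs => by
      refine (norm_sub_le _ _).trans ?_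
      rw [add_zero, add_mul]
      refine add_le_add ((norm_mul_le _ _).trans ?_) ((norm_mul_le _ _).trans ?_)
      · gcongr
        exact hK s hs
      · rw [mul_comm]
        gcongr
        exact hK s hs) 1 (by simp)
  simp only [add_zero, zero_mul, norm_le_zero_iff, sub_eq_zero] at h1 h2
  exact ⟨⟨y 1, (z 1).unop, h2, h1⟩, rfl⟩

end ode

section flat

variable {E A : Type*} [NormedAddCommGroup E] [NormedSpace ℝ E] [NormedSpace ℂ E]
  [IsScalarTower ℝ ℂ E] [NormedRing A] [NormedAlgebra ℂ A]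

omit [IsScalarTower ℝ ℂ E] in
theorem unif {F : Type*} [NormedAddCommGroup F] [NormedSpace ℂ F] {U S : Set E} (hU : IsOpen U)
    (hS : IsCompact S) (hSU : S ⊆ U) {f : E → F} {f' : E → E →L[ℂ] F}
    (hf : ∀ x ∈ U, HasFDerivAt f (f' x) x) (hc : ContinuousOn f' U) {e : ℝ} (he : 0 < e) :
    ∃ d > 0, ∀ p ∈ S, ∀ h : E, ‖h‖ < d → ‖f (p + h) - f p - f' p h‖ ≤ e * ‖h‖ := by
  obtain ⟨d1, h1, H1⟩ := hS.exists_thickening_subset_open hU hSU
  have h2 := hS.uniformContinuousAt_of_continuousAt f'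
    (fun a ha => hc.continuousAt (hU.mem_nhds (hSU ha))) (Metric.dist_mem_uniformity he)
  obtain ⟨d2, h2, H2⟩ := Metric.mem_uniformity_dist.1 h2
  refine ⟨min d1 d2, lt_min h1 h2, fun p hp h hh => ?_⟩
  have := (convex_ball p (min d1 d2)).norm_image_sub_le_of_norm_hasFDerivWithin_le' (𝕜 := ℂ)
    (f := f) (f' := f') (φ := f' p) (C := e) (x := p) (y := p + h)
    (fun x hx => (hf x (H1 (Metric.mem_thickening_iff.2
      ⟨p, hp, lt_of_lt_of_le hx (min_le_left _ _)⟩))).hasFDerivWithinAt)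
    (fun x hx => by
      have := H2 (a := p) (b := x) (by
        rw [dist_comm]; exact lt_of_lt_of_le hx (min_le_right _ _)) hp
      rw [← dist_eq_norm, dist_comm]
      exact le_of_lt this)
    (Metric.mem_ball_self (lt_min h1 h2)) (mem_ball_iff_norm.2 (by rwa [add_sub_cancel_left]))
  simpa using this

/-- The non-abelian Poincare lemma. -/
theorem flat_frame [CompleteSpace A] {U : Set E} (hU : IsOpen U) {x0 : E} (h0 : x0 ∈ U)
    (hc : StarConvex ℝ x0 U) {Om : E → E →L[ℂ] A} {Om' : E → E →L[ℂ] E →L[ℂ] A}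
    (hd : ∀ x ∈ U, HasFDerivAt Om (Om' x) x) (hc' : ContinuousOn Om' U)
    (flat : ∀ x ∈ U, ∀ u v, Om' x u v - Om' x v u = Om x u * Om x v - Om x v * Om x u) :
    ∃ Y : E → A, Y x0 = 1 ∧ ∀ x ∈ U, IsUnit (Y x) ∧
      HasFDerivAt Y ((ContinuousLinearMap.mul ℂ A).flip (Y x) ∘L Om x) x := by
  have hOm : ContinuousOn Om U := fun x hx => (hd x hx).continuousAt.continuousWithinAt
  have hg : ∀ x ∈ U, ∀ s ∈ Icc (0 : ℝ) 1, x0 + s • (x - x0) ∈ U := fun x hx s hs =>
    hc.add_smul_sub_mem hx hs.1 hs.2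
  have hw : ∀ x ∈ U, ContinuousOn (fun s : ℝ => Om (x0 + s • (x - x0)) (x - x0)) (Icc 0 1) :=
    fun x hx => (hOm.comp (by fun_prop) (hg x hx)).clm_apply continuousOn_const
  have hP := fun x hx => lin_ode' (hw x hx)
  choose! P P0 hP using hP
  refine ⟨fun x => P x 1, ?_, fun x hx => ⟨lin_inv (hw x hx) (P0 x hx) (hP x hx), ?_⟩⟩
  · have := gron (f := fun s => P x0 s - 1) (f' := fun _ => 0) (K := 0) le_rfl le_rfl le_rfl
      (fun s hs => ((hP x0 h0 s hs).sub_const 1).congr_deriv (by simp)) (by simp [P0 x0 h0])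
      (by simp) 1 (by simp)
    simpa [sub_eq_zero] using this
  obtain ⟨v, hv⟩ : ∃ v, v = x - x0 := ⟨_, rfl⟩
  obtain ⟨g, hgd⟩ : ∃ g : ℝ → E, g = fun s => x0 + s • v := ⟨_, rfl⟩
  have gU : ∀ s ∈ Icc (0 : ℝ) 1, g s ∈ U := by rw [hgd, hv]; exact hg x hx
  have gc : Continuous g := by rw [hgd]; fun_prop
  have hS : IsCompact (g '' Icc 0 1) := isCompact_Icc.image gc
  have hSU : g '' Icc 0 1 ⊆ U := image_subset_iff.2 gU
  obtain ⟨C1, hC1⟩ := hS.exists_bound_of_continuousOn (hOm.mono hSU)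
  obtain ⟨C2, hC2⟩ := hS.exists_bound_of_continuousOn (E := E →L[ℂ] E →L[ℂ] A) (hc'.mono hSU)
  obtain ⟨M, hM⟩ := isCompact_Icc.exists_bound_of_continuousOn (f := P x)
    fun s hs => (hP x hx s hs).continuousAt.continuousWithinAt
  have C10 : 0 ≤ C1 := (norm_nonneg _).trans (hC1 _ ⟨0, by simp, rfl⟩)
  have C20 : 0 ≤ C2 := (norm_nonneg _).trans (hC2 _ ⟨0, by simp, rfl⟩)
  have M0 : 0 ≤ M := (norm_nonneg _).trans (hM 0 (by simp))
  obtain ⟨C3, hC3⟩ : ∃ C3, C3 = C1 + C2 * ‖v‖ + C2 + (‖v‖ + 1) := ⟨_, rfl⟩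
  have C30 : 0 ≤ C3 := by rw [hC3]; positivity
  obtain ⟨C4, hC4⟩ : ∃ C4, C4 = (C2 + (‖v‖ + 1) + C3 * C1) * M * Real.exp (C1 * ‖v‖ + C3) :=
    ⟨_, rfl⟩
  have C40 : 0 ≤ C4 := by rw [hC4]; positivity
  rw [hasFDerivAt_iff_isLittleO_nhds_zero, Asymptotics.isLittleO_iff]
  intro c hc0
  obtain ⟨e, e0, e1, e2⟩ : ∃ e : ℝ, 0 < e ∧ e ≤ 1 ∧ e * C4 ≤ c :=
    ⟨min 1 (c / (C4 + 1)), by positivity, min_le_left _ _, by
      calc _ ≤ c / (C4 + 1) * (C4 + 1) := by gcongr; exacts [min_le_right _ _, by linarith]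
        _ = c := by field_simp⟩
  obtain ⟨d, d0, hd'⟩ := unif hU hS hSU hd hc' e0
  have hx' : ∀ᶠ u in 𝓝 (0 : E), x + u ∈ U :=
    (continuous_const.add continuous_id).continuousAt.eventually_mem (by
      simpa using hU.mem_nhds hx)
  filter_upwards [hx', Metric.ball_mem_nhds (0 : E) (lt_min d0 e0)] with u hu hu'
  rw [mem_ball_zero_iff, lt_min_iff] at hu'
  have hu1 : ‖u‖ ≤ 1 := hu'.2.le.trans e1
  have Px : ∀ s ∈ Icc (0 : ℝ) 1, HasDerivAt (P x) (Om (g s) v * P x s) s := by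
    rw [hgd, hv]; exact hP x hx
  have Pu : ∀ s ∈ Icc (0 : ℝ) 1,
      HasDerivAt (P (x + u)) (Om (g s + s • u) (v + u) * P (x + u) s) s := by
    intro s hs
    have := hP _ hu s hs
    rwa [show x + u - x0 = v + u by rw [hv]; abel, smul_add, ← add_assoc,
      show x0 + s • v = g s from (congrFun hgd s).symm] at this
  have hb : ∀ s ∈ Icc (0 : ℝ) 1, HasDerivAt (fun s => Om (g s) u) (Om' (g s) v u) s := by
    intro s hs
    have h1 : HasDerivAt g v s := by
      rw [hgd]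
      simpa using ((hasDerivAt_id s).smul_const v).const_add x0
    have h2 := (((hd _ (gU s hs)).clm_apply (hasFDerivAt_const u _)).restrictScalars
      ℝ).comp_hasDerivAt s h1
    exact h2.congr_deriv (by simp)
  have key := gron (f := fun s => P (x + u) s - P x s - s • (Om (g s) u * P x s))
    (f' := fun s => Om (g s + s • u) (v + u) * (P (x + u) s - P x s - s • (Om (g s) u * P x s)) +
      ((Om (g s + s • u) (v + u) - Om (g s) v - Om (g s) u - s • Om' (g s) u v) +
        s • ((Om (g s + s • u) (v + u) - Om (g s) v) * Om (g s) u)) * P x s)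
    (K := C1 * ‖v‖ + C3) (d := 0) (e := e * ‖u‖ * ((C2 + (‖v‖ + 1) + C3 * C1) * M))
    (by positivity) le_rfl (by positivity) (fun s hs => by
      have h := ((Pu s hs).sub (Px s hs)).sub
        ((hasDerivAt_id s).smul ((hb s hs).mul (Px s hs)))
      refine h.congr_deriv ?_
      have hf := flat _ (gU s hs) u v
      rw [sub_eq_iff_eq_add] at hf
      rw [hf]
      simp only [id, Pi.mul_apply, one_smul, mul_sub, sub_mul, add_mul, smul_add, smul_sub,
        mul_smul_comm, smul_mul_assoc, mul_assoc]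
      abel) (by simp [P0 x hx, P0 _ hu]) (fun s hs => by
      have s1 : ‖s‖ ≤ 1 := by rw [Real.norm_of_nonneg hs.1]; exact hs.2
      have su : ‖s • u‖ ≤ ‖u‖ := by
        rw [norm_smul]; exact mul_le_of_le_one_left (norm_nonneg _) s1
      have hB := hd' _ ⟨s, hs, rfl⟩ (s • u) (su.trans_lt hu'.1)
      have b1 := hC1 _ ⟨s, hs, rfl⟩
      have b2 := hC2 _ ⟨s, hs, rfl⟩
      have sm : ∀ a : A, ‖s • a‖ ≤ ‖a‖ := fun a => by
        rw [norm_smul]; exact mul_le_of_le_one_left (norm_nonneg _) s1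
      have a1 : ∀ y, ‖Om (g s) y‖ ≤ C1 * ‖y‖ := fun y => (Om (g s)).le_of_opNorm_le b1 y
      have a2 : ∀ y z, ‖Om' (g s) y z‖ ≤ C2 * ‖y‖ * ‖z‖ := fun y z =>
        (Om' (g s) y).le_of_opNorm_le ((Om' (g s)).le_of_opNorm_le b2 y) z
      have hr : ‖Om (g s + s • u) (v + u) - Om (g s) v - Om (g s) u - s • Om' (g s) u v‖ ≤
          e * ‖u‖ * (C2 + (‖v‖ + 1)) := by
        have e1 : Om (g s + s • u) (v + u) - Om (g s) v - Om (g s) u - s • Om' (g s) u v =
            s • Om' (g s) u u + (Om (g s + s • u) - Om (g s) - Om' (g s) (s • u)) (v + u) := by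
          simp only [sub_apply, map_add,
            ContinuousLinearMap.map_smul_of_tower, smul_apply]
          abel
        rw [e1]
        refine (norm_add_le _ _).trans ?_
        have t1 : ‖s • Om' (g s) u u‖ ≤ C2 * e * ‖u‖ :=
          (sm _).trans ((a2 u u).trans (by gcongr; exact hu'.2.le))
        have t2 : ‖(Om (g s + s • u) - Om (g s) - Om' (g s) (s • u)) (v + u)‖ ≤
            e * ‖u‖ * (‖v‖ + 1) :=
          (ContinuousLinearMap.le_of_opNorm_le _ hB _).trans (by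
            gcongr
            exact (norm_add_le _ _).trans (by gcongr))
        linarith
      have hq : ‖Om (g s + s • u) (v + u) - Om (g s) v‖ ≤ ‖u‖ * C3 := by
        have e1 : Om (g s + s • u) (v + u) - Om (g s) v =
            (Om (g s + s • u) (v + u) - Om (g s) v - Om (g s) u - s • Om' (g s) u v) +
              Om (g s) u + s • Om' (g s) u v := by abel
        rw [e1]
        refine (norm_add₃_le).trans ?_
        have t1 := (sm _).trans (a2 u v)
        have t2 := a1 u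
        have t3 : e * ‖u‖ * (C2 + (‖v‖ + 1)) ≤ 1 * ‖u‖ * (C2 + (‖v‖ + 1)) := by gcongr
        rw [hC3]
        nlinarith
      refine (norm_add_le _ _).trans (add_le_add ((norm_mul_le _ _).trans ?_) ?_)
      · gcongr
        have e1 : Om (g s + s • u) (v + u) =
          Om (g s) v + (Om (g s + s • u) (v + u) - Om (g s) v) := by abel
        rw [e1]
        refine (norm_add_le _ _).trans (add_le_add (a1 v) (hq.trans ?_))
        exact mul_le_of_le_one_left C30 hu1
      · refine (norm_mul_le _ _).trans ?_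
        rw [← mul_assoc]
        refine mul_le_mul ((norm_add_le _ _).trans ?_) (hM s hs) (norm_nonneg _) (by positivity)
        have t1 : ‖s • ((Om (g s + s • u) (v + u) - Om (g s) v) * Om (g s) u)‖ ≤
            e * C3 * (C1 * ‖u‖) :=
          (sm _).trans ((norm_mul_le _ _).trans (mul_le_mul (hq.trans (by
            gcongr; exact hu'.2.le)) (a1 u) (norm_nonneg _) (by positivity)))
        linarith) 1 (by simp)
  have g1 : g 1 = x := by rw [hgd, hv]; simp
  simp only [one_smul, g1, zero_add] at key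
  refine key.trans ?_
  calc _ = e * C4 * ‖u‖ := by rw [hC4]; ring
    _ ≤ c * ‖u‖ := by gcongr

/-- The same with pointwise hypotheses, in finite dimension. -/
theorem flat_frame' [CompleteSpace A] [FiniteDimensional ℂ E] {U : Set E} (hU : IsOpen U) {x0 : E}
    (h0 : x0 ∈ U) (hc : StarConvex ℝ x0 U) {Om : E → E →L[ℂ] A}
    (hd : ∀ v, ContDiffOn ℂ 1 (fun x => Om x v) U)
    (flat : ∀ x ∈ U, ∀ u v, fderiv ℂ (fun y => Om y v) x u - fderiv ℂ (fun y => Om y u) x v =
      Om x u * Om x v - Om x v * Om x u) :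
    ∃ Y : E → A, Y x0 = 1 ∧ ∀ x ∈ U, IsUnit (Y x) ∧
      HasFDerivAt Y ((ContinuousLinearMap.mul ℂ A).flip (Y x) ∘L Om x) x := by
  have h1 : ContDiffOn ℂ 1 Om U := contDiffOn_clm_apply.2 hd
  have h2 : ∀ x ∈ U, HasFDerivAt Om (fderiv ℂ Om x) x := fun x hx =>
    ((h1.differentiableOn one_ne_zero).differentiableAt (hU.mem_nhds hx)).hasFDerivAt
  refine flat_frame hU h0 hc h2 (h1.continuousOn_fderiv_of_isOpen hU le_rfl) fun x hx u v => ?_
  have h3 : ∀ u v, fderiv ℂ (fun y => Om y v) x u = fderiv ℂ Om x u v := fun u v => by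
    rw [((h2 x hx).clm_apply (hasFDerivAt_const v x)).fderiv]
    simp
  rw [← h3, ← h3]
  exact flat x hx u v

omit [NormedSpace ℝ E] [IsScalarTower ℝ ℂ E] in
/-- The inverse of a frame solves the dual equation. -/
theorem frame_inv [CompleteSpace A] {Y : E → A} {x : E} {L : E →L[ℂ] A} (hu : IsUnit (Y x))
    (hY : HasFDerivAt Y ((ContinuousLinearMap.mul ℂ A).flip (Y x) ∘L L) x) :
    HasFDerivAt (fun x => Ring.inverse (Y x))
      (-(ContinuousLinearMap.mul ℂ A (Ring.inverse (Y x)) ∘L L)) x := by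
  obtain ⟨y, hy⟩ := hu
  have h := (hasFDerivAt_ringInverse (𝕜 := ℂ) y)
  rw [hy] at h
  refine (h.comp x hY).congr_fderiv ?_
  ext u
  simp [← hy, mul_assoc]

omit [NormedSpace ℝ E] [IsScalarTower ℝ ℂ E] in
/-- Two solutions differ by a constant right factor. -/
theorem frame_const [CompleteSpace A] {U : Set E} (hU : IsOpen U) (hc : IsPreconnected U)
    {Om : E → E →L[ℂ] A} {Y y : E → A} (hY : ∀ x ∈ U, IsUnit (Y x) ∧
      HasFDerivAt Y ((ContinuousLinearMap.mul ℂ A).flip (Y x) ∘L Om x) x)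
    (hy : ∀ x ∈ U, HasFDerivAt y ((ContinuousLinearMap.mul ℂ A).flip (y x) ∘L Om x) x) :
    ∃ c, ∀ x ∈ U, y x = Y x * c := by
  have h : ∀ x ∈ U, HasFDerivAt (fun x => Ring.inverse (Y x) * y x) (0 : E →L[ℂ] A) x := by
    intro x hx
    refine ((frame_inv (hY x hx).1 (hY x hx).2).mul' (hy x hx)).congr_fderiv ?_
    ext u
    simp [mul_assoc]
  obtain ⟨c, hc⟩ := hU.exists_is_const_of_fderiv_eq_zero (𝕜 := ℂ) hc
    (fun x hx => (h x hx).differentiableAt.differentiableWithinAt) fun x hx => (h x hx).fderiv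
  refine ⟨c, fun x hx => ?_⟩
  rw [← hc x hx, ← mul_assoc, Ring.mul_inverse_cancel _ (hY x hx).1, one_mul]

omit [NormedSpace ℝ E] [IsScalarTower ℝ ℂ E] in
/-- A vector solution is the frame applied to a constant vector. -/
theorem frame_vec {V : Type*} [NormedAddCommGroup V] [NormedSpace ℂ V] [CompleteSpace V]
    {U : Set E} (hU : IsOpen U) (hc : IsPreconnected U)
    {Om : E → E →L[ℂ] V →L[ℂ] V} {Y : E → V →L[ℂ] V} {y : E → V} (hY : ∀ x ∈ U, IsUnit (Y x) ∧
      HasFDerivAt Y ((ContinuousLinearMap.mul ℂ (V →L[ℂ] V)).flip (Y x) ∘L Om x) x)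
    (hy : ∀ x ∈ U, HasFDerivAt y ((Om x).flip (y x)) x) :
    ∃ c, ∀ x ∈ U, y x = Y x c := by
  have h : ∀ x ∈ U, HasFDerivAt (fun x => Ring.inverse (Y x) (y x)) (0 : E →L[ℂ] V) x := by
    intro x hx
    refine ((frame_inv (hY x hx).1 (hY x hx).2).clm_apply (hy x hx)).congr_fderiv ?_
    ext u
    simp
  obtain ⟨c, hc⟩ := hU.exists_is_const_of_fderiv_eq_zero (𝕜 := ℂ) hc
    (fun x hx => (h x hx).differentiableAt.differentiableWithinAt) fun x hx => (h x hx).fderiv
  refine ⟨c, fun x hx => ?_⟩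
  rw [← hc x hx, ← mul_apply_eq_comp, Ring.mul_inverse_cancel _ (hY x hx).1]
  rfl

end flat

end Pool.Agent.Lib.MP_0c623d_al.BP
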