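import Pool.Agent.Lib.MP_0c623d_al.BP.WAlg
import Pool.Agent.Lib.MP_0c623d_al.F.Defs
import Pool.Agent.Lib.MP_caab05_ag.GB.Osg

set_option autoImplicit false

/-!
The fundamental solution on the slit domain, the wall matrices and the period map.
-/

namespace Pool.Agent.Lib.MP_0c623d_al.BP.W

open Matrix Set Complex Filter Topology
open Pool.Agent.BP.F (Om b0 sw)
open scoped Matrix.Norms.Operator

noncomputable section

/-- an invertible solution of the system on `U` -/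
def Sol (e : ℝ) (U : Set Cf) (Y : Cf → M6) : Prop :=
  ∀ a ∈ U, IsUnit (Y a) ∧ ∃ L : Cf →L[ℂ] M6, (∀ v, L v = conn e a v * Y a) ∧ HasFDerivAt Y L a

/-- an invertible solution of the dual system on `U` -/
def Sol1 (e : ℝ) (U : Set Cf) (Y : Cf → M6) : Prop :=
  ∀ a ∈ U, IsUnit (Y a) ∧
    ∃ L : Cf →L[ℂ] M6, (∀ v, L v = -((conn e a v)ᵀ * Y a)) ∧ HasFDerivAt Y L a

/-- the connection as a continuous linear map -/
def connL (e : ℝ) (a : Cf) : Cf →L[ℂ] M6 :=
  LinearMap.toContinuousLinearMap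
    { toFun := conn e a, map_add' := conn_add e a, map_smul' := fun c v => conn_smul e a v c }

@[simp] theorem connL_apply (e : ℝ) (a v : Cf) : connL e a v = conn e a v := rfl

variable {e : ℝ} {U : Set Cf} {Y Z : Cf → M6}

theorem Sol.mono {U' : Set Cf} (h : Sol e U Y) (hU : U' ⊆ U) : Sol e U' Y := fun a ha => h a (hU ha)

theorem Sol.std (h : Sol e U Y) {a : Cf} (ha : a ∈ U) :
    HasFDerivAt Y ((ContinuousLinearMap.mul ℂ M6).flip (Y a) ∘L connL e a) a := by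
  obtain ⟨-, L, hL, hd⟩ := h a ha
  refine HasFDerivAt.congr_fderiv hd ?_
  ext1 v
  exact hL v

theorem Sol.const (hU : IsOpen U) (hc : IsPreconnected U) (hY : Sol e U Y) (hZ : Sol e U Z) :
    ∃ C : M6, ∀ a ∈ U, Z a = Y a * C :=
  frame_const hU hc (Om := connL e) (fun a ha => ⟨(hY a ha).1, hY.std ha⟩) fun _ ha => hZ.std ha

theorem Sol.mul_const (h : Sol e U Y) {C : M6} (hC : IsUnit C) : Sol e U fun a => Y a * C := by
  intro a ha
  refine ⟨(h a ha).1.mul hC, _, ?_, (h.std ha).mul_const' C⟩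
  intro v
  exact mul_assoc (conn e a v) (Y a) C

/-- the entry of a matrix as a continuous linear map -/
def ent (r c : Fin 6) : M6 →L[ℂ] ℂ :=
  LinearMap.toContinuousLinearMap
    { toFun := fun A => A r c, map_add' := fun _ _ => rfl, map_smul' := fun _ _ => rfl }

@[simp] theorem ent_apply (r c : Fin 6) (A : M6) : ent r c A = A r c := rfl

theorem Sol.diff (hU : IsOpen U) (h : Sol e U Y) : AnalyticOnNhd ℂ Y U :=
  Pool.Agent.Lib.MP_caab05_ag.GB.osg _ _ Y U hU fun _ ha =>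
    (h.std ha).differentiableAt.differentiableWithinAt

theorem Sol.an (hU : IsOpen U) (h : Sol e U Y) (r c : Fin 6) :
    AnalyticOnNhd ℂ (fun a => Y a r c) U := fun a ha =>
  ((ent r c).analyticAt _).comp (h.diff hU a ha)

theorem Sol.entry (h : Sol e U Y) {a : Cf} (ha : a ∈ U) (r c : Fin 6) :
    ∃ L : Cf →L[ℂ] ℂ, (∀ v, L v = (conn e a v * Y a) r c) ∧ HasFDerivAt (fun a => Y a r c) L a :=
  ⟨_, fun _ => rfl, (ent r c).hasFDerivAt.comp a (h.std ha)⟩

/-- the product of a row and a matrix -/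
def vmL : (Fin 6 → ℂ) →L[ℂ] M6 →L[ℂ] (Fin 6 → ℂ) :=
  LinearMap.toContinuousLinearMap
    { toFun := fun x => LinearMap.toContinuousLinearMap
        { toFun := fun A => x ᵥ* A, map_add' := fun A B => vecMul_add A B x
          map_smul' := fun c A => vecMul_smul x c A }
      map_add' := fun x y => by ext1 A; exact add_vecMul A x y
      map_smul' := fun c x => by ext1 A; exact smul_vecMul c x A }

@[simp] theorem vmL_apply (x : Fin 6 → ℂ) (A : M6) : vmL x A = x ᵥ* A := rfl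

theorem Sol.row (h : Sol e U Y) {a : Cf} (ha : a ∈ U) {x : Cf → Fin 6 → ℂ}
    {D : Cf →L[ℂ] (Fin 6 → ℂ)} (hx : HasFDerivAt x D a) :
    ∃ L : Cf →L[ℂ] (Fin 6 → ℂ), (∀ v, L v = (D v + x a ᵥ* conn e a v) ᵥ* Y a) ∧
      HasFDerivAt (fun a => x a ᵥ* Y a) L a := by
  refine ⟨_, fun v => ?_, vmL.hasFDerivAt_of_bilinear hx (h.std ha)⟩
  change x a ᵥ* (conn e a v * Y a) + D v ᵥ* Y a = _
  rw [add_vecMul, vecMul_vecMul, add_comm]

theorem Sol.dual (h : Sol e U Y) : Sol1 e U fun a => ((Y a)⁻¹)ᵀ := by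
  intro a ha
  have hu := (h a ha).1
  refine ⟨(isUnit_transpose _).2 (isUnit_nonsing_inv_iff.2 hu), ?_⟩
  have h1 := frame_inv hu (h.std ha)
  have T : ∃ T : M6 →L[ℂ] M6, ∀ A, T A = Aᵀ :=
    ⟨LinearMap.toContinuousLinearMap (transposeLinearEquiv (Fin 6) (Fin 6) ℂ ℂ).toLinearMap,
      fun _ => rfl⟩
  obtain ⟨T, hT⟩ := T
  have h2 := T.hasFDerivAt.comp a h1
  refine ⟨_, fun v => ?_, h2.congr_of_eventuallyEq (Eventually.of_forall fun b => ?_)⟩
  · change T (-(Ring.inverse (Y a) * conn e a v)) = _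
    rw [hT, transpose_neg, transpose_mul, ← nonsing_inv_eq_ringInverse]
  · simp [hT, nonsing_inv_eq_ringInverse]

theorem Sol1.diff (hU : IsOpen U) (h : Sol1 e U Y) : AnalyticOnNhd ℂ Y U :=
  Pool.Agent.Lib.MP_caab05_ag.GB.osg _ _ Y U hU fun a ha => by
    obtain ⟨-, L, -, hd⟩ := h a ha
    exact hd.differentiableAt.differentiableWithinAt

theorem Sol1.an (hU : IsOpen U) (h : Sol1 e U Y) (r c : Fin 6) :
    AnalyticOnNhd ℂ (fun a => Y a r c) U := fun a ha =>
  ((ent r c).analyticAt _).comp (h.diff hU a ha)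

theorem Sol.perm (h : Sol e U Y) (s : Equiv.Perm (Fin 4)) :
    Sol e {b | b ∘ s ∈ U} fun b => (Y (b ∘ s)).submatrix (pp s⁻¹) id := by
  intro a ha
  refine ⟨(isUnit_submatrix_equiv (ppe s⁻¹) (Equiv.refl _)).2 (h _ ha).1, ?_⟩
  obtain ⟨P, hP⟩ : ∃ P : Cf →L[ℂ] Cf, ∀ b, P b = b ∘ s :=
    ⟨LinearMap.toContinuousLinearMap (LinearMap.funLeft ℂ ℂ s), fun _ => rfl⟩
  obtain ⟨T, hT⟩ : ∃ T : M6 →L[ℂ] M6, ∀ A, T A = A.submatrix (pp s⁻¹) id :=
    ⟨LinearMap.toContinuousLinearMap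
      { toFun := fun A => A.submatrix (pp s⁻¹) id, map_add' := fun _ _ => rfl
        map_smul' := fun _ _ => rfl }, fun _ => rfl⟩
  have h1 := h.std ha
  rw [← hP] at h1
  have h2 := T.hasFDerivAt.comp a (h1.comp a P.hasFDerivAt)
  refine ⟨_, fun v => ?_, h2.congr_of_eventuallyEq (Eventually.of_forall fun b => ?_)⟩
  · change T (conn e (P a) (P v) * Y (P a)) = _
    rw [hT, hP, hP, conn_perm]
    ext r c
    simp only [submatrix_apply, mul_apply, id]
    rw [← Equiv.sum_comp (ppe s) fun j => conn e a v r j * Y (a ∘ s) (pp s⁻¹ j) c]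
    refine Finset.sum_congr rfl fun j _ => ?_
    show _ = conn e a v r (pp s j) * Y (a ∘ s) (pp s⁻¹ (pp s j)) c
    rw [← pp_mul, ← pp_mul, mul_inv_cancel, inv_mul_cancel, pp_one, pp_one]
  · simp [hT, hP]

/-! ### The slit domain -/

theorem om_open : IsOpen Om := by
  have : Om = ⋂ i : Fin 4, ⋂ j : Fin 4, ⋂ _ : i < j, {b : Cf | b j - b i ∈ slitPlane} := by
    ext b; simp [Om]
  rw [this]
  refine isOpen_iInter_of_finite fun i => isOpen_iInter_of_finite fun j =>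
    isOpen_iInter_of_finite fun _ => isOpen_slitPlane.preimage (by fun_prop)

theorem b0_pos : ∀ i j : Fin 4, i < j → ∃ t : ℝ, 0 < t ∧ b0 j - b0 i = t := by
  intro i j h
  fin_cases i <;> fin_cases j <;> simp at h
  · exact ⟨1, by norm_num, by simp [b0]⟩
  · exact ⟨3, by norm_num, by simp [b0]⟩
  · exact ⟨7, by norm_num, by simp [b0]⟩
  · exact ⟨2, by norm_num, by simp [b0]; norm_num⟩
  · exact ⟨6, by norm_num, by simp [b0]; norm_num⟩
  · exact ⟨4, by norm_num, by simp [b0]; norm_num⟩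

theorem b0_mem : b0 ∈ Om := fun i j h => by
  obtain ⟨t, ht, e⟩ := b0_pos i j h
  rw [e]; exact ofReal_mem_slitPlane.2 ht

theorem om_star : StarConvex ℝ b0 Om := by
  intro b hb s t hs ht hst i j h
  obtain ⟨u, hu, e⟩ := b0_pos i j h
  have := starConvex_ofReal_slitPlane hu (hb i j h) hs ht hst
  rw [← e] at this
  convert this using 1
  simp only [Pi.add_apply, Pi.smul_apply, smul_sub]
  ring

theorem om_pre : IsPreconnected Om := (om_star.isPathConnected b0_mem).isConnected.isPreconnected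

theorem om_inj : ∀ b ∈ Om, Function.Injective b := by
  intro b hb i j h
  by_contra hne
  rcases lt_or_gt_of_ne hne with l | l
  · exact slitPlane_ne_zero (hb i j l) (by rw [h, sub_self])
  · exact slitPlane_ne_zero (hb j i l) (by rw [h, sub_self])

theorem om_add {b : Cf} (hb : b ∈ Om) (c : ℂ) : (fun i => b i + c) ∈ Om := fun i j h => by
  simpa using hb i j h

/-- the fundamental solution on the slit domain -/
def Yf (e : ℝ) : Cf → M6 := (conn_frame e om_open b0_mem om_star om_inj).choose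

theorem Yf_b0 (e : ℝ) : Yf e b0 = 1 := (conn_frame e om_open b0_mem om_star om_inj).choose_spec.1

theorem Yf_sol (e : ℝ) : Sol e Om (Yf e) :=
  (conn_frame e om_open b0_mem om_star om_inj).choose_spec.2

theorem Sol.transl (h : Sol e Om Y) {b : Cf} (hb : b ∈ Om) (c : ℂ) :
    Y (fun i => b i + c) = Y b := by
  have hd : ∀ t : ℂ, HasDerivAt (fun t : ℂ => Y fun i => b i + t) 0 t := by
    intro t
    have h1 : HasDerivAt (fun t : ℂ => fun i : Fin 4 => b i + t) (fun _ => 1) t :=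
      hasDerivAt_pi.2 fun i => (hasDerivAt_id t).const_add _
    obtain ⟨-, L, hL, hd⟩ := h _ (om_add hb t)
    have h2 := hd.comp_hasDerivAt t h1
    have h3 : L (fun _ => 1) = 0 := by rw [hL, conn_const, zero_mul]
    exact h2.congr_deriv h3
  have := is_const_of_deriv_eq_zero (fun t => (hd t).differentiableAt) (fun t => (hd t).deriv) c 0
  simpa using this

/-! ### Walls -/

/-- the convex wall sets -/
def Wall (p : Fin 3) : Set Cf := {b | (b p.castSucc).im < (b p.succ).im ∧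
  ∀ i j : Fin 4, i < j → ¬ (i = p.castSucc ∧ j = p.succ) → (b i).re < (b j).re}

theorem wall_open (p : Fin 3) : IsOpen (Wall p) := by
  have : Wall p = {b : Cf | (b p.castSucc).im < (b p.succ).im} ∩ ⋂ i : Fin 4, ⋂ j : Fin 4,
      ⋂ _ : i < j, ⋂ _ : ¬ (i = p.castSucc ∧ j = p.succ), {b : Cf | (b i).re < (b j).re} := by
    ext b; simp [Wall]
  rw [this]
  refine (isOpen_lt (by fun_prop) (by fun_prop)).inter (isOpen_iInter_of_finite fun i =>
    isOpen_iInter_of_finite fun j => isOpen_iInter_of_finite fun _ =>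
    isOpen_iInter_of_finite fun _ => isOpen_lt (by fun_prop) (by fun_prop))

theorem mix_lt {a b c d s t : ℝ} (h1 : a < b) (h2 : c < d) (hs : 0 ≤ s) (ht : 0 ≤ t)
    (hst : s + t = 1) : s * a + t * c < s * b + t * d := by
  rcases hs.eq_or_lt with rfl | hs'
  · have : t = 1 := by linarith
    subst this; linarith
  · nlinarith [mul_lt_mul_of_pos_left h1 hs', mul_le_mul_of_nonneg_left h2.le ht]

theorem wall_convex (p : Fin 3) : Convex ℝ (Wall p) := by
  intro a ha b hb s t hs ht hst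
  refine ⟨?_, fun i j h h' => ?_⟩
  · simpa using mix_lt ha.1 hb.1 hs ht hst
  · simpa using mix_lt (ha.2 i j h h') (hb.2 i j h h') hs ht hst

theorem wall_om (p : Fin 3) : Wall p ⊆ Om := by
  intro b hb i j h
  by_cases h' : i = p.castSucc ∧ j = p.succ
  · right; rw [h'.1, h'.2, sub_im]; exact (sub_pos.2 hb.1).ne'
  · left; rw [sub_re]; exact sub_pos.2 (hb.2 i j h h')

theorem sw_lt : ∀ (p : Fin 3) (i j : Fin 4), i < j → ¬ (i = p.castSucc ∧ j = p.succ) →
    sw p i < sw p j ∧ ¬ (sw p i = p.castSucc ∧ sw p j = p.succ) := by decide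

theorem wall_om' (p : Fin 3) {b : Cf} (hb : b ∈ Wall p) : b ∘ sw p ∈ Om := by
  intro i j h
  by_cases h' : i = p.castSucc ∧ j = p.succ
  · right
    rw [h'.1, h'.2, sub_im]
    simp only [Function.comp, sw, Equiv.swap_apply_left, Equiv.swap_apply_right]
    exact (sub_neg.2 hb.1).ne
  · left; rw [sub_re]; exact sub_pos.2 (hb.2 _ _ (sw_lt p i j h h').1 (sw_lt p i j h h').2)

theorem wall_ne (p : Fin 3) : (fun i : Fin 4 => ((i : ℕ) : ℂ) * (1 + I)) ∈ Wall p := by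
  refine ⟨by simp, fun i j h _ => ?_⟩
  simpa using h

theorem sw_inv (p : Fin 3) : (sw p)⁻¹ = sw p := Equiv.swap_inv _ _

theorem Sol.wall (h : Sol e Om Y) (p : Fin 3) : ∃ C : M6, IsUnit C ∧ ∀ b ∈ Wall p,
    Y b = (Y (b ∘ sw p)).submatrix (pp (sw p)) id * C := by
  have h1 := (h.perm (sw p)).mono (U' := Wall p) fun b hb => wall_om' p hb
  rw [sw_inv] at h1
  obtain ⟨C, hC⟩ := Sol.const (wall_open p) (wall_convex p).isPreconnected h1 (h.mono (wall_om p))
  refine ⟨C, ?_, hC⟩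
  have h2 := (h _ (wall_om p (wall_ne p))).1
  rw [hC _ (wall_ne p)] at h2
  exact isUnit_of_mul_isUnit_right h2

/-- the wall matrices -/
def Cw (e : ℝ) (p : Fin 3) : M6 := ((Yf_sol e).wall p).choose

theorem Cw_unit (e : ℝ) (p : Fin 3) : IsUnit (Cw e p) := ((Yf_sol e).wall p).choose_spec.1

theorem Yf_wall (e : ℝ) (p : Fin 3) : ∀ b ∈ Wall p,
    Yf e b = (Yf e (b ∘ sw p)).submatrix (pp (sw p)) id * Cw e p :=
  ((Yf_sol e).wall p).choose_spec.2

theorem row_perm (s : Equiv.Perm (Fin 4)) (x : Fin 6 → ℂ) (A : M6) :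
    x ᵥ* A.submatrix (pp s⁻¹) id = (fun n => x (pp s n)) ᵥ* A := by
  ext c
  simp only [vecMul, dotProduct, submatrix_apply, id]
  rw [← Equiv.sum_comp (ppe s) fun j => x j * A (pp s⁻¹ j) c]
  refine Finset.sum_congr rfl fun j _ => ?_
  show x (pp s j) * A (pp s⁻¹ (pp s j)) c = _
  rw [← pp_mul, inv_mul_cancel, pp_one]

/-- the dual fundamental solution -/
def Y1 (e : ℝ) (b : Cf) : M6 := ((Yf e b)⁻¹)ᵀ

theorem Y1_sol (e : ℝ) : Sol1 e Om (Y1 e) := (Yf_sol e).dual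

theorem Y1_wall (e : ℝ) (p : Fin 3) : ∀ b ∈ Wall p,
    Y1 e b = (Y1 e (b ∘ sw p)).submatrix (pp (sw p)) id * ((Cw e p)⁻¹)ᵀ := by
  intro b hb
  rw [Y1, Y1, Yf_wall e p b hb, Matrix.mul_inv_rev, transpose_mul]
  congr 1
  exact congrArg transpose (inv_submatrix_equiv _ (ppe (sw p)) (Equiv.refl _))

/-! ### The period map -/

/-- the rows `Bm a v` as a continuous linear map in `a` -/
def BmL (v : Cf) : Cf →L[ℂ] (Fin 6 → ℂ) :=
  LinearMap.toContinuousLinearMap
    { toFun := fun a => Bm a v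
      map_add' := fun a b => by ext n; simp only [Bm, Pi.add_apply]; ring
      map_smul' := fun c a => by
        ext n; simp only [Bm, Pi.smul_apply, smul_eq_mul, RingHom.id_apply]; ring }

@[simp] theorem BmL_apply (v a : Cf) : BmL v a = Bm a v := rfl

theorem cw_der (a : Cf) : HasFDerivAt cw ((2 : ℂ) • BmL a) a := by
  refine hasFDerivAt_pi'.2 fun n => ?_
  refine (((dif n).hasFDerivAt (x := a)).pow 2).congr_fderiv ?_
  ext v
  simp [dif_apply, Bm]
  ring

theorem Sol.period (h : Sol e U Y) {a : Cf} (ha : a ∈ U) (hi : Function.Injective a) :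
    ∃ L : Cf →L[ℂ] (Fin 6 → ℂ), (∀ v, L v = dg e • (Bm a v ᵥ* Y a)) ∧
      HasFDerivAt (fun a => cw a ᵥ* Y a) L a := by
  obtain ⟨L, hL, hd⟩ := h.row ha (cw_der a)
  refine ⟨L, fun v => ?_, hd⟩
  rw [hL, cw_conn e hi, ← smul_vecMul]
  congr 1
  simp only [_root_.smul_apply, BmL_apply, Bm_comm v a]
  module

theorem Sol.second (h : Sol e U Y) {a : Cf} (ha : a ∈ U) (hi : Function.Injective a) (v : Cf) :
    ∃ L : Cf →L[ℂ] (Fin 6 → ℂ), (∀ x, L x = (1 + 4 * al e + be e) • (Bm x v ᵥ* Y a) +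
      al e • (Bm a (cv a x v) ᵥ* Y a)) ∧ HasFDerivAt (fun a => Bm a v ᵥ* Y a) L a := by
  obtain ⟨L, hL, hd⟩ := h.row ha (x := fun a => Bm a v) (BmL v).hasFDerivAt
  refine ⟨L, fun x => ?_, hd⟩
  rw [hL, Bm_conn e hi, ← smul_vecMul, ← smul_vecMul, ← add_vecMul]
  congr 1
  simp only [BmL_apply]
  module

/-- the period map -/
def Wf (e : ℝ) (b : Cf) : Fin 6 → ℂ := cw b ᵥ* Yf e b

/-- the wall matrices acting on columns -/
def Rw (e : ℝ) (p : Fin 3) : M6 := (Cw e p)ᵀ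

theorem Wf_der (e : ℝ) {b : Cf} (hb : b ∈ Om) : HasFDerivAt (Wf e) (fderiv ℂ (Wf e) b) b := by
  obtain ⟨L, -, hd⟩ := (Yf_sol e).period hb (om_inj b hb)
  exact hd.differentiableAt.hasFDerivAt

theorem Wf_fderiv (e : ℝ) {b : Cf} (hb : b ∈ Om) (v : Cf) :
    fderiv ℂ (Wf e) b v = dg e • (Bm b v ᵥ* Yf e b) := by
  obtain ⟨L, hL, hd⟩ := (Yf_sol e).period hb (om_inj b hb)
  rw [← hL, ← hd.fderiv]; rfl

theorem Wf_an (e : ℝ) : AnalyticOnNhd ℂ (Wf e) Om :=
  Pool.Agent.Lib.MP_caab05_ag.GB.osg _ _ _ _ om_open fun _ hb =>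
    (Wf_der e hb).differentiableAt.differentiableWithinAt

theorem Wf_transl (e : ℝ) : ∀ b ∈ Om, ∀ c : ℂ, Wf e (fun i => b i + c) = Wf e b := by
  intro b hb c
  rw [Wf, Wf, (Yf_sol e).transl hb c]
  congr 1
  ext n; simp [cw]

theorem dg_eq (e : ℝ) : dg e = ((-3 / 2 + 5 * e : ℝ) : ℂ) := by simp [dg]

theorem Wf_euler (e : ℝ) : ∀ b ∈ Om,
    fderiv ℂ (Wf e) b b = ((-3 / 2 + 5 * e : ℝ) : ℂ) • Wf e b := by
  intro b hb
  rw [Wf_fderiv e hb, dg_eq, Wf, cw_eq]

theorem Wf_wall (e : ℝ) (p : Fin 3) (b : Cf) (h1 : (b p.castSucc).im < (b p.succ).im)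
    (h2 : ∀ i j : Fin 4, i < j → ¬ (i = p.castSucc ∧ j = p.succ) → (b i).re < (b j).re) :
    Wf e b = Rw e p *ᵥ Wf e (b ∘ sw p) := by
  rw [Rw, mulVec_transpose, Wf, Wf, Yf_wall e p b ⟨h1, h2⟩, ← vecMul_vecMul]
  congr 1
  have := row_perm (sw p) (cw b) (Yf e (b ∘ sw p))
  rw [sw_inv] at this
  rw [this]
  congr 1
  ext n; rw [cw_perm]

theorem dg_ne {e : ℝ} (he : e < 1 / 12) : dg e ≠ 0 := by
  rw [dg_eq]; exact ofReal_ne_zero.2 (by linarith)

theorem sec_ne {e : ℝ} (he : e < 1 / 12) : 1 + 4 * al e + be e ≠ 0 := by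
  have : 1 + 4 * al e + be e = ((-1 / 2 + e : ℝ) : ℂ) := by simp [al, be]; ring
  rw [this]; exact ofReal_ne_zero.2 (by linarith)

theorem Bm_single (n : Fin 6) :
    Bm (Pi.single (fst n) 1) (Pi.single (snd n) 1) = -(Pi.single n 1 : Fin 6 → ℂ) := by
  ext c
  fin_cases n <;> fin_cases c <;> simp [Bm, fst, snd]

theorem der_zero {f : Cf → Fin 6 → ℂ} {L : Cf →L[ℂ] (Fin 6 → ℂ)} {a : Cf}
    (φ : (Fin 6 → ℂ) →L[ℂ] ℂ) (hd : HasFDerivAt f L a) (h0 : ∀ᶠ b in 𝓝 a, φ (f b) = 0) (v : Cf) :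
    φ (L v) = 0 := by
  have h1 := φ.hasFDerivAt.comp a hd
  have h2 : HasFDerivAt (φ ∘ f) (0 : Cf →L[ℂ] ℂ) a :=
    (hasFDerivAt_const (0 : ℂ) a).congr_of_eventuallyEq h0
  exact congrArg (fun T : Cf →L[ℂ] ℂ => T v) (h1.unique h2)

/-- a linear form that kills the period map on an open set is zero -/
theorem Sol.form_zero (he : e < 1 / 12) (hU : IsOpen U) (hi : ∀ a ∈ U, Function.Injective a)
    (h : Sol e U Y) {a : Cf} (ha : a ∈ U) (φ : (Fin 6 → ℂ) →L[ℂ] ℂ)
    (h0 : ∀ b ∈ U, φ (cw b ᵥ* Y b) = 0) : φ = 0 := by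
  have h1 : ∀ b ∈ U, ∀ v, φ (Bm b v ᵥ* Y b) = 0 := by
    intro b hb v
    obtain ⟨L, hL, hd⟩ := h.period hb (hi b hb)
    have := der_zero φ hd (Filter.mem_of_superset (hU.mem_nhds hb) h0) v
    rw [hL, map_smul, smul_eq_mul] at this
    exact (mul_eq_zero.1 this).resolve_left (dg_ne he)
  have h2 : ∀ x v, φ (Bm x v ᵥ* Y a) = 0 := by
    intro x v
    obtain ⟨L, hL, hd⟩ := h.second ha (hi a ha) v
    have := der_zero φ hd (Filter.mem_of_superset (hU.mem_nhds ha) fun b hb => h1 b hb v) x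
    rw [hL, map_add, map_smul, map_smul, h1 a ha, smul_zero, add_zero, smul_eq_mul] at this
    exact (mul_eq_zero.1 this).resolve_left (sec_ne he)
  have h3 : ∀ n, φ (Pi.single n 1 ᵥ* Y a) = 0 := by
    intro n
    have := h2 (Pi.single (fst n) 1) (Pi.single (snd n) 1)
    rwa [Bm_single, neg_vecMul, map_neg, neg_eq_zero] at this
  ext1 z
  obtain ⟨x, rfl⟩ := (vecMul_surjective_iff_isUnit.2 (h a ha).1) z
  have : x = ∑ n, x n • (Pi.single n 1 : Fin 6 → ℂ) := by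
    ext c; simp [Pi.single_apply]
  rw [this]
  simp only [sum_vecMul, smul_vecMul, map_sum, map_smul, h3, smul_zero, Finset.sum_const_zero,
    _root_.zero_apply]

theorem Wf_span {e : ℝ} (he : e < 1 / 12) : Submodule.span ℂ (Wf e '' Om) = ⊤ := by
  by_contra hne
  obtain ⟨f, hf, hle⟩ := Submodule.exists_le_ker_of_lt_top _ (lt_top_iff_ne_top.2 hne)
  have := (Yf_sol e).form_zero he om_open om_inj b0_mem (LinearMap.toContinuousLinearMap f)
    fun b hb => hle (Submodule.subset_span ⟨b, hb, rfl⟩)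
  exact hf (LinearMap.toContinuousLinearMap.map_eq_zero_iff.1 this)

end

end Pool.Agent.Lib.MP_0c623d_al.BP.W
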