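import Pool.Agent.Lib.MP_0c623d_al.BP.ADefs
import Pool.Agent.Lib.MP_0c623d_al.BP.Flat

set_option autoImplicit false

/-!
The connection is flat.
-/

namespace Pool.Agent.Lib.MP_0c623d_al.BP

/-- The matrix unit on the diagonal. -/
def ResB (n : Fin 6) : Matrix (Fin 6) (Fin 6) ℤ :=
  Matrix.of fun r c => if r = n ∧ c = n then 1 else 0

theorem Res_eq (e : ℝ) (n : Fin 6) : Res e n =
    al e • (ResA n).map (Int.castRingHom ℂ) + be e • (ResB n).map (Int.castRingHom ℂ) := by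
  ext r c
  simp [Res, ResB]

theorem Res_mul (e : ℝ) (n m : Fin 6) : Res e n * Res e m =
    al e ^ 2 • (ResA n * ResA m).map (Int.castRingHom ℂ) +
      (al e * be e) • (ResA n * ResB m + ResB n * ResA m).map (Int.castRingHom ℂ) +
      be e ^ 2 • (ResB n * ResB m).map (Int.castRingHom ℂ) := by
  rw [Res_eq, Res_eq, Matrix.map_add _ (map_add _), Matrix.map_mul, Matrix.map_mul,
    Matrix.map_mul, Matrix.map_mul]
  simp only [add_mul, mul_add, smul_mul_assoc, mul_smul_comm]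
  module

theorem Res_comm (e : ℝ) {n m : Fin 6} (h1 : ResA n * ResA m = ResA m * ResA n)
    (h2 : ResA n * ResB m + ResB n * ResA m = ResA m * ResB n + ResB m * ResA n)
    (h3 : ResB n * ResB m = ResB m * ResB n) : Res e n * Res e m = Res e m * Res e n := by
  rw [Res_mul, Res_mul, h1, h2, h3]

theorem Res_tri (e : ℝ) {n m l : Fin 6}
    (h1 : ResA n * ResA m + ResA n * ResA l = ResA m * ResA n + ResA l * ResA n)
    (h2 : (ResA n * ResB m + ResB n * ResA m) + (ResA n * ResB l + ResB n * ResA l) =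
      (ResA m * ResB n + ResB m * ResA n) + (ResA l * ResB n + ResB l * ResA n))
    (h3 : ResB n * ResB m + ResB n * ResB l = ResB m * ResB n + ResB l * ResB n) :
    Res e n * Res e m + Res e n * Res e l = Res e m * Res e n + Res e l * Res e n := by
  have k1 := congrArg (fun M => M.map (Int.castRingHom ℂ)) h1
  have k2 := congrArg (fun M => M.map (Int.castRingHom ℂ)) h2
  have k3 := congrArg (fun M => M.map (Int.castRingHom ℂ)) h3
  rw [Matrix.map_add _ (map_add _), Matrix.map_add _ (map_add _)] at k1 k3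
  rw [Matrix.map_add _ (map_add _), Matrix.map_add _ (map_add _) (_ + _) (_ + _)] at k2
  simp only [Res_mul]
  linear_combination (norm := module) al e ^ 2 • k1 + (al e * be e) • k2 + be e ^ 2 • k3

/-- The abstract computation: infinitesimal braid relations and Arnold relations. -/
theorem flat_six {A : Type*} [Ring A] [Algebra ℂ A] (R : Fin 6 → A) (p q : Fin 6 → ℂ)
    (c05 : R 0 * R 5 = R 5 * R 0) (c14 : R 1 * R 4 = R 4 * R 1) (c23 : R 2 * R 3 = R 3 * R 2)
    (a1 : R 0 * R 1 + R 0 * R 3 = R 1 * R 0 + R 3 * R 0)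
    (a2 : R 1 * R 0 + R 1 * R 3 = R 0 * R 1 + R 3 * R 1)
    (b1 : R 0 * R 2 + R 0 * R 4 = R 2 * R 0 + R 4 * R 0)
    (b2 : R 2 * R 0 + R 2 * R 4 = R 0 * R 2 + R 4 * R 2)
    (d1 : R 1 * R 2 + R 1 * R 5 = R 2 * R 1 + R 5 * R 1)
    (d2 : R 2 * R 1 + R 2 * R 5 = R 1 * R 2 + R 5 * R 2)
    (e1 : R 3 * R 4 + R 3 * R 5 = R 4 * R 3 + R 5 * R 3)
    (e2 : R 4 * R 3 + R 4 * R 5 = R 3 * R 4 + R 5 * R 4)
    (ha : (p 0 * q 1 - q 0 * p 1) - (p 0 * q 3 - q 0 * p 3) + (p 1 * q 3 - q 1 * p 3) = 0)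
    (hb : (p 0 * q 2 - q 0 * p 2) - (p 0 * q 4 - q 0 * p 4) + (p 2 * q 4 - q 2 * p 4) = 0)
    (hd : (p 1 * q 2 - q 1 * p 2) - (p 1 * q 5 - q 1 * p 5) + (p 2 * q 5 - q 2 * p 5) = 0)
    (he : (p 3 * q 4 - q 3 * p 4) - (p 3 * q 5 - q 3 * p 5) + (p 4 * q 5 - q 4 * p 5) = 0) :
    (∑ n, p n • R n) * ∑ n, q n • R n = (∑ n, q n • R n) * ∑ n, p n • R n := by
  simp only [Fin.sum_univ_six, add_mul, mul_add, smul_mul_assoc, mul_smul_comm]
  linear_combination (norm := module)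
    (p 0 * q 5 - q 0 * p 5) • c05 + (p 1 * q 4 - q 1 * p 4) • c14 + (p 2 * q 3 - q 2 * p 3) • c23 +
    (p 0 * q 3 - q 0 * p 3) • a1 + (p 1 * q 3 - q 1 * p 3) • a2 +
    (p 0 * q 4 - q 0 * p 4) • b1 + (p 2 * q 4 - q 2 * p 4) • b2 +
    (p 1 * q 5 - q 1 * p 5) • d1 + (p 2 * q 5 - q 2 * p 5) • d2 +
    (p 3 * q 5 - q 3 * p 5) • e1 + (p 4 * q 5 - q 4 * p 5) • e2 +
    ha • (R 0 * R 1 - R 1 * R 0) + hb • (R 0 * R 2 - R 2 * R 0) + hd • (R 1 * R 2 - R 2 * R 1) +
    he • (R 3 * R 4 - R 4 * R 3)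

theorem arnold {a b c : ℂ} (hab : a - b ≠ 0) (hac : a - c ≠ 0) (hbc : b - c ≠ 0)
    (u v w x y z : ℂ) :
    ((u - v) / (a - b) * ((x - z) / (a - c)) - (x - y) / (a - b) * ((u - w) / (a - c))) -
      ((u - v) / (a - b) * ((y - z) / (b - c)) - (x - y) / (a - b) * ((v - w) / (b - c))) +
      ((u - w) / (a - c) * ((y - z) / (b - c)) - (x - z) / (a - c) * ((v - w) / (b - c))) = 0 := by
  field_simp
  ring

/-- The values of the connection at one point commute. -/
theorem conn_comm (e : ℝ) {a : Cf} (ha : Function.Injective a) (u v : Cf) :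
    conn e a u * conn e a v = conn e a v * conn e a u := by
  have h : ∀ i j : Fin 4, i ≠ j → a i - a j ≠ 0 := fun i j hij => sub_ne_zero.2 (ha.ne hij)
  refine flat_six (Res e) _ _ ?_ ?_ ?_ ?_ ?_ ?_ ?_ ?_ ?_ ?_ ?_
    (arnold (h 0 1 (by decide)) (h 0 2 (by decide)) (h 1 2 (by decide)) _ _ _ _ _ _)
    (arnold (h 0 1 (by decide)) (h 0 3 (by decide)) (h 1 3 (by decide)) _ _ _ _ _ _)
    (arnold (h 0 2 (by decide)) (h 0 3 (by decide)) (h 2 3 (by decide)) _ _ _ _ _ _)
    (arnold (h 1 2 (by decide)) (h 1 3 (by decide)) (h 2 3 (by decide)) _ _ _ _ _ _)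
  iterate 3 exact Res_comm e (by decide +kernel) (by decide +kernel) (by decide +kernel)
  all_goals exact Res_tri e (by decide +kernel) (by decide +kernel) (by decide +kernel)

/-- The difference of two coordinates. -/
noncomputable def dif (n : Fin 6) : Cf →L[ℂ] ℂ :=
  ContinuousLinearMap.proj (R := ℂ) (φ := fun _ => ℂ) (fst n) -
    ContinuousLinearMap.proj (R := ℂ) (φ := fun _ => ℂ) (snd n)

theorem dif_apply (n : Fin 6) (v : Cf) : dif n v = v (fst n) - v (snd n) := rfl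

theorem dif_ne {a : Cf} (ha : Function.Injective a) (n : Fin 6) : dif n a ≠ 0 :=
  sub_ne_zero.2 (ha.ne (by revert n; decide))

/-- A frame for a logarithmic connection with commuting values, in any Banach algebra. -/
theorem log_frame {A : Type*} [NormedRing A] [NormedAlgebra ℂ A] [CompleteSpace A]
    (R : Fin 6 → A) {U : Set Cf} (hU : IsOpen U) {x0 : Cf} (h0 : x0 ∈ U)
    (hc : StarConvex ℝ x0 U) (hi : ∀ a ∈ U, Function.Injective a)
    (hR : ∀ a ∈ U, ∀ u v, (∑ n, (dif n u / dif n a) • R n) * (∑ n, (dif n v / dif n a) • R n) =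
      (∑ n, (dif n v / dif n a) • R n) * ∑ n, (dif n u / dif n a) • R n) :
    ∃ Y : Cf → A, Y x0 = 1 ∧ ∀ a ∈ U, IsUnit (Y a) ∧ ∃ L : Cf →L[ℂ] A,
      (∀ v, L v = (∑ n, (dif n v / dif n a) • R n) * Y a) ∧ HasFDerivAt Y L a := by
  have hO : ∀ a v, (∑ n, (dif n a)⁻¹ • (dif n).smulRight (R n)) v =
      ∑ n, (dif n v / dif n a) • R n := fun a v => by
    simp [smul_smul, div_eq_inv_mul]
  have hD : ∀ a ∈ U, ∀ u v, fderiv ℂ (fun y => ∑ n, (dif n v / dif n y) • R n) a u =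
      ∑ n, (-(dif n v * dif n u) / dif n a ^ 2) • R n := by
    intro a ha u v
    have h : ∀ n, HasFDerivAt (fun y => (dif n v / dif n y) • R n)
        (((-dif n v / dif n a ^ 2) • dif n).smulRight (R n)) a := fun n => by
      have h1 := (((hasDerivAt_inv (dif_ne (hi a ha) n)).const_mul (dif n v)).comp_hasFDerivAt a
        (dif n).hasFDerivAt).smul_const (R n)
      refine (h1.congr_fderiv ?_).congr_of_eventuallyEq (.of_forall fun y => ?_)
      · congr 2
        ring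
      · simp [div_eq_mul_inv]
    rw [(HasFDerivAt.fun_sum fun n _ => h n).fderiv]
    simp only [sum_apply, ContinuousLinearMap.smulRight_apply, smul_apply,
      smul_eq_mul]
    refine Finset.sum_congr rfl fun n _ => ?_
    congr 1
    ring
  obtain ⟨Y, Y0, hY⟩ := flat_frame' hU h0 hc
    (Om := fun a => ∑ n, (dif n a)⁻¹ • (dif n).smulRight (R n))
    (fun v => by
      simp only [hO]
      exact ContDiffOn.sum fun n _ => (contDiffOn_const.div (dif n).contDiff.contDiffOn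
        fun a ha => dif_ne (hi a ha) n).smul contDiffOn_const)
    (fun a ha u v => by
      simp only [hO]
      rw [hD a ha, hD a ha, hR a ha u v]
      simp only [mul_comm, sub_self])
  exact ⟨Y, Y0, fun a ha => ⟨(hY a ha).1, _, fun v => by rw [← hO]; rfl, (hY a ha).2⟩⟩

open scoped Matrix.Norms.Operator in
/-- The fundamental solution on a star-shaped set of configurations. -/
theorem conn_frame (e : ℝ) {U : Set Cf} (hU : IsOpen U) {x0 : Cf} (h0 : x0 ∈ U)
    (hc : StarConvex ℝ x0 U) (hi : ∀ a ∈ U, Function.Injective a) :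
    ∃ Y : Cf → Matrix (Fin 6) (Fin 6) ℂ, Y x0 = 1 ∧ ∀ a ∈ U, IsUnit (Y a) ∧
      ∃ L : Cf →L[ℂ] Matrix (Fin 6) (Fin 6) ℂ,
        (∀ v, L v = conn e a v * Y a) ∧ HasFDerivAt Y L a :=
  log_frame (Res e) hU h0 hc hi fun a ha u v => conn_comm e (hi a ha) u v

end Pool.Agent.Lib.MP_0c623d_al.BP
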