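import Pool.Agent.Lib.MP_0c623d_al.BP.Irr

set_option autoImplicit false

/-!
The two signs by the maximum modulus principle.
-/

namespace Pool.Agent.Lib.MP_0c623d_al.BP

open Module Filter Topology Asymptotics

/-- `g` is positive at `0` and touched there from below by the squared modulus of a holomorphic
function. -/
def Psh (g : ℂ → ℝ) : Prop :=
  0 < g 0 ∧ ∃ k : ℂ → ℂ, AnalyticAt ℂ k 0 ∧ ‖k 0‖ ^ 2 = g 0 ∧ ∀ᶠ z in 𝓝 0, ‖k z‖ ^ 2 ≤ g z

lemma Psh.mul {g g' : ℂ → ℝ} (a : Psh g) (b : Psh g') : Psh fun z => g z * g' z := by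
  obtain ⟨a0, k, ka, k0, kl⟩ := a
  obtain ⟨b0, j, ja, j0, jl⟩ := b
  refine ⟨mul_pos a0 b0, fun z => k z * j z, ka.mul ja, by rw [norm_mul, mul_pow, k0, j0], ?_⟩
  filter_upwards [kl, jl] with z h1 h2
  rw [norm_mul, mul_pow]
  exact mul_le_mul h1 h2 (by positivity) ((sq_nonneg _).trans h1)

lemma Psh.rpow {g : ℂ → ℝ} (a : Psh g) {c : ℝ} (hc : 0 ≤ c) : Psh fun z => g z ^ c := by
  obtain ⟨a0, k, ka, k0, kl⟩ := a
  have hk : k 0 ≠ 0 := fun e => by rw [e] at k0; simp at k0; exact a0.ne k0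
  have hn : ∀ z, ‖(k z / k 0) ^ (c : ℂ) * ((‖k 0‖ ^ c : ℝ) : ℂ)‖ ^ 2 = (‖k z‖ ^ 2) ^ c := by
    intro z
    have h0 : 0 < ‖k 0‖ ^ c := Real.rpow_pos_of_pos (norm_pos_iff.2 hk) c
    rw [norm_mul, Complex.norm_cpow_real, norm_div, Real.div_rpow (norm_nonneg _) (norm_nonneg _),
      Complex.norm_real, Real.norm_of_nonneg h0.le, div_mul_cancel₀ _ h0.ne', sq, sq,
      Real.mul_rpow (norm_nonneg _) (norm_nonneg _)]
  refine ⟨Real.rpow_pos_of_pos a0 c, fun z => (k z / k 0) ^ (c : ℂ) * ((‖k 0‖ ^ c : ℝ) : ℂ),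
    ((ka.div_const (c := k 0)).cpow analyticAt_const (by simp [hk])).mul analyticAt_const,
    by rw [hn, k0], ?_⟩
  filter_upwards [kl] with z h1
  rw [hn]
  exact Real.rpow_le_rpow (by positivity) h1 hc

lemma Psh.sum_sq {ι : Type*} [Fintype ι] (F : ι → ℂ → ℂ) (hF : ∀ i, AnalyticAt ℂ (F i) 0)
    (h0 : ∃ i, F i 0 ≠ 0) : Psh fun z => ∑ i, ‖F i z‖ ^ 2 := by
  obtain ⟨i0, hi⟩ := h0
  have hp : 0 < ∑ i, ‖F i 0‖ ^ 2 :=
    Finset.sum_pos' (fun i _ => by positivity) ⟨i0, Finset.mem_univ _, by positivity⟩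
  set S := ∑ i, ‖F i 0‖ ^ 2 with hS
  have hs : 0 < √S := Real.sqrt_pos.2 hp
  refine ⟨hp, fun z => (∑ i, F i z * (starRingEnd ℂ) (F i 0)) / (√S : ℝ), ?_, ?_, ?_⟩
  · exact (Finset.analyticAt_fun_sum _ fun i _ => (hF i).mul analyticAt_const).div_const
  · have : ∑ i, F i 0 * (starRingEnd ℂ) (F i 0) = (S : ℂ) := by
      rw [hS]; push_cast; exact Finset.sum_congr rfl fun i _ => Complex.mul_conj' _
    show ‖(∑ i, F i 0 * (starRingEnd ℂ) (F i 0)) / ((√S : ℝ) : ℂ)‖ ^ 2 = S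
    rw [this, norm_div, Complex.norm_real, Complex.norm_real, Real.norm_of_nonneg hp.le,
      Real.norm_of_nonneg hs.le, Real.div_sqrt, Real.sq_sqrt hp.le]
  · refine Eventually.of_forall fun z => ?_
    simp only [norm_div, Complex.norm_real, Real.norm_of_nonneg hs.le, div_pow,
      Real.sq_sqrt hp.le]
    rw [div_le_iff₀ hp]
    refine le_trans ?_ (Finset.sum_mul_sq_le_sq_mul_sq Finset.univ (fun i => ‖F i z‖)
      (fun i => ‖F i 0‖))
    refine pow_le_pow_left₀ (norm_nonneg _) ((norm_sum_le _ _).trans (le_of_eq ?_)) 2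
    simp

variable {V : Type*} [NormedAddCommGroup V] [NormedSpace ℂ V] [FiniteDimensional ℂ V]
  {h : V → V → ℂ}

/-- The form as a continuous functional in the first slot. -/
noncomputable def Herm.clm (H : Herm h) (v : V) : V →L[ℂ] ℂ :=
  LinearMap.toContinuousLinearMap (H.lin v)

@[simp] lemma Herm.clm_apply (H : Herm h) (v u : V) : H.clm v u = h u v := rfl

lemma Herm.bound (H : Herm h) : ∃ C : ℝ, 0 < C ∧ ∀ u v, ‖h u v‖ ≤ C * ‖u‖ * ‖v‖ := by
  let L : V →ₗ[ℝ] V →L[ℂ] ℂ :=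
    { toFun := fun v => H.clm v
      map_add' := fun a b => by ext u; simp [H.add']
      map_smul' := fun c a => by
        ext u
        have := H.smul' (c : ℂ) u a
        simp only [Complex.coe_smul, Complex.conj_ofReal] at this
        simp [this] }
  obtain ⟨C, hC, hb⟩ := (LinearMap.toContinuousLinearMap L).bound
  refine ⟨C, hC, fun u v => ?_⟩
  calc ‖h u v‖ = ‖L v u‖ := rfl
    _ ≤ ‖L v‖ * ‖u‖ := (L v).le_opNorm u
    _ ≤ C * ‖v‖ * ‖u‖ := mul_le_mul_of_nonneg_right (hb v) (norm_nonneg _)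
    _ = _ := by ring

/-- No negative local minimum along a disc with a negative transverse direction. -/
theorem no_neg_min (H : Herm h) {W : ℂ → V} (hW : AnalyticAt ℂ W 0) {t : V} {c : ℂ}
    (hd : deriv W 0 = t + c • W 0) (o : h t (W 0) = 0) (ht : (h t t).re < 0)
    (hw : (h (W 0) (W 0)).re < 0) {g : ℂ → ℝ} (hg : Psh g) :
    ¬ IsLocalMin (fun z => (h (W z) (W z)).re * g z) 0 := by
  intro hm
  obtain ⟨g0, k, ka, k0, kl⟩ := hg
  obtain ⟨C, hC, hb⟩ := H.bound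
  have hk : k 0 ≠ 0 := fun e => by rw [e] at k0; simp at k0; exact g0.ne k0
  have n0 : h (W 0) (W 0) ≠ 0 := fun e => by rw [e] at hw; simp at hw
  have nt : h t t ≠ 0 := fun e => by rw [e] at ht; simp at ht
  have dW : HasDerivAt W (t + c • W 0) 0 := hd ▸ hW.differentiableAt.hasDerivAt
  set c0 : ℂ → ℂ := fun z => h (W z) (W 0) / h (W 0) (W 0) with hc0
  set c1 : ℂ → ℂ := fun z => h (W z) t / h t t with hc1
  have d0 : HasDerivAt c0 c 0 := by
    have := ((H.clm (W 0)).hasFDerivAt.comp_hasDerivAt 0 dW).div_const (h (W 0) (W 0))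
    refine this.congr_deriv ?_
    simp only [Herm.clm_apply]; rw [H.add, H.smul, o]; field_simp; simp
  have d1 : HasDerivAt c1 1 0 := by
    have := ((H.clm t).hasFDerivAt.comp_hasDerivAt 0 dW).div_const (h t t)
    refine this.congr_deriv ?_
    simp only [Herm.clm_apply]; rw [H.add, H.smul, H.orth o]; field_simp; simp
  have c00 : c0 0 = 1 := div_self n0
  have c10 : c1 0 = 0 := by simp only [hc1]; rw [H.orth o, zero_div]
  set r : ℂ → V := fun z => W z - c0 z • W 0 - c1 z • t with hr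
  have dr : HasDerivAt r 0 0 := by
    have := (dW.sub (d0.smul_const (W 0))).sub (d1.smul_const t)
    exact this.congr_deriv (by simp)
  have r0 : r 0 = 0 := by simp [hr, c00, c10]
  have dec : ∀ z, (h (W z) (W z)).re =
      ‖c0 z‖ ^ 2 * (h (W 0) (W 0)).re + ‖c1 z‖ ^ 2 * (h t t).re + (h (r z) (r z)).re := by
    intro z
    have o1 : h (r z) (W 0) = 0 := by
      simp only [hr, hc0]; rw [H.sub, H.sub, H.smul, H.smul, o]; field_simp; simp
    have o2 : h (r z) t = 0 := by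
      simp only [hr, hc1]; rw [H.sub, H.sub, H.smul, H.smul, H.orth o]; field_simp; simp
    have e : W z = c0 z • W 0 + c1 z • t + r z := by simp [hr]
    conv_lhs => rw [e]
    rw [H.re_add_orth, H.re_add_orth, H.re_smul, H.re_smul]
    · rw [H.smul, H.smul', H.orth o]; simp
    · rw [H.add, H.smul, H.smul, H.orth o1, H.orth o2]; simp
  obtain ⟨e, he, he2⟩ : ∃ e : ℝ, 0 < e ∧ C * e * e ≤ -(h t t).re / 8 := by
    refine ⟨min 1 (-(h t t).re / 8 / C), lt_min one_pos (div_pos (by linarith) hC), ?_⟩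
    have a1 : C * min 1 (-(h t t).re / 8 / C) ≤ -(h t t).re / 8 := by
      have := mul_le_mul_of_nonneg_left (min_le_right 1 (-(h t t).re / 8 / C)) hC.le
      rwa [mul_div_cancel₀ _ hC.ne'] at this
    have a2 := min_le_left 1 (-(h t t).re / 8 / C)
    have a3 : 0 ≤ C * min 1 (-(h t t).re / 8 / C) :=
      mul_nonneg hC.le (le_min zero_le_one (div_pos (by linarith) hC).le)
    nlinarith
  have s1 : ∀ᶠ z in 𝓝 (0 : ℂ), ‖r z‖ ≤ e * ‖z‖ := by
    have := dr.isLittleO.def he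
    simpa [r0] using this
  have s2 : ∀ᶠ z in 𝓝 (0 : ℂ), ‖c1 z - z‖ ≤ 1 / 2 * ‖z‖ := by
    have := d1.isLittleO.def (show (0 : ℝ) < 1 / 2 by norm_num)
    simpa [c10] using this
  have s3 : ∀ᶠ z in 𝓝 (0 : ℂ), k z ≠ 0 := ka.continuousAt.eventually_ne hk
  have strict : ∀ᶠ z in 𝓝 (0 : ℂ), z ≠ 0 → ‖c0 z * k z‖ ^ 2 < ‖c0 0 * k 0‖ ^ 2 := by
    filter_upwards [s1, s2, s3, kl, hm] with z a1 a2 a3 a4 a5 hz
    have z0 : 0 < ‖z‖ := norm_pos_iff.2 hz
    have b1 : ‖z‖ / 2 ≤ ‖c1 z‖ := by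
      have := norm_sub_norm_le z (c1 z); rw [norm_sub_rev] at this; linarith
    have b2 : (h (r z) (r z)).re ≤ -(h t t).re / 8 * ‖z‖ ^ 2 := by
      refine (Complex.re_le_norm _).trans ((hb _ _).trans ?_)
      calc C * ‖r z‖ * ‖r z‖ ≤ C * (e * ‖z‖) * (e * ‖z‖) := by gcongr
        _ = C * e * e * ‖z‖ ^ 2 := by ring
        _ ≤ _ := by gcongr
    have b3 : ‖z‖ ^ 2 / 4 ≤ ‖c1 z‖ ^ 2 := by nlinarith
    have b4 : (h (W z) (W z)).re < ‖c0 z‖ ^ 2 * (h (W 0) (W 0)).re := by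
      rw [dec z]; nlinarith [mul_pos (neg_pos.2 ht) (pow_pos z0 2)]
    have b5 : (h (W z) (W z)).re < 0 := by nlinarith [sq_nonneg ‖c0 z‖]
    have b6 : 0 < ‖k z‖ ^ 2 := by positivity
    rw [c00, one_mul, k0, norm_mul, mul_pow]
    nlinarith
  have an : AnalyticAt ℂ (fun z => c0 z * k z) 0 :=
    (((H.clm (W 0)).analyticAt _).comp hW).div_const.mul ka
  have lm : IsLocalMax (norm ∘ fun z => c0 z * k z) 0 := by
    filter_upwards [strict] with z a
    by_cases hz : z = 0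
    · rw [hz]
    · exact (pow_lt_pow_iff_left₀ (norm_nonneg _) (norm_nonneg _) two_ne_zero).1 (a hz) |>.le
  have ev := Complex.eventually_eq_of_isLocalMax_norm
    (an.eventually_analyticAt.mono fun z a => a.differentiableAt) lm
  have : ∀ᶠ z in 𝓝[≠] (0 : ℂ), False := by
    filter_upwards [nhdsWithin_le_nhds ev, nhdsWithin_le_nhds strict, self_mem_nhdsWithin]
      with z a b c
    have := b c
    rw [a] at this
    exact lt_irrefl _ this
  exact this.exists.elim fun _ a => a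

/-- At a zero of a nonnegative norm the derivative is orthogonal to the vector. -/
theorem touch (H : Herm h) {W : ℂ → V} {t : V} (dW : HasDerivAt W t 0)
    (hw : (h (W 0) (W 0)).re = 0) (hp : ∀ᶠ z in 𝓝 0, 0 ≤ (h (W z) (W z)).re) : h t (W 0) = 0 := by
  obtain ⟨C, hC, hb⟩ := H.bound
  by_contra hne
  set a := h t (W 0)
  have ha : 0 < ‖a‖ := norm_pos_iff.2 hne
  have d1 : HasDerivAt (fun z => h (W z) (W 0)) a 0 :=
    (H.clm (W 0)).hasFDerivAt.comp_hasDerivAt 0 dW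
  have h00 : h (W 0) (W 0) = 0 := by rw [H.self_re, hw]; simp
  have s1 : ∀ᶠ z in 𝓝 (0 : ℂ), ‖h (W z) (W 0) - z * a‖ ≤ ‖a‖ / 4 * ‖z‖ := by
    have := d1.isLittleO.def (show 0 < ‖a‖ / 4 by positivity)
    simpa [h00] using this
  have s2 : ∀ᶠ z in 𝓝 (0 : ℂ), ‖W z - W 0‖ ≤ (‖t‖ + 1) * ‖z‖ := by
    have := dW.isLittleO.def one_pos
    filter_upwards [this] with z hz
    have e : W z - W 0 = (W z - W 0 - (z - 0) • t) + z • t := by simp
    rw [e]
    refine (norm_add_le _ _).trans ?_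
    rw [norm_smul]; simp only [sub_zero, one_mul] at hz ⊢; linarith
  have s3 : ∀ᶠ z in 𝓝 (0 : ℂ), C * (‖t‖ + 1) ^ 2 * ‖z‖ < ‖a‖ := by
    have : ContinuousAt (fun z : ℂ => C * (‖t‖ + 1) ^ 2 * ‖z‖) 0 := by fun_prop
    exact this.eventually_lt continuousAt_const (by simpa using ha)
  have tt : Tendsto (fun s : ℝ => -(s : ℂ) * (starRingEnd ℂ) a) (𝓝[>] 0) (𝓝 0) := by
    have : Continuous (fun s : ℝ => -(s : ℂ) * (starRingEnd ℂ) a) := by fun_prop
    simpa using (this.tendsto 0).mono_left nhdsWithin_le_nhds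
  obtain ⟨s, ⟨⟨a1, a2⟩, a3, a4⟩, hs⟩ :=
    ((tt.eventually ((s1.and s2).and (s3.and hp))).and self_mem_nhdsWithin).exists
  have hs' : 0 < s := hs
  set z := -(s : ℂ) * (starRingEnd ℂ) a with hz
  have nz : ‖z‖ = s * ‖a‖ := by simp [hz, abs_of_pos hs']
  have e1 : (z * a).re = -(‖z‖ * ‖a‖) := by
    rw [nz, hz, mul_assoc, Complex.conj_mul', ← Complex.ofReal_pow, ← Complex.ofReal_neg,
      ← Complex.ofReal_mul, Complex.ofReal_re]; ring
  have e2 : (h (W z) (W z)).re = 2 * (h (W z) (W 0)).re + (h (W z - W 0) (W z - W 0)).re := by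
    rw [H.sub, H.sub', H.sub', h00, H.symm (W z) (W 0)]; simp; ring
  have e3 : (h (W z) (W 0)).re ≤ -(‖z‖ * ‖a‖) + ‖a‖ / 4 * ‖z‖ := by
    have := (Complex.re_le_norm _).trans a1
    rw [Complex.sub_re, e1] at this; linarith
  have e4 : (h (W z - W 0) (W z - W 0)).re ≤ C * (‖t‖ + 1) ^ 2 * ‖z‖ * ‖z‖ := by
    refine (Complex.re_le_norm _).trans ((hb _ _).trans ?_)
    calc C * ‖W z - W 0‖ * ‖W z - W 0‖ ≤ C * ((‖t‖ + 1) * ‖z‖) * ((‖t‖ + 1) * ‖z‖) := by gcongr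
      _ = _ := by ring
  have z0 : 0 < ‖z‖ := by rw [nz]; positivity
  nlinarith [mul_pos z0 ha]

/-- The signs everywhere.  `f` is the weighted norm of `w` on the base `S`. -/
theorem signs {X : Type*} (S : Set X) (h : X → V → V → ℂ) (f : X → ℝ)
    (hmin : (∃ p ∈ S, f p < 0) → ∃ p ∈ S, ∀ q ∈ S, f p ≤ f q)
    (F U : X → Submodule ℂ V) (w : X → V) (P : ∀ p ∈ S, Pt (h p) (F p) (U p))
    (hw : ∀ p ∈ S, w p ∈ F p) (h0 : ∀ p ∈ S, w p ≠ 0)
    (disc : ∀ p ∈ S, ∀ t ∈ F p, ∃ (γ : ℂ → X) (W : ℂ → V) (g : ℂ → ℝ) (c : ℂ), γ 0 = p ∧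
      AnalyticAt ℂ W 0 ∧ W 0 = w p ∧ deriv W 0 = t + c • w p ∧ Psh g ∧
      ∀ᶠ z in 𝓝 0, γ z ∈ S ∧ f (γ z) = (h p (W z) (W z)).re * g z) (p : X) (hp : p ∈ S) :
    0 < (h p (w p) (w p)).re ∧ ∀ t ∈ F p, h p t (w p) = 0 → t ≠ 0 → (h p t t).re < 0 := by
  have nn : ∀ q ∈ S, 0 ≤ f q := by
    by_contra hc
    push Not at hc
    obtain ⟨p, pS, hp⟩ := hmin hc
    obtain ⟨q, qS, hq⟩ := hc
    have neg : (h p (w p) (w p)).re < 0 := by
      obtain ⟨γ, W, g, c, e0, -, e1, -, hg, ev⟩ := disc p pS (w p) (hw p pS)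
      have := ev.self_of_nhds.2
      rw [e0, e1] at this
      by_contra hc
      have := mul_nonneg (not_lt.1 hc) hg.1.le
      linarith [hp q qS]
    obtain ⟨t, ht, o, tn⟩ := (P p pS).neg_dir (hw p pS) neg
    obtain ⟨γ, W, g, c, e0, an, e1, e2, hg, ev⟩ := disc p pS t ht
    refine no_neg_min (P p pS).herm an (c := c) (by rw [e2, e1]) (by rwa [e1]) tn (by rwa [e1])
      hg ?_
    filter_upwards [ev] with z hz
    rw [← hz.2, ← ev.self_of_nhds.2, e0]
    exact hp _ hz.1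
  have H := (P p hp).herm
  have loc : ∀ t ∈ F p, ∃ (W : ℂ → V) (c : ℂ), W 0 = w p ∧ HasDerivAt W (t + c • w p) 0 ∧
      ∀ᶠ z in 𝓝 0, 0 ≤ (h p (W z) (W z)).re := by
    intro t ht
    obtain ⟨γ, W, g, c, -, an, e1, e2, ⟨g0, k, ka, k0, kl⟩, ev⟩ := disc p hp t ht
    have hk : k 0 ≠ 0 := fun e => by rw [e] at k0; simp at k0; exact g0.ne k0
    refine ⟨W, c, e1, e2 ▸ an.differentiableAt.hasDerivAt, ?_⟩
    filter_upwards [ev, kl, ka.continuousAt.eventually_ne hk] with z a1 a2 a3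
    have : 0 < g z := lt_of_lt_of_le (by positivity) a2
    exact nonneg_of_mul_nonneg_left (a1.2 ▸ nn _ a1.1) this
  have pos : 0 < (h p (w p) (w p)).re := by
    obtain ⟨W, c, e1, -, ev⟩ := loc (w p) (hw p hp)
    have := ev.self_of_nhds
    rw [e1] at this
    refine lt_of_le_of_ne this fun e => h0 p hp ((P p hp).rad (hw p hp) fun t ht => ?_)
    obtain ⟨W, c, e1, d, ev⟩ := loc t ht
    have := touch H d (by rw [e1, ← e]) ev
    rwa [e1, H.add, H.smul, H.self_re (w p), ← e, Complex.ofReal_zero, mul_zero, add_zero] at this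
  exact ⟨pos, fun t ht o t0 => (P p hp).tan_neg (hw p hp) pos ht o t0⟩

omit [FiniteDimensional ℂ V] in
/-- The reverse Cauchy-Schwarz inequality from the two signs. -/
theorem rev_cs (H : Herm h) {F : Submodule ℂ V} {w : V} (hw : w ∈ F) (hp : 0 < (h w w).re)
    (hn : ∀ t ∈ F, h t w = 0 → t ≠ 0 → (h t t).re < 0) {x : V} (hx : x ∈ F) :
    (h w w).re * (h x x).re ≤ ‖h w x‖ ^ 2 := by
  have hww : h w w ≠ 0 := fun e => by rw [e] at hp; simp at hp
  set c := h x w / h w w with hc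
  have o : h (x - c • w) w = 0 := by rw [H.sub, H.smul, hc]; field_simp; ring
  have n : (h (x - c • w) (x - c • w)).re ≤ 0 := by
    by_cases e : x - c • w = 0
    · rw [e, H.zero]; simp
    · exact (hn _ (F.sub_mem hx (F.smul_mem _ hw)) o e).le
  have e : (h x x).re = (h (x - c • w) (x - c • w)).re + ‖c‖ ^ 2 * (h w w).re := by
    rw [← H.re_smul, ← H.re_add_orth (by rw [H.smul', o, mul_zero]), sub_add_cancel]
  have e2 : ‖h w x‖ = ‖c‖ * (h w w).re := by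
    rw [H.symm x w, RCLike.norm_conj, hc, norm_div, H.self_re w, Complex.norm_real,
      Complex.ofReal_re, Real.norm_of_nonneg hp.le, div_mul_cancel₀ _ hp.ne']
  rw [e, e2]
  nlinarith

end Pool.Agent.Lib.MP_0c623d_al.BP
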