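import Pool.Agent.Lib.MP_0c623d_al.BP.Sk

set_option autoImplicit false

/-!
The bridge between the Gram matrix of a frame and the structure `Gr`, and the remaining statements.
-/

namespace Pool.Agent.Lib.MP_0c623d_al.BP

open Complex Matrix Filter Topology Set Function
open Pool.Agent.BP.F (V Mat E3 hh Om Ch NoTriple cfg Adm pw Sect Spacelike QQ AN sw)

noncomputable section

variable {e : ℝ} {f : FR e}

/-- the Gram matrix on rows -/
def GR.Hk (g : GR f) (a : Cf) : M6 := (g.Gam a)ᵀ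

/-- its inverse -/
def GR.Hi (g : GR f) (a : Cf) : M6 := (g.Gam a)⁻¹ᵀ

theorem th_eq (a v : Cf) : th a v = Bm a v := rfl

theorem qf_tr (X : M6) (x y : V) : qf Xᵀ x y = hh X y x := by
  rw [qf, hh, dotProduct_mulVec, vecMul_transpose, dotProduct_comm]

theorem GR.qf_Hk (g : GR f) (a : Cf) (x y : V) : qf (g.Hk a) x y = hh (g.Gam a) y x :=
  qf_tr _ _ _

theorem GR.gam_unit (g : GR f) {a : Cf} (ha : Injective a) : IsUnit (g.Gam a) := by
  obtain ⟨P, hP, h⟩ := g.cong a ha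
  rw [h]
  exact (((Matrix.isUnit_conjTranspose P).2 hP).mul g.unitH).mul hP

theorem GR.gam_herm (g : GR f) {a : Cf} (ha : Injective a) : (g.Gam a)ᴴ = g.Gam a := by
  obtain ⟨P, -, h⟩ := g.cong a ha
  rw [h, conjTranspose_mul, conjTranspose_mul, conjTranspose_conjTranspose, g.herm.eq, mul_assoc]

theorem tr_star (X : M6) : Xᵀᴴᵀ = Xᴴ := by
  ext i j
  simp

theorem GR.loc' (g : GR f) {a : Cf} (ha : a ∈ Om) :
    g.Hk a = f.Y a * g.Hmᵀ * (f.Y a)ᴴ := by
  rw [GR.Hk, g.loc a ha, transpose_mul, transpose_mul, transpose_transpose, tr_star, mul_assoc]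

theorem GR.gr (g : GR f) : Gr e g.Hk g.Hi where
  der a ha := by
    obtain ⟨L, hL, hd⟩ := g.der a ha
    let T : (Fin 6 → Fin 6 → ℂ) →L[ℝ] (Fin 6 → Fin 6 → ℂ) :=
      LinearMap.toContinuousLinearMap (transposeLinearEquiv (Fin 6) (Fin 6) ℝ ℂ).toLinearMap
    have h := HasFDerivAt.comp (F := Fin 6 → Fin 6 → ℂ) (G := Fin 6 → Fin 6 → ℂ) (f := g.Gam)
      (f' := L) a T.hasFDerivAt hd
    refine ⟨T.comp L, h, fun v => ?_⟩
    change (L v)ᵀ = _
    rw [hL, transpose_add, transpose_mul, transpose_mul, transpose_transpose, tr_star, add_comm]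
    rfl
  inv a ha := by
    have h := (Matrix.isUnit_iff_isUnit_det _).1 (g.gam_unit ha)
    rw [GR.Hk, GR.Hi, ← transpose_mul, ← transpose_mul, nonsing_inv_mul _ h, mul_nonsing_inv _ h,
      transpose_one]
    exact ⟨rfl, rfl⟩
  herm a ha := by
    rw [GR.Hk]
    nth_rewrite 2 [← g.gam_herm ha]
    ext i j
    simp
  perm σ a ha := by
    rw [GR.Hk, g.perm a ha σ]
    rfl
  dual a ha l := by
    rw [← g.pos a ha l, ← qf_tr, qf, star_star]
    rfl

theorem hh_cong (Hm P : Mat) (x y : V) : hh (Pᴴ * Hm * P) x y = hh Hm (P *ᵥ x) (P *ᵥ y) := by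
  rw [hh, hh, star_mulVec, ← mulVec_mulVec, ← mulVec_mulVec, dotProduct_mulVec]

/-- the square norm of the period vector is bounded away from the triple collisions -/
def Bdd (Hk : Cf → M6) : Prop := ∀ a0 : Cf, NoTriple a0 → ∃ C : ℝ, ∀ᶠ a in 𝓝 a0,
  Injective a → ‖qf (Hk a) (cw a) (cw a)‖ ≤ C

/-- the bound follows from the charts -/
def BddSt : Prop := ∀ k : ℕ, Odd k → ∀ (e : ℝ) (f : FR e) (g : GR f), g.Charts k → Bdd g.Hk

/-- the signs at configurations of distinct points -/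
def SgSt : Prop := ∀ (j : ℕ) (e : ℝ), 3 ≤ j → e = 1 / (4 * j + 2) → ∀ Hk Hi : Cf → M6,
  Gr e Hk Hi → Bdd Hk → Sg Hk

/-- the signs at the centres of charts -/
def SpSt : Prop := ∀ k : ℕ, Odd k → ∀ (e : ℝ) (f : FR e) (g : GR f),
  (∀ a : Cf, Injective a → 0 < g.phi a) → g.Neg → g.Sgn k

end

end Pool.Agent.Lib.MP_0c623d_al.BP
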