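import Pool.Agent.Lib.MP_0c623d_al.BP.Signs
import Pool.Agent.Lib.MP_0c623d_al.BP.Conn
import Pool.Agent.Lib.MP_0c623d_al.E.Defs

set_option autoImplicit false

/-!
The Gram matrix in local flat frames, the negative plane at every point, and the pointwise data.
-/

namespace Pool.Agent.Lib.MP_0c623d_al.BP

open Complex Matrix Filter Topology Function
open Module (finrank)
open scoped ComplexConjugate Matrix.Norms.Operator

variable {e : ℝ} {Hk Hi : Cf → M6}

lemma isOpen_inj : IsOpen {a : Cf | Injective a} := by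
  have : {a : Cf | Injective a} = ⋂ i, ⋂ j, {a : Cf | a i = a j → i = j} := by
    ext a; simp [Injective]
  rw [this]
  refine isOpen_iInter_of_finite fun i => isOpen_iInter_of_finite fun j => ?_
  by_cases h : i = j
  · simp [h]
  · simp only [h, imp_false]
    exact isOpen_ne_fun (continuous_apply i) (continuous_apply j)

lemma preconn_inj : IsPreconnected {a : Cf | Injective a} := by
  refine isPreconnected_of_forall_pair fun a ha b hb => ?_
  have fin : {z : ℂ | ¬ Injective (a + z • (b - a))}.Countable := by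
    have : {z : ℂ | ¬ Injective (a + z • (b - a))} ⊆
        Set.range fun p : Fin 4 × Fin 4 => (a p.1 - a p.2) / ((b - a) p.2 - (b - a) p.1) := by
      intro z hz
      simp only [Set.mem_ofPred_eq, Injective, not_forall] at hz
      obtain ⟨i, j, h, hij⟩ := hz
      simp only [Pi.add_apply, Pi.smul_apply, smul_eq_mul] at h
      have h0 : (b - a) j - (b - a) i ≠ 0 := fun h0 => hij (ha (by linear_combination h + z * h0))
      exact ⟨(i, j), by simp only; rw [div_eq_iff h0]; linear_combination h⟩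
    exact (Set.countable_range _).mono this
  have pc := (fin.isPathConnected_compl_of_one_lt_rank (by simp)).isConnected.isPreconnected
  refine ⟨(fun z : ℂ => a + z • (b - a)) '' _, ?_, ⟨0, by simpa using ha, by simp⟩,
    ⟨1, by simpa using hb, by simp⟩, pc.image (fun z : ℂ => a + z • (b - a)) (by fun_prop)⟩
  rintro _ ⟨z, hz, rfl⟩
  simpa using hz

/-- the conjugate transpose as a real continuous linear map -/
noncomputable def ctL : M6 →L[ℝ] M6 :=
  LinearMap.toContinuousLinearMap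
    { toFun := fun X => Xᴴ
      map_add' := conjTranspose_add
      map_smul' := fun c X => by ext i j; simp [conjTranspose_apply] }

@[simp] lemma ctL_apply (X : M6) : ctL X = Xᴴ := rfl

lemma gram_loc (g : Gr e Hk Hi) {U : Set Cf} (hU : IsOpen U) (hc : IsPreconnected U)
    (hi : ∀ a ∈ U, Injective a) {p : Cf} (hp : p ∈ U) {Y : Cf → M6} (h1 : Y p = 1)
    (hY : ∀ a ∈ U, IsUnit (Y a) ∧ ∃ L : Cf →L[ℂ] M6, (∀ v, L v = conn e a v * Y a) ∧
      HasFDerivAt Y L a) : ∀ a ∈ U, Hk a = Y a * Hk p * (Y a)ᴴ := by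
  have key : ∀ a ∈ U, HasFDerivAt
      (fun x => Ring.inverse (Y x) * Hk x * ctL (Ring.inverse (Y x))) (0 : Cf →L[ℝ] M6) a := by
    intro a ha
    obtain ⟨⟨y, hy⟩, L, hL, dY⟩ := hY a ha
    obtain ⟨D, dH, hD⟩ := g.der a (hi a ha)
    have h := hasFDerivAt_ringInverse (𝕜 := ℂ) y
    rw [hy] at h
    have dI := (h.comp a dY).restrictScalars ℝ
    refine ((dI.mul' dH).mul' (ctL.hasFDerivAt.comp a dI)).congr_fderiv ?_
    ext1 v
    have e1 : (↑y⁻¹ : M6) * (conn e a v * (y : M6)) * (↑y⁻¹ : M6) = ↑y⁻¹ * conn e a v := by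
      simp only [mul_assoc, Units.mul_inv, mul_one]
    change (Ring.inverse (Y a) * Hk a) * (-((↑y⁻¹ : M6) * L v * (↑y⁻¹ : M6)))ᴴ +
      (Ring.inverse (Y a) * D v + -((↑y⁻¹ : M6) * L v * (↑y⁻¹ : M6)) * Hk a) *
        (Ring.inverse (Y a))ᴴ = 0
    rw [hL, hD, ← hy, Ring.inverse_unit, e1, conjTranspose_neg, conjTranspose_mul]
    noncomm_ring
  obtain ⟨c, hc⟩ := hU.exists_is_const_of_fderiv_eq_zero (𝕜 := ℝ) hc
    (fun x hx => (key x hx).differentiableAt.differentiableWithinAt) fun x hx => (key x hx).fderiv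
  intro a ha
  have e1 := hc a ha
  have e2 := hc p hp
  simp only [h1, Ring.inverse_one, ctL_apply, conjTranspose_one, mul_one, one_mul] at e1 e2
  rw [e2, ← e1]
  have hu := (hY a ha).1
  rw [← mul_assoc, ← mul_assoc, Ring.mul_inverse_cancel _ hu, one_mul, mul_assoc,
    ← conjTranspose_mul, Ring.mul_inverse_cancel _ hu, conjTranspose_one, mul_one]

lemma qf_frame (Y X : M6) (x y : Fin 6 → ℂ) : qf (Y * X * Yᴴ) x y = qf X (x ᵥ* Y) (y ᵥ* Y) := by
  simp only [qf, star_vecMul, ← mulVec_mulVec, dotProduct_mulVec x Y]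

/-- a local flat frame at a point -/
lemma frame_at (g : Gr e Hk Hi) {p : Cf} (hp : Injective p) : ∃ r > 0, ∃ Y : Cf → M6, Y p = 1 ∧
    ∀ a ∈ Metric.ball p r, Injective a ∧ IsUnit (Y a) ∧ Hk a = Y a * Hk p * (Y a)ᴴ ∧
      ∃ L : Cf →L[ℂ] M6, (∀ v, L v = conn e a v * Y a) ∧ HasFDerivAt Y L a := by
  obtain ⟨r, hr, hb⟩ := Metric.isOpen_iff.1 isOpen_inj p hp
  obtain ⟨Y, h1, hY⟩ := conn_frame e Metric.isOpen_ball (Metric.mem_ball_self hr)
    ((convex_ball p r).starConvex (Metric.mem_ball_self hr)) fun a ha => hb ha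
  exact ⟨r, hr, Y, h1, fun a ha => ⟨hb ha, (hY a ha).1, gram_loc g Metric.isOpen_ball
    (convex_ball p r).isPreconnected (fun a ha => hb ha) (Metric.mem_ball_self hr) h1 hY a ha,
    (hY a ha).2⟩⟩

/-- a negative definite plane -/
def NegPl (X : M6) : Prop := ∃ x y : Fin 6 → ℂ, ∀ p q : ℂ, (p ≠ 0 ∨ q ≠ 0) →
  (qf X (p • x + q • y) (p • x + q • y)).re < 0

lemma NegPl.of_conj {Y X : M6} (h : NegPl (Y * X * Yᴴ)) : NegPl X := by
  obtain ⟨x, y, h⟩ := h
  refine ⟨x ᵥ* Y, y ᵥ* Y, fun p q hpq => ?_⟩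
  have := h p q hpq
  rwa [qf_frame, add_vecMul, smul_vecMul, smul_vecMul] at this

lemma NegPl.conj {Y X : M6} (hY : IsUnit Y) (h : NegPl X) : NegPl (Y * X * Yᴴ) := by
  refine NegPl.of_conj (Y := Ring.inverse Y) ?_
  rwa [← mul_assoc, ← mul_assoc, Ring.inverse_mul_cancel _ hY, one_mul, mul_assoc,
    ← conjTranspose_mul, Ring.inverse_mul_cancel _ hY, conjTranspose_one, mul_one]

lemma negPl_all (g : Gr e Hk Hi) {a : Cf} (ha : Injective a) (h : NegPl (Hk a)) {b : Cf}
    (hb : Injective b) : NegPl (Hk b) := by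
  refine preconn_inj.induction₂' (fun x y => NegPl (Hk x) → NegPl (Hk y)) (fun x hx => ?_)
    (fun x y z _ _ _ h1 h2 => h2 ∘ h1) ha hb h
  obtain ⟨r, hr, Y, -, hY⟩ := frame_at g hx
  filter_upwards [nhdsWithin_le_nhds (Metric.ball_mem_nhds x hr)] with y hy
  obtain ⟨-, hu, e1, -⟩ := hY y hy
  rw [e1]
  exact ⟨NegPl.conj hu, NegPl.of_conj⟩

lemma herm_qf {X : M6} (hX : Xᴴ = X) : Herm (qf X) where
  add u v w := add_dotProduct _ _ _
  smul c u v := smul_dotProduct _ _ _
  symm u v := by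
    simp only [qf]
    rw [← star_def, ← star_dotProduct_star, star_mulVec, star_star, hX, ← dotProduct_mulVec]

/-- the row `M(a, v)` as a linear map in `v` -/
noncomputable def BmL (a : Cf) : Cf →ₗ[ℂ] (Fin 6 → ℂ) where
  toFun := Bm a
  map_add' u v := by ext n; simp [Bm]; ring
  map_smul' c v := by ext n; simp [Bm]; ring

lemma finrank_BmL {a : Cf} (ha : Injective a) : finrank ℂ (LinearMap.range (BmL a)) = 3 := by
  have hk : LinearMap.ker (BmL a) = ℂ ∙ (fun _ => 1 : Cf) := by
    ext v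
    rw [LinearMap.mem_ker, Submodule.mem_span_singleton]
    constructor
    · intro h
      have h' : ∀ n, v (fst n) = v (snd n) := fun n =>
        sub_eq_zero.1 ((mul_eq_zero.1 (congrFun h n)).resolve_left (dif_ne ha n))
      refine ⟨v 0, funext fun i => ?_⟩
      have h0 := h' 0; have h1 := h' 1; have h2 := h' 2
      fin_cases i <;> simp_all [fst, snd]
    · rintro ⟨c, rfl⟩; ext n; simp [BmL, Bm]
  have := LinearMap.finrank_range_add_finrank_ker (BmL a)
  rw [hk, finrank_span_singleton (fun h => by simpa using congrFun h 0)] at this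
  simp at this; omega

lemma Bm_Srow {a : Cf} (ha : Injective a) (v : Cf) (l : Fin 3 → ℂ) : Bm a v ⬝ᵥ Srow a l = 0 := by
  have h0 := dif_ne ha 0; have h1 := dif_ne ha 1; have h2 := dif_ne ha 2
  have h3 := dif_ne ha 3; have h4 := dif_ne ha 4; have h5 := dif_ne ha 5
  simp only [dif_apply, fst, snd] at h0 h1 h2 h3 h4 h5
  simp [dotProduct, Fin.sum_univ_six, Bm, Srow, cw, Pc, ell, fst, snd, cpl] at *
  have k0 : a 1 - a 0 ≠ 0 := fun h => h0 (by linear_combination -h)
  have k1 : a 2 - a 0 ≠ 0 := fun h => h1 (by linear_combination -h)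
  have k2 : a 3 - a 0 ≠ 0 := fun h => h2 (by linear_combination -h)
  have k3 : a 2 - a 1 ≠ 0 := fun h => h3 (by linear_combination -h)
  have k4 : a 3 - a 1 ≠ 0 := fun h => h4 (by linear_combination -h)
  have k5 : a 3 - a 2 ≠ 0 := fun h => h5 (by linear_combination -h)
  field_simp
  ring

/-- the derivative of the period row -/
lemma cw_conn (e : ℝ) {a : Cf} (ha : Injective a) (v : Cf) :
    (2 : ℂ) • Bm a v + cw a ᵥ* conn e a v = (5 * al e + 1) • Bm a v := by
  have h0 := dif_ne ha 0; have h1 := dif_ne ha 1; have h2 := dif_ne ha 2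
  have h3 := dif_ne ha 3; have h4 := dif_ne ha 4; have h5 := dif_ne ha 5
  simp only [dif_apply, fst, snd] at h0 h1 h2 h3 h4 h5
  have hb : be e = -1 - 3 * al e := by simp only [al, be]; ring
  ext n
  fin_cases n <;>
  · simp [vecMul, dotProduct, Fin.sum_univ_six, Bm, cw, conn, Res, ResA, fst, snd, hb,
      Matrix.add_apply] at *
    field_simp
    ring

/-- the positive space -/
noncomputable def UL (X : M6) (a : Cf) : (Fin 3 → ℂ) →ₗ[ℂ] (Fin 6 → ℂ) where
  toFun l := star (X *ᵥ Srow a (star l))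
  map_add' u v := by
    rw [← star_add, ← mulVec_add]; congr 2; ext n; simp [Srow, ell]; ring
  map_smul' c v := by
    have : Srow a (star (c • v)) = star c • Srow a (star v) := by ext n; simp [Srow, ell]; ring
    rw [this, mulVec_smul, star_smul, star_star]; rfl

lemma qf_UL (g : Gr e Hk Hi) {a : Cf} (ha : Injective a) (x : Fin 6 → ℂ) (l : Fin 3 → ℂ) :
    qf (Hk a) x (UL (Hi a) a l) = x ⬝ᵥ Srow a (star l) := by
  simp only [qf, UL, LinearMap.coe_mk, AddHom.coe_mk, star_star, mulVec_mulVec, (g.inv a ha).1,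
    one_mulVec]

lemma pt_at (g : Gr e Hk Hi) {a : Cf} (ha : Injective a) (hG : ∀ l, l ≠ 0 → 0 < G e a l)
    (hn : NegPl (Hk a)) :
    Pt (qf (Hk a)) (LinearMap.range (BmL a)) (LinearMap.range (UL (Hi a) a)) := by
  have H := herm_qf (g.herm a ha)
  have pos : ∀ l, l ≠ 0 → 0 < (qf (Hk a) (UL (Hi a) a l) (UL (Hi a) a l)).re := by
    intro l hl
    have e1 := congrArg star (g.dual a ha (star l))
    rw [← star_dotProduct_star, star_star] at e1
    rw [qf_UL g ha]
    change 0 < (star (Hi a *ᵥ Srow a (star l)) ⬝ᵥ Srow a (star l)).re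
    rw [e1]
    simpa using hG (star l) (by simpa using hl)
  refine ⟨H, by simp, fun v hv => ?_, ?_, finrank_BmL ha, ?_, ?_, ?_⟩
  · have h1 : Hk a *ᵥ star v = 0 := by
      ext i; simpa [qf] using hv (Pi.single i 1)
    have h2 := congrArg (fun x => Hi a *ᵥ x) h1
    simpa [mulVec_mulVec, (g.inv a ha).2] using h2
  · obtain ⟨x, y, h⟩ := hn
    let m : (ℂ × ℂ) →ₗ[ℂ] (Fin 6 → ℂ) := (LinearMap.toSpanSingleton ℂ _ x).coprod
      (LinearMap.toSpanSingleton ℂ _ y)
    have hm : ∀ z : ℂ × ℂ, m z = z.1 • x + z.2 • y := fun z => rfl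
    have nz : ∀ z : ℂ × ℂ, z ≠ 0 → (qf (Hk a) (m z) (m z)).re < 0 := fun z hz =>
      h z.1 z.2 (by by_contra hc; push Not at hc; exact hz (Prod.ext hc.1 hc.2))
    refine ⟨LinearMap.range m, ?_, ?_⟩
    · rw [LinearMap.finrank_range_of_inj ((injective_iff_map_eq_zero m).2 fun z hz => by
        by_contra hc
        have := nz z hc
        rw [hz, H.zero] at this
        simp at this)]
      simp
    · rintro _ ⟨z, rfl⟩
      by_cases hz : z = 0
      · rw [hz, map_zero, H.zero]; simp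
      · exact (nz z hz).le
  · rw [LinearMap.finrank_range_of_inj ((injective_iff_map_eq_zero _).2 fun l hl => by
      by_contra hc
      have := pos l hc
      rw [hl, H.zero] at this
      simp at this)]
    simp
  · rintro _ ⟨l, rfl⟩ h0
    exact pos l fun h => h0 (by rw [h, map_zero])
  · rintro _ ⟨v, rfl⟩ _ ⟨l, rfl⟩
    rw [qf_UL g ha]
    exact Bm_Srow ha v _

end Pool.Agent.Lib.MP_0c623d_al.BP
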