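import Pool.Agent.Lib.MP_0c623d_al.BP.Sk2
import Pool.Agent.Lib.MP_0c623d_al.BP.SgA
import Pool.Agent.Lib.MP_0c623d_al.B.Spc
import Pool.Agent.Lib.MP_0c623d_al.E.TauBd

set_option autoImplicit false

/-!
The analytic interface from the statements of the blocks.
-/

namespace Pool.Agent.Lib.MP_0c623d_al.BP

open Complex Matrix Filter Topology Set Function
open Pool.Agent.BP.F (V Mat E3 hh Om Ch NoTriple cfg Adm pw Sect Spacelike QQ AN sw b0 Ch_sub_Om)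

noncomputable section

theorem ee_eq (j : ℕ) : ee (2 * j + 1) = 1 / (4 * j + 2) := by
  rw [ee]
  push_cast
  ring

theorem ee_bd {j : ℕ} (hj : 30 ≤ j) : 0 < ee (2 * j + 1) ∧ ee (2 * j + 1) < 1 / 12 := by
  have h : (30 : ℝ) ≤ j := by exact_mod_cast hj
  rw [ee_eq]
  exact ⟨by positivity, one_div_lt_one_div_of_lt (by norm_num) (by linarith)⟩

theorem b0_inj : Injective b0 := by
  intro i j h
  fin_cases i <;> fin_cases j <;> simp [b0] at h ⊢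

theorem sig_of {e : ℝ} {f : FR e} (g : GR f) (hG : ∀ l, l ≠ 0 → 0 < G e b0 l)
    (hn : NegPl (g.Hk b0)) : ∃ U : Submodule ℂ V, Module.finrank ℂ U = 3 ∧
      (∀ u ∈ U, u ≠ 0 → 0 < (hh g.Hm u u).re) ∧
      ∀ u ∈ U, ∀ v, hh g.Hm u (Bm b0 v ᵥ* f.Y b0) = 0 := by
  have hb : b0 ∈ Om := Pool.Agent.BP.F.Spl.b0_mem
  have p := pt_at g.gr b0_inj hG hn
  have hi : Injective (vecMulLinear (f.Y b0)) :=
    Matrix.vecMul_injective_iff_isUnit.2 (f.unit b0 hb)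
  refine ⟨(LinearMap.range (UL (g.Hi b0) b0)).map (vecMulLinear (f.Y b0)), ?_, ?_, ?_⟩
  · rw [← (Submodule.equivMapOfInjective _ hi _).finrank_eq, p.dimU]
  · rintro _ ⟨x, hx, rfl⟩ h0
    rw [vecMulLinear_apply, tb_hh_vecMul, ← g.loc' hb]
    exact p.pos x hx fun h => h0 (by rw [h, map_zero])
  · rintro _ ⟨x, hx, rfl⟩ v
    rw [vecMulLinear_apply, tb_hh_vecMul, ← g.loc' hb]
    exact p.orth _ ⟨v, rfl⟩ x hx

theorem asm {j : ℕ} (hj : 30 ≤ j) (hFr : FrSt) (hW : WSt) (hM : MonoSt) (hH : HermSt)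
    (hP : PosSt) (hG : GramSt) (hC : ChartSt) (hB : BddSt) (hS : SgSt) (hN : NegSt)
    (hCu : CuspSt) : Nonempty (AN (2 * j + 1)) := by
  obtain ⟨e0, e1⟩ := ee_bd hj
  have ko : Odd (2 * j + 1) := odd_two_mul_add_one j
  have k61 : 61 ≤ 2 * j + 1 := by omega
  have j3 : 3 ≤ j := by omega
  obtain ⟨f⟩ := hFr (ee (2 * j + 1))
  obtain ⟨g⟩ := hG hH hP _ e0 e1 f (hM _ ko k61 f)
  obtain ⟨w1, w2, w3, w4, w5⟩ := hW _ e0 e1 f
  have ch := hC _ ko k61 f g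
  have sg : Sg g.Hk := hS j _ j3 (ee_eq j) _ _ g.gr (hB _ ko _ f g ch)
  have ng := hN j _ j3 (ee_eq j) _ _ g.gr
  have sn := g.sgn_of (2 * j + 1) sg ng
  have d0 : dl (ee (2 * j + 1)) ≠ 0 := by
    rw [dl]
    linarith
  have d1 : (dl (ee (2 * j + 1)) : ℂ) ≠ 0 := ofReal_ne_zero.2 d0
  obtain ⟨C, R0, tb⟩ := tau_bd j3 (ee_eq j) hCu g.gr sg g.Hm f.W f.Y d1 (fun _ _ => rfl)
    (fun b hb v => w3 b (Ch_sub_Om hb) v) (fun b hb => g.loc' (Ch_sub_Om hb))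
  refine ⟨⟨g.Hm, f.R, f.W, dl (ee (2 * j + 1)), tau, C, R0, g.herm, g.uni, d0, w1, w2,
    fun b hb => ?_, fun p b h1 h2 => w4 p b ⟨h1, h2⟩, w5, fun d hd => ?_, ?_, tau_c1, tau_perm,
    tau_add, tau_prop, tb⟩⟩
  · rw [w3 b hb b, FR.W]
    congr 2
    funext n
    simp [th, cw, sq]
  · obtain ⟨Gc, hc⟩ := ch d hd
    exact ⟨Gc, hc.1, hc.2.1, sn d Gc hd hc⟩
  · obtain ⟨a, ha, hn⟩ := ng
    obtain ⟨U, h1, h2, h3⟩ := sig_of g (fun l hl => hP _ e0 e1 b0 b0_inj l hl)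
      (negPl_all g.gr ha hn b0_inj)
    refine ⟨U, h1, h2, fun u hu v => ?_⟩
    rw [w3 b0 Pool.Agent.BP.F.Spl.b0_mem v, th_eq, Pool.Agent.BP.F.Spl.hh_smul_right, h3 u hu v,
      mul_zero]

end

end Pool.Agent.Lib.MP_0c623d_al.BP
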