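import Pool.Agent.Lib.MP_0c623d_al.BP.Sk2
import Pool.Agent.Lib.MP_0c623d_al.F.Ord
import Pool.Agent.Lib.MP_0c623d_al.E.Red

set_option autoImplicit false

/-!
The square norm of the period vector is bounded away from the triple collisions.
-/

namespace Pool.Agent.Lib.MP_0c623d_al.BP

open Complex Matrix Filter Topology Set Function
open Pool.Agent.BP.F (V Mat E3 hh NoTriple cfg Adm pw srt srt_lexNN srt_far)

/-- the consecutive differences along a permutation -/
def bdD (σ : Equiv.Perm (Fin 4)) (a : Cf) : E3 := fun p => a (σ p.succ) - a (σ p.castSucc)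

theorem bdD_adm {a : Cf} (h : NoTriple a) : Adm (bdD (srt a) a) := by
  refine ⟨fun p => srt_lexNN a Fin.castSucc_lt_succ.le, fun e => ?_, fun e => ?_⟩
  · refine srt_far h (p := 0) (l := 1) (q := 2) (by decide) (by decide) ?_
    have h0 : a (srt a 1) - a (srt a 0) = 0 := e.1
    have h1 : a (srt a 2) - a (srt a 1) = 0 := e.2
    linear_combination h0 + h1
  · refine srt_far h (p := 1) (l := 2) (q := 3) (by decide) (by decide) ?_
    have h0 : a (srt a 2) - a (srt a 1) = 0 := e.1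
    have h1 : a (srt a 3) - a (srt a 2) = 0 := e.2
    linear_combination h0 + h1

theorem bdD_cfg (σ : Equiv.Perm (Fin 4)) (a : Cf) :
    a ∘ σ = fun i => 1 * cfg (bdD σ a) i + a (σ 0) := by
  funext i
  fin_cases i <;> simp [cfg, bdD]

/-- a choice of chart coordinates -/
noncomputable def bdZ (k : ℕ) (d0 d : E3) : E3 :=
  fun p => if d0 p = 0 then d p ^ ((k : ℂ)⁻¹) else d p

theorem pw_bdZ {k : ℕ} (hk : k ≠ 0) (d0 d : E3) : pw k d0 (bdZ k d0 d) = d := by
  funext p
  rw [pw, bdZ]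
  split_ifs
  exacts [cpow_nat_inv_pow _ hk, rfl]

theorem bdZ_tendsto {k : ℕ} (hk : k ≠ 0) (d0 : E3) : Tendsto (bdZ k d0) (𝓝 d0) (𝓝 d0) := by
  refine tendsto_pi_nhds.2 fun p => ?_
  unfold bdZ
  split_ifs with h
  · have h1 : ContinuousAt (fun z : ℂ => z ^ ((k : ℂ)⁻¹)) 0 := by
      have h2 : 0 < ((k : ℂ)⁻¹).re := by
        rw [← ofReal_natCast, ← ofReal_inv, ofReal_re]
        positivity
      exact (continuousAt_cpow_zero_of_re_pos h2).comp_of_eq
        (f := fun z : ℂ => (z, (k : ℂ)⁻¹)) (by fun_prop) rfl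
    have h3 : Tendsto (fun d : E3 => d p) (𝓝 d0) (𝓝 0) := h ▸ (continuous_apply p).tendsto d0
    have h4 := h1.tendsto.comp h3
    rw [zero_cpow (inv_ne_zero (Nat.cast_ne_zero.2 hk))] at h4
    rw [h]
    exact h4
  · exact (continuous_apply p).tendsto d0

theorem bddSt : BddSt := by
  intro k hk e f g hc a0 h0
  have hk0 : k ≠ 0 := hk.pos.ne'
  obtain ⟨Gc, han, -, hφ, -⟩ := hc _ (bdD_adm h0)
  set σ := srt a0
  set d0 := bdD σ a0
  have hcont : ContinuousAt (fun ζ => (hh g.Hm (Gc ζ) (Gc ζ)).re) d0 := by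
    have h1 := han.continuousAt
    have h2 : Continuous fun w : V => (hh g.Hm w w).re := by
      unfold hh
      fun_prop
    exact h2.continuousAt.comp h1
  have hb := hcont.abs.eventually_lt_const (lt_add_one _)
  have ht : Tendsto (fun a => bdZ k d0 (bdD σ a)) (𝓝 a0) (𝓝 d0) :=
    (bdZ_tendsto hk0 d0).comp (Continuous.tendsto (by unfold bdD; fun_prop) a0)
  refine ⟨|(hh g.Hm (Gc d0) (Gc d0)).re| + 1, ?_⟩
  filter_upwards [ht.eventually hb, ht.eventually hφ] with a h1 h2 ha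
  rw [pw_bdZ hk0] at h2
  obtain ⟨hi, hq⟩ := Red.qf_norm g.gr ha one_ne_zero (bdD_cfg σ a)
  have h3 := hq (bdD_cfg σ a) (bdD_cfg σ a)
  rw [← Red.cw_eq, ← Red.cw_eq, norm_one, Real.one_rpow, ofReal_one, one_mul] at h3
  have h4 := Red.qf_conj (g.gr.herm _ hi) (cw (cfg (bdD σ a))) (cw (cfg (bdD σ a)))
  rw [h3, ← conj_eq_iff_re.1 h4.symm, norm_real, Real.norm_eq_abs, g.qf_Hk]
  rw [h2 hi] at h1
  exact h1.le

end Pool.Agent.Lib.MP_0c623d_al.BP
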