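import Pool.Agent.Lib.MP_0c623d_al.BP.ADefs

set_option autoImplicit false

/-!
Covariance of the integrals under affine maps, under the swap of the two variables, under complex
conjugation and under permutations of the points.
-/

namespace Pool.Agent.Lib.MP_0c623d_al.BP

open Complex MeasureTheory
open scoped ComplexConjugate

noncomputable section

instance haarCC : (volume : Measure (ℂ × ℂ)).IsAddHaarMeasure := by
  rw [Measure.volume_eq_prod]; infer_instance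

/-- change of variables `z ↦ c z + d` in both variables -/
theorem integral_aff {F : Type*} [NormedAddCommGroup F] [NormedSpace ℝ F] (f : ℂ × ℂ → F)
    (c d : ℂ) (hc : c ≠ 0) :
    ∫ z, f z = ‖c‖ ^ 4 • ∫ z : ℂ × ℂ, f (c * z.1 + d, c * z.2 + d) := by
  let A : (ℂ × ℂ) →ₗ[ℝ] (ℂ × ℂ) :=
    LinearMap.prodMap (LinearMap.mul ℝ ℂ c) (LinearMap.mul ℝ ℂ c)
  have hd : LinearMap.det A = ‖c‖ ^ 4 := by
    have h1 : LinearMap.det (LinearMap.mul ℝ ℂ c) = ‖c‖ ^ 2 := by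
      rw [← Complex.normSq_eq_norm_sq, ← Algebra.norm_complex_apply, Algebra.norm_apply]
      rfl
    simp only [A]
    rw [LinearMap.det_prodMap, h1]; ring
  have hc4 : (0 : ℝ) < ‖c‖ ^ 4 := by positivity
  have hm := Measure.map_linearMap_addHaar_eq_smul_addHaar (volume : Measure (ℂ × ℂ))
    (f := A) (by rw [hd]; exact hc4.ne')
  let B : (ℂ × ℂ) ≃ₜ (ℂ × ℂ) := (Homeomorph.mulLeft₀ c hc).prodCongr (Homeomorph.mulLeft₀ c hc)
  have hB : MeasurableEmbedding (A : ℂ × ℂ → ℂ × ℂ) := B.measurableEmbedding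
  have h2 := hB.integral_map (μ := volume) (fun z => f (z + (d, d)))
  rw [hm, integral_smul_measure, integral_add_right_eq_self, hd, ENNReal.toReal_ofReal (abs_nonneg _),
    abs_of_pos (inv_pos.2 hc4)] at h2
  have h3 : (fun z : ℂ × ℂ => f (c * z.1 + d, c * z.2 + d)) = fun z => f (A z + (d, d)) := rfl
  rw [h3, ← h2, smul_smul, mul_inv_cancel₀ hc4.ne', one_smul]

theorem E_mul (s : ℝ) (p q : ℤ) (c z : ℂ) : E s p q (c * z) = E s p q c * E s p q z := by
  simp only [E, norm_mul, Real.mul_rpow (norm_nonneg c) (norm_nonneg z), mul_zpow, map_mul]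
  push_cast; ring

theorem E_add {c : ℂ} (hc : c ≠ 0) (s s' : ℝ) (p p' q q' : ℤ) :
    E (s + s') (p + p') (q + q') c = E s p q c * E s' p' q' c := by
  have h : conj c ≠ 0 := by simpa using hc
  simp only [E, mul_add, Real.rpow_add (norm_pos_iff.2 hc), zpow_add₀ hc, zpow_add₀ h]
  push_cast; ring

theorem E_conj (s : ℝ) (p q : ℤ) (z : ℂ) : conj (E s p q z) = E s q p z := by
  simp only [E, map_mul, map_zpow₀, conj_ofReal, conj_conj]; ring

theorem E_zero (s : ℝ) (z : ℂ) : E s 0 0 z = (‖z‖ ^ (2 * s) : ℝ) := by simp [E]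

theorem covSt : CovSt := by
  intro e p q r t a c d hc
  rw [In, integral_aff _ c d hc, In, ← integral_const_mul, ← integral_smul]
  congr 1
  funext z
  have h1 : ∀ x y : ℂ, c * x + d - (c * y + d) = c * (x - y) := fun x y => by ring
  have h4 : ((‖c‖ ^ 4 : ℝ) : ℂ) = E 2 0 0 c := by
    rw [E_zero]; norm_num
  simp only [Ig, h1, E_mul, ← E_zero, Finset.prod_mul_distrib, real_smul, h4, Fin.prod_univ_four,
    Fin.sum_univ_four]
  have h5 : E (-5 / 2 - 5 * e) (p 0 + r 0 + (p 1 + r 1) + (p 2 + r 2) + (p 3 + r 3))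
      (q 0 + t 0 + (q 1 + t 1) + (q 2 + t 2) + (q 3 + t 3)) c =
      E (2 + (-1 / 2 - e) + (-1 / 2 - e) + (-1 / 2 - e) + (-1 / 2 - e) + (-1 / 2 - e) +
        (-1 / 2 - e) + (-1 / 2 - e) + (-1 / 2 - e) + (-1 / 2 + 3 * e))
        (0 + p 0 + p 1 + p 2 + p 3 + r 0 + r 1 + r 2 + r 3 + 0)
        (0 + q 0 + q 1 + q 2 + q 3 + t 0 + t 1 + t 2 + t 3 + 0) c := by
    congr 1 <;> ring
  rw [h5]
  simp only [E_add hc]
  ring

theorem In_cov (e : ℝ) (p q r t : Fin 4 → ℤ) (a : Cf) (c d : ℂ) (hc : c ≠ 0) :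
    In e p q r t (fun i => c * a i + d) =
      E (-5 / 2 - 5 * e) (∑ i, (p i + r i)) (∑ i, (q i + t i)) c * In e p q r t a :=
  covSt e p q r t a c d hc

theorem Ig_swap (e : ℝ) (p q r t : Fin 4 → ℤ) (a : Cf) (z : ℂ × ℂ) :
    Ig e p q r t a z.swap = Ig e r t p q a z := by
  simp only [Ig, Prod.fst_swap, Prod.snd_swap, norm_sub_rev z.2 z.1]
  ring

theorem In_swap (e : ℝ) (p q r t : Fin 4 → ℤ) (a : Cf) : In e p q r t a = In e r t p q a := by
  rw [In, In, Measure.volume_eq_prod, ← integral_prod_swap]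
  simp only [Ig_swap]

theorem Ig_conj (e : ℝ) (p q r t : Fin 4 → ℤ) (a : Cf) (z : ℂ × ℂ) :
    conj (Ig e p q r t a z) = Ig e q p t r a z := by
  simp only [Ig, map_mul, map_prod, E_conj, conj_ofReal]

theorem In_conj (e : ℝ) (p q r t : Fin 4 → ℤ) (a : Cf) :
    conj (In e p q r t a) = In e q p t r a := by
  rw [In, In, ← integral_conj]
  simp only [Ig_conj]

theorem Ig_perm (e : ℝ) (p q r t : Fin 4 → ℤ) (a : Cf) (σ : Equiv.Perm (Fin 4)) :
    Ig e (p ∘ σ) (q ∘ σ) (r ∘ σ) (t ∘ σ) (a ∘ σ) = Ig e p q r t a := by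
  funext z
  simp only [Ig, Function.comp_apply]
  rw [Equiv.prod_comp σ (fun i => E (-1 / 2 - e) (p i) (q i) (z.1 - a i)),
    Equiv.prod_comp σ (fun i => E (-1 / 2 - e) (r i) (t i) (z.2 - a i))]

theorem In_perm (e : ℝ) (p q r t : Fin 4 → ℤ) (a : Cf) (σ : Equiv.Perm (Fin 4)) :
    In e (p ∘ σ) (q ∘ σ) (r ∘ σ) (t ∘ σ) (a ∘ σ) = In e p q r t a := by
  rw [In, In, Ig_perm]

theorem wt_perm (e : ℝ) (a : Cf) (σ : Equiv.Perm (Fin 4)) : wt e (a ∘ σ) = wt e a := by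
  funext z
  simp only [wt, Function.comp_apply]
  rw [Equiv.prod_comp σ (fun i => ‖z.1 - a i‖ ^ (2 * (-1 / 2 - e))),
    Equiv.prod_comp σ (fun i => ‖z.2 - a i‖ ^ (2 * (-1 / 2 - e)))]

theorem G_perm (e : ℝ) (a : Cf) (σ : Equiv.Perm (Fin 4)) : G e (a ∘ σ) = G e a := by
  funext l
  rw [G, G, wt_perm]

theorem wt_nonneg (e : ℝ) (a : Cf) (z : ℂ × ℂ) : 0 ≤ wt e a z := by
  unfold wt; positivity

theorem G_nonneg (e : ℝ) (a : Cf) (l : Fin 3 → ℂ) : 0 ≤ G e a l :=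
  integral_nonneg fun z => mul_nonneg (by positivity) (wt_nonneg e a z)

end

end Pool.Agent.Lib.MP_0c623d_al.BP
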