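import Pool.Agent.Lib.MP_0c623d_al.BP.DeltaA

set_option autoImplicit false

/-!
The constant Hermitian form computes all dual integrals.
-/

namespace Pool.Agent.Lib.MP_0c623d_al.BP

open Complex MeasureTheory Matrix Filter Topology Metric Set Dl
open scoped ComplexConjugate

noncomputable section

namespace Dl

/-- a Hermitian form on three coordinates that kills two vectors depends on the last coordinate -/
theorem herm3 (D : (Fin 3 → ℂ) → (Fin 3 → ℂ) → ℂ) (x : ℂ)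
    (lin : ∀ (c d : ℂ) (u v l : Fin 3 → ℂ), D (c • u + d • v) l = c * D u l + d * D v l)
    (cj : ∀ l l', conj (D l l') = D l' l) (h0 : ∀ l, D l ![1, 0, 0] = 0)
    (h1 : ∀ l, D l ![-x, 1 / 2, 0] = 0) :
    (∀ u l, u 2 = 0 → D u l = 0 ∧ D l u = 0) ∧
      ∀ l, D l l = l 2 * conj (l 2) * D ![0, 0, 1] ![0, 0, 1] := by
  have k : ∀ u l, u 2 = 0 → D u l = 0 := by
    intro u l hu
    have : u = (u 0 + 2 * u 1 * x) • ![1, 0, 0] + (2 * u 1) • ![-x, 1 / 2, 0] := by
      funext i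
      fin_cases i <;> simp [hu]
      ring
    rw [this, lin, ← cj l, ← cj l, h0, h1]
    simp
  refine ⟨fun u l hu => ⟨k u l hu, by rw [← cj, k u l hu, map_zero]⟩, fun l => ?_⟩
  have k2 : ∀ l', D l l' = l 2 * D ![0, 0, 1] l' := by
    intro l'
    have : l = (1 : ℂ) • ![l 0, l 1, 0] + l 2 • ![0, 0, 1] := by
      funext i
      fin_cases i <;> simp
    conv_lhs => rw [this, lin, k _ _ (by simp)]
    ring
  rw [k2 l, ← cj l, k2, map_mul, cj, mul_assoc]

theorem herm_conj {H : Matrix (Fin 6) (Fin 6) ℂ} (hH : H.IsHermitian) (u v : Fin 6 → ℂ) :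
    conj (u ⬝ᵥ H *ᵥ star v) = v ⬝ᵥ H *ᵥ star u := by
  rw [← RCLike.star_def, ← star_dotProduct_star, star_mulVec, star_star, hH.eq,
    ← dotProduct_mulVec]

end Dl

theorem delta (hI : IntSt) (hD : DerSt) {e : ℝ} (e0 : 0 < e) (e1 : e < 1 / 12) {U : Set Cf}
    (hU : IsOpen U) (hi : ∀ a ∈ U, Function.Injective a) (Y1 : Cf → Matrix (Fin 6) (Fin 6) ℂ)
    (hY : ∀ a ∈ U, ∃ L : Cf →L[ℂ] Matrix (Fin 6) (Fin 6) ℂ,
      (∀ v, L v = -(conn e a v)ᵀ * Y1 a) ∧ HasFDerivAt Y1 L a)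
    (H : Matrix (Fin 6) (Fin 6) ℂ) (hH : H.IsHermitian)
    (h0 : ∀ a ∈ U, Jc e 0 a = Y1 a *ᵥ (H *ᵥ star (Srow a ![1, 0, 0] ᵥ* Y1 a)))
    (h1 : ∀ a ∈ U, Jc e 1 a = Y1 a *ᵥ (H *ᵥ star (Srow a ![-a 0, 1 / 2, 0] ᵥ* Y1 a))) :
    ∀ a ∈ U, ∀ l, (Srow a l ᵥ* Y1 a) ⬝ᵥ H *ᵥ star (Srow a l ᵥ* Y1 a) = G e a l := by
  obtain ⟨D, hDd⟩ : ∃ D : Cf → (Fin 3 → ℂ) → (Fin 3 → ℂ) → ℂ, ∀ a l l', D a l l' =
      Bf e a l l' - (Srow a l ᵥ* Y1 a) ⬝ᵥ H *ᵥ star (Srow a l' ᵥ* Y1 a) := ⟨_, fun _ _ _ => rfl⟩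
  have h3 := fun a (ha : a ∈ U) => herm3 (D a) (a 0)
    (fun c d u v l => by
      simp only [hDd, Bf_lin hI e0 e1 (hi a ha), Srow_lin, add_vecMul, smul_vecMul,
        add_dotProduct, smul_dotProduct, smul_eq_mul]
      ring)
    (fun l l' => by rw [hDd, hDd, map_sub, Bf_conj, herm_conj hH])
    (fun l => by rw [hDd, ← dotProduct_mulVec, ← h0 a ha, col0 hI e0 e1 (hi a ha), sub_self])
    (fun l => by rw [hDd, ← dotProduct_mulVec, ← h1 a ha, col1 hI e0 e1 (hi a ha), sub_self])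
  obtain ⟨d, hd⟩ : ∃ d : Cf → ℂ, ∀ a, d a = D a ![0, 0, 1] ![0, 0, 1] := ⟨_, fun _ => rfl⟩
  have h4 : ∀ a ∈ U, ∀ i, d a = In e (s1 i) (s1 i) (s1 i) (s1 i) a -
      (Srow a (li a i) ᵥ* Y1 a) ⬝ᵥ H *ᵥ star (Srow a (li a i) ᵥ* Y1 a) := fun a ha i => by
    rw [In_ll, ← hDd, (h3 a ha).2, hd]
    simp [li]
  have hev : ∀ a ∈ U, ∀ v : Cf, ∀ᶠ s : ℝ in 𝓝 0, a + (s : ℂ) • v ∈ U := fun a ha v => by
    have hc : ContinuousAt (fun s : ℝ => a + (s : ℂ) • v) 0 := by fun_prop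
    exact hc.eventually (hU.mem_nhds (by simpa using ha))
  have h5 : ∀ a ∈ U, ∀ (i : Fin 4) (τ : ℂ),
      HasDerivAt (fun s : ℝ => d (a + (s : ℂ) • (Pi.single i τ : Cf))) 0 0 := by
    intro a ha i τ
    obtain ⟨L, hL, hd1⟩ := hD e e0 e1 (s1 i) (s1 i) (s1 i) (s1 i) {i} (ok_l i).1
      (fun j hj => by
        obtain rfl := Finset.mem_singleton.1 hj
        simpa using (ok_l j).2) a (hi a ha)
    have l1 : HasDerivAt (fun s : ℝ => (s : ℂ) • (Pi.single i τ : Cf)) (Pi.single i τ) 0 := by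
      simpa using (hasDerivAt_id (0 : ℝ)).ofReal_comp.smul_const (Pi.single i τ : Cf)
    have d1 := hd1.comp_hasDerivAt_of_eq 0 l1 (by simp)
    obtain ⟨M, hM, hd2⟩ := hY a ha
    have d2 := herm_deriv H (row_deriv hd2 (Srow a (li a i)) (Pi.single i τ))
    have hy : Srow a (li a i) ᵥ* M (Pi.single i τ) =
        (τ * al e) • (Srow a (ui a i) ᵥ* Y1 a) := by
      rw [hM, ← vecMul_vecMul, vecMul_neg, vecMul_transpose, conn_li e (hi a ha), neg_smul, neg_neg,
        smul_vecMul]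
    obtain ⟨z1, z2⟩ := (h3 a ha).1 (ui a i) (li a i) (by simp [ui])
    rw [hDd] at z1 z2
    have hal : conj (al e) = al e := by
      have h2 : conj (2 : ℂ) = 2 := conj_ofNat 2
      simp [al, h2]
    refine ((d1.fun_sub d2).congr_deriv ?_).congr_of_eventuallyEq ?_
    · rw [hL, hy, dIn, Finset.sum_singleton]
      simp only [sub_self, Pi.single_eq_same, ofReal_zero, zero_smul, add_zero, smul_dotProduct,
        star_smul, mulVec_smul, dotProduct_smul, smul_eq_mul, RCLike.star_def, map_mul, hal]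
      have u1 := In_ul hI e0 e1 (hi a ha) i
      have u2 := In_lu hI e0 e1 (hi a ha) i
      simp only [al] at *
      push_cast
      linear_combination (τ * (-1 / 2 + e)) * (u1 + z1) + (conj τ * (-1 / 2 + e)) * (u2 + z2)
    · filter_upwards [hev a ha (Pi.single i τ)] with s hs
      have e2 : (s : ℂ) • (Pi.single i τ : Cf) = Pi.single i (s * τ) := by
        rw [← Pi.single_smul', smul_eq_mul]
      rw [h4 _ hs i]
      simp only [Function.comp_apply]
      rw [e2] at hs ⊢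
      rw [Srow_move (hi a ha) i _ (hi _ hs)]
      congr 3
      funext j
      by_cases hj : j = i <;> simp [hj]
  intro a ha l
  have h6 : d a = 0 := by
    have hc : Tendsto (fun s : ℝ => a + (s : ℂ) • a) (𝓝 0) (𝓝 a) := by
      have hc : ContinuousAt (fun s : ℝ => a + (s : ℂ) • a) 0 := by fun_prop
      simpa [ContinuousAt] using hc
    have c0 : HasDerivAt (fun s : ℝ => d (a + (s : ℂ) • a)) 0 0 :=
      (hasDerivAt_const (0 : ℝ) (d a)).congr_of_eventuallyEq (hc.eventually (loc_const hU h5 ha))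
    obtain ⟨M, hM, hd2⟩ := hY a ha
    have l1 : HasDerivAt (fun s : ℝ => ((1 + (s : ℂ)) ^ 4)⁻¹) (-4) 0 := by
      have := (((hasDerivAt_id (0 : ℝ)).ofReal_comp.const_add 1).fun_pow 4).fun_inv (by simp)
      simpa using this
    have d2 := herm_deriv H (l1.fun_smul (row_deriv hd2 (Srow a (li a 0)) a))
    have d1 := (Pf.E_der (-5 / 2 - 5 * e) 2 2 1).mul_const (In e (s1 0) (s1 0) (s1 0) (s1 0) a)
    have hn : ∀ᶠ s : ℝ in 𝓝 0, 1 + (s : ℂ) ≠ 0 := by
      have hc : ContinuousAt (fun s : ℝ => 1 + (s : ℂ)) 0 := by fun_prop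
      exact hc.eventually_ne (by simp)
    have c1 := c0.unique ((d1.fun_sub d2).congr_of_eventuallyEq (by
      filter_upwards [hev a ha a, hn] with s hs hn
      have e2 : a + (s : ℂ) • a = (1 + (s : ℂ)) • a := by rw [add_smul, one_smul]
      have e3 : In e (s1 0) (s1 0) (s1 0) (s1 0) ((1 + (s : ℂ)) • a) =
          E (-5 / 2 - 5 * e) 2 2 (1 + s * 1) * In e (s1 0) (s1 0) (s1 0) (s1 0) a := by
        have := In_cov e (s1 0) (s1 0) (s1 0) (s1 0) a (1 + s) 0 hn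
        simp only [add_zero, Finset.sum_add_distrib, Finset.sum_pi_single', Finset.mem_univ,
          if_true] at this
        rw [mul_one]
        exact this
      rw [h4 _ hs 0, e2, e3, Srow_scale a hn, smul_vecMul]))
    have hy : Srow a (li a 0) ᵥ* M a = (7 / 2 - 5 * e : ℂ) • (Srow a (li a 0) ᵥ* Y1 a) := by
      rw [hM, conn_self e (hi a ha), transpose_smul, transpose_one, ← neg_smul, smul_mul_assoc,
        one_mul, vecMul_smul]
      congr 1
      ring
    have h2 : conj (2 : ℂ) = 2 := conj_ofNat 2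
    have h7 : conj (7 : ℂ) = 7 := conj_ofNat 7
    have h8 : conj (5 : ℂ) = 5 := conj_ofNat 5
    have h9 : conj (4 : ℂ) = 4 := conj_ofNat 4
    rw [hy] at c1
    simp only [ofReal_zero, zero_smul, add_zero, one_pow, inv_one, one_smul, add_dotProduct,
      smul_dotProduct, star_add, star_smul, mulVec_add, mulVec_smul, dotProduct_add,
      dotProduct_smul, smul_eq_mul, RCLike.star_def, map_sub, map_mul, map_div₀, map_neg, map_one,
      conj_ofReal, h2, h7, h8, h9] at c1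
    push_cast at c1
    have h10 : (1 + 10 * e : ℂ) * d a = 0 := by
      rw [h4 a ha 0]
      linear_combination c1
    refine (mul_eq_zero.1 h10).resolve_left ?_
    exact_mod_cast (by positivity : (1 + 10 * e : ℝ) ≠ 0)
  have := (h3 a ha).2 l
  rw [← hd, h6, mul_zero, hDd, Bf_self, sub_eq_zero] at this
  exact this.symm

end

end Pool.Agent.Lib.MP_0c623d_al.BP
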