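import Pool.Agent.Lib.MP_0c623d_al.BP.ADefs

set_option autoImplicit false

/-!
The columns of integrals satisfy the dual Pfaffian system.
-/

namespace Pool.Agent.Lib.MP_0c623d_al.BP

open Complex MeasureTheory Matrix
open scoped ComplexConjugate

namespace Pf

lemma E_one (s : ℝ) (p q : ℤ) : E s p q 1 = 1 := by simp [E]

lemma E_diff (s : ℝ) (p q : ℤ) : DifferentiableAt ℝ (E s p q) 1 := by
  have h1 : DifferentiableAt ℝ (fun z : ℂ => ‖z‖ ^ (2 * s)) 1 :=
    (differentiableAt_id.norm ℝ one_ne_zero).rpow_const (Or.inl (by simp))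
  have h2 : DifferentiableAt ℝ (fun z : ℂ => z ^ p) 1 :=
    (differentiableAt_zpow.mpr (Or.inl one_ne_zero)).restrictScalars ℝ
  have h3 : DifferentiableAt ℝ (fun z : ℂ => z ^ q) (conjCLE 1) :=
    (differentiableAt_zpow.mpr (Or.inl (by simp))).restrictScalars ℝ
  exact ((ofRealCLM.differentiableAt.comp _ h1).mul h2).mul
    (h3.comp (1 : ℂ) conjCLE.differentiableAt)

lemma E_der (s : ℝ) (p q : ℤ) (c : ℂ) :
    HasDerivAt (fun t : ℝ => E s p q (1 + t * c)) ((s + p) * c + (s + q) * conj c) 0 := by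
  have h0 : HasDerivAt (fun t : ℝ => 1 + (t : ℂ) * c) c 0 := by
    simpa using ((hasDerivAt_id (0 : ℝ)).ofReal_comp.mul_const c).const_add 1
  have h0' : HasDerivAt (fun t : ℝ => 1 + (t : ℂ) * conj c) (conj c) 0 := by
    simpa using ((hasDerivAt_id (0 : ℝ)).ofReal_comp.mul_const (conj c)).const_add 1
  have h1 : HasDerivAt (fun t : ℝ => (1 + 2 * c.re * t + normSq c * t ^ 2) ^ s)
      (2 * c.re * s) 0 := by
    have a1 : HasDerivAt (fun t : ℝ => 1 + 2 * c.re * t + normSq c * t ^ 2) (2 * c.re) 0 := by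
      exact ((((hasDerivAt_id (0 : ℝ)).const_mul (2 * c.re)).const_add 1).add
        ((hasDerivAt_pow 2 (0 : ℝ)).const_mul (normSq c))).congr_deriv (by simp)
    simpa using a1.rpow_const (p := s) (Or.inl (by simp))
  have h2 : HasDerivAt (fun t : ℝ => (1 + (t : ℂ) * c) ^ p) (p * c) 0 := by
    have := (hasDerivAt_zpow p (1 + ((0 : ℝ) : ℂ) * c) (Or.inl (by simp))).scomp (0 : ℝ)
      (h := fun t : ℝ => 1 + (t : ℂ) * c) h0
    simpa [Function.comp_def, mul_comm] using this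
  have h3 : HasDerivAt (fun t : ℝ => (1 + (t : ℂ) * conj c) ^ q) (q * conj c) 0 := by
    have := (hasDerivAt_zpow q (1 + ((0 : ℝ) : ℂ) * conj c) (Or.inl (by simp))).scomp (0 : ℝ)
      (h := fun t : ℝ => 1 + (t : ℂ) * conj c) h0'
    simpa [Function.comp_def, mul_comm] using this
  have h4 := (h1.ofReal_comp.mul h2).mul h3
  refine (h4.congr_of_eventuallyEq (Filter.Eventually.of_forall fun t => ?_)).congr_deriv ?_
  · have : ‖1 + (t : ℂ) * c‖ ^ (2 * s) = (1 + 2 * c.re * t + normSq c * t ^ 2) ^ s := by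
      rw [Real.rpow_mul (norm_nonneg _), Real.rpow_two, ← normSq_eq_norm_sq]
      congr 1
      simp [normSq_apply]
      ring
    simp [E, this]
  · simp
    rw [re_eq_add_conj]
    ring

/-- derivative of an integral whose exponents allow the points outside `k, l` to move -/
lemma In_fderiv (hD : DerSt) (hC : CovSt) {e : ℝ} (e0 : 0 < e) (e1 : e < 1 / 12)
    {p q r t : Fin 4 → ℤ} {D : Finset (Fin 4)} {k l : Fin 4} (hkl : k ≠ l)
    (hDk : ∀ i, i ∈ D ∨ i = k ∨ i = l) (h0 : Ok p q r t)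
    (h1 : ∀ i ∈ D, Ok (p - Pi.single i 1) q r t ∧ Ok p q (r - Pi.single i 1) t)
    {a : Cf} (ha : Function.Injective a) :
    DifferentiableAt ℝ (In e p q r t) a ∧ ∀ v : Cf, fderiv ℝ (In e p q r t) a v =
      ((-5 / 2 - 5 * e + (∑ i, (p i + r i) : ℤ)) * ((v l - v k) / (a l - a k)) +
        (-5 / 2 - 5 * e + (∑ i, (q i + t i) : ℤ)) * conj ((v l - v k) / (a l - a k))) *
          In e p q r t a +
      dIn e p q r t D a fun i => v i - v k - (v l - v k) / (a l - a k) * (a i - a k) := by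
  obtain ⟨L, hL, hd⟩ := hD e e0 e1 p q r t D h0 h1 a ha
  have hne : a l - a k ≠ 0 := sub_ne_zero.mpr fun h => hkl (ha h).symm
  set f := In e p q r t with hf
  have hdiff : DifferentiableAt ℝ f a := by
    let c : Cf → ℂ := fun b => (b l - b k) / (a l - a k)
    let N : Cf → Cf := fun b i => (b i - b k) / c b + a k - a i
    have ca : c a = 1 := div_self hne
    have dc : DifferentiableAt ℝ c a := by fun_prop
    have dN : DifferentiableAt ℝ N a := by
      refine differentiableAt_pi.mpr fun i => ?_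
      have : c a ≠ 0 := by rw [ca]; exact one_ne_zero
      have : DifferentiableAt ℝ (fun b : Cf => (b i - b k) / c b) a := by
        simp only [div_eq_mul_inv]
        exact (by fun_prop : DifferentiableAt ℝ (fun b : Cf => b i - b k) a).mul (dc.inv this)
      exact (this.add_const _).sub_const _
    have Na : N a = 0 := by
      funext i
      simp [N, ca]
    have g1 := (ca ▸ E_diff (-5 / 2 - 5 * e) (∑ i, (p i + r i)) (∑ i, (q i + t i))).comp a dc
    have g2 := (Na ▸ hd.differentiableAt).comp a dN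
    refine (g1.mul g2).congr_of_eventuallyEq ?_
    have : ∀ᶠ b in nhds a, c b ≠ 0 := dc.continuousAt.eventually_ne (by rw [ca]; exact one_ne_zero)
    filter_upwards [this] with b hb
    have hb' : b l - b k ≠ 0 := fun h => hb (by simp [c, h])
    simp only [Pi.mul_apply, Function.comp_apply]
    rw [← hC e p q r t _ (c b) (b k - c b * a k) hb]
    congr 1
    funext i
    by_cases hi : i ∈ D
    · simp only [Pi.add_apply, if_pos hi, N]
      field_simp
      ring
    · rcases (hDk i).resolve_left hi with rfl | rfl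
      · simp [hi]
      · simp only [Pi.add_apply, if_neg hi, c]
        field_simp
        ring
  refine ⟨hdiff, fun v => ?_⟩
  have line : ∀ w : Cf, HasDerivAt (fun s : ℝ => f (a + s • w)) (fderiv ℝ f a w) 0 := by
    intro w
    have h2 : HasDerivAt (fun s : ℝ => a + s • w) w 0 := by
      simpa using ((hasDerivAt_id (0 : ℝ)).smul_const w).const_add a
    have h3 : HasFDerivAt f (fderiv ℝ f a) (a + (0 : ℝ) • w) := by simpa using hdiff.hasFDerivAt
    exact h3.comp_hasDerivAt (0 : ℝ) h2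
  set c := (v l - v k) / (a l - a k) with hc
  set u : Cf := fun i => v i - v k - c * (a i - a k) with hu
  have d1 : fderiv ℝ f a (fun i => c * (a i - a k) + v k) =
      ((-5 / 2 - 5 * e + (∑ i, (p i + r i) : ℤ)) * c +
        (-5 / 2 - 5 * e + (∑ i, (q i + t i) : ℤ)) * conj c) * f a := by
    have h2 := (E_der (-5 / 2 - 5 * e) (∑ i, (p i + r i)) (∑ i, (q i + t i)) c).mul_const (f a)
    refine (line _).unique ((h2.congr_of_eventuallyEq ?_).congr_deriv (by push_cast; ring))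
    have : ∀ᶠ s : ℝ in nhds 0, 1 + (s : ℂ) * c ≠ 0 :=
      ContinuousAt.eventually_ne (by fun_prop) (by simp)
    filter_upwards [this] with s hs
    rw [← hC e p q r t a _ (s * (v k - c * a k)) hs]
    congr 1
    funext i
    simp only [Pi.add_apply, Pi.smul_apply, real_smul]
    ring
  have hu0 : ∀ i, (if i ∈ D then u i else 0) = u i := by
    intro i
    split_ifs with hi
    · rfl
    · rcases (hDk i).resolve_left hi with rfl | rfl
      · simp [hu]
      · simp only [hu, hc]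
        field_simp
        ring
  have d2 : fderiv ℝ f a u = dIn e p q r t D a u := by
    have h2 : HasDerivAt (fun s : ℝ => s • u) u 0 := by
      simpa using (hasDerivAt_id (0 : ℝ)).smul_const u
    have h3 := (show HasFDerivAt _ L ((0 : ℝ) • u) by simpa using hd).comp_hasDerivAt (0 : ℝ) h2
    rw [← hL]
    refine (line u).unique (h3.congr_of_eventuallyEq (Filter.Eventually.of_forall fun s => ?_))
    simp only [Function.comp_apply]
    congr 2
    funext i
    simp only [Pi.smul_apply]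
    rw [← hu0 i]
    split_ifs <;> simp
  rw [← d1, ← d2, ← map_add]
  congr 1
  funext i
  simp only [Pi.add_apply, hu]
  ring

lemma E_split (s : ℝ) (p q : ℤ) (z : ℂ) : E s p q z = z ^ p * E s 0 q z := by
  simp only [E, zpow_zero]
  ring

lemma Ig_split (e : ℝ) (p q r t : Fin 4 → ℤ) (a : Cf) (z : ℂ × ℂ) :
    Ig e p q r t a z =
      (∏ i, (z.1 - a i) ^ p i) * (∏ i, (z.2 - a i) ^ r i) * Ig e 0 q 0 t a z := by
  simp only [Ig, Pi.zero_apply]
  rw [Finset.prod_congr rfl fun i _ => E_split _ (p i) (q i) _,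
    Finset.prod_congr rfl fun i _ => E_split _ (r i) (t i) _, Finset.prod_mul_distrib,
    Finset.prod_mul_distrib]
  ring

lemma prod_one (a : Cf) (x : ℂ) (u : Fin 4) :
    ∏ i, (x - a i) ^ (Pi.single u 1 : Fin 4 → ℤ) i = x - a u := by
  rw [Finset.prod_eq_single u] <;> simp +contextual

lemma prod_two (a : Cf) (x : ℂ) {u w : Fin 4} (h : u ≠ w) :
    ∏ i, (x - a i) ^ (Pi.single u 1 + Pi.single w 1 : Fin 4 → ℤ) i = (x - a u) * (x - a w) := by
  rw [Finset.prod_eq_mul u w h] <;> simp +contextual [h, h.symm]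

/-- the exponents of a product of two linear factors -/
abbrev tw (u w : Fin 4) : Fin 4 → ℤ := Pi.single u 1 + Pi.single w 1

lemma ok_of {p q r : Fin 4 → ℤ} (hp : ∀ i, 0 ≤ p i) (hq : ∀ i, 0 ≤ q i) (hr : ∀ i, 0 ≤ r i)
    (sp : ∑ i, p i ≤ 2) (sq : ∑ i, q i ≤ 1) (sr : ∑ i, r i ≤ 2) : Ok p q r 0 := by
  refine ⟨fun i => add_nonneg (hp i) (hq i), fun i => by simpa using hr i, ?_, by simpa using sr⟩
  rw [Finset.sum_add_distrib]
  omega

lemma tw_nn (u w i : Fin 4) : 0 ≤ tw u w i := by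
  simp only [tw, Pi.add_apply, Pi.single_apply]
  split_ifs <;> norm_num

lemma tw_sum (u w : Fin 4) : ∑ i, tw u w i = 2 := by
  simp [tw, Finset.sum_add_distrib]

lemma sg_nn (u i : Fin 4) {j : ℤ} (hj : 0 ≤ j) : 0 ≤ (Pi.single u j : Fin 4 → ℤ) i := by
  simp only [Pi.single_apply]
  split_ifs <;> omega

/-- splitting a fraction under the integral -/
lemma part (hI : IntSt) {e : ℝ} (e0 : 0 < e) (e1 : e < 1 / 12) {q : Fin 4 → ℤ}
    (hq : ∀ i, 0 ≤ q i) (sq : ∑ i, q i ≤ 1) {a : Cf} (ha : Function.Injective a)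
    {i j k l : Fin 4} (hij : i ≠ j) (hik : i ≠ k) (hil : i ≠ l) (hjk : j ≠ k) (hjl : j ≠ l) :
    (a k - a l) ^ 2 * (In e (Pi.single j 1) q (tw i j) 0 a + In e (tw i j) q (Pi.single j 1) 0 a) =
      (1 / (a k - a i) + 1 / (a l - a i)) * ((a k - a l) ^ 2 * In e (tw i j) q (tw i j) 0 a) -
      (1 / (a i - a k) - 1 / (a i - a l)) * ((a i - a k) ^ 2 * In e (tw j l) q (tw j l) 0 a -
        (a i - a l) ^ 2 * In e (tw j k) q (tw j k) 0 a) := by
  have o1 : ∀ u w, Integrable (Ig e (tw u w) q (tw u w) 0 a) := fun u w =>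
    hI e e0 e1 _ _ _ _ (ok_of (tw_nn u w) hq (tw_nn u w) (tw_sum u w).le sq (tw_sum u w).le) a ha
  have o2 : Integrable (Ig e (Pi.single j 1) q (tw i j) 0 a) :=
    hI e e0 e1 _ _ _ _ (ok_of (fun x => sg_nn j x one_pos.le) hq (tw_nn i j) (by simp) sq
      (tw_sum i j).le) a ha
  have o3 : Integrable (Ig e (tw i j) q (Pi.single j 1) 0 a) :=
    hI e e0 e1 _ _ _ _ (ok_of (tw_nn i j) hq (fun x => sg_nn j x one_pos.le) (tw_sum i j).le sq
      (by simp)) a ha
  have n1 : a i - a k ≠ 0 := sub_ne_zero.mpr fun h => hik (ha h)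
  have n2 : a i - a l ≠ 0 := sub_ne_zero.mpr fun h => hil (ha h)
  have n3 : a k - a i ≠ 0 := sub_ne_zero.mpr fun h => hik (ha h).symm
  have n4 : a l - a i ≠ 0 := sub_ne_zero.mpr fun h => hil (ha h).symm
  simp only [In]
  rw [← integral_add o2 o3, ← integral_const_mul, ← integral_const_mul, ← integral_const_mul,
    ← integral_const_mul, ← integral_const_mul,
    ← integral_sub ((o1 _ _).const_mul _) ((o1 _ _).const_mul _), ← integral_const_mul,
    ← integral_sub (((o1 _ _).const_mul _).const_mul _)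
      ((((o1 _ _).const_mul _).sub' ((o1 _ _).const_mul _)).const_mul _)]
  congr 1
  funext z
  rw [Ig_split e (Pi.single j 1), Ig_split e (tw i j) q (Pi.single j 1),
    Ig_split e (tw i j) q (tw i j), Ig_split e (tw j l), Ig_split e (tw j k)]
  simp only [prod_one, prod_two a _ hij, prod_two a _ hjl, prod_two a _ hjk]
  rw [show a k - a i = -(a i - a k) by ring, show a l - a i = -(a i - a l) by ring]
  field_simp
  ring

lemma tw_sub_l (u w : Fin 4) : tw u w - Pi.single u 1 = Pi.single w 1 := by simp [tw]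

lemma tw_sub_r (u w : Fin 4) : tw u w - Pi.single w 1 = Pi.single u 1 := by simp [tw]

lemma tw_comm (u w : Fin 4) : tw u w = tw w u := add_comm _ _

/-- one row of the system -/
lemma row (hI : IntSt) (hD : DerSt) (hC : CovSt) {e : ℝ} (e0 : 0 < e) (e1 : e < 1 / 12)
    {q : Fin 4 → ℤ} (hq : ∀ i, 0 ≤ q i) (sq : ∑ i, q i ≤ 1) {a : Cf} (ha : Function.Injective a)
    {i j k l : Fin 4} (hij : i ≠ j) (hik : i ≠ k) (hil : i ≠ l) (hjk : j ≠ k) (hjl : j ≠ l)
    (hkl : k ≠ l) (X : Fin 4 → Fin 4 → Fin 4 → Fin 4 → Cf → ℂ)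
    (hX : ∀ k l i j b, X k l i j b = (b k - b l) ^ 2 * In e (tw i j) q (tw i j) 0 b) :
    DifferentiableAt ℝ (X k l i j) a ∧ ∀ v : Cf,
      fderiv ℝ (X k l i j) a v - I * fderiv ℝ (X k l i j) a (I • v) =
        -2 * ((v k - v l) / (a k - a l) * ((4 * al e + be e) * X k l i j a) +
          (v i - v k) / (a i - a k) * (al e * (X k l i j a + X i k j l a - X i l j k a)) +
          (v i - v l) / (a i - a l) * (al e * (X k l i j a - X i k j l a + X i l j k a)) +
          (v j - v k) / (a j - a k) * (al e * (X k l i j a + X j k i l a - X j l i k a)) +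
          (v j - v l) / (a j - a l) * (al e * (X k l i j a - X j k i l a + X j l i k a))) := by
  have o0 : Ok (tw i j) q (tw i j) 0 :=
    ok_of (tw_nn i j) hq (tw_nn i j) (tw_sum i j).le sq (tw_sum i j).le
  have o2 : ∀ u, Ok (Pi.single u 1) q (tw i j) 0 ∧ Ok (tw i j) q (Pi.single u 1) 0 := fun u =>
    ⟨ok_of (fun x => sg_nn u x one_pos.le) hq (tw_nn i j) (by simp) sq (tw_sum i j).le,
      ok_of (tw_nn i j) hq (fun x => sg_nn u x one_pos.le) (tw_sum i j).le sq (by simp)⟩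
  obtain ⟨d1, d2⟩ := In_fderiv hD hC e0 e1 (D := {i, j}) hkl
    (by intro x; simp only [Finset.mem_insert, Finset.mem_singleton]; omega) o0
    (by
      intro x hx
      simp only [Finset.mem_insert, Finset.mem_singleton] at hx
      rcases hx with rfl | rfl
      · rw [tw_sub_l]; exact o2 _
      · rw [tw_sub_r]; exact o2 _) ha
  let π : Fin 4 → Cf →L[ℝ] ℂ := fun u => ContinuousLinearMap.proj (R := ℝ) (φ := fun _ => ℂ) u
  have c1 : HasFDerivAt (fun b : Cf => (b k - b l) ^ 2) ((2 * (a k - a l)) • (π k - π l)) a := by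
    have := ((π k - π l).hasFDerivAt (x := a)).pow 2
    simpa [π] using this
  have c2 := c1.mul d1.hasFDerivAt
  have eX : X k l i j = fun b => (b k - b l) ^ 2 * In e (tw i j) q (tw i j) 0 b :=
    funext (hX k l i j)
  rw [eX]
  refine ⟨c2.differentiableAt, fun v => ?_⟩
  have c3 : ∀ w, fderiv ℝ (fun b => (b k - b l) ^ 2 * In e (tw i j) q (tw i j) 0 b) a w =
      (a k - a l) ^ 2 * fderiv ℝ (In e (tw i j) q (tw i j) 0) a w +
        In e (tw i j) q (tw i j) 0 a * (2 * (a k - a l) * (w k - w l)) := by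
    intro w
    rw [show fderiv ℝ (fun b => (b k - b l) ^ 2 * In e (tw i j) q (tw i j) 0 b) a = _ from
      c2.fderiv]
    simp [π]
  have p1 := part hI e0 e1 hq sq ha hij hik hil hjk hjl
  have p2 := part hI e0 e1 hq sq ha hij.symm hjk hjl hik hil
  rw [tw_comm j i] at p2
  have n1 : a i - a k ≠ 0 := sub_ne_zero.mpr fun h => hik (ha h)
  have n2 : a i - a l ≠ 0 := sub_ne_zero.mpr fun h => hil (ha h)
  have n3 : a j - a k ≠ 0 := sub_ne_zero.mpr fun h => hjk (ha h)
  have n4 : a j - a l ≠ 0 := sub_ne_zero.mpr fun h => hjl (ha h)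
  have n5 : a k - a l ≠ 0 := sub_ne_zero.mpr fun h => hkl (ha h)
  rw [show a k - a i = -(a i - a k) by ring, show a l - a i = -(a i - a l) by ring] at p1
  rw [show a k - a j = -(a j - a k) by ring, show a l - a j = -(a j - a l) by ring] at p2
  have s4 : (∑ x, (tw i j x + tw i j x) : ℤ) = 4 := by
    rw [Finset.sum_add_distrib, tw_sum]; rfl
  rw [c3, c3, d2, d2, s4]
  simp only [dIn, Finset.sum_pair hij, tw_sub_l, tw_sub_r, hX, Pi.smul_apply, smul_eq_mul]
  have t1 : tw i j i = 1 := by simp [tw, hij]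
  have t2 : tw i j j = 1 := by simp [tw, hij.symm]
  rw [t1, t2, show a l - a k = -(a k - a l) by ring]
  have k1 : ∀ x y : ℂ, (I * x - I * y) / -(a k - a l) = I * ((x - y) / -(a k - a l)) := by
    intro x y; ring
  have k2 : ∀ x y z w : ℂ, I * x - I * y - I * z * w = I * (x - y - z * w) := by
    intro x y z w; ring
  simp only [k1, k2, map_mul, conj_I]
  generalize conj ((v l - v k) / -(a k - a l)) = c0
  generalize conj (v i - v k - (v l - v k) / -(a k - a l) * (a i - a k)) = c1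
  generalize conj (v j - v k - (v l - v k) / -(a k - a l) * (a j - a k)) = c2
  generalize In e (tw i j) q (tw i j) 0 a = f0 at p1 p2 ⊢
  generalize In e (Pi.single j 1) q (tw i j) 0 a = f1 at p1 ⊢
  generalize In e (tw i j) q (Pi.single j 1) 0 a = f2 at p1 ⊢
  generalize In e (Pi.single i 1) q (tw i j) 0 a = f3 at p2 ⊢
  generalize In e (tw i j) q (Pi.single i 1) 0 a = f4 at p2 ⊢
  generalize (-1 / 2 - (e : ℂ) + (q i : ℤ)) * _ + _ = g1
  generalize (-1 / 2 - (e : ℂ) + (q j : ℤ)) * _ + _ = g2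
  generalize -5 / 2 - 5 * (e : ℂ) + (∑ x, (q x + (0 : Fin 4 → ℤ) x) : ℤ) = g0
  set c := (v l - v k) / -(a k - a l) with hc
  have key : ∀ A B x y : ℂ, x = A + B → y = I * A - I * B → x - I * y = 2 * A := by
    intro A B x y hx hy
    rw [hx, hy]
    linear_combination (B - A) * I_mul_I
  rw [key ((a k - a l) ^ 2 * ((3 / 2 - 5 * e) * c * f0 -
      (v i - v k - c * (a i - a k)) * (1 / 2 - e) * (f1 + f2) -
      (v j - v k - c * (a j - a k)) * (1 / 2 - e) * (f3 + f4)) +
      f0 * (2 * (a k - a l) * (v k - v l))) ((a k - a l) ^ 2 * (g0 * c0 * f0 - c1 * g1 - c2 * g2))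
      _ _ (by push_cast; ring) (by push_cast; ring)]
  simp only [al, be]
  have hc' : (v k - v l) / (a k - a l) = c := by rw [hc, ← neg_div_neg_eq, neg_sub]
  have g : ∀ u, a u - a k ≠ 0 → a u - a l ≠ 0 →
      (v u - v k - c * (a u - a k)) * (1 / (a u - a k)) = (v u - v k) / (a u - a k) - c ∧
      (v u - v k - c * (a u - a k)) * (1 / (a u - a l)) = (v u - v l) / (a u - a l) - c := by
    intro u h1 h2
    rw [← hc']
    constructor <;> field_simp
    ring
  have g0 : v k - v l = c * (a k - a l) := by rw [← hc', div_mul_cancel₀ _ n5]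
  obtain ⟨i1, i2⟩ := g i n1 n2
  obtain ⟨j1, j2⟩ := g j n3 n4
  simp only [div_neg] at p1 p2
  rw [hc']
  generalize (v i - v k - c * (a i - a k)) = ui at i1 i2 ⊢
  generalize (v j - v k - c * (a j - a k)) = uj at j1 j2 ⊢
  generalize (a i - a k) ^ 2 * _ = A1 at p1 ⊢
  generalize (a i - a l) ^ 2 * _ = A2 at p1 ⊢
  generalize (a j - a k) ^ 2 * _ = A3 at p2 ⊢
  generalize (a j - a l) ^ 2 * _ = A4 at p2 ⊢
  generalize 1 / (a i - a k) = r1 at p1 i1
  generalize 1 / (a i - a l) = r2 at p1 i2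
  generalize 1 / (a j - a k) = r3 at p2 j1
  generalize 1 / (a j - a l) = r4 at p2 j2
  rw [g0]
  generalize a k - a l = d at p1 p2 ⊢
  linear_combination (-2 * ui * (1 / 2 - e)) * p1 + (-2 * uj * (1 / 2 - e)) * p2 +
    (2 * (1 / 2 - e) * (d ^ 2 * f0 + A1 - A2)) * i1 +
    (2 * (1 / 2 - e) * (d ^ 2 * f0 - A1 + A2)) * i2 +
    (2 * (1 / 2 - e) * (d ^ 2 * f0 + A3 - A4)) * j1 +
    (2 * (1 / 2 - e) * (d ^ 2 * f0 - A3 + A4)) * j2

lemma tr_conn (e : ℝ) (a v : Cf) (Z : Fin 6 → ℂ) (w : Fin 6 → ℂ)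
    (hw : ∀ n, w n = (v (fst n) - v (snd n)) / (a (fst n) - a (snd n))) :
    (conn e a v)ᵀ *ᵥ Z = ![
      w 0 * ((4 * al e + be e) * Z 0) + w 1 * (al e * (Z 0 + Z 1 - Z 3)) +
        w 3 * (al e * (Z 0 - Z 1 + Z 3)) + w 2 * (al e * (Z 0 + Z 2 - Z 4)) +
        w 4 * (al e * (Z 0 - Z 2 + Z 4)),
      w 1 * ((4 * al e + be e) * Z 1) + w 0 * (al e * (Z 1 + Z 0 - Z 3)) +
        w 3 * (al e * (Z 1 - Z 0 + Z 3)) + w 2 * (al e * (Z 1 + Z 2 - Z 5)) +
        w 5 * (al e * (Z 1 - Z 2 + Z 5)),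
      w 2 * ((4 * al e + be e) * Z 2) + w 0 * (al e * (Z 2 + Z 0 - Z 4)) +
        w 4 * (al e * (Z 2 - Z 0 + Z 4)) + w 1 * (al e * (Z 2 + Z 1 - Z 5)) +
        w 5 * (al e * (Z 2 - Z 1 + Z 5)),
      w 3 * ((4 * al e + be e) * Z 3) + w 0 * (al e * (Z 3 + Z 0 - Z 1)) +
        w 1 * (al e * (Z 3 - Z 0 + Z 1)) + w 4 * (al e * (Z 3 + Z 4 - Z 5)) +
        w 5 * (al e * (Z 3 - Z 4 + Z 5)),
      w 4 * ((4 * al e + be e) * Z 4) + w 0 * (al e * (Z 4 + Z 0 - Z 2)) +
        w 2 * (al e * (Z 4 - Z 0 + Z 2)) + w 3 * (al e * (Z 4 + Z 3 - Z 5)) +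
        w 5 * (al e * (Z 4 - Z 3 + Z 5)),
      w 5 * ((4 * al e + be e) * Z 5) + w 1 * (al e * (Z 5 + Z 1 - Z 2)) +
        w 2 * (al e * (Z 5 - Z 1 + Z 2)) + w 3 * (al e * (Z 5 + Z 3 - Z 4)) +
        w 4 * (al e * (Z 5 - Z 3 + Z 4))] := by
  funext n
  simp only [conn, ← hw, mulVec, dotProduct, transpose_apply, Fin.sum_univ_six, Res]
  fin_cases n <;> simp [ResA] <;> ring

lemma ix_one : ∀ i k : Fin 4, i ≠ k →
    (fst (ix i k) = i ∧ snd (ix i k) = k) ∨ (fst (ix i k) = k ∧ snd (ix i k) = i) := by decide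

lemma ix_two : ∀ k l i j : Fin 4, k ≠ l → i ≠ j → i ≠ k → i ≠ l → j ≠ k → j ≠ l →
    (fst (cpl (ix k l)) = i ∧ snd (cpl (ix k l)) = j) ∨
      (fst (cpl (ix k l)) = j ∧ snd (cpl (ix k l)) = i) := by decide

end Pf

open Pf in
/-- the columns of integrals satisfy the dual system in the holomorphic directions -/
theorem pf (hI : IntSt) (hD : DerSt) (hC : CovSt) {e : ℝ} (e0 : 0 < e) (e1 : e < 1 / 12) {j : ℤ}
    (hj : j = 0 ∨ j = 1) {a : Cf} (ha : Function.Injective a) :
    DifferentiableAt ℝ (Jc e j) a ∧ ∀ v : Cf,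
      fderiv ℝ (Jc e j) a v - I • fderiv ℝ (Jc e j) a (I • v) =
        (-2 : ℂ) • ((conn e a v)ᵀ *ᵥ Jc e j a) := by
  let X : Fin 4 → Fin 4 → Fin 4 → Fin 4 → Cf → ℂ := fun k l i i' b =>
    (b k - b l) ^ 2 * In e (tw i i') (Pi.single 0 j) (tw i i') 0 b
  have R := fun n : Fin 6 => row hI hD hC e0 e1 (q := Pi.single 0 j)
    (fun x => sg_nn 0 x (by omega)) (by simp; omega) ha (i := fst (cpl n)) (j := snd (cpl n))
    (k := fst n) (l := snd n) (by revert n; decide) (by revert n; decide) (by revert n; decide)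
    (by revert n; decide) (by revert n; decide) (by revert n; decide) X fun _ _ _ _ _ => rfl
  have hJ : Jc e j = fun b n => X (fst n) (snd n) (fst (cpl n)) (snd (cpl n)) b := rfl
  refine ⟨differentiableAt_pi.mpr fun n => (R n).1, fun v => ?_⟩
  funext n
  have h1 : ∀ w, fderiv ℝ (Jc e j) a w n =
      fderiv ℝ (X (fst n) (snd n) (fst (cpl n)) (snd (cpl n))) a w := by
    intro w
    rw [hJ, fderiv_pi fun n => (R n).1]
    rfl
  obtain ⟨w, hw⟩ : ∃ w : Fin 6 → ℂ, ∀ n, w n = (v (fst n) - v (snd n)) / (a (fst n) - a (snd n)) :=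
    ⟨_, fun _ => rfl⟩
  have h2 : ∀ i k : Fin 4, i ≠ k → (v i - v k) / (a i - a k) = w (ix i k) := by
    intro i k h
    rcases ix_one i k h with ⟨h1, h2⟩ | ⟨h1, h2⟩ <;> rw [hw, h1, h2]
    rw [← neg_div_neg_eq, neg_sub, neg_sub]
  have h3 : ∀ k l i i' : Fin 4, k ≠ l → i ≠ i' → i ≠ k → i ≠ l → i' ≠ k → i' ≠ l →
      X k l i i' a = Jc e j a (ix k l) := by
    intro k l i i' g1 g2 g3 g4 g5 g6
    rw [hJ]
    rcases ix_one k l g1 with ⟨h1, h2⟩ | ⟨h1, h2⟩ <;>
      rcases ix_two k l i i' g1 g2 g3 g4 g5 g6 with ⟨h3, h4⟩ | ⟨h3, h4⟩ <;>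
      simp only [h1, h2, h3, h4, X, tw_comm i' i] <;> ring
  simp only [Pi.sub_apply, Pi.smul_apply, h1, smul_eq_mul, (R n).2]
  rw [tr_conn e a v _ w hw, h2, h2, h2, h2, h2, h3, h3, h3, h3, h3]
  · fin_cases n <;> rfl
  all_goals clear h1; revert n; decide

end Pool.Agent.Lib.MP_0c623d_al.BP
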