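import Pool.Agent.Lib.MP_0c623d_al.BP.Low
import Pool.Agent.Lib.MP_0c623d_al.BP.Pf

set_option autoImplicit false

/-!
The sesquilinear form of the dual integrals and the rows of the forms vanishing at one point.
-/

namespace Pool.Agent.Lib.MP_0c623d_al.BP

open Complex MeasureTheory Matrix Filter Topology Metric Set
open scoped ComplexConjugate

noncomputable section

namespace Dl

/-- the sesquilinear form of the dual integrals -/
def Bf (e : ℝ) (a : Cf) (l l' : Fin 3 → ℂ) : ℂ :=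
  ∫ z : ℂ × ℂ, ell l z.1 z.2 * conj (ell l' z.1 z.2) * wt e a z

theorem Ig_eq (e : ℝ) (p q r t : Fin 4 → ℤ) (a : Cf) (z : ℂ × ℂ) :
    Ig e p q r t a z = (∏ i, (z.1 - a i) ^ p i) * conj (∏ i, (z.1 - a i) ^ q i) *
      (∏ i, (z.2 - a i) ^ r i) * conj (∏ i, (z.2 - a i) ^ t i) * wt e a z := by
  simp only [Ig, wt, E, Finset.prod_mul_distrib, map_prod, map_zpow₀, ofReal_mul, ofReal_prod]
  ring

variable {e : ℝ} {a : Cf}

theorem Bf_int (hI : IntSt) (h0 : 0 < e) (h1 : e < 1 / 12) (ha : Function.Injective a)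
    (l l' : Fin 3 → ℂ) :
    Integrable fun z : ℂ × ℂ => ell l z.1 z.2 * conj (ell l' z.1 z.2) * wt e a z := by
  refine ((G_int hI h0 h1 ha l).add (G_int hI h0 h1 ha l')).mono' ?_
    (Eventually.of_forall fun z => ?_)
  · exact (((ell_cont l).mul (continuous_conj.comp (ell_cont l'))).measurable.mul
      (measurable_ofReal.comp (wt_meas e a))).aestronglyMeasurable
  · have hw := wt_nonneg e a z
    simp only [norm_mul, Complex.norm_conj, norm_real, Real.norm_of_nonneg hw, Pi.add_apply]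
    rw [← add_mul]
    refine mul_le_mul_of_nonneg_right ?_ hw
    nlinarith [sq_nonneg (‖ell l z.1 z.2‖ - ‖ell l' z.1 z.2‖), norm_nonneg (ell l z.1 z.2),
      norm_nonneg (ell l' z.1 z.2)]

theorem Bf_lin (hI : IntSt) (h0 : 0 < e) (h1 : e < 1 / 12) (ha : Function.Injective a)
    (c d : ℂ) (u v l : Fin 3 → ℂ) :
    Bf e a (c • u + d • v) l = c * Bf e a u l + d * Bf e a v l := by
  simp only [Bf]
  rw [← integral_const_mul, ← integral_const_mul, ← integral_add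
    ((Bf_int hI h0 h1 ha u l).const_mul c) ((Bf_int hI h0 h1 ha v l).const_mul d)]
  congr 1
  funext z
  simp only [ell, Pi.add_apply, Pi.smul_apply, smul_eq_mul]
  ring

theorem Bf_conj (e : ℝ) (a : Cf) (l l' : Fin 3 → ℂ) : conj (Bf e a l l') = Bf e a l' l := by
  simp only [Bf]
  rw [← integral_conj]
  congr 1
  funext z
  simp only [map_mul, conj_conj, conj_ofReal]
  ring

theorem Bf_self (e : ℝ) (a : Cf) (l : Fin 3 → ℂ) : Bf e a l l = G e a l := by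
  simp only [Bf, G]
  rw [← integral_complex_ofReal]
  congr 1
  funext z
  rw [mul_conj']
  simp

theorem ne6 (ha : Function.Injective a) : a 0 - a 1 ≠ 0 ∧ a 0 - a 2 ≠ 0 ∧ a 0 - a 3 ≠ 0 ∧
    a 1 - a 2 ≠ 0 ∧ a 1 - a 3 ≠ 0 ∧ a 2 - a 3 ≠ 0 ∧ a 1 - a 0 ≠ 0 ∧ a 2 - a 0 ≠ 0 ∧
    a 3 - a 0 ≠ 0 ∧ a 2 - a 1 ≠ 0 ∧ a 3 - a 1 ≠ 0 ∧ a 3 - a 2 ≠ 0 := by
  simp only [sub_ne_zero, ne_eq, ha.eq_iff]
  decide

theorem Srow_frame (ha : Function.Injective a) (l : Fin 3 → ℂ) (x y : ℂ) :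
    ∑ n, Srow a l n * (cw a n * (Pc a n x * Pc a n y)) = ell l x y := by
  obtain ⟨n1, n2, n3, n4, n5, n6, m1, m2, m3, m4, m5, m6⟩ := ne6 ha
  simp only [Fin.sum_univ_six, Srow, cw, Pc, ell]
  simp only [fst, snd, cpl, cons_val, cons_val_zero, cons_val_one]
  field_simp
  ring

theorem Srow_lin (a : Cf) (c d : ℂ) (u v : Fin 3 → ℂ) :
    Srow a (c • u + d • v) = c • Srow a u + d • Srow a v := by
  funext n
  simp only [Srow, ell, Pi.add_apply, Pi.smul_apply, smul_eq_mul]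
  ring

theorem Srow_Jc (hI : IntSt) (h0 : 0 < e) (h1 : e < 1 / 12) (ha : Function.Injective a)
    (l : Fin 3 → ℂ) {j : ℤ} (hj : j = 0 ∨ j = 1) :
    (Integrable fun z : ℂ × ℂ => ell l z.1 z.2 * conj ((z.1 - a 0) ^ j) * wt e a z) ∧
      Srow a l ⬝ᵥ Jc e j a =
        ∫ z : ℂ × ℂ, ell l z.1 z.2 * conj ((z.1 - a 0) ^ j) * wt e a z := by
  have o : ∀ n, Integrable fun z =>
      Srow a l n * (cw a n * Ig e (pc n) (Pi.single 0 j) (pc n) 0 a z) := fun n =>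
    ((hI e h0 h1 _ _ _ _ (Pf.ok_of (Pf.tw_nn _ _) (fun x => Pf.sg_nn 0 x (by omega))
      (Pf.tw_nn _ _) (Pf.tw_sum _ _).le (by simp; omega) (Pf.tw_sum _ _).le) a ha).const_mul
      _).const_mul _
  have hn : ∀ n, fst (cpl n) ≠ snd (cpl n) := by decide
  have key : (fun z : ℂ × ℂ => ell l z.1 z.2 * conj ((z.1 - a 0) ^ j) * wt e a z) =
      fun z => ∑ n, Srow a l n * (cw a n * Ig e (pc n) (Pi.single 0 j) (pc n) 0 a z) := by
    funext z
    rw [← Srow_frame ha l, Finset.sum_mul, Finset.sum_mul]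
    refine Finset.sum_congr rfl fun n _ => ?_
    have h2 : ∏ i, (z.1 - a i) ^ (Pi.single 0 j : Fin 4 → ℤ) i = (z.1 - a 0) ^ j := by
      simp [Fin.prod_univ_four]
    rw [Ig_eq, h2, pc, Pf.prod_two a _ (hn n), Pf.prod_two a _ (hn n)]
    simp only [Pc, Pi.zero_apply, zpow_zero, Finset.prod_const_one, map_one]
    ring
  rw [key]
  refine ⟨integrable_finsetSum _ fun n _ => o n, ?_⟩
  rw [integral_finsetSum _ fun n _ => o n]
  simp only [dotProduct, Jc, In, integral_const_mul]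

theorem col0 (hI : IntSt) (h0 : 0 < e) (h1 : e < 1 / 12) (ha : Function.Injective a)
    (l : Fin 3 → ℂ) : Srow a l ⬝ᵥ Jc e 0 a = Bf e a l ![1, 0, 0] := by
  rw [(Srow_Jc hI h0 h1 ha l (Or.inl rfl)).2]
  simp [Bf, ell]

theorem col1 (hI : IntSt) (h0 : 0 < e) (h1 : e < 1 / 12) (ha : Function.Injective a)
    (l : Fin 3 → ℂ) : Srow a l ⬝ᵥ Jc e 1 a = Bf e a l ![-a 0, 1 / 2, 0] := by
  obtain ⟨hi, hJ⟩ := Srow_Jc hI h0 h1 ha l (Or.inr rfl)
  rw [hJ]
  set f := fun z : ℂ × ℂ => ell l z.1 z.2 * conj ((z.1 - a 0) ^ (1 : ℤ)) * wt e a z with hf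
  have hs : ∫ z : ℂ × ℂ, f z.swap = ∫ z, f z := by
    rw [Measure.volume_eq_prod, integral_prod_swap]
  have hi' : Integrable fun z : ℂ × ℂ => f z.swap := by
    rw [Measure.volume_eq_prod] at hi ⊢
    exact hi.swap
  have h2 : Bf e a l ![-a 0, 1 / 2, 0] = ∫ z, 1 / 2 * (f z + f z.swap) := by
    simp only [Bf, hf]
    congr 1
    funext z
    have hw : wt e a z.swap = wt e a z := by
      simp only [wt, Prod.fst_swap, Prod.snd_swap, norm_sub_rev z.2 z.1]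
      ring
    have h3 : conj (2 : ℂ) = 2 := conj_ofNat 2
    rw [hw]
    simp [ell, h3]
    ring
  rw [h2, integral_const_mul, integral_add hi hi', hs]
  ring

/-- the exponent vector of one linear factor -/
abbrev s1 (i : Fin 4) : Fin 4 → ℤ := Pi.single i 1

/-- the form `(x - a i) (y - a i)` -/
def li (a : Cf) (i : Fin 4) : Fin 3 → ℂ := ![a i ^ 2, -a i, 1]

/-- the form `x + y - 2 a i` -/
def ui (a : Cf) (i : Fin 4) : Fin 3 → ℂ := ![-2 * a i, 1, 0]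

theorem ell_li (a : Cf) (i : Fin 4) (x y : ℂ) : ell (li a i) x y = (x - a i) * (y - a i) := by
  simp [ell, li]; ring

theorem ell_ui (a : Cf) (i : Fin 4) (x y : ℂ) : ell (ui a i) x y = (x - a i) + (y - a i) := by
  simp [ell, ui]; ring

theorem In_ll (e : ℝ) (a : Cf) (i : Fin 4) :
    In e (s1 i) (s1 i) (s1 i) (s1 i) a = Bf e a (li a i) (li a i) := by
  simp only [In, Bf]
  congr 1
  funext z
  simp only [Ig_eq, Pf.prod_one, ell_li, map_mul]
  ring

theorem ok_l (i : Fin 4) : Ok (s1 i) (s1 i) (s1 i) (s1 i) ∧ Ok 0 (s1 i) (s1 i) (s1 i) ∧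
    Ok (s1 i) (s1 i) 0 (s1 i) := by
  unfold Ok
  revert i
  decide

theorem In_ul (hI : IntSt) (h0 : 0 < e) (h1 : e < 1 / 12) (ha : Function.Injective a)
    (i : Fin 4) : In e 0 (s1 i) (s1 i) (s1 i) a + In e (s1 i) (s1 i) 0 (s1 i) a =
      Bf e a (ui a i) (li a i) := by
  simp only [In, Bf]
  rw [← integral_add (hI e h0 h1 _ _ _ _ (ok_l i).2.1 a ha) (hI e h0 h1 _ _ _ _ (ok_l i).2.2 a ha)]
  congr 1
  funext z
  simp only [Ig_eq, Pf.prod_one, ell_li, ell_ui, map_mul, Pi.zero_apply, zpow_zero,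
    Finset.prod_const_one]
  ring

theorem In_lu (hI : IntSt) (h0 : 0 < e) (h1 : e < 1 / 12) (ha : Function.Injective a)
    (i : Fin 4) : In e (s1 i) 0 (s1 i) (s1 i) a + In e (s1 i) (s1 i) (s1 i) 0 a =
      Bf e a (li a i) (ui a i) := by
  rw [← Bf_conj, ← In_ul hI h0 h1 ha, map_add, In_conj, In_conj]

theorem conn_vec (e : ℝ) (a v : Cf) (Z w : Fin 6 → ℂ)
    (hw : ∀ n, w n = (v (fst n) - v (snd n)) / (a (fst n) - a (snd n))) :
    conn e a v *ᵥ Z = ![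
      w 0 * ((4 * al e + be e) * Z 0 + al e * (Z 1 + Z 2 + Z 3 + Z 4)) + al e * (w 1 * (Z 0 - Z 3) +
        w 2 * (Z 0 - Z 4) + w 3 * (Z 0 - Z 1) + w 4 * (Z 0 - Z 2)),
      w 1 * ((4 * al e + be e) * Z 1 + al e * (Z 0 + Z 2 + Z 3 + Z 5)) + al e * (w 0 * (Z 1 - Z 3) +
        w 2 * (Z 1 - Z 5) + w 3 * (Z 1 - Z 0) + w 5 * (Z 1 - Z 2)),
      w 2 * ((4 * al e + be e) * Z 2 + al e * (Z 0 + Z 1 + Z 4 + Z 5)) + al e * (w 0 * (Z 2 - Z 4) +
        w 1 * (Z 2 - Z 5) + w 4 * (Z 2 - Z 0) + w 5 * (Z 2 - Z 1)),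
      w 3 * ((4 * al e + be e) * Z 3 + al e * (Z 0 + Z 1 + Z 4 + Z 5)) + al e * (w 0 * (Z 3 - Z 1) +
        w 1 * (Z 3 - Z 0) + w 4 * (Z 3 - Z 5) + w 5 * (Z 3 - Z 4)),
      w 4 * ((4 * al e + be e) * Z 4 + al e * (Z 0 + Z 2 + Z 3 + Z 5)) + al e * (w 0 * (Z 4 - Z 2) +
        w 2 * (Z 4 - Z 0) + w 3 * (Z 4 - Z 5) + w 5 * (Z 4 - Z 3)),
      w 5 * ((4 * al e + be e) * Z 5 + al e * (Z 1 + Z 2 + Z 3 + Z 4)) + al e * (w 1 * (Z 5 - Z 2) +
        w 2 * (Z 5 - Z 1) + w 3 * (Z 5 - Z 4) + w 4 * (Z 5 - Z 3))] := by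
  funext n
  simp only [conn, ← hw, mulVec, dotProduct, Fin.sum_univ_six, Res]
  fin_cases n <;> simp [ResA] <;> ring

/-- an entry of the closed form -/
def sc (a : Cf) (k l j : Fin 4) : ℂ := 1 / ((a k - a l) ^ 2 * (a k - a j) * (a l - a j))

/-- closed form of the rows of the forms `li` -/
def Sc (a : Cf) : Fin 4 → Fin 6 → ℂ :=
  ![![0, 0, 0, sc a 1 2 3, sc a 1 3 2, sc a 2 3 1], ![0, sc a 0 2 3, sc a 0 3 2, 0, 0, sc a 2 3 0],
    ![sc a 0 1 3, 0, sc a 0 3 1, 0, sc a 1 3 0, 0], ![sc a 0 1 2, sc a 0 2 1, 0, sc a 1 2 0, 0, 0]]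

theorem Srow_li (ha : Function.Injective a) (i : Fin 4) : Srow a (li a i) = Sc a i := by
  obtain ⟨n1, n2, n3, n4, n5, n6, m1, m2, m3, m4, m5, m6⟩ := ne6 ha
  funext n
  simp only [Srow, cw, Pc, ell_li]
  fin_cases i <;> fin_cases n <;> simp [fst, snd, cpl, Sc, sc] <;> field_simp

theorem conn_li (e : ℝ) (ha : Function.Injective a) (i : Fin 4) (τ : ℂ) :
    conn e a (Pi.single i τ) *ᵥ Srow a (li a i) = (-(τ * al e)) • Srow a (ui a i) := by
  obtain ⟨n1, n2, n3, n4, n5, n6, -⟩ := ne6 ha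
  have r1 : a 1 - a 0 = -(a 0 - a 1) := by ring
  have r2 : a 2 - a 0 = -(a 0 - a 2) := by ring
  have r3 : a 3 - a 0 = -(a 0 - a 3) := by ring
  have r4 : a 2 - a 1 = -(a 1 - a 2) := by ring
  have r5 : a 3 - a 1 = -(a 1 - a 3) := by ring
  have r6 : a 3 - a 2 = -(a 2 - a 3) := by ring
  rw [Srow_li ha, conn_vec e a _ _ _ fun _ => rfl]
  funext n
  simp only [Srow, cw, Pc, ell_ui, Pi.smul_apply, smul_eq_mul]
  fin_cases i <;> fin_cases n <;> simp [fst, snd, cpl, Sc, sc] <;>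
    (try simp only [r1, r2, r3, r4, r5, r6]) <;> field_simp <;> ring

theorem conn_self (e : ℝ) (ha : Function.Injective a) :
    conn e a a = (-7 / 2 + 5 * e : ℂ) • (1 : Matrix (Fin 6) (Fin 6) ℂ) := by
  have hn : ∀ n, fst n ≠ snd n := by decide
  have h : ∀ n, (a (fst n) - a (snd n)) / (a (fst n) - a (snd n)) = 1 := fun n =>
    div_self (sub_ne_zero.2 fun h => hn n (ha h))
  ext r c
  simp only [conn, h, one_smul, Fin.sum_univ_six, Res]
  fin_cases r <;> fin_cases c <;> simp [ResA, al, be] <;> ring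

theorem Srow_move (ha : Function.Injective a) (i : Fin 4) (τ : ℂ)
    (hb : Function.Injective (a + Pi.single i τ : Cf)) :
    Srow (a + Pi.single i τ) (li (a + Pi.single i τ) i) = Srow a (li a i) := by
  rw [Srow_li ha, Srow_li hb]
  fin_cases i <;> simp [Sc, sc]

theorem Srow_scale (a : Cf) {c : ℂ} (hc : c ≠ 0) :
    Srow (c • a) (li (c • a) 0) = (c ^ 4)⁻¹ • Srow a (li a 0) := by
  funext n
  simp only [Srow, cw, Pc, ell_li, Pi.smul_apply, smul_eq_mul, ← mul_sub]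
  field_simp

theorem herm_deriv (H : Matrix (Fin 6) (Fin 6) ℂ) {y : ℝ → Fin 6 → ℂ} {y' : Fin 6 → ℂ}
    (h : HasDerivAt y y' 0) : HasDerivAt (fun s => y s ⬝ᵥ H *ᵥ star (y s))
      (y' ⬝ᵥ H *ᵥ star (y 0) + y 0 ⬝ᵥ H *ᵥ star y') 0 := by
  have hc := hasDerivAt_pi.1 h
  simp only [dotProduct, mulVec, ← Finset.sum_add_distrib]
  exact HasDerivAt.fun_sum fun i _ => (hc i).fun_mul
    (HasDerivAt.fun_sum fun j _ => (hc j).star.const_mul (H i j))

open scoped Matrix.Norms.Elementwise in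
theorem row_deriv {Y : Cf → Matrix (Fin 6) (Fin 6) ℂ} {L : Cf →L[ℂ] Matrix (Fin 6) (Fin 6) ℂ}
    (h : HasFDerivAt Y L a) (S : Fin 6 → ℂ) (v : Cf) :
    HasDerivAt (fun s : ℝ => S ᵥ* Y (a + (s : ℂ) • v)) (S ᵥ* L v) 0 := by
  have h1 : HasDerivAt (fun s : ℝ => a + (s : ℂ) • v) v 0 := by
    simpa using ((hasDerivAt_id (0 : ℝ)).ofReal_comp.smul_const v).const_add a
  have h2 : HasDerivAt (fun s : ℝ => Y (a + (s : ℂ) • v)) (L v) 0 :=
    (h.restrictScalars ℝ).comp_hasDerivAt_of_eq 0 h1 (by simp)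
  refine hasDerivAt_pi.2 fun j => ?_
  simp only [vecMul, dotProduct]
  exact HasDerivAt.fun_sum fun i _ =>
    (hasDerivAt_pi.1 (hasDerivAt_pi.1 h2 i) j).const_mul (S i)

/-- a function that is constant along coordinate directions is locally constant -/
theorem loc_const {U : Set Cf} (hU : IsOpen U) {d : Cf → ℂ}
    (h : ∀ b ∈ U, ∀ (i : Fin 4) (τ : ℂ),
      HasDerivAt (fun s : ℝ => d (b + (s : ℂ) • (Pi.single i τ : Cf))) 0 0)
    (ha : a ∈ U) : ∀ᶠ b in 𝓝 a, d b = d a := by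
  obtain ⟨r, hr, hsub⟩ := Metric.isOpen_iff.1 hU a ha
  filter_upwards [ball_mem_nhds a hr] with b hb
  have step : ∀ c ∈ ball a r, ∀ i, Function.update c i (b i) ∈ ball a r ∧
      d (Function.update c i (b i)) = d c := by
    intro c hc i
    have h1 : Function.update c i (b i) ∈ ball a r := by
      rw [mem_ball, dist_pi_lt_iff hr] at hb hc ⊢
      intro j
      by_cases hj : j = i
      · subst hj; simpa using hb j
      · simpa [hj] using hc j
    refine ⟨h1, ?_⟩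
    obtain ⟨v, hv⟩ : ∃ v : Cf, v = Pi.single i (b i - c i) := ⟨_, rfl⟩
    have h2 : Function.update c i (b i) = c + v := by
      funext j
      by_cases hj : j = i
      · subst hj; simp [hv]
      · simp [hv, hj]
    have h3 : ∀ s ∈ Icc (0 : ℝ) 1, HasDerivAt (fun s : ℝ => d (c + (s : ℂ) • v)) 0 s := by
      intro s hs
      have h4 : c + (s : ℂ) • v ∈ ball a r := by
        have := (convex_ball a r).add_smul_mem hc (h2 ▸ h1) hs
        rwa [← Complex.coe_smul] at this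
      have h5 := h _ (hsub h4) i (b i - c i)
      rw [← hv, ← sub_self s] at h5
      have h6 := h5.comp_sub_const s s
      have h7 : (fun t : ℝ => d (c + (s : ℂ) • v + ((t - s : ℝ) : ℂ) • v)) =
          fun t : ℝ => d (c + (t : ℂ) • v) := by
        funext t
        congr 1
        push_cast
        module
      rw [← h7]
      exact h6
    have := constant_of_has_deriv_right_zero
      (fun s hs => (h3 s hs).continuousAt.continuousWithinAt)
      (fun s hs => (h3 s (Ico_subset_Icc_self hs)).hasDerivWithinAt) 1 ⟨zero_le_one, le_rfl⟩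
    simpa [h2] using this
  obtain ⟨m0, e0⟩ := step a (mem_ball_self hr) 0
  obtain ⟨m1, e1⟩ := step _ m0 1
  obtain ⟨m2, e2⟩ := step _ m1 2
  obtain ⟨-, e3⟩ := step _ m2 3
  rw [← e0, ← e1, ← e2, ← e3]
  congr 1
  funext j
  fin_cases j <;> simp

end Dl

open Dl

theorem sym00 (hI : IntSt) {e : ℝ} (h0 : 0 < e) (h1 : e < 1 / 12) {a : Cf}
    (ha : Function.Injective a) :
    Srow a ![1, 0, 0] ⬝ᵥ Jc e 0 a = conj (Srow a ![1, 0, 0] ⬝ᵥ Jc e 0 a) := by
  rw [col0 hI h0 h1 ha, Bf_conj]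

theorem sym01 (hI : IntSt) {e : ℝ} (h0 : 0 < e) (h1 : e < 1 / 12) {a : Cf}
    (ha : Function.Injective a) :
    Srow a ![1, 0, 0] ⬝ᵥ Jc e 1 a = conj (Srow a ![-a 0, 1 / 2, 0] ⬝ᵥ Jc e 0 a) := by
  rw [col0 hI h0 h1 ha, col1 hI h0 h1 ha, Bf_conj]

end

end Pool.Agent.Lib.MP_0c623d_al.BP
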