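import Pool.Agent.Lib.MP_0c623d_al.BP.Cov

set_option autoImplicit false

/-!
Lower bounds for the square norm `G` of the forms of the dual system.
-/

namespace Pool.Agent.Lib.MP_0c623d_al.BP

open Complex MeasureTheory Metric
open scoped ComplexConjugate

noncomputable section

theorem norm_E (s : ℝ) (p q : ℤ) (z : ℂ) : ‖E s p q z‖ = ‖z‖ ^ p * ‖z‖ ^ q * ‖z‖ ^ (2 * s) := by
  simp only [E, norm_mul, norm_zpow, Complex.norm_conj, Complex.norm_real, Real.norm_eq_abs]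
  rw [abs_of_nonneg (Real.rpow_nonneg (norm_nonneg z) _)]
  ring

theorem norm_Ig (e : ℝ) (p q r t : Fin 4 → ℤ) (a : Cf) (z : ℂ × ℂ) :
    ‖Ig e p q r t a z‖ = (∏ i, ‖z.1 - a i‖ ^ p i * ‖z.1 - a i‖ ^ q i) *
      (∏ i, ‖z.2 - a i‖ ^ r i * ‖z.2 - a i‖ ^ t i) * wt e a z := by
  simp only [Ig, wt, norm_mul, norm_prod, norm_E, Finset.prod_mul_distrib, Complex.norm_real,
    Real.norm_eq_abs]
  rw [abs_of_nonneg (Real.rpow_nonneg (norm_nonneg _) _)]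
  ring

theorem wt_meas (e : ℝ) (a : Cf) : Measurable (wt e a) := by
  unfold wt; fun_prop

theorem ell_cont (l : Fin 3 → ℂ) : Continuous fun z : ℂ × ℂ => ell l z.1 z.2 := by
  unfold ell; fun_prop

theorem mono_int (hI : IntSt) {e : ℝ} (h0 : 0 < e) (h1 : e < 1 / 12) {a : Cf}
    (ha : Function.Injective a) (j k : ℕ) (hj : j ≤ 1) (hk : k ≤ 1) :
    Integrable fun z : ℂ × ℂ => ‖z.1 - a 0‖ ^ (2 * j) * ‖z.2 - a 0‖ ^ (2 * k) * wt e a z := by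
  have hok : Ok (Pi.single 0 j) (Pi.single 0 j) (Pi.single 0 k) (Pi.single 0 k) := by
    refine ⟨fun i => ?_, fun i => ?_, ?_, ?_⟩
    · fin_cases i <;> simp
    · fin_cases i <;> simp
    · simp [Fin.sum_univ_four]; omega
    · simp [Fin.sum_univ_four]; omega
  refine (hI e h0 h1 _ _ _ _ hok a ha).norm.congr (Filter.Eventually.of_forall fun z => ?_)
  simp only [norm_Ig, Fin.prod_univ_four]
  simp
  left; ring

theorem G_int (hI : IntSt) {e : ℝ} (h0 : 0 < e) (h1 : e < 1 / 12) {a : Cf}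
    (ha : Function.Injective a) (l : Fin 3 → ℂ) :
    Integrable fun z : ℂ × ℂ => ‖ell l z.1 z.2‖ ^ 2 * wt e a z := by
  obtain ⟨A, hA⟩ : ∃ A : ℝ, A = ‖l 0 + 2 * l 1 * a 0 + l 2 * a 0 ^ 2‖ := ⟨_, rfl⟩
  obtain ⟨B, hB⟩ : ∃ B : ℝ, B = ‖l 1 + l 2 * a 0‖ := ⟨_, rfl⟩
  obtain ⟨C, hC⟩ : ∃ C : ℝ, C = ‖l 2‖ := ⟨_, rfl⟩
  have i00 := (mono_int hI h0 h1 ha 0 0 (by omega) (by omega)).const_mul (4 * A ^ 2)
  have i10 := (mono_int hI h0 h1 ha 1 0 (by omega) (by omega)).const_mul (4 * B ^ 2)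
  have i01 := (mono_int hI h0 h1 ha 0 1 (by omega) (by omega)).const_mul (4 * B ^ 2)
  have i11 := (mono_int hI h0 h1 ha 1 1 (by omega) (by omega)).const_mul (4 * C ^ 2)
  refine (((i00.add i10).add i01).add i11).mono' ?_ (Filter.Eventually.of_forall fun z => ?_)
  · exact (((ell_cont l).norm.pow 2).measurable.mul (wt_meas e a)).aestronglyMeasurable
  · have hw := wt_nonneg e a z
    rw [Real.norm_eq_abs, abs_of_nonneg (mul_nonneg (by positivity) hw)]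
    have h2 : ell l z.1 z.2 = (l 0 + 2 * l 1 * a 0 + l 2 * a 0 ^ 2) +
        (l 1 + l 2 * a 0) * (z.1 - a 0) + (l 1 + l 2 * a 0) * (z.2 - a 0) +
        l 2 * (z.1 - a 0) * (z.2 - a 0) := by
      unfold ell; ring
    have h3 : ‖ell l z.1 z.2‖ ≤ A + B * ‖z.1 - a 0‖ + B * ‖z.2 - a 0‖ +
        C * ‖z.1 - a 0‖ * ‖z.2 - a 0‖ := by
      rw [h2, hA, hB, hC, ← norm_mul, ← norm_mul, ← norm_mul, ← norm_mul]
      exact (norm_add_le _ _).trans (add_le_add norm_add₃_le le_rfl)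
    obtain ⟨X, hX⟩ : ∃ X : ℝ, X = ‖z.1 - a 0‖ := ⟨_, rfl⟩
    obtain ⟨Y, hY⟩ : ∃ Y : ℝ, Y = ‖z.2 - a 0‖ := ⟨_, rfl⟩
    simp only [Pi.add_apply]
    rw [← hX, ← hY] at h3 ⊢
    have h4 : ‖ell l z.1 z.2‖ ^ 2 ≤ (A + B * X + B * Y + C * X * Y) ^ 2 :=
      pow_le_pow_left₀ (norm_nonneg _) h3 2
    have h5 : (A + B * X + B * Y + C * X * Y) ^ 2 ≤
        4 * A ^ 2 + 4 * (B * X) ^ 2 + 4 * (B * Y) ^ 2 + 4 * (C * X * Y) ^ 2 := by
      nlinarith [sq_nonneg (A - B * X), sq_nonneg (A - B * Y), sq_nonneg (A - C * X * Y),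
        sq_nonneg (B * X - B * Y), sq_nonneg (B * X - C * X * Y), sq_nonneg (B * Y - C * X * Y)]
    calc _ ≤ (4 * A ^ 2 + 4 * (B * X) ^ 2 + 4 * (B * Y) ^ 2 + 4 * (C * X * Y) ^ 2) * wt e a z :=
          mul_le_mul_of_nonneg_right (h4.trans h5) hw
      _ = _ := by ring

/-- almost every pair avoids the singular set -/
theorem ae_reg (a : Cf) :
    ∀ᵐ z : ℂ × ℂ, (∀ i, z.1 ≠ a i) ∧ (∀ i, z.2 ≠ a i) ∧ z.1 ≠ z.2 := by
  have hm : MeasurableSet {z : ℂ × ℂ | (∀ i, z.1 ≠ a i) ∧ (∀ i, z.2 ≠ a i) ∧ z.1 ≠ z.2} := by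
    apply IsOpen.measurableSet
    simp only [Set.ofPred_and, Set.ofPred_forall]
    refine (isOpen_iInter_of_finite fun i => ?_).inter
      ((isOpen_iInter_of_finite fun i => ?_).inter ?_)
    · exact isOpen_ne_fun continuous_fst continuous_const
    · exact isOpen_ne_fun continuous_snd continuous_const
    · exact isOpen_ne_fun continuous_fst continuous_snd
  have h1 : ∀ᵐ x : ℂ, ∀ i, x ≠ a i := ae_all_iff.2 fun i => Measure.ae_ne volume (a i)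
  rw [Measure.volume_eq_prod, Measure.ae_prod_iff_ae_ae hm]
  filter_upwards [h1] with x hx
  filter_upwards [h1, Measure.ae_ne volume x] with y hy hxy
  exact ⟨hx, hy, fun h => hxy h.symm⟩

theorem G_ge (hI : IntSt) {e : ℝ} (h0 : 0 < e) (h1 : e < 1 / 12) {a : Cf}
    (ha : Function.Injective a) (l : Fin 3 → ℂ) {u v : ℂ → ℝ} (hu : Integrable u)
    (hv : Integrable v)
    (h : ∀ x y, (∀ i, x ≠ a i) → (∀ i, y ≠ a i) → x ≠ y →
      u x * v y ≤ ‖ell l x y‖ ^ 2 * wt e a (x, y)) :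
    (∫ x, u x) * (∫ y, v y) ≤ G e a l := by
  rw [← integral_prod_mul, ← Measure.volume_eq_prod]
  refine integral_mono_ae ?_ (G_int hI h0 h1 ha l) ?_
  · rw [Measure.volume_eq_prod]; exact hu.mul_prod hv
  · filter_upwards [ae_reg a] with z hz
    exact h z.1 z.2 hz.1 hz.2.1 hz.2.2

/-- a lower bound of the weight from upper bounds of the distances -/
theorem wt_ge {e : ℝ} (h0 : 0 < e) (h1 : e < 1 / 12) {a : Cf} {x y : ℂ} {α β : Fin 4 → ℝ} {γ : ℝ}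
    (hx : ∀ i, x ≠ a i) (hy : ∀ i, y ≠ a i) (hxy : x ≠ y) (hα : ∀ i, ‖x - a i‖ ≤ α i)
    (hβ : ∀ i, ‖y - a i‖ ≤ β i) (hγ : ‖x - y‖ ≤ γ) :
    (∏ i, α i ^ (-1 - 2 * e)) * (∏ i, β i ^ (-1 - 2 * e)) * γ ^ (-1 + 6 * e) ≤ wt e a (x, y) := by
  have e1 : 2 * (-1 / 2 - e) = -1 - 2 * e := by ring
  have e2 : 2 * (-1 / 2 + 3 * e) = -1 + 6 * e := by ring
  have hα0 : ∀ i, 0 ≤ α i := fun i => (norm_nonneg _).trans (hα i)
  have hβ0 : ∀ i, 0 ≤ β i := fun i => (norm_nonneg _).trans (hβ i)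
  have hγ0 : 0 ≤ γ := (norm_nonneg _).trans hγ
  simp only [wt, e1, e2]
  refine mul_le_mul (mul_le_mul ?_ ?_ ?_ ?_) ?_ ?_ ?_
  · exact Finset.prod_le_prod (fun i _ => Real.rpow_nonneg (hα0 i) _) fun i _ =>
      Real.rpow_le_rpow_of_nonpos (norm_pos_iff.2 (sub_ne_zero.2 (hx i))) (hα i) (by linarith)
  · exact Finset.prod_le_prod (fun i _ => Real.rpow_nonneg (hβ0 i) _) fun i _ =>
      Real.rpow_le_rpow_of_nonpos (norm_pos_iff.2 (sub_ne_zero.2 (hy i))) (hβ i) (by linarith)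
  · exact Finset.prod_nonneg fun i _ => Real.rpow_nonneg (hβ0 i) _
  · positivity
  · exact Real.rpow_le_rpow_of_nonpos (norm_pos_iff.2 (sub_ne_zero.2 hxy)) hγ (by linarith)
  · exact Real.rpow_nonneg hγ0 _
  · positivity

theorem int_ball (x0 : ℂ) {r : ℝ} (hr : 0 ≤ r) (c : ℝ) :
    ∫ x, (ball x0 r).indicator (fun _ => c) x = Real.pi * r ^ 2 * c := by
  rw [integral_indicator measurableSet_ball, setIntegral_const, Measure.real, Complex.volume_ball,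
    ENNReal.toReal_mul, ENNReal.toReal_pow, ENNReal.toReal_ofReal hr, smul_eq_mul]
  simp; left; ring

theorem intg_ball (x0 : ℂ) (r c : ℝ) : Integrable ((ball x0 r).indicator fun _ => c) :=
  (integrable_indicator_iff measurableSet_ball).2 (integrableOn_const measure_ball_lt_top.ne)

theorem low_balls (hI : IntSt) {e : ℝ} (h0 : 0 < e) (h1 : e < 1 / 12) {a : Cf}
    (ha : Function.Injective a) (l : Fin 3 → ℂ) {x0 y0 : ℂ} {r1 r2 γ lam : ℝ} {α β : Fin 4 → ℝ}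
    (hr1 : 0 ≤ r1) (hr2 : 0 ≤ r2) (hl0 : 0 ≤ lam)
    (hα : ∀ x ∈ ball x0 r1, ∀ i, ‖x - a i‖ ≤ α i) (hβ : ∀ y ∈ ball y0 r2, ∀ i, ‖y - a i‖ ≤ β i)
    (hγ : ∀ x ∈ ball x0 r1, ∀ y ∈ ball y0 r2, ‖x - y‖ ≤ γ)
    (hl : ∀ x ∈ ball x0 r1, ∀ y ∈ ball y0 r2, lam ≤ ‖ell l x y‖) :
    Real.pi ^ 2 * r1 ^ 2 * r2 ^ 2 * lam ^ 2 * ((∏ i, α i ^ (-1 - 2 * e)) *
      (∏ i, β i ^ (-1 - 2 * e)) * γ ^ (-1 + 6 * e)) ≤ G e a l := by
  obtain ⟨K, hK⟩ : ∃ K : ℝ, K = (∏ i, α i ^ (-1 - 2 * e)) * (∏ i, β i ^ (-1 - 2 * e)) *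
    γ ^ (-1 + 6 * e) := ⟨_, rfl⟩
  have h := G_ge hI h0 h1 ha l (intg_ball x0 r1 (lam ^ 2)) (intg_ball y0 r2 K) (by
    intro x y hx hy hxy
    have hw := wt_nonneg e a (x, y)
    by_cases h2 : x ∈ ball x0 r1
    · by_cases h3 : y ∈ ball y0 r2
      · rw [Set.indicator_of_mem h2, Set.indicator_of_mem h3, hK]
        have h4 := wt_ge h0 h1 hx hy hxy (hα x h2) (hβ y h3) (hγ x h2 y h3)
        have hα0 : ∀ i, 0 ≤ α i := fun i => (norm_nonneg _).trans (hα x h2 i)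
        have hβ0 : ∀ i, 0 ≤ β i := fun i => (norm_nonneg _).trans (hβ y h3 i)
        have hγ0 : 0 ≤ γ := (norm_nonneg _).trans (hγ x h2 y h3)
        refine mul_le_mul (pow_le_pow_left₀ hl0 (hl x h2 y h3) 2) h4 ?_ (by positivity)
        exact mul_nonneg (mul_nonneg (Finset.prod_nonneg fun i _ => Real.rpow_nonneg (hα0 i) _)
          (Finset.prod_nonneg fun i _ => Real.rpow_nonneg (hβ0 i) _)) (Real.rpow_nonneg hγ0 _)
      · rw [Set.indicator_of_notMem h3, mul_zero]; positivity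
    · rw [Set.indicator_of_notMem h2, zero_mul]; positivity)
  rw [int_ball _ hr1, int_ball _ hr2] at h
  rw [← hK]
  calc _ = Real.pi * r1 ^ 2 * lam ^ 2 * (Real.pi * r2 ^ 2 * K) := by ring
    _ ≤ _ := h

theorem dist_ball {x c b : ℂ} {r R : ℝ} (hx : x ∈ ball c r) (hr : r ≤ R) (hc : ‖c‖ ≤ R)
    (hb : ‖b‖ ≤ R) : ‖x - b‖ ≤ 3 * R := by
  have h1 : ‖x - c‖ < r := mem_ball_iff_norm.1 hx
  have h2 : x - b = (x - c) + c - b := by ring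
  have h3 := norm_sub_le ((x - c) + c) b
  have h4 := norm_add_le (x - c) c
  rw [h2]; linarith

theorem dist_ball2 {x y c b : ℂ} {r r' R : ℝ} (hx : x ∈ ball c r) (hy : y ∈ ball b r') (hr : r ≤ R)
    (hr' : r' ≤ R) (hc : ‖c‖ ≤ R) (hb : ‖b‖ ≤ R) : ‖x - y‖ ≤ 4 * R := by
  have h1 : ‖y - b‖ < r' := mem_ball_iff_norm.1 hy
  have h2 : x - y = (x - b) - (y - b) := by ring
  have h3 := norm_sub_le (x - b) (y - b)
  have h4 := dist_ball hx hr hc hb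
  rw [h2]; linarith

/-- distances from a point of the disc of radius `τ` about `a i` -/
def near (i j : Fin 4) (τ R : ℝ) : Fin 4 → ℝ := fun k => if k = i ∨ k = j then 2 * τ else 3 * R

theorem near_le {a : Cf} {i j : Fin 4} {τ R : ℝ} (hR : ∀ k, ‖a k‖ ≤ R) (hij : ‖a i - a j‖ ≤ τ)
    (hτ : τ ≤ R) : ∀ x ∈ ball (a i) τ, ∀ k, ‖x - a k‖ ≤ near i j τ R k := by
  intro x hx k
  have h1 : ‖x - a i‖ < τ := mem_ball_iff_norm.1 hx
  unfold near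
  split_ifs with h
  · rcases h with rfl | rfl
    · linarith [norm_nonneg (x - a k)]
    · have h2 : x - a k = (x - a i) + (a i - a k) := by ring
      have h3 := norm_add_le (x - a i) (a i - a k)
      rw [h2]; linarith
  · exact dist_ball hx hτ (hR i) (hR k)

theorem near_prod {i j : Fin 4} (hij : i ≠ j) (τ R s : ℝ) :
    ∏ k, near i j τ R k ^ s = ((2 * τ) ^ s) ^ 2 * ((3 * R) ^ s) ^ 2 := by
  fin_cases i <;> fin_cases j <;> simp_all [near, Fin.prod_univ_four] <;> ring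

theorem near_pow {τ : ℝ} (hτ : 0 < τ) (e : ℝ) :
    τ ^ 2 * ((2 * τ) ^ (-1 - 2 * e)) ^ 2 = ((2 : ℝ) ^ (-1 - 2 * e)) ^ 2 * τ ^ (-4 * e) := by
  have h : τ ^ (-4 * e) = τ ^ 2 * (τ ^ (-1 - 2 * e)) ^ 2 := by
    rw [← Real.rpow_natCast τ 2, ← Real.rpow_natCast (τ ^ _) 2, ← Real.rpow_mul hτ.le,
      ← Real.rpow_add hτ]
    congr 1; push_cast; ring
  rw [Real.mul_rpow (by norm_num) hτ.le, h]; ring

/-- both variables near a close pair -/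
theorem lowA (hI : IntSt) {e : ℝ} (h0 : 0 < e) (h1 : e < 1 / 12) {R : ℝ} (hR0 : 0 < R) :
    ∃ c, 0 < c ∧ ∀ (a : Cf) (l : Fin 3 → ℂ) (i j : Fin 4) (τ lam : ℝ), Function.Injective a →
      (∀ k, ‖a k‖ ≤ R) → i ≠ j → ‖a i - a j‖ ≤ τ → τ ≤ R → 0 ≤ lam →
      (∀ x ∈ ball (a i) τ, ∀ y ∈ ball (a i) τ, lam ≤ ‖ell l x y‖) →
      c * lam ^ 2 * τ ^ (-1 - 2 * e) ≤ G e a l := by
  refine ⟨Real.pi ^ 2 * ((2 : ℝ) ^ (-1 - 2 * e)) ^ 4 * ((3 * R) ^ (-1 - 2 * e)) ^ 4 *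
    (2 : ℝ) ^ (-1 + 6 * e), by positivity, ?_⟩
  intro a l i j τ lam ha hR hij hd hτ hl0 hl
  have hτ0 : 0 < τ := (norm_pos_iff.2 (sub_ne_zero.2 (ha.ne hij))).trans_le hd
  have h := low_balls hI h0 h1 ha l hτ0.le hτ0.le hl0 (near_le hR hd hτ) (near_le hR hd hτ)
    (γ := 2 * τ) (fun x hx y hy => by
      have h2 : ‖x - a i‖ < τ := mem_ball_iff_norm.1 hx
      have h3 : ‖y - a i‖ < τ := mem_ball_iff_norm.1 hy
      have h4 : x - y = (x - a i) - (y - a i) := by ring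
      have h5 := norm_sub_le (x - a i) (y - a i)
      rw [h4]; linarith) hl
  rw [near_prod hij, Real.mul_rpow (x := 2) (z := -1 + 6 * e) (by norm_num) hτ0.le] at h
  refine le_of_eq_of_le ?_ h
  have h6 := near_pow hτ0 e
  have h7 : τ ^ (-1 - 2 * e) = τ ^ (-4 * e) * τ ^ (-4 * e) * τ ^ (-1 + 6 * e) := by
    rw [← Real.rpow_add hτ0, ← Real.rpow_add hτ0]; congr 1; ring
  calc _ = Real.pi ^ 2 * lam ^ 2 * ((3 * R) ^ (-1 - 2 * e)) ^ 4 * (2 : ℝ) ^ (-1 + 6 * e) *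
        τ ^ (-1 + 6 * e) * (((2 : ℝ) ^ (-1 - 2 * e)) ^ 2 * τ ^ (-4 * e)) *
        (((2 : ℝ) ^ (-1 - 2 * e)) ^ 2 * τ ^ (-4 * e)) := by rw [h7]; ring
    _ = _ := by rw [← h6]; ring

/-- one variable near a close pair, the other in a fixed disc -/
theorem lowB (hI : IntSt) {e : ℝ} (h0 : 0 < e) (h1 : e < 1 / 12) {R : ℝ} (hR0 : 0 < R) :
    ∃ c, 0 < c ∧ ∀ (a : Cf) (l : Fin 3 → ℂ) (i j : Fin 4) (y0 : ℂ) (τ ρ lam : ℝ),
      Function.Injective a → (∀ k, ‖a k‖ ≤ R) → i ≠ j → ‖a i - a j‖ ≤ τ → τ ≤ R → ‖y0‖ ≤ R →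
      0 ≤ ρ → ρ ≤ R → 0 ≤ lam → (∀ x ∈ ball (a i) τ, ∀ y ∈ ball y0 ρ, lam ≤ ‖ell l x y‖) →
      c * lam ^ 2 * ρ ^ 2 * τ ^ (-4 * e) ≤ G e a l := by
  refine ⟨Real.pi ^ 2 * ((2 : ℝ) ^ (-1 - 2 * e)) ^ 2 * ((3 * R) ^ (-1 - 2 * e)) ^ 6 *
    (4 * R) ^ (-1 + 6 * e), by positivity, ?_⟩
  intro a l i j y0 τ ρ lam ha hR hij hd hτ hy0 hρ0 hρ hl0 hl
  have hτ0 : 0 < τ := (norm_pos_iff.2 (sub_ne_zero.2 (ha.ne hij))).trans_le hd
  have h := low_balls hI h0 h1 ha l hτ0.le hρ0 hl0 (near_le hR hd hτ) (β := fun _ => 3 * R)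
    (fun y hy k => dist_ball hy hρ hy0 (hR k))
    (fun x hx y hy => dist_ball2 hx hy hτ hρ (hR i) hy0) hl
  rw [near_prod hij, Fin.prod_univ_four] at h
  refine le_of_eq_of_le ?_ h
  have h6 := near_pow hτ0 e
  calc _ = Real.pi ^ 2 * lam ^ 2 * ρ ^ 2 * ((3 * R) ^ (-1 - 2 * e)) ^ 6 * (4 * R) ^ (-1 + 6 * e) *
        (((2 : ℝ) ^ (-1 - 2 * e)) ^ 2 * τ ^ (-4 * e)) := by ring
    _ = _ := by rw [← h6]; ring

/-- both variables in fixed discs -/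
theorem lowC (hI : IntSt) {e : ℝ} (h0 : 0 < e) (h1 : e < 1 / 12) {R : ℝ} (hR0 : 0 < R) :
    ∃ c, 0 < c ∧ ∀ (a : Cf) (l : Fin 3 → ℂ) (x0 y0 : ℂ) (ρ lam : ℝ),
      Function.Injective a → (∀ k, ‖a k‖ ≤ R) → ‖x0‖ ≤ R → ‖y0‖ ≤ R →
      0 ≤ ρ → ρ ≤ R → 0 ≤ lam → (∀ x ∈ ball x0 ρ, ∀ y ∈ ball y0 ρ, lam ≤ ‖ell l x y‖) →
      c * lam ^ 2 * ρ ^ 4 ≤ G e a l := by
  refine ⟨Real.pi ^ 2 * ((3 * R) ^ (-1 - 2 * e)) ^ 8 * (4 * R) ^ (-1 + 6 * e), by positivity, ?_⟩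
  intro a l x0 y0 ρ lam ha hR hx0 hy0 hρ0 hρ hl0 hl
  have h := low_balls hI h0 h1 ha l hρ0 hρ0 hl0 (α := fun _ => 3 * R) (β := fun _ => 3 * R)
    (fun x hx k => dist_ball hx hρ hx0 (hR k)) (fun y hy k => dist_ball hy hρ hy0 (hR k))
    (fun x hx y hy => dist_ball2 hx hy hρ hρ hx0 hy0) hl
  rw [Fin.prod_univ_four] at h
  refine le_of_eq_of_le ?_ h
  ring

/-- one variable near each of two close pairs -/
theorem lowD (hI : IntSt) {e : ℝ} (h0 : 0 < e) (h1 : e < 1 / 12) {R : ℝ} (hR0 : 0 < R) :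
    ∃ c, 0 < c ∧ ∀ (a : Cf) (l : Fin 3 → ℂ) (i j i' j' : Fin 4) (τ τ' lam : ℝ),
      Function.Injective a → (∀ k, ‖a k‖ ≤ R) → i ≠ j → i' ≠ j' → ‖a i - a j‖ ≤ τ → τ ≤ R →
      ‖a i' - a j'‖ ≤ τ' → τ' ≤ R → 0 ≤ lam →
      (∀ x ∈ ball (a i) τ, ∀ y ∈ ball (a i') τ', lam ≤ ‖ell l x y‖) →
      c * lam ^ 2 * (τ ^ (-4 * e) * τ' ^ (-4 * e)) ≤ G e a l := by
  refine ⟨Real.pi ^ 2 * ((2 : ℝ) ^ (-1 - 2 * e)) ^ 4 * ((3 * R) ^ (-1 - 2 * e)) ^ 4 *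
    (4 * R) ^ (-1 + 6 * e), by positivity, ?_⟩
  intro a l i j i' j' τ τ' lam ha hR hij hij' hd hτ hd' hτ' hl0 hl
  have hτ0 : 0 < τ := (norm_pos_iff.2 (sub_ne_zero.2 (ha.ne hij))).trans_le hd
  have hτ0' : 0 < τ' := (norm_pos_iff.2 (sub_ne_zero.2 (ha.ne hij'))).trans_le hd'
  have h := low_balls hI h0 h1 ha l hτ0.le hτ0'.le hl0 (near_le hR hd hτ) (near_le hR hd' hτ')
    (fun x hx y hy => dist_ball2 hx hy hτ hτ' (hR i) (hR i')) hl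
  rw [near_prod hij, near_prod hij'] at h
  refine le_of_eq_of_le ?_ h
  have h6 := near_pow hτ0 e
  have h7 := near_pow hτ0' e
  calc _ = Real.pi ^ 2 * lam ^ 2 * ((3 * R) ^ (-1 - 2 * e)) ^ 4 * (4 * R) ^ (-1 + 6 * e) *
        (((2 : ℝ) ^ (-1 - 2 * e)) ^ 2 * τ ^ (-4 * e)) *
        (((2 : ℝ) ^ (-1 - 2 * e)) ^ 2 * τ' ^ (-4 * e)) := by ring
    _ = _ := by rw [← h6, ← h7]; ring

theorem ell_ne {l : Fin 3 → ℂ} (hl : l ≠ 0) : ∃ x y, ell l x y ≠ 0 := by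
  by_contra h
  simp only [not_exists, not_not] at h
  have a0 := h 0 0
  have a1 := h 1 0
  have a2 := h 1 1
  simp only [ell] at a0 a1 a2
  apply hl
  funext i
  fin_cases i
  · simp only [Fin.zero_eta, Pi.zero_apply]; linear_combination a0
  · simp only [Fin.mk_one, Pi.zero_apply]; linear_combination a1 - a0
  · simp only [Fin.reduceFinMk, Pi.zero_apply]; linear_combination a2 - 2 * a1 + a0

theorem G_pos (hI : IntSt) {e : ℝ} (h0 : 0 < e) (h1 : e < 1 / 12) {a : Cf}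
    (ha : Function.Injective a) {l : Fin 3 → ℂ} (hl : l ≠ 0) : 0 < G e a l := by
  obtain ⟨x0, y0, h⟩ := ell_ne hl
  have hp : 0 < ‖ell l x0 y0‖ / 2 := half_pos (norm_pos_iff.2 h)
  have hev : ∀ᶠ z : ℂ × ℂ in nhds (x0, y0), ‖ell l x0 y0‖ / 2 < ‖ell l z.1 z.2‖ :=
    (ell_cont l).norm.continuousAt.eventually (lt_mem_nhds (half_lt_self (norm_pos_iff.2 h)))
  obtain ⟨ρ, hρ, hb⟩ := Metric.eventually_nhds_iff_ball.1 hev
  obtain ⟨R, hR⟩ : ∃ R : ℝ, R = ‖a‖ + ‖x0‖ + ‖y0‖ + ρ := ⟨_, rfl⟩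
  have n1 := norm_nonneg a
  have n2 := norm_nonneg x0
  have n3 := norm_nonneg y0
  obtain ⟨c, hc, hC⟩ := lowC hI h0 h1 (R := R) (by linarith)
  refine lt_of_lt_of_le (by positivity) (hC a l x0 y0 ρ _ ha
    (fun k => (norm_le_pi_norm a k).trans (by linarith)) (by linarith) (by linarith) hρ.le
    (by linarith) hp.le fun x hx y hy => (hb (x, y) ?_).le)
  rw [← ball_prod_same]
  exact ⟨hx, hy⟩

end

end Pool.Agent.Lib.MP_0c623d_al.BP
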