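import Pool.Agent.Lib.MP_0c623d_al.BP.Herm0
import Pool.Agent.Lib.MP_0c623d_al.BP.Int
import Pool.Agent.Lib.MP_0c623d_al.BP.Low
import Pool.Agent.Lib.MP_0c623d_al.BP.Delta
import Pool.Agent.Lib.MP_0c623d_al.BP.Sk
import Pool.Agent.Lib.MP_0c623d_al.F.Wall

set_option autoImplicit false

/-!
The constant Hermitian form of the dual system.
-/

namespace Pool.Agent.Lib.MP_0c623d_al.BP

open Complex Matrix
open scoped ComplexConjugate
open Pool.Agent.BP.F (Om isOpen_Om preconn_Om)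

lemma inj_Om {a : Cf} (ha : a ∈ Om) : Function.Injective a := by
  intro i j h
  by_contra hn
  rcases lt_or_gt_of_ne hn with g | g
  · exact slitPlane_ne_zero (ha i j g) (by rw [h, sub_self])
  · exact slitPlane_ne_zero (ha j i g) (by rw [h, sub_self])

theorem hermSt : HermSt := by
  intro e e0 e1 f hsp
  obtain ⟨H, h1, h2, h3⟩ := two_cols intSt derSt e0 e1 isOpen_Om preconn_Om (fun _ => inj_Om)
    f.unit f.sol (fun a ha => sym00 intSt e0 e1 (inj_Om ha))
    (fun a ha => sym01 intSt e0 e1 (inj_Om ha)) hsp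
  refine ⟨H, h1, h2, delta intSt derSt e0 e1 isOpen_Om (fun _ => inj_Om) f.Y1 (fun a ha => ?_) H h1
    h2 h3⟩
  obtain ⟨L, hL, hd⟩ := f.sol a ha
  exact Hm0.dual_sol (f.unit a ha) hL hd

theorem posSt : PosSt := fun _ e0 e1 _ ha _ hl => G_pos intSt e0 e1 ha hl

end Pool.Agent.Lib.MP_0c623d_al.BP
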