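import Pool.Agent.Lib.MP_0c623d_al.BP.Lev2

set_option autoImplicit false

/-!
The abstract cusp lemma: bounds and approximate relations for the gauge transformed Gram matrix.
-/

namespace Pool.Agent.BP.Lev

open Set Filter Topology

section defs
variable {A : Type*} [NormedRing A] [NormedAlgebra ℂ A]

/-- Projector on the simple eigenvalue. -/
noncomputable def P1 (nu : ℝ) (A0 : A) : A := ((1 / nu ^ 2 : ℝ) : ℂ) • (A0 * A0)

/-- Nilpotent part. -/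
noncomputable def Nn (nu : ℝ) (A0 : A) : A := A0 + ((1 / nu : ℝ) : ℂ) • (A0 * A0)

/-- The exponential of `t A0`. -/
noncomputable def Ex (nu : ℝ) (A0 : A) (t : ℂ) : A :=
  1 - P1 nu A0 + t • Nn nu A0 + Complex.exp (-nu * t) • P1 nu A0

lemma Ex_eq (nu : ℝ) (A0 : A) (t : ℂ) : Ex nu A0 t = Ez (-nu) (Nn nu A0) (P1 nu A0) t := by
  simp [Ex, Ez]

lemma cube {nu : ℝ} {A0 : A} (h : A0 * A0 * (A0 + (nu : ℂ) • 1) = 0) :
    A0 * (A0 * A0) = (-(nu : ℂ)) • (A0 * A0) := by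
  rw [mul_add, mul_smul_comm, mul_one, mul_assoc] at h
  rw [neg_smul]
  exact eq_neg_of_add_eq_zero_left h

lemma np_res {nu : ℝ} {A0 : A} (hn : nu ≠ 0) (h : A0 * A0 * (A0 + (nu : ℂ) • 1) = 0) :
    NP (Nn nu A0) (P1 nu A0) := by
  have h3 := cube h
  have hc : (nu : ℂ) ≠ 0 := by exact_mod_cast hn
  constructor <;>
  · simp only [P1, Nn, mul_add, add_mul, smul_mul_assoc, mul_smul_comm, mul_assoc, h3, smul_smul,
      smul_add]
    push_cast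
    match_scalars
    field_simp
    try ring

lemma res_eq {nu : ℝ} (A0 : A) (hn : nu ≠ 0) :
    Nn nu A0 + ((-nu : ℝ) : ℂ) • P1 nu A0 = A0 := by
  have hc : (nu : ℂ) ≠ 0 := by exact_mod_cast hn
  simp only [P1, Nn, smul_smul]
  push_cast
  match_scalars
  · rfl
  · field_simp
    ring

lemma Ex_add {nu : ℝ} {A0 : A} (hn : nu ≠ 0) (h : A0 * A0 * (A0 + (nu : ℂ) • 1) = 0) (s t : ℂ) :
    Ex nu A0 s * Ex nu A0 t = Ex nu A0 (s + t) := by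
  simp only [Ex_eq]
  exact Ez_add (np_res hn h) s t

lemma Ex_zero (nu : ℝ) (A0 : A) : Ex nu A0 0 = 1 := by rw [Ex_eq, Ez_zero]

lemma res_mul_Ex {nu : ℝ} {A0 : A} (hn : nu ≠ 0) (h : A0 * A0 * (A0 + (nu : ℂ) • 1) = 0)
    (t : ℂ) : A0 * Ex nu A0 t = Nn nu A0 - (nu * Complex.exp (-nu * t)) • P1 nu A0 := by
  have h1 := res_mul_Ez (κ := -nu) (np_res hn h) t
  rw [res_eq A0 hn, ← Ex_eq] at h1
  rw [h1, sub_eq_add_neg, ← neg_smul]
  push_cast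
  rw [show Complex.exp (-nu * t) * -(nu : ℂ) = -(nu * Complex.exp (-nu * t)) by ring]

lemma Ex_mul_res {nu : ℝ} {A0 : A} (hn : nu ≠ 0) (h : A0 * A0 * (A0 + (nu : ℂ) • 1) = 0)
    (t : ℂ) : Ex nu A0 t * A0 = Nn nu A0 - (nu * Complex.exp (-nu * t)) • P1 nu A0 := by
  have h1 := Ez_mul_res (κ := -nu) (np_res hn h) t
  rw [res_eq A0 hn, ← Ex_eq] at h1
  rw [h1, sub_eq_add_neg, ← neg_smul]
  push_cast
  rw [show Complex.exp (-nu * t) * -(nu : ℂ) = -(nu * Complex.exp (-nu * t)) by ring]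

lemma Nn_mul_Nn {nu : ℝ} {A0 : A} (hn : nu ≠ 0) (h : A0 * A0 * (A0 + (nu : ℂ) • 1) = 0) :
    Nn nu A0 * Nn nu A0 = 0 := (np_res hn h).nn

lemma Nn_mul_P1 {nu : ℝ} {A0 : A} (hn : nu ≠ 0) (h : A0 * A0 * (A0 + (nu : ℂ) • 1) = 0) :
    Nn nu A0 * P1 nu A0 = 0 := (np_res hn h).np

lemma P1_mul_Nn {nu : ℝ} {A0 : A} (hn : nu ≠ 0) (h : A0 * A0 * (A0 + (nu : ℂ) • 1) = 0) :
    P1 nu A0 * Nn nu A0 = 0 := (np_res hn h).pn

lemma P1_mul_P1 {nu : ℝ} {A0 : A} (hn : nu ≠ 0) (h : A0 * A0 * (A0 + (nu : ℂ) • 1) = 0) :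
    P1 nu A0 * P1 nu A0 = P1 nu A0 := (np_res hn h).pp

lemma norm_res_le {nu C : ℝ} {A0 : A} (h1 : ‖(1 : A)‖ ≤ C) (h0 : ‖A0‖ ≤ C) :
    ‖1 - P1 nu A0‖ ≤ C + (1 / nu ^ 2 + |1 / nu|) * C ^ 2 ∧
      ‖Nn nu A0‖ ≤ C + (1 / nu ^ 2 + |1 / nu|) * C ^ 2 ∧
      ‖P1 nu A0‖ ≤ C + (1 / nu ^ 2 + |1 / nu|) * C ^ 2 := by
  have hC : 0 ≤ C := (norm_nonneg _).trans h0
  have e0 : ‖A0 * A0‖ ≤ C ^ 2 := (norm_mul_le _ _).trans (by rw [sq]; gcongr)
  have e1 : ‖P1 nu A0‖ ≤ 1 / nu ^ 2 * C ^ 2 := by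
    unfold P1
    rw [norm_smul, Complex.norm_real, Real.norm_of_nonneg (by positivity)]
    gcongr
  have e2 : ‖((1 / nu : ℝ) : ℂ) • (A0 * A0)‖ ≤ |1 / nu| * C ^ 2 := by
    rw [norm_smul, Complex.norm_real, Real.norm_eq_abs]
    gcongr
  have e3 : 0 ≤ 1 / nu ^ 2 * C ^ 2 := by positivity
  have e4 : 0 ≤ |1 / nu| * C ^ 2 := by positivity
  refine ⟨(norm_sub_le _ _).trans ?_, (norm_add_le _ _).trans ?_, ?_⟩ <;> linarith

lemma inverse_eq {R : Type*} [Ring R] {x y : R} (h1 : x * y = 1) (h2 : y * x = 1) :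
    Ring.inverse x = y :=
  Ring.inverse_unit (⟨x, y, h1, h2⟩ : Rˣ)

end defs

variable {A : Type*} [NormedRing A] [StarRing A] [NormedStarGroup A] [NormedAlgebra ℂ A]
  [StarModule ℂ A]

omit [NormedStarGroup A] in
lemma star_Ez (κ : ℝ) (N P : A) (t : ℂ) :
    star (Ez κ N P t) = Ez κ (star N) (star P) (starRingEnd ℂ t) := by
  simp [Ez, ← Complex.exp_conj]

omit [NormedStarGroup A] [NormedAlgebra ℂ A] [StarModule ℂ A] in
lemma NP.star {N P : A} (h : NP N P) : NP (star N) (star P) :=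
  ⟨by rw [← star_mul, h.pp], by rw [← star_mul, h.nn, star_zero],
    by rw [← star_mul, h.pn, star_zero], by rw [← star_mul, h.np, star_zero]⟩

/-- The cusp lemma with the limit. -/
theorem E0_lim [CompleteSpace A] (nu C L0 : ℝ) (hn1 : -1 / 2 < nu) (hn0 : nu < 0)
    (hL0 : 0 ≤ L0) : ∃ K : ℝ, 0 ≤ K ∧ ∀ (A0 : A) (Am H Hi : ℂ → A), ‖(1 : A)‖ ≤ C → ‖A0‖ ≤ C →
    A0 * A0 * (A0 + (nu : ℂ) • 1) = 0 →
    (∀ t : ℂ, t.re ≤ -L0 → ‖Am t - A0‖ ≤ C * Real.exp t.re) →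
    (∀ t : ℂ, t.re ≤ -L0 → ∃ D : ℂ →L[ℝ] A, HasFDerivAt H D t ∧
      ∀ tau : ℂ, D tau = (tau • Am t) * H t + H t * star (tau • Am t)) →
    (∀ t : ℂ, t.re ≤ -L0 → H t * Hi t = 1 ∧ Hi t * H t = 1) →
    (∀ t : ℂ, t.re ≤ -L0 → H (t + 2 * Real.pi * Complex.I) = H t) →
    ‖H (-L0)‖ ≤ C → ‖Hi (-L0)‖ ≤ C →
    ∃ G J : A, G * J = 1 ∧ J * G = 1 ∧ ‖G‖ ≤ K ∧ ‖J‖ ≤ K ∧
      (1 - P1 nu A0) * G * star (P1 nu A0) = 0 ∧ P1 nu A0 * G * (1 - star (P1 nu A0)) = 0 ∧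
      Nn nu A0 * G = G * star (Nn nu A0) ∧ ‖Nn nu A0‖ ≤ K ∧ ‖P1 nu A0‖ ≤ K ∧
      (∀ L : ℝ, L0 ≤ L → ‖Ex nu A0 L * H (-L) * star (Ex nu A0 L)‖ ≤ K ∧
        ‖star (Ex nu A0 (-L)) * Hi (-L) * Ex nu A0 (-L)‖ ≤ K) ∧
      ∀ t : ℂ, t.re ≤ -L0 → 0 ≤ t.im → t.im ≤ 7 →
        ‖Ex nu A0 (-t) * H t * star (Ex nu A0 (-t)) - G‖ ≤ K * Real.exp (t.re / 4) := by
  obtain ⟨b, hb⟩ : ∃ x : ℝ, x = |C| + (1 / nu ^ 2 + |1 / nu|) * |C| ^ 2 :=
    ⟨_, rfl⟩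
  obtain ⟨e, he⟩ : ∃ x : ℝ, x = b * (1 + L0 + Real.exp L0) :=
    ⟨_, rfl⟩
  obtain ⟨C1, hC1⟩ : ∃ x : ℝ, x = (b * (9 + (1 / 8 : ℝ)⁻¹)) ^ 2 * |C| :=
    ⟨_, rfl⟩
  obtain ⟨K1, hK1⟩ : ∃ x : ℝ, x = Real.exp (2 * C1 / (1 / 4)) * (e * |C| * e) :=
    ⟨_, rfl⟩
  obtain ⟨K2, hK2⟩ : ∃ x : ℝ, x = (14 * C1 * Real.exp (14 * C1) + 2 * C1 / (1 / 4)) * K1 :=
    ⟨_, rfl⟩
  have b0 : 0 ≤ b := by rw [hb]; positivity
  have e0 : 0 ≤ e := by rw [he]; positivity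
  have C0 : 0 ≤ C1 := by rw [hC1]; positivity
  have K10 : 0 ≤ K1 := by rw [hK1]; positivity
  have K20 : 0 ≤ K2 := by rw [hK2]; positivity
  refine ⟨K1 + K2 + b, by positivity, fun A0 Am H Hi h1 h0 hc hA hD hi hp hM hM' => ?_⟩
  have hC := le_abs_self C
  have hn : nu ≠ 0 := hn0.ne
  have np := np_res hn hc
  obtain ⟨n1, n2, n3⟩ := norm_res_le (nu := nu) (h1.trans hC) (h0.trans hC)
  rw [← hb] at n1 n2 n3
  have n1' : ‖1 - star (P1 nu A0)‖ ≤ b := by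
    rw [← norm_star, star_sub, star_one, star_star]; exact n1
  have n2' : ‖star (Nn nu A0)‖ ≤ b := by rw [norm_star]; exact n2
  have n3' : ‖star (P1 nu A0)‖ ≤ b := by rw [norm_star]; exact n3
  have hs : Sys (-L0) Am (fun t => star (Am t)) H := by
    intro t ht ξ
    obtain ⟨D, hD1, hD2⟩ := hD t ht
    have g1 : HasDerivAt (fun x : ℝ => t + x * ξ) ξ 0 := by
      have h := (Complex.ofRealCLM.hasDerivAt (x := (0 : ℝ))).mul_const ξ |>.const_add t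
      simpa using h
    have g2 : HasFDerivAt H D (t + ((0 : ℝ) : ℂ) * ξ) := by simpa using hD1
    have g3 := g2.comp_hasDerivAt (0 : ℝ) g1
    rw [hD2, smul_mul_assoc, star_smul, mul_smul_comm] at g3
    exact g3
  have hG : ∀ t : ℂ, Gt (-nu) (Nn nu A0) (P1 nu A0) (star (Nn nu A0)) (star (P1 nu A0)) H t =
      Ex nu A0 (-t) * H t * star (Ex nu A0 (-t)) := by
    intro t
    rw [Gt, Ex_eq, star_Ez, map_neg]
  have hI : ∀ t : ℂ, t.re ≤ -L0 → Ring.inverse (Ex nu A0 (-t) * H t * star (Ex nu A0 (-t))) =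
      star (Ex nu A0 t) * Hi t * Ex nu A0 t := by
    intro t ht
    have i1 : Ex nu A0 (-t) * Ex nu A0 t = 1 := by rw [Ex_add hn hc, neg_add_cancel, Ex_zero]
    have i2 : Ex nu A0 t * Ex nu A0 (-t) = 1 := by rw [Ex_add hn hc, add_neg_cancel, Ex_zero]
    have i3 : star (Ex nu A0 (-t)) * star (Ex nu A0 t) = 1 := by rw [← star_mul, i2, star_one]
    have i4 : star (Ex nu A0 t) * star (Ex nu A0 (-t)) = 1 := by rw [← star_mul, i1, star_one]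
    apply inverse_eq
    · calc _ = Ex nu A0 (-t) * (H t * (star (Ex nu A0 (-t)) * star (Ex nu A0 t)) * Hi t) *
          Ex nu A0 t := by simp only [mul_assoc]
        _ = 1 := by rw [i3, mul_one, (hi t ht).1, mul_one, i1]
    · calc _ = star (Ex nu A0 t) * (Hi t * (Ex nu A0 t * Ex nu A0 (-t)) * H t) *
          star (Ex nu A0 (-t)) := by simp only [mul_assoc]
        _ = 1 := by rw [i2, mul_one, (hi t ht).2, mul_one, i4]
  have hE : ∀ x : ℝ, |x| ≤ L0 → ‖Ex nu A0 x‖ ≤ e := by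
    intro x hx
    rw [Ex_eq]
    refine (norm_Ez_le n1 n2 n3 x).trans ?_
    simp only [Complex.ofReal_re, Complex.ofReal_im, abs_zero, add_zero]
    have h2 : Real.exp (-nu * x) ≤ Real.exp L0 :=
      Real.exp_le_exp.mpr (by
        have h4 : -nu * x ≤ -nu * L0 :=
          mul_le_mul_of_nonneg_left (abs_le.mp hx).2 (by linarith)
        have h5 : -nu * L0 ≤ 1 * L0 := mul_le_mul_of_nonneg_right (by linarith) hL0
        linarith)
    rw [he]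
    gcongr
  have h3 : ∀ X Y Z : A, ‖X‖ ≤ e → ‖Y‖ ≤ |C| → ‖Z‖ ≤ e → ‖X * Y * Z‖ ≤ e * |C| * e :=
    fun X Y Z a1 a2 a3 => (norm_mul_le _ _).trans
      (mul_le_mul ((norm_mul_le _ _).trans (by gcongr)) a3 (norm_nonneg _) (by positivity))
  have hEp : ‖Ex nu A0 (-((-L0 : ℝ) : ℂ))‖ ≤ e := by
    have := hE L0 (by rw [abs_of_nonneg hL0])
    simpa using this
  have hEn : ‖Ex nu A0 ((-L0 : ℝ) : ℂ)‖ ≤ e := hE (-L0) (by rw [abs_neg, abs_of_nonneg hL0])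
  obtain ⟨G, J, a1, a2, a3, a4, a5, a6, a7, a8, a9⟩ := core (κ := -nu) (ε := 1 / 8) (d := 1 / 4)
    (b := b) (C := |C|) (M := e * |C| * e) (s0 := -L0) (by linarith) (by norm_num) (by norm_num)
    (by linarith) (abs_nonneg C) (by linarith) np np.star n1 n2 n3 n1' n2' n3' hs
    (fun t ht => by
      have k1 : ‖Am t - A0‖ ≤ |C| * Real.exp t.re := (hA t ht).trans (by gcongr)
      have k2 : star (Nn nu A0) + ((-nu : ℝ) : ℂ) • star (P1 nu A0) = star A0 := by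
        conv_rhs => rw [← res_eq A0 hn, star_add, star_smul]
        simp
      rw [res_eq A0 hn, k2, ← star_sub, norm_star]
      exact ⟨k1, k1⟩)
    (fun s hs' => hp s (by simpa using hs'))
    (fun s hs' => ⟨⟨_, _, (hi s (by simpa using hs')).1, (hi s (by simpa using hs')).2⟩, rfl⟩)
    (by
      rw [hG]
      exact h3 _ _ _ hEp (by simpa using hM.trans hC) (by rw [norm_star]; exact hEp))
    (by
      rw [hG, hI _ (by simp)]
      exact h3 _ _ _ (by rw [norm_star]; exact hEn) (by simpa using hM'.trans hC) hEn)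
    hC1 hK1
  refine ⟨G, J, a1, a2, by linarith, by linarith, a5, a6, a7, by linarith, by linarith,
    fun L hL => ?_, fun t ht hi0 hi7 => ?_⟩
  · have k := a8 (-L) (by linarith)
    rw [hG, hI _ (by simpa using hL)] at k
    simp only [Complex.ofReal_neg, neg_neg] at k
    exact ⟨by linarith [k.1], by linarith [k.2]⟩
  · have k := a9 t.re t.im ht hi0 hi7
    rw [Complex.re_add_im, hG, ← hK2] at k
    rw [show t.re / 4 = 1 / 4 * t.re by ring]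
    refine k.trans ?_
    gcongr
    linarith

/-- The cusp lemma. -/
theorem E0 [CompleteSpace A] (nu C L0 : ℝ) (hn1 : -1 / 2 < nu) (hn0 : nu < 0)
    (hL0 : 0 ≤ L0) : ∃ K : ℝ, ∀ (A0 : A) (Am H Hi : ℂ → A), ‖(1 : A)‖ ≤ C → ‖A0‖ ≤ C →
    A0 * A0 * (A0 + (nu : ℂ) • 1) = 0 →
    (∀ t : ℂ, t.re ≤ -L0 → ‖Am t - A0‖ ≤ C * Real.exp t.re) →
    (∀ t : ℂ, t.re ≤ -L0 → ∃ D : ℂ →L[ℝ] A, HasFDerivAt H D t ∧
      ∀ tau : ℂ, D tau = (tau • Am t) * H t + H t * star (tau • Am t)) →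
    (∀ t : ℂ, t.re ≤ -L0 → H t * Hi t = 1 ∧ Hi t * H t = 1) →
    (∀ t : ℂ, t.re ≤ -L0 → H (t + 2 * Real.pi * Complex.I) = H t) →
    ‖H (-L0)‖ ≤ C → ‖Hi (-L0)‖ ≤ C → ∀ L : ℝ, L0 ≤ L →
    ‖Ex nu A0 L * H (-L) * star (Ex nu A0 L)‖ ≤ K ∧
      ‖star (Ex nu A0 (-L)) * Hi (-L) * Ex nu A0 (-L)‖ ≤ K ∧
      ‖Nn nu A0 * (Ex nu A0 L * H (-L) * star (Ex nu A0 L)) -
        (Ex nu A0 L * H (-L) * star (Ex nu A0 L)) * star (Nn nu A0)‖ ≤ K * Real.exp (-L / 4) ∧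
      ‖Nn nu A0 * (Ex nu A0 L * H (-L) * star (Ex nu A0 L)) * star (Nn nu A0)‖ ≤
        K * Real.exp (-L / 4) := by
  obtain ⟨K, K0, hK⟩ := E0_lim (A := A) nu C L0 hn1 hn0 hL0
  refine ⟨K + 2 * K ^ 2 + K ^ 3, fun A0 Am H Hi h1 h0 hc hA hD hi hp hM hM' L hL => ?_⟩
  obtain ⟨G, J, -, -, -, -, -, -, a7, n1, -, a8, a9⟩ := hK A0 Am H Hi h1 h0 hc hA hD hi hp hM hM'
  have k := a9 (-(L : ℂ)) (by simpa using hL) (by simp) (by simp)
  simp only [neg_neg, Complex.neg_re, Complex.ofReal_re] at k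
  have n2 : ‖star (Nn nu A0)‖ ≤ K := by rw [norm_star]; exact n1
  obtain ⟨a10, a11⟩ := a8 L hL
  clear a8 a9
  have nn := Nn_mul_Nn hn0.ne hc
  have k2 : 0 ≤ K ^ 2 := by positivity
  have k3 : 0 ≤ K ^ 3 := by positivity
  have e0 := Real.exp_pos (-L / 4)
  generalize Ex nu A0 L * H (-L) * star (Ex nu A0 L) = X at *
  generalize star (Nn nu A0) = N' at *
  generalize Nn nu A0 = N at *
  have b1 : ‖N * (X - G)‖ ≤ K * (K * Real.exp (-L / 4)) := (norm_mul_le _ _).trans (by gcongr)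
  have b2 : ‖(X - G) * N'‖ ≤ K * Real.exp (-L / 4) * K := (norm_mul_le _ _).trans (by gcongr)
  have b3 : ‖N * (X - G) * N'‖ ≤ K * (K * Real.exp (-L / 4)) * K :=
    (norm_mul_le _ _).trans (by gcongr)
  refine ⟨by linarith, by linarith, ?_, ?_⟩
  · rw [show N * X - X * N' = N * (X - G) - (X - G) * N' by
      rw [mul_sub, sub_mul, a7]; abel]
    refine (norm_sub_le _ _).trans ?_
    nlinarith [mul_nonneg K0 e0.le, mul_nonneg k3 e0.le]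
  · rw [show N * X * N' = N * (X - G) * N' by
      rw [mul_sub, sub_mul, mul_assoc N G, ← a7, ← mul_assoc, nn, zero_mul, sub_zero]]
    nlinarith [mul_nonneg K0 e0.le, mul_nonneg k2 e0.le]

omit [StarModule ℂ A] in
/-- Real version without residue. -/
theorem G0 [CompleteSpace A] (C : ℝ) : ∃ K : ℝ, ∀ H Hi Am : ℝ → A,
    (∀ x, 0 ≤ x → HasDerivAt H (Am x * H x + H x * star (Am x)) x) →
    (∀ x, 0 ≤ x → ‖Am x‖ ≤ C * Real.exp (-x)) →
    (∀ x, 0 ≤ x → H x * Hi x = 1 ∧ Hi x * H x = 1) →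
    ∀ x, 0 ≤ x → ‖H x‖ ≤ K * ‖H 0‖ ∧ ‖Hi x‖ ≤ K * ‖Hi 0‖ := by
  refine ⟨Real.exp (2 * |C|), fun H Hi Am hD hA hi x hx => ?_⟩
  have key : ∀ Z Z' : ℝ → A, (∀ y, 0 ≤ y → HasDerivAt Z (Z' y) y) →
      (∀ y, 0 ≤ y → ‖Z' y‖ ≤ 2 * |C| * Real.exp (-y) * ‖Z y‖) →
      ‖Z x‖ ≤ Real.exp (2 * |C|) * ‖Z 0‖ := by
    intro Z Z' h1 h2
    have h3 := gron_fwd (k := fun y => -(2 * |C|) * Real.exp (-y))
      (k' := fun y => 2 * |C| * Real.exp (-y)) hx (fun y hy => h1 y hy.1)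
      (fun y => by
        have h := ((hasDerivAt_neg y).exp).const_mul (-(2 * |C|))
        rw [show -(2 * |C|) * (Real.exp (-y) * -1) = 2 * |C| * Real.exp (-y) by ring] at h
        exact h) (fun y hy => h2 y hy.1)
    rw [mul_comm]
    refine h3.trans (mul_le_mul_of_nonneg_left (Real.exp_le_exp.mpr ?_) (norm_nonneg _))
    have : 0 ≤ |C| * Real.exp (-x) := by positivity
    simp only [neg_zero, Real.exp_zero]
    linarith
  have hA' : ∀ y, 0 ≤ y → ‖Am y‖ ≤ |C| * Real.exp (-y) := fun y hy =>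
    (hA y hy).trans (by gcongr; exact le_abs_self C)
  have hb : ∀ y, 0 ≤ y → ∀ X : A, ‖Am y * X‖ ≤ |C| * Real.exp (-y) * ‖X‖ ∧
      ‖X * star (Am y)‖ ≤ |C| * Real.exp (-y) * ‖X‖ ∧ ‖X * Am y‖ ≤ |C| * Real.exp (-y) * ‖X‖ ∧
      ‖star (Am y) * X‖ ≤ |C| * Real.exp (-y) * ‖X‖ := by
    intro y hy X
    have h := mul_le_mul_of_nonneg_right (hA' y hy) (norm_nonneg X)
    refine ⟨(norm_mul_le _ _).trans h, (norm_mul_le _ _).trans ?_, (norm_mul_le _ _).trans ?_,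
      (norm_mul_le _ _).trans ?_⟩
    · rw [norm_star, mul_comm]; exact h
    · rw [mul_comm]; exact h
    · rw [norm_star]; exact h
  have hI : ∀ y, 0 ≤ y → Ring.inverse (H y) = Hi y := fun y hy =>
    inverse_eq (hi y hy).1 (hi y hy).2
  constructor
  · refine key H _ hD fun y hy => (norm_add_le _ _).trans ?_
    linarith [(hb y hy (H y)).1, (hb y hy (H y)).2.1]
  · rw [← hI x hx, ← hI 0 le_rfl]
    refine key (fun y => Ring.inverse (H y))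
      (fun y => -(Ring.inverse (H y) * Am y + star (Am y) * Ring.inverse (H y)))
      (fun y hy => ?_) fun y hy => ?_
    · let u : Aˣ := ⟨H y, Hi y, (hi y hy).1, (hi y hy).2⟩
      have h1 := hasFDerivAt_ringInverse (𝕜 := ℝ) u
      have h2 := HasFDerivAt.comp_hasDerivAt (f := H) y h1 (hD y hy)
      have h3 : (-ContinuousLinearMap.mulLeftRight ℝ A (↑u⁻¹) (↑u⁻¹))
          (Am y * H y + H y * star (Am y)) =
          -(Ring.inverse (H y) * Am y + star (Am y) * Ring.inverse (H y)) := by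
        rw [hI y hy]
        show -(Hi y * (Am y * H y + H y * star (Am y)) * Hi y) = _
        rw [mul_add, add_mul, ← mul_assoc (Hi y) (H y), (hi y hy).2, one_mul, mul_assoc,
          mul_assoc, (hi y hy).1, mul_one]
      rw [h3] at h2
      exact h2
    · rw [norm_neg]
      refine (norm_add_le _ _).trans ?_
      linarith [(hb y hy (Ring.inverse (H y))).2.2.1, (hb y hy (Ring.inverse (H y))).2.2.2]

end Pool.Agent.BP.Lev
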