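import Pool.Agent.Lib.MP_0c623d_al.BP.Lin
import Pool.Agent.Lib.MP_0c623d_al.BP.Herm
import Pool.Agent.Lib.MP_0c623d_al.B.All
import Pool.Agent.Lib.MP_0c623d_al.E.Grow
import Pool.Agent.Lib.MP_0c623d_al.E.Core
import Pool.Agent.Lib.MP_0c623d_al.E.Start
import Pool.Agent.Lib.MP_0c623d_al.E.Sys
import Pool.Agent.Lib.MP_0c623d_al.E.Rem
import Pool.Agent.Lib.MP_0c623d_al.E.Tau2
import Pool.Agent.Lib.MP_0c623d_al.E.NonDeg
import Pool.Agent.Lib.MP_0c623d_al.E.LogCh
import Pool.Agent.Lib.MP_0c623d_al.E.Cusp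

set_option autoImplicit false

/-!
The analytic interface holds for every large odd `k`.
-/

namespace Pool.Agent.Lib.MP_0c623d_al.BP

open Pool.Agent.BP.F (AN)

theorem done_core : Cu.CoreSt := Cu.coreSt Cu.sysSt Cu.remSt Cu.startSt

theorem done_e {j : ℕ} {e : ℝ} (hj : 3 ≤ j) (he : e = 1 / (4 * j + 2)) : 0 < e ∧ e < 1 / 12 := by
  have hj' : (3 : ℝ) ≤ j := by exact_mod_cast hj
  rw [he]
  exact ⟨by positivity, one_div_lt_one_div_of_lt (by norm_num) (by linarith)⟩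

theorem done_grow : GrowSt := fun j e hj he Hk Hi g =>
  redGrow normSt e Hk Hi (done_e hj he).1 (done_e hj he).2 g
    (Cu.growCh (done_e hj he).2 (done_core j e hj he Hk Hi g))

theorem done_cusp : CuspSt := fun j e hj he Hk Hi g s =>
  redCusp normSt tauSt e Hk Hi (done_e hj he).1 (done_e hj he).2 g s
    (Cu.Bn.cuspCh hj he g s (done_core j e hj he Hk Hi g) (Cu.logCh (logSt intSt)) Cu.nonDeg)

theorem an_all (k : ℕ) (hk : Odd k) (h : 61 ≤ k) : Nonempty (AN k) :=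
  an_of hermSt B.chartSt (Cu.negSt done_core) done_grow done_cusp k hk h

end Pool.Agent.Lib.MP_0c623d_al.BP
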