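import Mathlib

set_option autoImplicit false

/-!
Analytic solutions of the Euler equation `dh(z) z = (om + b z) (h z)` in the non-resonant case.
-/

namespace Pool.Agent.Lib.MP_0c623d_al.BP

open Finset Filter Topology

namespace EulerAux

variable {E F : Type} [NormedAddCommGroup E] [NormedSpace ℂ E] [NormedAddCommGroup F]
  [NormedSpace ℂ F]

theorem ex_mul {j i k : ℕ} (B : E [×j]→L[ℂ] (F →L[ℂ] F)) (q : E [×i]→L[ℂ] F) :
    ∃ m : E [×k]→L[ℂ] F, ‖m‖ ≤ ‖B‖ * ‖q‖ ∧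
      (j + i = k → ∀ z, m (fun _ => z) = B (fun _ => z) (q fun _ => z)) := by
  by_cases h : j + i = k
  · subst h
    refine ⟨(ContinuousMultilinearMap.uncurrySum
      (((ContinuousLinearMap.compContinuousMultilinearMapL ℂ (fun _ : Fin i => E) F F).flip
        q).compContinuousMultilinearMap B)).domDomCongr finSumFinEquiv, ?_, fun _ z => rfl⟩
    rw [ContinuousMultilinearMap.norm_domDomCongr]
    refine ContinuousMultilinearMap.opNorm_le_bound (by positivity) fun v => ?_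
    rw [Fintype.prod_sum_type, mul_mul_mul_comm]
    exact ((B (v ∘ Sum.inl)).le_opNorm (q (v ∘ Sum.inr))).trans
      (mul_le_mul (B.le_opNorm _) (q.le_opNorm _) (norm_nonneg _) (by positivity))
  · exact ⟨0, by rw [norm_zero]; positivity, fun h' => (h h').elim⟩

/-- The coefficients of the solution. -/
noncomputable def co (u : ℕ → F →L[ℂ] F) (B : FormalMultilinearSeries ℂ E (F →L[ℂ] F)) (h0 : F) :
    (k : ℕ) → E [×k]→L[ℂ] F
  | 0 => ContinuousMultilinearMap.uncurry0 ℂ E h0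
  | k + 1 => (u k).compContinuousMultilinearMap
      (∑ j ∈ range (k + 1), (ex_mul (k := k + 1) (B (j + 1)) (co u B h0 (k - j))).choose)
  decreasing_by omega

variable (u : ℕ → F →L[ℂ] F) (B : FormalMultilinearSeries ℂ E (F →L[ℂ] F)) (h0 : F)

theorem co_succ (k : ℕ) (z : E) : co u B h0 (k + 1) (fun _ => z) =
    u k (∑ j ∈ range (k + 1), B (j + 1) (fun _ => z) (co u B h0 (k - j) fun _ => z)) := by
  rw [co, ContinuousLinearMap.compContinuousMultilinearMap_coe, Function.comp_apply,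
    ContinuousMultilinearMap.sum_apply]
  refine congrArg _ (sum_congr rfl fun j hj => ?_)
  exact (ex_mul _ _).choose_spec.2 (by have := mem_range.1 hj; omega) z

theorem co_le {C M s : ℝ} (hC : 0 ≤ C) (hM : 0 ≤ M) (hs : 0 ≤ s) (hu : ∀ k, ‖u k‖ ≤ C)
    (hB : ∀ j, ‖B j‖ ≤ M * s ^ j) (k : ℕ) : ‖co u B h0 k‖ ≤ ‖h0‖ * (s * (C * M + 1)) ^ k := by
  induction k using Nat.strong_induction_on with
  | _ k ih =>
    rcases k with _ | k
    · simp [co]
    rw [co]
    refine (ContinuousLinearMap.norm_compContinuousMultilinearMap_le _ _).trans ?_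
    have h1 : ‖∑ j ∈ range (k + 1),
        (ex_mul (k := k + 1) (B (j + 1)) (co u B h0 (k - j))).choose‖ ≤
        ∑ j ∈ range (k + 1), M * ‖h0‖ * s ^ (k + 1) * (C * M + 1) ^ (k + 1 - 1 - j) := by
      refine norm_sum_le_of_le _ fun j hj => (ex_mul _ _).choose_spec.1.trans ?_
      refine (mul_le_mul (hB _) (ih (k - j) (by omega)) (norm_nonneg _) (by positivity)).trans
        (le_of_eq ?_)
      obtain ⟨i, rfl⟩ := Nat.exists_eq_add_of_le (Nat.lt_succ_iff.1 (mem_range.1 hj))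
      simp only [Nat.add_sub_cancel_left, Nat.add_sub_cancel, mul_pow]
      ring
    rw [← mul_sum, sum_range_reflect (fun j => (C * M + 1) ^ j)] at h1
    refine (mul_le_mul (hu k) h1 (norm_nonneg _) hC).trans ?_
    have h2 := geom_sum_mul_add (C * M) (k + 1)
    have h3 : 0 ≤ ‖h0‖ * s ^ (k + 1) := by positivity
    rw [mul_pow, ← h2]
    nlinarith

theorem inv_bd (om : F →L[ℂ] F) (hu : ∀ k : ℕ, ∀ v, ((k + 1 : ℕ) : ℂ) • u k v - om (u k v) = v) :
    ∃ C, 0 ≤ C ∧ ∀ k, ‖u k‖ ≤ C := by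
  obtain ⟨N, hN⟩ := exists_nat_ge ‖om‖
  have h0 : 0 ≤ ∑ k ∈ range N, ‖u k‖ := sum_nonneg fun _ _ => norm_nonneg _
  refine ⟨1 + ∑ k ∈ range N, ‖u k‖, by linarith, fun k => ?_⟩
  rcases lt_or_ge k N with h | h
  · have := single_le_sum (f := fun k => ‖u k‖) (fun _ _ => norm_nonneg _) (mem_range.2 h)
    linarith
  · refine (ContinuousLinearMap.opNorm_le_bound _ zero_le_one fun v => ?_).trans
      (le_add_of_nonneg_right h0)
    have h1 := norm_sub_norm_le (((k + 1 : ℕ) : ℂ) • u k v) (om (u k v))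
    rw [hu, norm_smul, Complex.norm_natCast] at h1
    have h2 := om.le_opNorm (u k v)
    have h3 : (N : ℝ) ≤ k := by exact_mod_cast h
    push_cast at h1
    nlinarith [norm_nonneg (u k v)]

theorem cauchy [CompleteSpace F] {x : ℕ → F →L[ℂ] F} {y : ℕ → F} {X : F →L[ℂ] F} {Y : F}
    (hx : HasSum x X) (hy : HasSum y Y) (sx : Summable fun n => ‖x n‖)
    (sy : Summable fun n => ‖y n‖) :
    HasSum (fun n => ∑ j ∈ range (n + 1), x j (y (n - j))) (X Y) := by
  obtain ⟨a, ha⟩ : Summable fun p : ℕ × ℕ => x p.1 (y p.2) :=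
    (sx.mul_of_nonneg sy (fun _ => norm_nonneg _) fun _ => norm_nonneg _).of_norm_bounded
      fun p => (x p.1).le_opNorm _
  have e : a = X Y := (ha.prod_fiberwise fun j => (x j).hasSum hy).unique
    ((ContinuousLinearMap.apply ℂ F Y).hasSum hx)
  have h := (HasAntidiagonal.sigmaAntidiagonalEquivProd.hasSum_iff.2 ha).sigma
    fun n => hasSum_fintype _
  rw [← e]
  refine (congrArg (HasSum · a) (funext fun n => ?_)).mp h
  rw [← Nat.sum_antidiagonal_eq_sum_range_succ (fun i j => x i (y j))]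
  exact sum_coe_sort (antidiagonal n) fun p => x p.1 (y p.2)

end EulerAux

open EulerAux in
/-- General form: any complex normed source, complete target. -/
theorem euler' {E F : Type} [NormedAddCommGroup E] [NormedSpace ℂ E] [NormedAddCommGroup F]
    [NormedSpace ℂ F] [CompleteSpace F] (om : F →L[ℂ] F) {b : E → F →L[ℂ] F}
    (hb : AnalyticAt ℂ b 0) (hb0 : b 0 = 0)
    (hom : ∀ j : ℕ, 1 ≤ j → IsUnit ((j : ℂ) • (1 : F →L[ℂ] F) - om)) {h0 : F} (hh : om h0 = 0) :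
    ∃ h : E → F, AnalyticAt ℂ h 0 ∧ h 0 = h0 ∧
      ∀ᶠ z in 𝓝 (0 : E), fderiv ℂ h z z = (om + b z) (h z) := by
  choose U hU using fun k : ℕ => hom (k + 1) (by omega)
  have hu : ∀ k : ℕ, ∀ v, ((k + 1 : ℕ) : ℂ) • ((U k)⁻¹ : (F →L[ℂ] F)ˣ).1 v -
      om (((U k)⁻¹ : (F →L[ℂ] F)ˣ).1 v) = v := fun k v => by
    have := congrArg (fun T : F →L[ℂ] F => T v) (U k).mul_inv
    rw [hU] at this
    exact this
  obtain ⟨C, hC, huC⟩ := inv_bd _ om hu
  set u : ℕ → F →L[ℂ] F := fun k => ((U k)⁻¹ : (F →L[ℂ] F)ˣ).1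
  obtain ⟨B, r, hB⟩ := hb
  obtain ⟨r0, a1, a2⟩ := ENNReal.lt_iff_exists_nnreal_btwn.1 hB.radius_pos
  have a3 : 0 < r0 := by exact_mod_cast a1
  have a4 : (0 : ℝ) < r0 := a3
  obtain ⟨M, hM, hBM⟩ := B.norm_le_div_pow_of_pos_of_lt_radius a3 a2
  have hc := co_le u B h0 hC hM.le (inv_pos.2 a4).le huC fun j => by
    rw [inv_pow, ← div_eq_mul_inv]
    exact hBM j
  have a5 : 0 < (r0 : ℝ)⁻¹ * (C * M + 1) := by positivity
  generalize (r0 : ℝ)⁻¹ * (C * M + 1) = ρ at hc a5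
  let p : FormalMultilinearSeries ℂ E F := co u B h0
  have hr : 0 < p.radius := lt_of_lt_of_le
    (ENNReal.coe_pos.2 (show (0 : NNReal) < ⟨ρ⁻¹, (inv_pos.2 a5).le⟩ from inv_pos.2 a5))
    (p.le_radius_of_bound ‖h0‖ (r := ⟨ρ⁻¹, (inv_pos.2 a5).le⟩) fun n => by
      change ‖co u B h0 n‖ * ρ⁻¹ ^ n ≤ _
      rw [inv_pow, ← div_eq_mul_inv, div_le_iff₀ (by positivity)]
      exact hc n)
  have hp := p.hasFPowerSeriesOnBall hr
  have p0 : ∀ v, p 0 v = h0 := fun v => by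
    change co u B h0 0 v = h0
    simp [co]
  refine ⟨p.sum, hp.analyticAt, (hp.coeff_zero 0).symm.trans (p0 _), ?_⟩
  filter_upwards [Metric.eball_mem_nhds 0 hr, Metric.eball_mem_nhds 0 hB.r_pos] with z z1 z2
  have s1 := hp.hasSum z1
  have s2 := (hasSum_nat_add_iff' 1).2 (hB.hasSum z2)
  have s3 := (ContinuousLinearMap.apply ℂ F z).hasSum (hp.fderiv.hasSum z1)
  have s4 := (hasSum_nat_add_iff' 1).2 (om.hasSum s1)
  rw [zero_add] at s1 s2 s3 s4
  rw [sum_range_one, hB.coeff_zero, hb0, sub_zero] at s2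
  rw [sum_range_one, p0, hh, sub_zero] at s4
  have s5 := cauchy s2 s1 ((summable_nat_add_iff 1).2
    (B.summable_norm_apply (Metric.eball_subset_eball hB.r_le z2))) (p.summable_norm_apply z1)
  have s6 := s4.add s5
  refine s3.unique ((congrArg (HasSum · _) (funext fun n => ?_)).mp s6)
  rw [ContinuousLinearMap.apply_apply, p.derivSeries_apply_diag, ← Nat.cast_smul_eq_nsmul ℂ,
    ← eq_sub_iff_add_eq']
  change _ = _ • co u B h0 (n + 1) _ - om (co u B h0 (n + 1) _)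
  rw [co_succ]
  exact (hu n _).symm

theorem euler {F : Type} [NormedAddCommGroup F] [NormedSpace ℂ F] [FiniteDimensional ℂ F] {d : ℕ}
    (om : F →L[ℂ] F) {b : (Fin d → ℂ) → F →L[ℂ] F} (hb : AnalyticAt ℂ b 0) (hb0 : b 0 = 0)
    (hom : ∀ j : ℕ, 1 ≤ j → IsUnit ((j : ℂ) • (1 : F →L[ℂ] F) - om)) {h0 : F} (hh : om h0 = 0) :
    ∃ h : (Fin d → ℂ) → F, AnalyticAt ℂ h 0 ∧ h 0 = h0 ∧
      ∀ᶠ z in 𝓝 (0 : Fin d → ℂ), fderiv ℂ h z z = (om + b z) (h z) :=
  have := FiniteDimensional.complete ℂ F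
  euler' om hb hb0 hom hh

end Pool.Agent.Lib.MP_0c623d_al.BP
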