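import Pool.Agent.Lib.MP_0c623d_al.BP.Conn

set_option autoImplicit false

/-!
Local exponents: the eigenvalues of the wall matrix of the first pair.
-/

namespace Pool.Agent.Lib.MP_0c623d_al.BP

open Complex Set Filter Topology Matrix
open scoped Matrix.Norms.Operator

theorem near_sol {A : Type*} [NormedRing A] [NormedAlgebra ℝ A] (B : A) (X : ℝ → A)
    (h0 : X 0 = 1) (hX : ∀ s, HasDerivAt X (B * X s) s) :
    ∃ C : ℝ, ∀ (ε : ℝ) (y w : ℝ → A), 0 ≤ ε → ε ≤ 1 → y 0 = 1 →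
      (∀ s ∈ Icc (0 : ℝ) 1, HasDerivAt y (w s * y s) s) → (∀ s ∈ Icc (0 : ℝ) 1, ‖w s - B‖ ≤ ε) →
      ‖y 1 - X 1‖ ≤ C * ε := by
  have hc : Continuous X := continuous_iff_continuousAt.2 fun s => (hX s).continuousAt
  obtain ⟨M, hM⟩ := isCompact_Icc.exists_bound_of_continuousOn (s := Icc (0 : ℝ) 1) hc.continuousOn
  have M0 : 0 ≤ M := (norm_nonneg _).trans (hM 0 ⟨le_rfl, zero_le_one⟩)
  refine ⟨M * Real.exp (‖B‖ + 1), fun ε y w e0 e1 y0 hy hw => ?_⟩
  have := gron (f := fun s => y s - X s) (f' := fun s => w s * y s - B * X s) (d := 0)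
    (K := ‖B‖ + 1) (e := ε * M) (by positivity) le_rfl (by positivity)
    (fun s hs => (hy s hs).sub (hX s)) (by simp [y0, h0]) (fun s hs => ?_) 1 ⟨zero_le_one, le_rfl⟩
  · refine this.trans_eq (by ring)
  · have e : w s * y s - B * X s = w s * (y s - X s) + (w s - B) * X s := by noncomm_ring
    have hn : ‖w s‖ ≤ ‖B‖ + 1 := by
      have := norm_add_le B (w s - B)
      rw [add_sub_cancel] at this
      linarith [hw s hs]
    rw [e]
    refine (norm_add_le _ _).trans (add_le_add ((norm_mul_le _ _).trans ?_)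
      ((norm_mul_le _ _).trans ?_))
    · gcongr
    · exact mul_le_mul (hw s hs) (hM s hs) (norm_nonneg _) e0

section Ex

variable {n : Type} [Fintype n] [DecidableEq n]

/-- the exponential of a matrix with minimal polynomial dividing `X (X - p) (X - q)` -/
noncomputable def Ex (R : Matrix n n ℂ) (p q s : ℂ) : Matrix n n ℂ :=
  1 + ((exp (s * p) - 1) / (p * (p - q))) • (R * (R - q • 1)) +
    ((exp (s * q) - 1) / (q * (q - p))) • (R * (R - p • 1))

theorem Ex_comm (R P : Matrix n n ℂ) (h : P * R = R * P) (p q s : ℂ) :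
    P * Ex R p q s = Ex R p q s * P := by
  have h2 : P * (R * R) = R * R * P := by rw [← mul_assoc, h, mul_assoc, h, mul_assoc]
  simp only [Ex, mul_add, add_mul, mul_sub, sub_mul, mul_smul_comm, smul_mul_assoc, mul_one,
    one_mul, h, h2]

theorem Ex_eig (R : Matrix n n ℂ) {p q : ℂ} (hp : p ≠ 0) (hq : q ≠ 0) (hpq : p - q ≠ 0) (s : ℂ)
    {u : n → ℂ} {l : ℂ} (hl : l = 0 ∨ l = p ∨ l = q) (hu : R *ᵥ u = l • u) :
    Ex R p q s *ᵥ u = exp (s * l) • u := by
  have hqp : q - p ≠ 0 := fun h => hpq (by linear_combination -h)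
  have e : ∀ c : ℂ, (R * (R - c • 1)) *ᵥ u = (l * (l - c)) • u := fun c => by
    rw [← mulVec_mulVec, sub_mulVec, smul_mulVec, one_mulVec, hu, ← sub_smul, mulVec_smul, hu,
      smul_smul, mul_comm]
  rw [Ex, add_mulVec, add_mulVec, smul_mulVec, smul_mulVec, e, e, one_mulVec, smul_smul, smul_smul]
  nth_rewrite 1 [← one_smul ℂ u]
  rw [← add_smul, ← add_smul]
  congr 1
  rcases hl with rfl | rfl | rfl
  · simp
  · field_simp
    ring
  · field_simp
    ring

theorem Ex_deriv (R : Matrix n n ℂ) {p q : ℂ} (hp : p ≠ 0) (hq : q ≠ 0) (hpq : p - q ≠ 0)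
    (hR : R * (R * R) = (p + q) • (R * R) - (p * q) • R) (c : ℂ) (s : ℝ) :
    HasDerivAt (fun s : ℝ => Ex R p q (s * c)) ((c • R) * Ex R p q (s * c)) s := by
  have hqp : q - p ≠ 0 := fun h => hpq (by linear_combination -h)
  have d : ∀ l D : ℂ, HasDerivAt (fun s : ℝ => (exp (s * c * l) - 1) / D)
      (exp (s * c * l) * (c * l) / D) s := fun l D => by
    have h1 : HasDerivAt (fun s : ℝ => (s : ℂ) * c * l) (c * l) s := by
      simpa using ((Complex.ofRealCLM.hasDerivAt (x := s)).mul_const c).mul_const l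
    exact (h1.cexp.sub_const 1).div_const D
  have := (((d p (p * (p - q))).smul_const (R * (R - q • 1))).const_add 1).add
    ((d q (q * (q - p))).smul_const (R * (R - p • 1)))
  refine HasDerivAt.congr_deriv this ?_
  simp only [Ex, mul_add, mul_sub, mul_smul_comm, smul_mul_assoc, mul_one, hR]
  match_scalars
  · field_simp
    ring
  · field_simp
    ring

theorem Ex_sq (R P : Matrix n n ℂ) {p q : ℂ} (hp : p ≠ 0) (hq : q ≠ 0) (hpq : p - q ≠ 0)
    (hR : R * (R * R) = (p + q) • (R * R) - (p * q) • R) (hP : P * P = 1) (h : P * R = R * P)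
    (s μ : ℂ) (hd : (μ • (1 : Matrix n n ℂ) - P * Ex R p q s).det = 0) :
    μ ^ 2 = 1 ∨ μ ^ 2 = exp (s * p) ^ 2 ∨ μ ^ 2 = exp (s * q) ^ 2 := by
  obtain ⟨v, v0, hv⟩ := Matrix.exists_mulVec_eq_zero_iff.2 hd
  rw [sub_mulVec, smul_mulVec, one_mulVec, sub_eq_zero] at hv
  set X := Ex R p q s with hX
  have e2 : P * X * (P * X) = X * X := by
    rw [mul_assoc, ← mul_assoc X, ← Ex_comm R P h, ← mul_assoc, ← mul_assoc, hP, one_mul]
  have h2 : (X * X) *ᵥ v = μ ^ 2 • v := by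
    rw [← e2, ← mulVec_mulVec, ← hv, mulVec_smul, ← hv, smul_smul, sq]
  have key : ∀ (Q : Matrix n n ℂ) (l : ℂ), Q * R = R * Q → (l = 0 ∨ l = p ∨ l = q) → Q *ᵥ v ≠ 0 →
      R *ᵥ (Q *ᵥ v) = l • Q *ᵥ v → μ ^ 2 = exp (s * l) ^ 2 := fun Q l hQ hl h0 hu => by
    have a := Ex_eig R hp hq hpq s hl hu
    have b : (X * X) *ᵥ (Q *ᵥ v) = μ ^ 2 • Q *ᵥ v := by
      rw [mulVec_mulVec, mul_assoc, hX, ← Ex_comm R Q hQ, ← mul_assoc, ← Ex_comm R Q hQ, mul_assoc,
        ← mulVec_mulVec, ← hX, h2, mulVec_smul]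
    rw [← mulVec_mulVec, hX, a, mulVec_smul, a, smul_smul, ← sq] at b
    exact (smul_left_injective ℂ h0 b).symm
  by_cases h1 : (R * (R - q • 1)) *ᵥ v = 0
  · by_cases h3 : (R - q • 1) *ᵥ v = 0
    · refine Or.inr (Or.inr (key 1 q (by simp) (by simp) (by simpa using v0) ?_))
      rw [sub_mulVec, smul_mulVec, one_mulVec, sub_eq_zero] at h3
      simpa using h3
    · refine Or.inl ?_
      have := key (R - q • 1) 0 (by simp [sub_mul, mul_sub]) (by simp) h3
        (by rw [mulVec_mulVec, h1, zero_smul])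
      simpa using this
  · refine Or.inr (Or.inl (key (R * (R - q • 1)) p (by simp [sub_mul, mul_sub, mul_assoc])
      (by simp) h1 ?_))
    rw [mulVec_mulVec, ← smul_mulVec]
    congr 1
    simp only [mul_sub, mul_smul_comm, mul_one, hR]
    module

end Ex

theorem Res_cube (e : ℝ) : Res e 0 * (Res e 0 * Res e 0) =
    (2 * al e + (4 * al e + be e)) • (Res e 0 * Res e 0) - (2 * al e * (4 * al e + be e)) • Res e 0 := by
  ext r c
  fin_cases r <;> fin_cases c <;>
    simp [Res, ResA, Matrix.mul_apply, Fin.sum_univ_six] <;> ring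

/-- the configurations near the first mirror -/
noncomputable def bb (t : ℂ) : Cf := ![-t / 2, t / 2, 3, 7]

theorem conn_bb (e : ℝ) {t : ℂ} (h0 : t ≠ 0) (h1 : ‖t‖ ≤ 1) :
    ‖conn e (bb t) ((Real.pi * I * t) • ![-1 / 2, 1 / 2, 0, 0]) - (Real.pi * I : ℂ) • Res e 0‖ ≤
      ‖t‖ * ∑ n, ‖Res e n‖ := by
  have k : ∀ (σ : ℂ) (c : ℝ), ‖σ‖ = 1 / 2 → 3 ≤ c → ‖Real.pi * I * t * σ / (t * σ - c)‖ ≤ ‖t‖ :=
    fun σ c hσ hc => by
      have a : 2 ≤ ‖t * σ - c‖ := by
        have := norm_sub_norm_le (c : ℂ) (t * σ)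
        rw [norm_sub_rev, norm_mul, hσ, norm_real, Real.norm_of_nonneg (by linarith)] at this
        linarith
      rw [norm_div, div_le_iff₀ (by linarith), norm_mul, norm_mul, norm_mul, hσ, norm_I, norm_real,
        Real.norm_of_nonneg Real.pi_pos.le]
      nlinarith [Real.pi_le_four, norm_nonneg t]
  have s1 : ‖(-1 / 2 : ℂ)‖ = 1 / 2 := by simp
  have s2 : ‖(1 / 2 : ℂ)‖ = 1 / 2 := by simp
  have e0 : conn e (bb t) ((Real.pi * I * t) • ![-1 / 2, 1 / 2, 0, 0]) -
      (Real.pi * I : ℂ) • Res e 0 =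
      (Real.pi * I * t * (-1 / 2) / (t * (-1 / 2) - (3 : ℝ))) • Res e 1 +
      (Real.pi * I * t * (-1 / 2) / (t * (-1 / 2) - (7 : ℝ))) • Res e 2 +
      (Real.pi * I * t * (1 / 2) / (t * (1 / 2) - (3 : ℝ))) • Res e 3 +
      (Real.pi * I * t * (1 / 2) / (t * (1 / 2) - (7 : ℝ))) • Res e 4 := by
    simp only [conn, Fin.sum_univ_six, fst, snd, bb]
    simp
    match_scalars
    all_goals first | (field_simp; ring) | (congr 1; ring) | ring
  rw [e0, Fin.sum_univ_six]
  have b1 := k _ 3 s1 le_rfl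
  have b2 := k _ 7 s1 (by norm_num)
  have b3 := k _ 3 s2 le_rfl
  have b4 := k _ 7 s2 (by norm_num)
  have g : ∀ (c : ℂ) (n : Fin 6), ‖c‖ ≤ ‖t‖ → ‖c • Res e n‖ ≤ ‖t‖ * ‖Res e n‖ := fun c n h => by
    rw [norm_smul]
    gcongr
  have := (norm_add_le _ _).trans (add_le_add ((norm_add_le _ _).trans (add_le_add
    ((norm_add_le _ _).trans (add_le_add (g _ 1 b1) (g _ 2 b2))) (g _ 3 b3))) (g _ 4 b4))
  nlinarith [mul_nonneg (norm_nonneg t) (norm_nonneg (Res e 0)),
    mul_nonneg (norm_nonneg t) (norm_nonneg (Res e 5))]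

theorem bb_slit {t : ℂ} (h0 : t ∈ slitPlane) (h1 : ‖t‖ ≤ 1) :
    ∀ i j : Fin 4, i < j → bb t j - bb t i ∈ slitPlane := by
  have a := abs_le.1 ((abs_re_le_norm t).trans h1)
  intro i j h
  fin_cases i <;> fin_cases j <;> simp at h <;> simp [bb]
  · rwa [show t / 2 - -t / 2 = t by ring]
  all_goals
    left
    simp
    linarith [a.1, a.2]

/-- The eigenvalues of the wall matrix. -/
theorem expo {e : ℝ} (he : 0 < e) (he' : e < 1 / 12) (Y : Cf → Matrix (Fin 6) (Fin 6) ℂ)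
    (hY : ∀ a : Cf, (∀ i j : Fin 4, i < j → a j - a i ∈ slitPlane) → IsUnit (Y a) ∧
      ∃ L : Cf →L[ℂ] Matrix (Fin 6) (Fin 6) ℂ, (∀ v, L v = conn e a v * Y a) ∧ HasFDerivAt Y L a)
    (P ρ : Matrix (Fin 6) (Fin 6) ℂ) (hP : P * P = 1) (hR : P * Res e 0 = Res e 0 * P)
    (wall : ∀ r : ℝ, 0 < r → r < 1 → Y (bb (I * r)) = P * Y (bb (-(I * r))) * ρ)
    (μ : ℂ) (hμ : (μ • (1 : Matrix (Fin 6) (Fin 6) ℂ) - ρ).det = 0) :
    μ ^ 2 = 1 ∨ μ ^ 2 = exp (Real.pi * I * (2 * al e)) ^ 2 ∨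
      μ ^ 2 = exp (Real.pi * I * (4 * al e + be e)) ^ 2 := by
  have hp : 2 * al e ≠ 0 := fun h => by
    have := congrArg re h
    simp [al] at this
    linarith
  have hq : 4 * al e + be e ≠ 0 := fun h => by
    have := congrArg re h
    simp [al, be] at this
    linarith
  have hpq : 2 * al e - (4 * al e + be e) ≠ 0 := fun h => by
    have := congrArg re h
    simp [al, be] at this
    linarith
  refine Ex_sq (Res e 0) P hp hq hpq (Res_cube e) hP hR _ μ ?_
  obtain ⟨C, hC⟩ := near_sol ((Real.pi * I : ℂ) • Res e 0) _ (by simp [Ex])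
    (Ex_deriv (Res e 0) hp hq hpq (Res_cube e) (Real.pi * I))
  set K := ∑ n, ‖Res e n‖ with hK
  have K0 : 0 ≤ K := Finset.sum_nonneg fun _ _ => norm_nonneg _
  let T : ℝ → ℝ → ℂ := fun r s => -(I * r) * exp (s * (Real.pi * I))
  have Tn : ∀ r s, 0 < r → ‖T r s‖ = r := fun r s h => by
    have : (s : ℂ) * (Real.pi * I) = (s * Real.pi : ℝ) * I := by push_cast; ring
    simp only [T, norm_mul, norm_neg, norm_I, norm_real, this, norm_exp_ofReal_mul_I]
    simp [h.le]
  have Ts : ∀ r s, 0 < r → s ∈ Icc (0 : ℝ) 1 → T r s ∈ slitPlane := fun r s h hs => by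
    have e1 : (s : ℂ) * (Real.pi * I) = (s * Real.pi : ℝ) * I := by push_cast; ring
    have e2 : (T r s).re = r * Real.sin (s * Real.pi) := by
      simp only [T, e1, mul_re, exp_ofReal_mul_I_re, exp_ofReal_mul_I_im]
      simp
    have n0 : T r s ≠ 0 := norm_pos_iff.1 (by rw [Tn r s h]; exact h)
    have p0 : 0 ≤ (T r s).re := by
      rw [e2]
      exact mul_nonneg h.le (Real.sin_nonneg_of_nonneg_of_le_pi
        (mul_nonneg hs.1 Real.pi_pos.le) (by nlinarith [hs.2, Real.pi_pos]))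
    by_contra hn
    rw [mem_slitPlane_iff, not_or, not_lt, not_not] at hn
    exact n0 (Complex.ext (le_antisymm hn.1 p0) hn.2)
  have T0 : ∀ r, T r 0 = -(I * r) := fun r => by simp [T]
  have T1 : ∀ r, T r 1 = I * r := fun r => by simp [T, exp_pi_mul_I]
  let y : ℝ → ℝ → Matrix (Fin 6) (Fin 6) ℂ := fun r s => Y (bb (T r s)) * (Y (bb (T r 0)))⁻¹
  have ev : ∀ᶠ r in 𝓝[>] (0 : ℝ), 0 < r ∧ r < 1 ∧ r * K ≤ 1 := by
    have a : ∀ᶠ r in 𝓝 (0 : ℝ), r < 1 := eventually_lt_nhds one_pos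
    have b : ∀ᶠ r in 𝓝 (0 : ℝ), r * K < 1 :=
      (continuous_id.mul continuous_const).continuousAt.eventually_lt continuousAt_const (by simp)
    filter_upwards [self_mem_nhdsWithin, nhdsWithin_le_nhds a, nhdsWithin_le_nhds b] with r h1 h2 h3
    exact ⟨h1, h2, h3.le⟩
  have U0 : ∀ r, 0 < r → r < 1 → IsUnit (Y (bb (T r 0))).det := fun r h1 h2 =>
    (isUnit_iff_isUnit_det _).1 (hY _ (bb_slit (Ts r 0 h1 ⟨le_rfl, zero_le_one⟩)
      (by rw [Tn r 0 h1]; exact h2.le))).1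
  have lim : Tendsto (fun r => y r 1) (𝓝[>] 0)
      (𝓝 (Ex (Res e 0) (2 * al e) (4 * al e + be e) (Real.pi * I))) := by
    refine tendsto_iff_norm_sub_tendsto_zero.2 ?_
    refine squeeze_zero' (Eventually.of_forall fun _ => norm_nonneg _) (g := fun r => C * (r * K)) ?_ ?_
    · filter_upwards [ev] with r ⟨h1, h2, h3⟩
      have := hC (r * K) (y r)
        (fun s => conn e (bb (T r s)) ((Real.pi * I * T r s) • ![-1 / 2, 1 / 2, 0, 0]))
        (by positivity) h3 (mul_nonsing_inv _ (U0 r h1 h2)) (fun s hs => ?_) (fun s hs => ?_)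
      · simpa using this
      · obtain ⟨-, L, hL, hd⟩ := hY _ (bb_slit (Ts r s h1 hs) (by rw [Tn r s h1]; exact h2.le))
        have dT : HasDerivAt (T r) (Real.pi * I * T r s) s := by
          have h1 : HasDerivAt (fun s : ℝ => (s : ℂ) * (Real.pi * I)) (Real.pi * I) s := by
            simpa using (Complex.ofRealCLM.hasDerivAt (x := s)).mul_const (Real.pi * I : ℂ)
          exact (h1.cexp.const_mul (-(I * r))).congr_deriv (by simp only [T]; ring)
        have db : HasDerivAt (fun s => bb (T r s))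
            ((Real.pi * I * T r s) • ![-1 / 2, 1 / 2, 0, 0]) s := by
          have : (fun s => bb (T r s)) =
              fun s => T r s • (![-1 / 2, 1 / 2, 0, 0] : Cf) + ![0, 0, 3, 7] := by
            ext s i
            fin_cases i <;> simp [bb] <;> ring
          rw [this]
          exact (dT.smul_const _).add_const _
        have := ((hd.restrictScalars ℝ).comp_hasDerivAt s db).mul_const (Y (bb (T r 0)))⁻¹
        refine this.congr_deriv ?_
        change L _ * _ = _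
        rw [hL, mul_assoc]
      · have := conn_bb e (t := T r s) (norm_pos_iff.1 (by rw [Tn r s h1]; exact h1))
          (by rw [Tn r s h1]; exact h2.le)
        rwa [Tn r s h1] at this
    · have : Continuous fun r : ℝ => C * (r * K) := by fun_prop
      simpa using (this.tendsto 0).mono_left nhdsWithin_le_nhds
  have cd : Continuous fun X : Matrix (Fin 6) (Fin 6) ℂ =>
      (μ • (1 : Matrix (Fin 6) (Fin 6) ℂ) - P * X).det :=
    (continuous_const.sub (continuous_const.mul continuous_id)).matrix_det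
  refine tendsto_nhds_unique ((cd.tendsto _).comp lim) (tendsto_const_nhds.congr' ?_)
  filter_upwards [ev] with r ⟨h1, h2, _⟩
  have u := U0 r h1 h2
  have e1 : μ • (1 : Matrix (Fin 6) (Fin 6) ℂ) - P * y r 1 =
      Y (bb (T r 0)) * (μ • 1 - ρ) * (Y (bb (T r 0)))⁻¹ := by
    simp only [y]
    rw [T1, wall r h1 h2, ← T0, mul_sub, sub_mul, mul_smul_comm, mul_one, smul_mul_assoc,
      mul_nonsing_inv _ u]
    simp only [← mul_assoc, hP, one_mul]
  simp only [Function.comp, e1, det_mul, hμ, mul_zero, zero_mul]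

/-- The twelfth powers of the eigenvalues. -/
theorem expo_pow (e : ℝ) {μ : ℂ} (h : μ ^ 2 = 1 ∨ μ ^ 2 = exp (Real.pi * I * (2 * al e)) ^ 2 ∨
      μ ^ 2 = exp (Real.pi * I * (4 * al e + be e)) ^ 2) :
    μ ^ 12 = 1 ∨ μ ^ 12 = exp (2 * Real.pi * I * e) ^ 6 ∨ μ ^ 12 = exp (2 * Real.pi * I * e) ^ 12 := by
  have e0 : μ ^ 12 = (μ ^ 2) ^ 6 := by ring
  rcases h with h | h | h
  · left
    rw [e0, h, one_pow]
  · right; right
    rw [e0, h, ← pow_mul, ← exp_nat_mul, ← exp_nat_mul, exp_eq_exp_iff_exists_int]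
    exact ⟨-6, by simp only [al]; push_cast; ring⟩
  · right; left
    rw [e0, h, ← pow_mul, ← exp_nat_mul, ← exp_nat_mul, exp_eq_exp_iff_exists_int]
    exact ⟨-9, by simp only [al, be]; push_cast; ring⟩

end Pool.Agent.Lib.MP_0c623d_al.BP
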