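import Mathlib

/-!
Irreducibility of a six dimensional representation of the braid group by determinants.
-/

set_option autoImplicit false

namespace Pool.Agent.Lib.MP_0c623d_al.BP

open Module

theorem det_pow_of_eig {W : Type} [AddCommGroup W] [Module ℂ W] [FiniteDimensional ℂ W]
    (f : End ℂ W) {z : ℂ}
    (h : ∀ (μ : ℂ) (v : W), v ≠ 0 → f v = μ • v → ∃ j, j ≤ 2 ∧ μ ^ 12 = z ^ j) :
    ∃ J, J ≤ 2 * finrank ℂ W ∧ LinearMap.det f ^ 12 = z ^ J := by
  have hs := IsAlgClosed.splits f.charpoly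
  have key : ∀ s : Multiset ℂ, (∀ μ ∈ s, ∃ j, j ≤ 2 ∧ μ ^ 12 = z ^ j) →
      ∃ J, J ≤ 2 * s.card ∧ s.prod ^ 12 = z ^ J := by
    intro s
    induction s using Multiset.induction_on with
    | empty => exact fun _ => ⟨0, by simp, by simp⟩
    | cons μ s ih =>
      intro hh
      obtain ⟨J, h1, h2⟩ := ih fun ν hν => hh ν (Multiset.mem_cons_of_mem hν)
      obtain ⟨j, h3, h4⟩ := hh μ (Multiset.mem_cons_self _ _)
      refine ⟨j + J, ?_, ?_⟩
      · rw [Multiset.card_cons]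
        omega
      · rw [Multiset.prod_cons, mul_pow, h2, h4, pow_add]
  obtain ⟨J, h1, h2⟩ := key f.charpoly.roots fun μ hμ => by
    obtain ⟨v, hv⟩ := ((End.hasEigenvalue_iff_isRoot_charpoly f μ).2
      (Polynomial.isRoot_of_mem_roots hμ)).exists_hasEigenvector
    exact h μ v hv.2 hv.apply_eq_smul
  refine ⟨J, ?_, ?_⟩
  · rwa [← hs.natDegree_eq_card_roots, LinearMap.charpoly_natDegree] at h1
  · rw [End.det_eq_prod_roots_charpoly_of_splits hs, h2]

/-- Irreducibility. -/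
theorem irr_end {V : Type} [AddCommGroup V] [Module ℂ V] [FiniteDimensional ℂ V]
    (h6 : finrank ℂ V = 6) {a b c : End ℂ V} (hab : a * b * a = b * a * b)
    (hbc : b * c * b = c * b * c) {cc ζ : ℂ} {m : ℕ}
    (hz : (a * b * c) ^ 4 = cc • (1 : End ℂ V) ∨ (c * b * a) ^ 4 = cc • (1 : End ℂ V))
    (hζ : IsPrimitiveRoot ζ m) (hm : 120 < m) (hc : cc ^ 2 = ζ ^ 10)
    (he : ∀ (μ : ℂ) (v : V), v ≠ 0 → a v = μ • v → μ ^ 12 = 1 ∨ μ ^ 12 = ζ ^ 6 ∨ μ ^ 12 = ζ ^ 12)
    (R : Submodule ℂ V) (ha : ∀ v ∈ R, a v ∈ R) (hb : ∀ v ∈ R, b v ∈ R)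
    (hc' : ∀ v ∈ R, c v ∈ R) : R = ⊥ ∨ R = ⊤ := by
  let a' : End ℂ R := a.restrict ha
  let b' : End ℂ R := b.restrict hb
  let c' : End ℂ R := c.restrict hc'
  have r1 : a' * b' * a' = b' * a' * b' := by
    ext v
    exact LinearMap.congr_fun hab v
  have r2 : b' * c' * b' = c' * b' * c' := by
    ext v
    exact LinearMap.congr_fun hbc v
  have d3 : (LinearMap.det a' * LinearMap.det b' * LinearMap.det c') ^ 4 = cc ^ finrank ℂ R := by
    rcases hz with hz | hz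
    · have r3 : (a' * b' * c') ^ 4 = cc • (1 : End ℂ R) := by
        ext v
        have := LinearMap.congr_fun hz v
        simp only [pow_succ, pow_zero, one_mul] at this ⊢
        exact this
      simpa using congrArg LinearMap.det r3
    · have r3 : (c' * b' * a') ^ 4 = cc • (1 : End ℂ R) := by
        ext v
        have := LinearMap.congr_fun hz v
        simp only [pow_succ, pow_zero, one_mul] at this ⊢
        exact this
      have := congrArg LinearMap.det r3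
      simp only [map_mul, map_pow, LinearMap.det_smul, map_one, mul_one] at this
      rw [← this]
      ring
  have d1 := congrArg LinearMap.det r1
  have d2 := congrArg LinearMap.det r2
  simp only [map_mul] at d1 d2
  have hζ0 : ζ ≠ 0 := hζ.ne_zero (by omega)
  have hc0 : cc ≠ 0 := by
    rintro rfl
    exact pow_ne_zero 10 hζ0 (by simpa using hc.symm)
  obtain ⟨J, hJ, e⟩ := det_pow_of_eig a' (z := ζ ^ 6) fun μ v hv hμ => by
    rcases he μ v (fun e => hv (Subtype.ext e)) (congrArg Subtype.val hμ) with h | h | h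
    · exact ⟨0, by omega, by simpa using h⟩
    · exact ⟨1, by omega, by simpa using h⟩
    · exact ⟨2, by omega, by rw [h]; ring⟩
  generalize LinearMap.det a' = x at *
  generalize LinearMap.det b' = y at *
  generalize LinearMap.det c' = w at *
  have hn : (x * y * w) ^ 4 ≠ 0 := d3 ▸ pow_ne_zero _ hc0
  have hx : x ≠ 0 := by rintro rfl; simp at hn
  have hy : y ≠ 0 := by rintro rfl; simp at hn
  have hw : w ≠ 0 := by rintro rfl; simp at hn
  have e1 : y = x := (mul_left_cancel₀ (mul_ne_zero hx hy) (by linear_combination d1)).symm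
  have e2 : w = y := (mul_left_cancel₀ (mul_ne_zero hy hw) (by linear_combination d2)).symm
  subst e1 e2
  by_contra hcon
  push Not at hcon
  have k1 : finrank ℂ R ≠ 0 := fun e => hcon.1 (Submodule.finrank_eq_zero.1 e)
  have k2 : finrank ℂ R < 6 := h6 ▸ Submodule.finrank_lt hcon.2
  have : ζ ^ (10 * finrank ℂ R) = ζ ^ (12 * J) := by
    calc ζ ^ (10 * finrank ℂ R) = (cc ^ finrank ℂ R) ^ 2 := by
          rw [pow_mul, ← hc, ← pow_mul, ← pow_mul, mul_comm]
      _ = (w ^ 12) ^ 2 := by rw [← d3]; ring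
      _ = _ := by rw [e]; ring
  have := hζ.pow_inj (by omega) (by omega) this
  omega

/-- Irreducibility for matrices acting on columns. -/
theorem irr_mulVec {a b c : Matrix (Fin 6) (Fin 6) ℂ} (hab : a * b * a = b * a * b)
    (hbc : b * c * b = c * b * c) {cc ζ : ℂ} {m : ℕ}
    (hz : (a * b * c) ^ 4 = cc • (1 : Matrix (Fin 6) (Fin 6) ℂ) ∨
      (c * b * a) ^ 4 = cc • (1 : Matrix (Fin 6) (Fin 6) ℂ))
    (hζ : IsPrimitiveRoot ζ m) (hm : 120 < m) (hc : cc ^ 2 = ζ ^ 10)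
    (he : ∀ (μ : ℂ) (v : Fin 6 → ℂ), v ≠ 0 → a.mulVec v = μ • v →
      μ ^ 12 = 1 ∨ μ ^ 12 = ζ ^ 6 ∨ μ ^ 12 = ζ ^ 12)
    (R : Submodule ℂ (Fin 6 → ℂ)) (ha : ∀ v ∈ R, a.mulVec v ∈ R) (hb : ∀ v ∈ R, b.mulVec v ∈ R)
    (hc' : ∀ v ∈ R, c.mulVec v ∈ R) : R = ⊥ ∨ R = ⊤ := by
  refine irr_end (by simp) (a := Matrix.toLinAlgEquiv' a) (b := Matrix.toLinAlgEquiv' b)
    (c := Matrix.toLinAlgEquiv' c) ?_ ?_ (cc := cc) ?_ hζ hm hc ?_ R ?_ ?_ ?_
  · rw [← map_mul, ← map_mul, hab, map_mul, map_mul]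
  · rw [← map_mul, ← map_mul, hbc, map_mul, map_mul]
  · refine hz.imp (fun hz => ?_) fun hz => ?_ <;>
      rw [← map_mul, ← map_mul, ← map_pow, hz, map_smul, map_one]
  · simpa using he
  · simpa using ha
  · simpa using hb
  · simpa using hc'

/-- Irreducibility for matrices acting on rows. -/
theorem irr_vecMul {a b c : Matrix (Fin 6) (Fin 6) ℂ} (hab : a * b * a = b * a * b)
    (hbc : b * c * b = c * b * c) {cc ζ : ℂ} {m : ℕ}
    (hz : (a * b * c) ^ 4 = cc • (1 : Matrix (Fin 6) (Fin 6) ℂ) ∨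
      (c * b * a) ^ 4 = cc • (1 : Matrix (Fin 6) (Fin 6) ℂ))
    (hζ : IsPrimitiveRoot ζ m) (hm : 120 < m) (hc : cc ^ 2 = ζ ^ 10)
    (he : ∀ (μ : ℂ) (v : Fin 6 → ℂ), v ≠ 0 → Matrix.vecMul v a = μ • v →
      μ ^ 12 = 1 ∨ μ ^ 12 = ζ ^ 6 ∨ μ ^ 12 = ζ ^ 12)
    (R : Submodule ℂ (Fin 6 → ℂ)) (ha : ∀ v ∈ R, Matrix.vecMul v a ∈ R)
    (hb : ∀ v ∈ R, Matrix.vecMul v b ∈ R) (hc' : ∀ v ∈ R, Matrix.vecMul v c ∈ R) :
    R = ⊥ ∨ R = ⊤ := by
  refine irr_mulVec (a := a.transpose) (b := b.transpose) (c := c.transpose) ?_ ?_ (cc := cc) ?_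
    hζ hm hc ?_ R ?_ ?_ ?_
  · simpa [Matrix.mul_assoc] using congrArg Matrix.transpose hab
  · simpa [Matrix.mul_assoc] using congrArg Matrix.transpose hbc
  · refine hz.symm.imp (fun hz => ?_) fun hz => ?_ <;>
      simpa [Matrix.mul_assoc, Matrix.transpose_pow] using congrArg Matrix.transpose hz
  · simpa [Matrix.mulVec_transpose] using he
  · simpa [Matrix.mulVec_transpose] using ha
  · simpa [Matrix.mulVec_transpose] using hb
  · simpa [Matrix.mulVec_transpose] using hc'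

end Pool.Agent.Lib.MP_0c623d_al.BP
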