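import Mathlib
import Pool.Agent.Lib.MP_caab05_ag.GB.Osg

set_option autoImplicit false

/-! Polarisation of sesquilinear identities between holomorphic functions. -/

namespace Pool.Agent.Lib.MP_0c623d_al.BP

open Filter Topology Matrix Metric
open scoped ComplexConjugate

section Polar

variable {V : Type} [NormedAddCommGroup V] [NormedSpace ℂ V]

/-- derivative along a complex line -/
theorem line_deriv {f : V → ℂ} {a v : V} {t : ℂ} (hf : DifferentiableAt ℂ f (a + t • v)) :
    HasDerivAt (fun s : ℂ => f (a + s • v)) (fderiv ℂ f (a + t • v) v) t := by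
  have h1 : HasDerivAt (fun s : ℂ => a + s • v) v t := by
    simpa using ((hasDerivAt_id t).smul_const v).const_add a
  exact hf.hasFDerivAt.comp_hasDerivAt t h1

theorem polar_step {ι : Type} [Fintype ι] {U : Set V} (hU : IsOpen U) {p q : ι → V → ℂ}
    (hp : ∀ i, AnalyticOnNhd ℂ (p i) U) (hq : ∀ i, AnalyticOnNhd ℂ (q i) U)
    (h : ∀ a ∈ U, ∑ i, p i a * conj (q i a) = 0) (v : V) :
    ∀ a ∈ U, ∑ i, fderiv ℂ (p i) a v * conj (q i a) = 0 := by
  intro a ha
  have key : ∀ w : V, ∑ i, (fderiv ℂ (p i) a w * conj (q i a) +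
      p i a * conj (fderiv ℂ (q i) a w)) = 0 := by
    intro w
    have hl : ∀ f : V → ℂ, AnalyticOnNhd ℂ f U →
        HasDerivAt (fun s : ℝ => f (a + (s : ℂ) • w)) (fderiv ℂ f a w) 0 := fun f hf => by
      have h0 : DifferentiableAt ℂ f (a + ((0 : ℝ) : ℂ) • w) := by
        simpa using (hf a ha).differentiableAt
      simpa using (line_deriv h0).comp_ofReal
    have h1 : HasDerivAt (fun s : ℝ => ∑ i, p i (a + (s : ℂ) • w) * conj (q i (a + (s : ℂ) • w)))
        (∑ i, (fderiv ℂ (p i) a w * conj (q i a) + p i a * conj (fderiv ℂ (q i) a w))) 0 := by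
      refine HasDerivAt.fun_sum fun i _ => ?_
      simpa using (hl _ (hp i)).fun_mul (hl _ (hq i)).star
    have hc : ContinuousAt (fun s : ℝ => a + (s : ℂ) • w) 0 := by fun_prop
    have h2 : ∀ᶠ s : ℝ in 𝓝 0, a + (s : ℂ) • w ∈ U :=
      hc.eventually (hU.mem_nhds (by simpa using ha))
    refine h1.unique ((hasDerivAt_const (0 : ℝ) (0 : ℂ)).congr_of_eventuallyEq ?_)
    exact h2.mono fun s hs => h _ hs
  have h1 := key v
  have h2 := key (Complex.I • v)
  simp only [map_smul, smul_eq_mul, map_mul, Complex.conj_I, Finset.sum_add_distrib] at h1 h2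
  have h3 : ∑ i, Complex.I * fderiv ℂ (p i) a v * conj (q i a) =
      Complex.I * ∑ i, fderiv ℂ (p i) a v * conj (q i a) := by
    rw [Finset.mul_sum]; exact Finset.sum_congr rfl fun i _ => by ring
  have h4 : ∑ i, p i a * (-Complex.I * conj (fderiv ℂ (q i) a v)) =
      -Complex.I * ∑ i, p i a * conj (fderiv ℂ (q i) a v) := by
    rw [Finset.mul_sum]; exact Finset.sum_congr rfl fun i _ => by ring
  rw [h3, h4] at h2
  have h5 : (2 * Complex.I) * ∑ i, fderiv ℂ (p i) a v * conj (q i a) = 0 := by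
    linear_combination Complex.I * h1 + h2
  exact (mul_eq_zero.1 h5).resolve_left (by simp)

/-- Polarisation. -/
theorem polar {ι : Type} [Fintype ι] {U : Set V} (hU : IsOpen U) (hc : IsPreconnected U)
    {p q : ι → V → ℂ} (hp : ∀ i, AnalyticOnNhd ℂ (p i) U) (hq : ∀ i, AnalyticOnNhd ℂ (q i) U)
    (h : ∀ a ∈ U, ∑ i, p i a * conj (q i a) = 0) :
    ∀ a ∈ U, ∀ b ∈ U, ∑ i, p i a * conj (q i b) = 0 := by
  intro a ha b hb
  have key : ∀ (v : V) (k : ℕ) (p : ι → V → ℂ), (∀ i, AnalyticOnNhd ℂ (p i) U) →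
      (∀ a ∈ U, ∑ i, p i a * conj (q i a) = 0) →
      iteratedDeriv k (fun s : ℂ => ∑ i, p i (b + s • v) * conj (q i b)) 0 = 0 := by
    intro v k
    induction k with
    | zero => intro p _ h; simpa using h b hb
    | succ k ih =>
      intro p hp h
      rw [iteratedDeriv_succ']
      have hc : ContinuousAt (fun s : ℂ => b + s • v) 0 := by fun_prop
      have h2 : ∀ᶠ s : ℂ in 𝓝 0, b + s • v ∈ U := hc.eventually (hU.mem_nhds (by simpa using hb))
      have h3 : deriv (fun s : ℂ => ∑ i, p i (b + s • v) * conj (q i b)) =ᶠ[𝓝 0]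
          fun s : ℂ => ∑ i, fderiv ℂ (p i) (b + s • v) v * conj (q i b) :=
        h2.mono fun s hs => (HasDerivAt.fun_sum fun i _ =>
          (line_deriv (hp i _ hs).differentiableAt).mul_const _).deriv
      rw [h3.iteratedDeriv_eq]
      exact ih (fun i x => fderiv ℂ (p i) x v)
        (fun i x hx => ((ContinuousLinearMap.apply ℂ ℂ v).analyticAt _).comp ((hp i).fderiv x hx))
        (polar_step hU hp hq h v)
  have hg : AnalyticOnNhd ℂ (fun x => ∑ i, p i x * conj (q i b)) U := fun x hx =>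
    Finset.analyticAt_fun_sum _ fun i _ => (hp i x hx).mul analyticAt_const
  obtain ⟨r, hr, hsub⟩ := Metric.isOpen_iff.1 hU b hb
  refine hg.eqOn_zero_of_preconnected_of_eventuallyEq_zero hc hb ?_ ha
  filter_upwards [ball_mem_nhds b hr] with x hx
  have hl : ∀ s : ℂ, AnalyticAt ℂ (fun s : ℂ => b + s • (x - b)) s := fun s => by fun_prop
  have hφ : AnalyticOnNhd ℂ (fun s : ℂ => ∑ i, p i (b + s • (x - b)) * conj (q i b))
      {s : ℂ | b + s • (x - b) ∈ ball b r} := fun s hs =>
    AnalyticAt.comp (g := fun x => ∑ i, p i x * conj (q i b)) (hg _ (hsub hs)) (hl s)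
  have h0 : (0 : ℂ) ∈ {s : ℂ | b + s • (x - b) ∈ ball b r} := by simpa using hr
  have hcv : Convex ℝ {s : ℂ | b + s • (x - b) ∈ ball b r} := by
    intro s hs t ht c d hc hd hcd
    simp only [Set.mem_ofPred_eq, mem_ball, dist_self_add_left, norm_smul] at hs ht ⊢
    have h1 : ‖c • s + d • t‖ ≤ c * ‖s‖ + d * ‖t‖ := by
      refine (norm_add_le _ _).trans ?_
      rw [norm_smul, norm_smul, Real.norm_of_nonneg hc, Real.norm_of_nonneg hd]
    have h2 := mul_le_mul_of_nonneg_right h1 (norm_nonneg (x - b))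
    have h3 : c * (‖s‖ * ‖x - b‖) + d * (‖t‖ * ‖x - b‖) < r := by
      have := (convex_Iio r) hs ht hc hd hcd
      simpa using this
    nlinarith
  have h1 : (1 : ℂ) ∈ {s : ℂ | b + s • (x - b) ∈ ball b r} := by simpa [dist_eq_norm] using hx
  have hz := hφ.eqOn_zero_of_preconnected_of_eventuallyEq_zero hcv.isPreconnected h0
    (analyticOrderAt_eq_top.1 (ENat.eq_top_iff_forall_ge.2 fun m =>
      (natCast_le_analyticOrderAt_iff_iteratedDeriv_eq_zero (hφ 0 h0)).2 fun k _ =>
        key _ k p hp h)) h1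
  simpa using hz

/-- Polarised form of a Hermitian symmetry between holomorphic rows and antiholomorphic columns. -/
theorem polar_dot {n : Type} [Fintype n] {U : Set V} (hU : IsOpen U) (hc : IsPreconnected U)
    {y y' K K' : V → n → ℂ} (hy : AnalyticOnNhd ℂ y U) (hy' : AnalyticOnNhd ℂ y' U)
    (hK : AnalyticOnNhd ℂ (fun a => star (K a)) U) (hK' : AnalyticOnNhd ℂ (fun a => star (K' a)) U)
    (h : ∀ a ∈ U, y a ⬝ᵥ K' a = conj (y' a ⬝ᵥ K a)) :
    ∀ a ∈ U, ∀ b ∈ U, y a ⬝ᵥ K' b = star (K a) ⬝ᵥ star (y' b) := by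
  have hco : ∀ f : V → n → ℂ, AnalyticOnNhd ℂ f U → ∀ i, AnalyticOnNhd ℂ (fun a => f a i) U :=
    fun f hf i a ha => analyticAt_pi_iff.1 (hf a ha) i
  have := polar (ι := n ⊕ n) hU hc
    (p := Sum.elim (fun i a => y a i) fun i a => -star (K a) i)
    (q := Sum.elim (fun i a => star (K' a) i) fun i a => y' a i)
    (by
      rintro (i | i)
      · exact hco _ hy i
      · exact (hco _ hK i).neg)
    (by
      rintro (i | i)
      · exact hco _ hK' i
      · exact hco _ hy' i)
    (fun a ha => by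
      have h1 := h a ha
      simp only [dotProduct, map_sum, map_mul] at h1
      simp [Fintype.sum_sum_type, h1, mul_comm])
  intro a ha b hb
  have h1 := this a ha b hb
  simp only [Fintype.sum_sum_type, Sum.elim_inl, Sum.elim_inr, Pi.star_apply, RCLike.star_def,
    Complex.conj_conj, neg_mul, Finset.sum_neg_distrib, add_neg_eq_zero] at h1
  simpa [dotProduct] using h1

/-- The constant Hermitian matrix. -/
theorem constH {n J : Type} [Fintype n] {U : Set V} (hU : IsOpen U) (hc : IsPreconnected U)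
    (y K : J → V → n → ℂ) (j0 : J) (hy : ∀ j, AnalyticOnNhd ℂ (y j) U)
    (hK : ∀ j, AnalyticOnNhd ℂ (fun a => star (K j a)) U)
    (h : ∀ k, ∀ a ∈ U, y j0 a ⬝ᵥ K k a = conj (y k a ⬝ᵥ K j0 a))
    (hsp : Submodule.span ℂ (y j0 '' U) = ⊤) :
    ∃ H : Matrix n n ℂ, H.IsHermitian ∧ ∀ j, ∀ a ∈ U, K j a = H *ᵥ star (y j a) := by
  classical
  have hP := fun k => polar_dot hU hc (hy j0) (hy k) (hK j0) (hK k) (h k)
  have hex : ∀ u : n → ℂ, ∃ w : n → ℂ, ∀ k, ∀ b ∈ U, u ⬝ᵥ K k b = w ⬝ᵥ star (y k b) := by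
    intro u
    have hu : u ∈ Submodule.span ℂ (y j0 '' U) := hsp ▸ Submodule.mem_top
    induction hu using Submodule.span_induction with
    | mem x hx =>
      obtain ⟨a, ha, rfl⟩ := hx
      exact ⟨_, fun k b hb => hP k a ha b hb⟩
    | zero => exact ⟨0, by simp⟩
    | add x z _ _ hx hz =>
      obtain ⟨w, hw⟩ := hx
      obtain ⟨w', hw'⟩ := hz
      exact ⟨w + w', fun k b hb => by rw [add_dotProduct, add_dotProduct, hw k b hb, hw' k b hb]⟩
    | smul c x _ hx =>
      obtain ⟨w, hw⟩ := hx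
      exact ⟨c • w, fun k b hb => by rw [smul_dotProduct, smul_dotProduct, hw k b hb]⟩
  choose w hw using hex
  have hH : ∀ j, ∀ a ∈ U, K j a = (Matrix.of fun i => w (Pi.single i 1)) *ᵥ star (y j a) := by
    intro j a ha
    funext i
    have := hw (Pi.single i 1) j a ha
    rwa [single_one_dotProduct] at this
  refine ⟨_, ?_, hH⟩
  generalize (Matrix.of fun i => w (Pi.single i 1)) = H at hH
  have hsym : ∀ u v : n → ℂ, u ⬝ᵥ (H - Hᴴ) *ᵥ star v = 0 := by
    intro u v
    have hu : u ∈ Submodule.span ℂ (y j0 '' U) := hsp ▸ Submodule.mem_top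
    have hv : v ∈ Submodule.span ℂ (y j0 '' U) := hsp ▸ Submodule.mem_top
    induction hu using Submodule.span_induction with
    | mem x hx =>
      obtain ⟨a, ha, rfl⟩ := hx
      induction hv using Submodule.span_induction with
      | mem z hz =>
        obtain ⟨b, hb, rfl⟩ := hz
        have h1 := hP j0 a ha b hb
        rw [hH j0 a ha, hH j0 b hb, star_mulVec, star_star, ← dotProduct_mulVec] at h1
        rw [sub_mulVec, dotProduct_sub, h1, sub_self]
      | zero => simp
      | add z z' _ _ h1 h2 => rw [star_add, mulVec_add, dotProduct_add, h1, h2, add_zero]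
      | smul c z _ h1 => rw [star_smul, mulVec_smul, dotProduct_smul, h1, smul_zero]
    | zero => simp
    | add z z' _ _ h1 h2 => rw [add_dotProduct, h1, h2, add_zero]
    | smul c z _ h1 => rw [smul_dotProduct, h1, smul_zero]
  ext i j
  have := hsym (Pi.single i 1) (Pi.single j 1)
  rw [single_one_dotProduct, Pi.star_single, star_one, mulVec_single_one] at this
  exact (sub_eq_zero.1 this).symm

end Polar

section Anti

variable {V : Type} [NormedAddCommGroup V] [NormedSpace ℂ V] [NormedSpace ℝ V]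
  [IsScalarTower ℝ ℂ V] [FiniteDimensional ℂ V]

/-- A real differentiable map whose derivative is complex linear is analytic. -/
theorem holo_analytic {F : Type} [NormedAddCommGroup F] [NormedSpace ℂ F] [NormedSpace ℝ F]
    [IsScalarTower ℝ ℂ F] [CompleteSpace F] {U : Set V} (hU : IsOpen U) {f : V → F}
    (hf : ∀ a ∈ U, ∃ L : V →L[ℝ] F, HasFDerivAt f L a ∧
      ∀ v, L (Complex.I • v) = Complex.I • L v) : AnalyticOnNhd ℂ f U := by
  refine MP_caab05_ag.GB.osg V F f U hU fun a ha => ?_
  obtain ⟨L, hL, hI⟩ := hf a ha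
  have hs : ∀ (c : ℂ) (v : V), L (c • v) = c • L v := fun c v => by
    have h1 : c • v = c.re • v + c.im • Complex.I • v := by
      conv_lhs => rw [← Complex.re_add_im c]
      rw [add_smul, mul_smul, ← Complex.coe_algebraMap, algebraMap_smul, algebraMap_smul]
    have h2 : c • L v = c.re • L v + c.im • Complex.I • L v := by
      conv_lhs => rw [← Complex.re_add_im c]
      rw [add_smul, mul_smul, ← Complex.coe_algebraMap, algebraMap_smul, algebraMap_smul]
    rw [h1, h2, map_add, map_smul, map_smul, hI]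
  let M : V →L[ℂ] F := ⟨⟨⟨L, L.map_add⟩, hs⟩, L.continuous⟩
  exact (hasFDerivAt_of_restrictScalars ℝ (f' := M) hL rfl).differentiableAt.differentiableWithinAt

/-- A real differentiable map whose derivative is antilinear has an analytic conjugate. -/
theorem anti_analytic {n : Type} [Fintype n] {U : Set V} (hU : IsOpen U) {f : V → n → ℂ}
    (hf : ∀ a ∈ U, ∃ L : V →L[ℝ] n → ℂ, HasFDerivAt f L a ∧
      ∀ v, L (Complex.I • v) = -Complex.I • L v) : AnalyticOnNhd ℂ (fun a => star (f a)) U := by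
  refine holo_analytic hU fun a ha => ?_
  obtain ⟨L, hL, hI⟩ := hf a ha
  refine ⟨_, hL.star, fun v => ?_⟩
  simp [hI]

end Anti

end Pool.Agent.Lib.MP_0c623d_al.BP
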