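import Pool.Agent.Lib.MP_0c623d_al.BP.Sk
import Pool.Agent.Lib.MP_0c623d_al.BP.Expo
import Pool.Agent.Lib.MP_0c623d_al.BP.Irr2
import Pool.Agent.Lib.MP_0c623d_al.BP.Polar
import Pool.Agent.Lib.MP_0c623d_al.F.Wall

set_option autoImplicit false

/-!
The wall matrices: braid relations, the full twist, local exponents, irreducibility.
-/

namespace Pool.Agent.Lib.MP_0c623d_al.BP

open Complex Matrix Filter Topology Set Function
open Pool.Agent.BP.F (V Mat Om sw P4 isOpen_Om slit_of_im an_comp sw_lt sw_cast sw_succ)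
open scoped Matrix.Norms.Operator

namespace Mono

theorem pp_mul : ∀ (σ τ : P4) (n : Fin 6), pp (σ * τ) n = pp σ (pp τ n) := by decide +kernel

theorem pp_one : ∀ n : Fin 6, pp 1 n = n := by decide +kernel

theorem sub_mul (A B : Mat) (g : Fin 6 → Fin 6) : A.submatrix g id * B = (A * B).submatrix g id :=
  rfl

variable {e : ℝ}

theorem an (f : FR e) : AnalyticOnNhd ℂ f.Y Om :=
  holo_analytic isOpen_Om fun a ha => by
    obtain ⟨L, -, hd⟩ := f.sol a ha
    exact ⟨L.restrictScalars ℝ, hd.restrictScalars ℝ, fun v => L.map_smul I v⟩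

/-- the solution continued along the positive lift of a permutation -/
noncomputable def Ys (f : FR e) (c : Cf) (u : P4) : Mat := (f.Y (c ∘ u)).submatrix (pp u⁻¹) id

theorem Ys_one (f : FR e) (c : Cf) : Ys f c 1 = f.Y c := by
  ext i j
  simp [Ys, pp_one]

theorem im_Om {c : Cf} (h : Injective fun i => (c i).im) : c ∈ Om :=
  fun _ _ hij => slit_of_im fun e => hij.ne (h e)

theorem Ys_cancel (f : FR e) {c : Cf} (hc : StrictMono fun i => (c i).im) (u : P4) {A B : Mat}
    (h : Ys f c u * A = Ys f c u * B) : A = B := by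
  have hu := f.unit (c ∘ u) (im_Om (hc.injective.comp u.injective))
  refine hu.mul_left_cancel ?_
  ext i j
  have := congrFun (congrFun h (pp u i)) j
  rwa [Ys, sub_mul, sub_mul, submatrix_apply, submatrix_apply, ← pp_mul, inv_mul_cancel, pp_one]
    at this

theorem step (f : FR e) {c : Cf} (hc : StrictMono fun i => (c i).im) (u : P4) (p : Fin 3)
    (h : u p.castSucc < u p.succ) : Ys f c u = Ys f c (u * sw p) * f.C p := by
  let S : Set Cf := {b | ∀ x y, u x < u y → (b x).im < (b y).im}
  have hS : ∀ b ∈ S, Injective fun i => (b i).im := fun b hb x y hxy => by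
    rcases lt_trichotomy (u x) (u y) with g | g | g
    · exact absurd hxy (hb x y g).ne
    · exact u.injective g
    · exact absurd hxy (hb y x g).ne'
  have cv : Convex ℝ S := fun a ha b hb s t hs ht hst x y g => by
    have h1 := ha x y g
    have h2 := hb x y g
    simp only [Pi.add_apply, Pi.smul_apply, add_im, smul_im, smul_eq_mul]
    rcases hs.eq_or_lt with rfl | hs
    · rw [zero_add] at hst
      subst hst
      linarith
    · nlinarith [mul_lt_mul_of_pos_left h1 hs, mul_le_mul_of_nonneg_left h2.le ht]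
  let b1 : Cf := fun x => ((x : ℕ) : ℂ) + ((u x : ℕ) : ℂ) * I
  have b1S : b1 ∈ S := fun x y g => by simpa [b1] using g
  have hev : ∀ᶠ x in 𝓝 b1, x ∈ WallSet p := by
    refine (ContinuousAt.eventually_lt (Continuous.continuousAt (by fun_prop))
      (Continuous.continuousAt (by fun_prop)) (b1S p.castSucc p.succ h)).and ?_
    simp only [eventually_all]
    intro i j hij _
    refine ContinuousAt.eventually_lt (Continuous.continuousAt (by fun_prop))
      (Continuous.continuousAt (by fun_prop)) ?_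
    simpa [b1] using hij
  let Lm : Mat →L[ℂ] Mat := LinearMap.toContinuousLinearMap
    { toFun := fun M => M.submatrix (pp (sw p)) id * f.C p
      map_add' := fun A B => by rw [← add_mul]; rfl
      map_smul' := fun t A => by rw [← smul_mul_assoc]; rfl }
  have key := AnalyticOnNhd.eqOn_of_preconnected_of_eventuallyEq (𝕜 := ℂ) (f := f.Y)
    (g := fun x => Lm (f.Y (x ∘ sw p))) (U := S) (fun b hb => an f b (im_Om (hS b hb)))
    (fun b hb => (Lm.analyticAt _).fun_comp
      ((an f _ (im_Om ((hS b hb).comp (sw p).injective))).fun_comp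
        (f := fun b : Cf => b ∘ sw p) (an_comp _ _)))
    cv.isPreconnected b1S (hev.mono fun x hx => f.wall p x hx)
  have k2 : f.Y (c ∘ u) = (f.Y ((c ∘ u) ∘ sw p)).submatrix (pp (sw p)) id * f.C p :=
    key fun x y g => hc g
  rw [Ys, k2, Ys, sub_mul, sub_mul, submatrix_submatrix]
  congr 1
  funext n
  rw [_root_.mul_inv_rev, Pool.Agent.BP.F.sw_inv, pp_mul]
  rfl

/-- four real points in symmetric position -/
def bs : Cf := ![-3, -1, 1, 3]

theorem bs_mono : StrictMono fun i => ((I • bs) i).im := by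
  refine Fin.strictMono_iff_lt_succ.2 fun i => ?_
  fin_cases i <;> simp [bs]

theorem braid01 (f : FR e) : f.C 0 * f.C 1 * f.C 0 = f.C 1 * f.C 0 * f.C 1 := by
  have h := bs_mono
  refine Ys_cancel f h (1 * sw 0 * sw 1 * sw 0) ?_
  simp only [← mul_assoc]
  rw [← step f h _ 0 (by decide), ← step f h _ 1 (by decide), ← step f h _ 0 (by decide),
    show 1 * sw 0 * sw 1 * sw 0 = 1 * sw 1 * sw 0 * sw 1 by decide,
    ← step f h _ 1 (by decide), ← step f h _ 0 (by decide), ← step f h _ 1 (by decide)]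

theorem braid12 (f : FR e) : f.C 1 * f.C 2 * f.C 1 = f.C 2 * f.C 1 * f.C 2 := by
  have h := bs_mono
  refine Ys_cancel f h (1 * sw 1 * sw 2 * sw 1) ?_
  simp only [← mul_assoc]
  rw [← step f h _ 1 (by decide), ← step f h _ 2 (by decide), ← step f h _ 1 (by decide),
    show 1 * sw 1 * sw 2 * sw 1 = 1 * sw 2 * sw 1 * sw 2 by decide,
    ← step f h _ 2 (by decide), ← step f h _ 1 (by decide), ← step f h _ 2 (by decide)]

theorem braid02 (f : FR e) : f.C 0 * f.C 2 = f.C 2 * f.C 0 := by
  have h := bs_mono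
  refine Ys_cancel f h (1 * sw 2 * sw 0) ?_
  simp only [← mul_assoc]
  rw [← step f h _ 0 (by decide), ← step f h _ 2 (by decide),
    show 1 * sw 2 * sw 0 = 1 * sw 0 * sw 2 by decide,
    ← step f h _ 2 (by decide), ← step f h _ 0 (by decide)]

theorem half (f : FR e) : f.Y (I • bs) = (f.Y (-I • bs)).submatrix (pp Fin.revPerm) id *
    (f.C 0 * f.C 1 * f.C 0 * f.C 2 * f.C 1 * f.C 0) := by
  have h := bs_mono
  have e1 : Ys f (I • bs) (1 * sw 0 * sw 1 * sw 2 * sw 0 * sw 1 * sw 0) =
      (f.Y (-I • bs)).submatrix (pp Fin.revPerm) id := by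
    rw [show 1 * sw 0 * sw 1 * sw 2 * sw 0 * sw 1 * sw 0 = Fin.revPerm by decide, Ys]
    congr 2
    funext i
    fin_cases i <;> simp [bs, Fin.rev]
  rw [← e1]
  simp only [← mul_assoc]
  rw [← step f h _ 0 (by decide), ← step f h _ 1 (by decide), ← step f h _ 0 (by decide),
    ← step f h _ 2 (by decide), ← step f h _ 1 (by decide), ← step f h _ 0 (by decide), Ys_one]

theorem sum_Res (e : ℝ) : ∑ n, Res e n = (8 * al e + be e) • (1 : Mat) := by
  ext r c
  fin_cases r <;> fin_cases c <;> simp [Res, ResA, Fin.sum_univ_six, Matrix.sum_apply] <;> ring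

theorem conn_self (e : ℝ) {a : Cf} (ha : Injective a) (t : ℂ) :
    conn e a (t • a) = (t * (8 * al e + be e)) • (1 : Mat) := by
  rw [mul_smul, ← sum_Res, Finset.smul_sum, conn]
  refine Finset.sum_congr rfl fun n _ => ?_
  have : a (fst n) - a (snd n) ≠ 0 := dif_ne ha n
  congr 1
  simp only [Pi.smul_apply, smul_eq_mul]
  field_simp

theorem rot (f : FR e) : f.Y (I • bs) = exp (Real.pi * I * (8 * al e + be e)) • f.Y (-I • bs) := by
  set d := 8 * al e + be e with hd
  let T : ℝ → ℂ := fun s => -I * exp (s * (Real.pi * I))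
  have Ts : ∀ s ∈ Icc (0 : ℝ) 1, T s • bs ∈ Om := fun s hs i j hij => by
    have e1 : (s : ℂ) * (Real.pi * I) = (s * Real.pi : ℝ) * I := by push_cast; ring
    have e2 : (T s).re = Real.sin (s * Real.pi) := by
      simp only [T, e1, mul_re, exp_ofReal_mul_I_re, exp_ofReal_mul_I_im]
      simp
    have n0 : T s ≠ 0 := mul_ne_zero (by simp) (exp_ne_zero _)
    have p0 : 0 ≤ (T s).re := by
      rw [e2]
      exact Real.sin_nonneg_of_nonneg_of_le_pi
        (mul_nonneg hs.1 Real.pi_pos.le) (by nlinarith [hs.2, Real.pi_pos])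
    obtain ⟨x, hx, ex⟩ : ∃ x : ℝ, 0 < x ∧ bs j - bs i = x := by
      refine ⟨(bs j - bs i).re, ?_, ?_⟩ <;> fin_cases i <;> fin_cases j <;> simp at hij <;>
        simp [bs] <;> norm_num
    rw [Pi.smul_apply, Pi.smul_apply, smul_eq_mul, smul_eq_mul, ← mul_sub, ex]
    by_contra hn
    rw [mem_slitPlane_iff, not_or, not_lt, not_not] at hn
    simp only [mul_re, mul_im, ofReal_re, ofReal_im, mul_zero, sub_zero, zero_add,
      mul_eq_zero, hx.ne', or_false] at hn
    exact n0 (Complex.ext (le_antisymm (nonpos_of_mul_nonpos_left hn.1 hx) p0) hn.2)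
  have d1 : ∀ s : ℝ, HasDerivAt (fun s : ℝ => (s : ℂ) * (Real.pi * I)) (Real.pi * I) s :=
    fun s => by simpa using (Complex.ofRealCLM.hasDerivAt (x := s)).mul_const (Real.pi * I : ℂ)
  have der : ∀ s ∈ Icc (0 : ℝ) 1,
      HasDerivAt (fun s : ℝ => exp (-(s * (Real.pi * I) * d)) • f.Y (T s • bs)) 0 s := fun s hs => by
    obtain ⟨L, hL, hY⟩ := f.sol _ (Ts s hs)
    have dT : HasDerivAt T (Real.pi * I * T s) s :=
      ((d1 s).cexp.const_mul (-I)).congr_deriv (by simp only [T]; ring)
    have inj : Injective (T s • bs) := fun i j hij => by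
      by_contra hn
      rcases lt_or_gt_of_ne hn with g | g
      · exact slitPlane_ne_zero (Ts s hs i j g) (sub_eq_zero.2 hij.symm)
      · exact slitPlane_ne_zero (Ts s hs j i g) (sub_eq_zero.2 hij)
    have a := (hY.restrictScalars ℝ).comp_hasDerivAt s (dT.smul_const bs)
    refine (((d1 s).mul_const d).neg.cexp.smul a).congr_deriv ?_
    change _ • L ((Real.pi * I * T s) • bs) + _ • f.Y (T s • bs) = 0
    rw [hL, mul_smul (Real.pi * I) (T s), conn_self e inj, ← hd, smul_mul_assoc, one_mul, smul_smul, ← add_smul]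
    simp
  have := constant_of_has_deriv_right_zero
    (f := fun s : ℝ => exp (-(s * (Real.pi * I) * d)) • f.Y (T s • bs)) (a := 0) (b := 1)
    (fun s hs => (der s hs).continuousAt.continuousWithinAt)
    (fun s hs => (der s (Ico_subset_Icc_self hs)).hasDerivWithinAt) 1 ⟨zero_le_one, le_rfl⟩
  simp only [T, ofReal_one, one_mul, exp_pi_mul_I, ofReal_zero, zero_mul, neg_zero, exp_zero,
    mul_one, one_smul, mul_neg, neg_neg] at this
  rw [← this, smul_smul, ← exp_add]
  simp

theorem tw4 {A : Type} [Monoid A] {a b c : A} (hab : a * b * a = b * a * b)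
    (hbc : b * c * b = c * b * c) (hac : a * c = c * a) :
    (a * b * c) ^ 4 = (a * b * a * c * b * a) * (a * b * a * c * b * a) := by
  have d1 : a * b * c * a = b * (a * b * c) := by
    rw [mul_assoc (a * b), ← hac, ← mul_assoc, hab]
    simp only [mul_assoc]
  have d2 : a * b * c * b = c * (a * b * c) := by
    rw [mul_assoc a, mul_assoc a, hbc, ← mul_assoc, ← mul_assoc, hac]
    simp only [mul_assoc]
  have e1 : a * b * a * c * b * a = a * b * c * (a * b * a) := by
    rw [mul_assoc (a * b) a, hac]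
    simp only [mul_assoc]
  have e2 : a * b * c * (a * b * a) = b * c * b * (a * b * c) := by
    rw [← mul_assoc, ← mul_assoc, d1, mul_assoc b, d2, mul_assoc b, mul_assoc c, d1]
    simp only [mul_assoc]
  have e3 : a * b * a * (b * c * b) = a * b * c * (a * b * c) := by
    rw [hbc, ← mul_assoc, ← mul_assoc, mul_assoc (a * b) a, hac]
    simp only [mul_assoc]
  rw [e1]
  nth_rewrite 2 [e2]
  rw [mul_assoc _ (a * b * a), ← mul_assoc (a * b * a), e3]
  simp only [pow_succ, pow_zero, one_mul, mul_assoc]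

theorem twist (f : FR e) :
    (f.C 0 * f.C 1 * f.C 2) ^ 4 = exp (Real.pi * I * (8 * al e + be e)) ^ 2 • (1 : Mat) := by
  rw [tw4 (braid01 f) (braid12 f) (braid02 f)]
  have h := half f
  rw [rot] at h
  generalize f.C 0 * f.C 1 * f.C 0 * f.C 2 * f.C 1 * f.C 0 = D at h ⊢
  generalize exp (Real.pi * I * (8 * al e + be e)) = c at h ⊢
  have hu : IsUnit (f.Y (-I • bs)) := f.unit _ (im_Om fun i j g => bs_mono.injective (by
    simpa using g))
  generalize f.Y (-I • bs) = Y at h hu
  have rr : ∀ n, pp Fin.revPerm (pp Fin.revPerm n) = n := by decide +kernel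
  have h2 : Y * D = c • Y.submatrix (pp Fin.revPerm) id := by
    ext i j
    have := congrFun (congrFun h (pp Fin.revPerm i)) j
    rw [sub_mul, submatrix_apply, rr] at this
    exact this.symm
  refine hu.mul_left_cancel ?_
  rw [← mul_assoc, h2, smul_mul_assoc, ← h, smul_smul, mul_smul_comm, mul_one, sq]

theorem eig (he : 0 < e) (he' : e < 1 / 12) (f : FR e) (μ : ℂ)
    (hμ : (μ • (1 : Mat) - f.C 0).det = 0) :
    μ ^ 12 = 1 ∨ μ ^ 12 = exp (2 * Real.pi * I * e) ^ 6 ∨ μ ^ 12 = exp (2 * Real.pi * I * e) ^ 12 := by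
  have pe : ∀ M : Mat, (1 : Mat).submatrix (pp (sw 0)) id * M = M.submatrix (pp (sw 0)) id :=
    fun M => by rw [sub_mul, one_mul]
  have p0 : ∀ i, pp (sw 0) (pp (sw 0) i) = i := by decide +kernel
  have p1 : ∀ i j, ResA 0 (pp (sw 0) i) j = ResA 0 i (pp (sw 0) j) ∧
      ((pp (sw 0) i = 0 ∧ j = 0) ↔ (i = 0 ∧ pp (sw 0) j = 0)) := by decide +kernel
  refine expo_pow e (expo he he' f.Y (fun a ha => ⟨f.unit a ha, f.sol a ha⟩)
    ((1 : Mat).submatrix (pp (sw 0)) id) (f.C 0) ?_ ?_ (fun r h1 _ => ?_) μ hμ)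
  · rw [pe]
    ext i j
    rw [submatrix_apply, submatrix_apply, p0]
    rfl
  · rw [pe]
    ext i j
    rw [Matrix.mul_apply, Finset.sum_eq_single (pp (sw 0) j)
      (fun l _ hl => by
        rw [submatrix_apply, one_apply_ne (fun g => hl (by rw [← p0 l, g]; rfl)), mul_zero])
      (by simp), submatrix_apply, submatrix_apply, p0]
    simp only [Res, of_apply, id_eq, (p1 i j).1, (p1 i j).2]
    exact ((congrArg _ (one_apply_eq j)).trans (mul_one _)).symm
  · rw [pe, f.wall 0 (bb (I * r))]
    · congr 3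
      funext i
      fin_cases i <;> simp [bb, sw, Equiv.swap_apply_def]
    · refine ⟨by simp [bb]; linarith, fun i j hij hn => ?_⟩
      fin_cases i <;> fin_cases j <;> simp at hij hn <;> simp [bb] <;> norm_num

end Mono

open Mono in
theorem mono : MonoSt := by
  intro k _ hk f
  have k0 : (61 : ℝ) ≤ k := by exact_mod_cast hk
  have he : 0 < ee k := by unfold ee; positivity
  have he' : ee k < 1 / 12 := by
    unfold ee
    exact one_div_lt_one_div_of_lt (by norm_num) (by linarith)
  have hζ : IsPrimitiveRoot (exp (2 * Real.pi * I * ee k)) (2 * k) := by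
    convert Complex.isPrimitiveRoot_exp (2 * k) (by omega) using 2
    simp only [ee]
    push_cast
    ring
  have hc : (exp (Real.pi * I * (8 * al (ee k) + be (ee k))) ^ 2) ^ 2 =
      exp (2 * Real.pi * I * ee k) ^ 10 := by
    rw [← pow_mul, ← exp_nat_mul, ← exp_nat_mul, exp_eq_exp_iff_exists_int]
    exact ⟨-7, by simp only [al, be]; push_cast; ring⟩
  refine ⟨fun S hS => ?_, fun S hS => ?_⟩
  · refine irr_vecMul (braid01 f) (braid12 f) (Or.inl (twist f)) hζ (by omega) hc
      (fun μ v h0 hv => eig he he' f μ (Matrix.exists_vecMul_eq_zero_iff.1 ⟨v, h0, ?_⟩)) S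
      (fun v hv => ?_) (fun v hv => ?_) (fun v hv => ?_)
    · rw [vecMul_sub, vecMul_smul, vecMul_one, hv, sub_self]
    all_goals
      rw [← mulVec_transpose]
      exact hS _ v hv
  · refine irr_mulVec (braid01 f) (braid12 f) (Or.inl (twist f)) hζ (by omega) hc
      (fun μ v h0 hv => eig he he' f μ (Matrix.exists_mulVec_eq_zero_iff.1 ⟨v, h0, ?_⟩)) S
      (hS 0) (hS 1) (hS 2)
    rw [sub_mulVec, smul_mulVec, one_mulVec, hv, sub_self]

end Pool.Agent.Lib.MP_0c623d_al.BP
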