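import Pool.Agent.Lib.MP_0c623d_al.BP.SgA
import Pool.Agent.Lib.MP_0c623d_al.E.Red
import Pool.Agent.Lib.MP_0c623d_al.BP.Sk2
import Pool.Agent.Lib.MP_0c623d_al.BP.Int
import Pool.Agent.Lib.MP_0c623d_al.BP.Low

set_option autoImplicit false

/-!
The two signs on the configuration space.
-/

namespace Pool.Agent.Lib.MP_0c623d_al.BP

open Complex Matrix Filter Topology Function
open scoped ComplexConjugate Matrix.Norms.Operator

variable {e : ℝ} {Hk Hi : Cf → M6}

lemma noTriple_of_Sl {a : Cf} (h : ∀ l, Sl l a ≠ 0) : Pool.Agent.BP.F.NoTriple a := by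
  have key : ∀ i j l : Fin 4, i ≠ j → j ≠ l → i ≠ l → ∃ m, ∀ n, (fst n = m ∨ snd n = m) ∨
      ((fst n = i ∨ fst n = j ∨ fst n = l) ∧ (snd n = i ∨ snd n = j ∨ snd n = l)) := by decide
  rintro i j l h1 h2 h3 ⟨e1, e2⟩
  obtain ⟨m, hm⟩ := key i j l h1 h2 h3
  refine h m (Finset.sum_eq_zero fun n _ => ?_)
  split_ifs with hn
  · rfl
  · obtain ⟨p | p | p, q | q | q⟩ := (hm n).resolve_left hn <;> simp [p, q, e1, e2]

/-- the growth of the norm of the period vector at the triple collisions -/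
def Grow (e : ℝ) (Hk : Cf → M6) : Prop := ∃ C δ : ℝ, 0 < δ ∧ ∀ (l : Fin 4) (a : Cf),
  Injective a → Sl l a ≤ δ * Sz a → ‖qf (Hk a) (cw a) (cw a)‖ ≤
    C * Sz a ^ (-3 / 2 + 5 * e) * (Sl l a / Sz a) ^ (-1 / 2 + 3 * e) * Real.log (Sz a / Sl l a)

/-- the product of the squared distances -/
noncomputable def Pr (a : Cf) : ℝ := ∏ n, ‖a (fst n) - a (snd n)‖ ^ 2

/-- the weight -/
noncomputable def wg (e : ℝ) (a : Cf) : ℝ := Pr a ^ (1 / 6 : ℝ) * Sz a ^ (1 / 2 - 5 * e)

/-- the weighted norm of the period vector -/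
noncomputable def ff (e : ℝ) (Hk : Cf → M6) (a : Cf) : ℝ :=
  (qf (Hk a) (cw a) (cw a)).re * wg e a

lemma Pr_nonneg (a : Cf) : 0 ≤ Pr a := Finset.prod_nonneg fun _ _ => sq_nonneg _
lemma Sz_nonneg' (a : Cf) : 0 ≤ Sz a := Finset.sum_nonneg fun _ _ => sq_nonneg _
lemma Sl_nonneg' (l : Fin 4) (a : Cf) : 0 ≤ Sl l a :=
  Finset.sum_nonneg fun _ _ => by split_ifs <;> positivity
lemma wg_nonneg (e : ℝ) (a : Cf) : 0 ≤ wg e a :=
  mul_nonneg (Real.rpow_nonneg (Pr_nonneg a) _) (Real.rpow_nonneg (Sz_nonneg' a) _)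
lemma cont_Pr : Continuous Pr := by unfold Pr; fun_prop
lemma cont_Sz : Continuous Sz := by unfold Sz; fun_prop
lemma cont_Sl (l : Fin 4) : Continuous (Sl l) := by
  unfold Sl
  refine continuous_finsetSum _ fun n _ => ?_
  split_ifs <;> fun_prop
lemma cont_wg (he : e ≤ 1 / 10) : Continuous (wg e) :=
  (cont_Pr.rpow_const fun _ => Or.inr (by norm_num)).mul
    (cont_Sz.rpow_const fun _ => Or.inr (by linarith))

lemma Pr_eq_zero {a : Cf} (ha : ¬ Injective a) : Pr a = 0 := by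
  by_contra h
  have h' : ∀ n, a (fst n) ≠ a (snd n) := fun n hn =>
    h (Finset.prod_eq_zero (Finset.mem_univ n) (by simp [hn]))
  have h0 := h' 0; have h1 := h' 1; have h2 := h' 2
  have h3 := h' 3; have h4 := h' 4; have h5 := h' 5
  refine ha fun i j hij => ?_
  fin_cases i <;> fin_cases j <;> simp_all [fst, snd]

lemma Sl_pos' {a : Cf} (ha : Injective a) (l : Fin 4) : 0 < Sl l a := by
  have h : ∀ n, 0 < ‖a (fst n) - a (snd n)‖ ^ 2 := fun n =>
    pow_pos (norm_pos_iff.2 (dif_ne ha n)) 2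
  have h0 := h 0; have h1 := h 1; have h2 := h 2; have h3 := h 3; have h4 := h 4; have h5 := h 5
  fin_cases l <;> simp [Sl, Fin.sum_univ_six, fst, snd] at * <;> positivity

lemma Pr_le (l : Fin 4) (a : Cf) : Pr a ≤ Sl l a ^ 3 * Sz a ^ 3 := by
  have key : ∀ p q r s t u : ℝ, 0 ≤ p → 0 ≤ q → 0 ≤ r → 0 ≤ s → 0 ≤ t → 0 ≤ u →
      p * q * r * (s * t * u) ≤ (p + q + r) ^ 3 * (p + q + r + s + t + u) ^ 3 := by
    intro p q r s t u hp hq hr hs ht hu
    rw [pow_three' (p + q + r), pow_three' (p + q + r + s + t + u)]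
    gcongr <;> linarith
  unfold Pr Sz Sl
  generalize hd : (fun n => ‖a (fst n) - a (snd n)‖ ^ 2) = d
  have hd' : ∀ n, ‖a (fst n) - a (snd n)‖ ^ 2 = d n := fun n => congrFun hd n
  have nn : ∀ n, 0 ≤ d n := fun n => hd' n ▸ sq_nonneg _
  simp only [hd', Fin.prod_univ_six, Fin.sum_univ_six]
  fin_cases l
  · have := key (d 3) (d 4) (d 5) (d 0) (d 1) (d 2) (nn _) (nn _) (nn _) (nn _) (nn _) (nn _)
    simp [fst, snd]; linarith
  · have := key (d 1) (d 2) (d 5) (d 0) (d 3) (d 4) (nn _) (nn _) (nn _) (nn _) (nn _) (nn _)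
    simp [fst, snd]; linarith
  · have := key (d 0) (d 2) (d 4) (d 1) (d 3) (d 5) (nn _) (nn _) (nn _) (nn _) (nn _) (nn _)
    simp [fst, snd]; linarith
  · have := key (d 0) (d 1) (d 3) (d 2) (d 4) (d 5) (nn _) (nn _) (nn _) (nn _) (nn _) (nn _)
    simp [fst, snd]; linarith

lemma psh_wg (he : e ≤ 1 / 10) {p : Cf} (hp : Injective p) (v : Cf) :
    Psh fun z => wg e (p + z • v) := by
  have an : ∀ n, AnalyticAt ℂ (fun z : ℂ => (p + z • v) (fst n) - (p + z • v) (snd n)) 0 := by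
    intro n; simp only [Pi.add_apply, Pi.smul_apply, smul_eq_mul]; fun_prop
  have n0 : ∀ n, (p + (0 : ℂ) • v) (fst n) - (p + (0 : ℂ) • v) (snd n) ≠ 0 := fun n => by
    simpa [dif_apply] using dif_ne hp n
  have h1 := Psh.sum_sq (ι := Unit)
    (fun _ z => ∏ n, ((p + z • v) (fst n) - (p + z • v) (snd n)))
    (fun _ => Finset.analyticAt_fun_prod _ fun n _ => an n)
    ⟨(), Finset.prod_ne_zero_iff.2 fun n _ => n0 n⟩
  have h2 := Psh.sum_sq (fun n z => (p + z • v) (fst n) - (p + z • v) (snd n)) an ⟨0, n0 0⟩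
  have := (h1.rpow (c := 1 / 6) (by norm_num)).mul (h2.rpow (c := 1 / 2 - 5 * e) (by linarith))
  simpa only [wg, Pr, Sz, Finset.univ_unique, Finset.sum_singleton, norm_prod,
    Finset.prod_pow] using this

lemma der_vecMul {x : ℂ → Fin 6 → ℂ} {Y : ℂ → M6} {x' : Fin 6 → ℂ} {Y' : M6} {z : ℂ}
    (hx : HasDerivAt x x' z) (hY : HasDerivAt Y Y' z) :
    HasDerivAt (fun z => x z ᵥ* Y z) (x' ᵥ* Y z + x z ᵥ* Y') z := by
  refine hasDerivAt_pi.2 fun n => ?_
  have h : ∀ i, HasDerivAt (fun z => Y z i n) (Y' i n) z := fun i =>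
    (LinearMap.toContinuousLinearMap (entryLinearMap ℂ ℂ i n)).hasFDerivAt.comp_hasDerivAt z hY
  have := HasDerivAt.fun_sum (u := Finset.univ) fun i _ => (hasDerivAt_pi.1 hx i).mul (h i)
  refine this.congr_deriv ?_
  simp only [Pi.add_apply, vecMul, dotProduct, Finset.sum_add_distrib]

lemma disc_at (g : Gr e Hk Hi) (he : e ≤ 1 / 10) {p : Cf} (hp : Injective p) (v : Cf) :
    ∃ W : ℂ → Fin 6 → ℂ, AnalyticAt ℂ W 0 ∧ W 0 = cw p ∧ deriv W 0 = (5 * al e + 1) • Bm p v ∧
      ∀ᶠ z in 𝓝 (0 : ℂ), Injective (p + z • v) ∧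
        ff e Hk (p + z • v) = (qf (Hk p) (W z) (W z)).re * wg e (p + z • v) := by
  obtain ⟨r, hr, Y, h1, hY⟩ := frame_at g hp
  have ev : ∀ᶠ z in 𝓝 (0 : ℂ), p + z • v ∈ Metric.ball p r :=
    ((show Continuous fun z : ℂ => p + z • v by fun_prop).tendsto' 0 p (by simp)).eventually
      (Metric.ball_mem_nhds p hr)
  have dl : ∀ z : ℂ, HasDerivAt (fun z : ℂ => p + z • v) v z := fun z => by
    simpa using ((hasDerivAt_id z).smul_const v).const_add p
  have dc : ∀ z : ℂ, HasDerivAt (fun z : ℂ => cw (p + z • v)) ((2 : ℂ) • Bm (p + z • v) v) z := by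
    intro z
    refine hasDerivAt_pi.2 fun n => ?_
    have := ((hasDerivAt_pi.1 (dl z) (fst n)).sub (hasDerivAt_pi.1 (dl z) (snd n))).pow 2
    refine this.congr_deriv ?_
    simp [Bm]; ring
  have dW : ∀ z : ℂ, p + z • v ∈ Metric.ball p r →
      HasDerivAt (fun z : ℂ => cw (p + z • v) ᵥ* Y (p + z • v))
        (((5 * al e + 1) • Bm (p + z • v) v) ᵥ* Y (p + z • v)) z := by
    intro z hz
    obtain ⟨hi, -, -, L, hL, dY⟩ := hY _ hz
    refine (der_vecMul (dc z) (dY.comp_hasDerivAt z (dl z))).congr_deriv ?_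
    change ((2 : ℂ) • Bm (p + z • v) v) ᵥ* Y (p + z • v) + cw (p + z • v) ᵥ* L v = _
    rw [hL, ← vecMul_vecMul, ← add_vecMul, cw_conn e hi]
  refine ⟨fun z => cw (p + z • v) ᵥ* Y (p + z • v), ?_, by simp [h1], ?_, ?_⟩
  · exact analyticAt_iff_eventually_differentiableAt.2
      (ev.mono fun z hz => (dW z hz).differentiableAt)
  · rw [(dW 0 ev.self_of_nhds).deriv]; simp [h1]
  · filter_upwards [ev] with z hz
    obtain ⟨hi, -, e1, -⟩ := hY _ hz
    exact ⟨hi, by rw [ff, e1, qf_frame]⟩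

lemma ff_scale (g : Gr e Hk Hi) (hS : ScaleSt) {a : Cf} (ha : Injective a) {c : ℝ} (hc : 0 < c)
    (d : ℂ) : ff e Hk (fun i => c * a i + d) = ff e Hk a := by
  have df : ∀ n, (c * a (fst n) + d) - (c * a (snd n) + d) = c * (a (fst n) - a (snd n)) :=
    fun n => by ring
  have e1 : cw (fun i => c * a i + d) = ((c : ℂ) ^ 2) • cw a := by
    ext n; simp only [cw, df, Pi.smul_apply, smul_eq_mul]; ring
  have e2 : Pr (fun i => c * a i + d) = c ^ 12 * Pr a := by
    simp only [Pr, df, norm_mul, mul_pow, Finset.prod_mul_distrib, Complex.norm_real,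
      Real.norm_of_nonneg hc.le, Finset.prod_const]
    simp [← pow_mul]
  have e3 : Sz (fun i => c * a i + d) = c ^ 2 * Sz a := by
    simp only [Sz, df, norm_mul, mul_pow, Complex.norm_real, Real.norm_of_nonneg hc.le,
      Finset.mul_sum]
  have e4 : ∀ (t : ℝ) (X : M6) (x : Fin 6 → ℂ), (qf ((t : ℂ) • X) x x).re = t * (qf X x x).re := by
    intro t X x; simp [qf, smul_mulVec]
  have e5 : c ^ (-7 + 10 * e) * (c ^ 2) ^ 2 * ((c ^ 12) ^ (1 / 6 : ℝ) * (c ^ 2) ^ (1 / 2 - 5 * e))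
      = 1 := by
    simp only [← Real.rpow_natCast, ← Real.rpow_mul hc.le, ← Real.rpow_add hc]
    refine (congrArg (c ^ ·) ?_).trans (Real.rpow_zero c)
    push_cast; ring
  rw [ff, ff, wg, wg, hS e Hk Hi g a c d ha (by simpa using hc.ne'), e4, e1,
    (herm_qf (g.herm a ha)).re_smul, e2, e3, Real.mul_rpow (by positivity) (Pr_nonneg a),
    Real.mul_rpow (by positivity) (Sz_nonneg' a), norm_pow, Complex.norm_real,
    Real.norm_of_nonneg hc.le]
  linear_combination ((qf (Hk a) (cw a) (cw a)).re * Pr a ^ (1 / 6 : ℝ) *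
    Sz a ^ (1 / 2 - 5 * e)) * e5

lemma ff_triple (he0 : 0 < e) {C δ : ℝ} (h : ∀ (l : Fin 4) (a : Cf),
    Injective a → Sl l a ≤ δ * Sz a → ‖qf (Hk a) (cw a) (cw a)‖ ≤
      C * Sz a ^ (-3 / 2 + 5 * e) * (Sl l a / Sz a) ^ (-1 / 2 + 3 * e) * Real.log (Sz a / Sl l a))
    (l : Fin 4) {a : Cf} (ha : Injective a) (h1 : Sz a = 1) (hl : Sl l a ≤ δ) :
    |ff e Hk a| ≤ |C| / e * Sl l a ^ (2 * e) := by
  have x0 := Sl_pos' ha l
  have b1 := h l a ha (by rwa [h1, mul_one])
  have b2 := Pr_le l a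
  simp only [h1, Real.one_rpow, mul_one, div_one, one_pow] at b1 b2
  set x := Sl l a
  have b3 : Pr a ^ (1 / 6 : ℝ) ≤ x ^ (1 / 2 : ℝ) := by
    refine (Real.rpow_le_rpow (Pr_nonneg a) b2 (by norm_num)).trans (le_of_eq ?_)
    rw [← Real.rpow_natCast, ← Real.rpow_mul x0.le]; norm_num
  have b4 : |Real.log (1 / x)| ≤ x ^ (-e) / e ∨ 1 ≤ x := by
    by_cases hx : 1 ≤ x
    · exact Or.inr hx
    · left
      rw [abs_of_nonneg (Real.log_nonneg (by rw [le_div_iff₀ x0]; linarith))]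
      have := Real.log_le_rpow_div (x := 1 / x) (by positivity) he0
      rwa [one_div x, Real.inv_rpow x0.le, ← Real.rpow_neg x0.le, ← one_div x] at this
  have b5 : |ff e Hk a| ≤ ‖qf (Hk a) (cw a) (cw a)‖ * x ^ (1 / 2 : ℝ) := by
    rw [ff, wg, h1, Real.one_rpow, mul_one, abs_mul,
      abs_of_nonneg (Real.rpow_nonneg (Pr_nonneg a) _)]
    exact mul_le_mul (Complex.abs_re_le_norm _) b3 (Real.rpow_nonneg (Pr_nonneg a) _)
      (norm_nonneg _)
  have x1 : x ≤ 1 := by
    rw [← h1]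
    exact Finset.sum_le_sum fun n _ => by split_ifs <;> first | positivity | exact le_rfl
  have b6 : |Real.log (1 / x)| ≤ x ^ (-e) / e := by
    rcases b4 with b | b
    · exact b
    · rw [le_antisymm x1 b]; simp; positivity
  have b7 : C * x ^ (-1 / 2 + 3 * e) * Real.log (1 / x) ≤
      |C| * x ^ (-1 / 2 + 3 * e) * (x ^ (-e) / e) := by
    refine (le_abs_self _).trans ?_
    rw [abs_mul, abs_mul, abs_of_nonneg (Real.rpow_nonneg x0.le _)]
    gcongr
  refine b5.trans ((mul_le_mul_of_nonneg_right (b1.trans b7) (by positivity)).trans (le_of_eq ?_))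
  have : x ^ (-1 / 2 + 3 * e) * x ^ (-e) * x ^ (1 / 2 : ℝ) = x ^ (2 * e) := by
    rw [← Real.rpow_add x0, ← Real.rpow_add x0]; congr 1; ring
  rw [← this]; ring

lemma ff_min (g : Gr e Hk Hi) (he0 : 0 < e) (he : e ≤ 1 / 10) (hS : ScaleSt) (hB : Bdd Hk)
    (hGr : Grow e Hk) (h : ∃ p ∈ {a : Cf | Injective a}, ff e Hk p < 0) :
    ∃ p ∈ {a : Cf | Injective a}, ∀ q ∈ {a : Cf | Injective a}, ff e Hk p ≤ ff e Hk q := by
  classical
  obtain ⟨C, δ, hδ, hC⟩ := hGr
  set N : Set Cf := {a | a 0 = 0 ∧ Sz a = 1}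
  have cN : IsCompact N := by
    refine Metric.isCompact_of_isClosed_isBounded
      ((isClosed_eq (continuous_apply 0) continuous_const).inter
        (isClosed_eq cont_Sz continuous_const))
      ((Metric.isBounded_iff_subset_closedBall 0).2 ⟨1, fun a ha => ?_⟩)
    rw [mem_closedBall_zero_iff, pi_norm_le_iff_of_nonneg zero_le_one]
    have h1 := ha.2
    have h0 : a 0 = 0 := ha.1
    simp [Sz, Fin.sum_univ_six, fst, snd, h0] at h1
    intro i
    refine (sq_le_one_iff₀ (norm_nonneg _)).1 ?_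
    fin_cases i <;> simp [h0] <;> nlinarith [sq_nonneg ‖a 1‖, sq_nonneg ‖a 2‖, sq_nonneg ‖a 3‖,
      sq_nonneg ‖a 1 - a 2‖, sq_nonneg ‖a 1 - a 3‖, sq_nonneg ‖a 2 - a 3‖]
  have nrm : ∀ a : Cf, Injective a → ∃ b ∈ N, Injective b ∧ ff e Hk b = ff e Hk a := by
    intro a ha
    have s0 : 0 < Sz a := (Sl_pos' ha 0).trans_le
      (Finset.sum_le_sum fun n _ => by split_ifs <;> first | positivity | exact le_rfl)
    have c0 : 0 < (√(Sz a))⁻¹ := inv_pos.2 (Real.sqrt_pos.2 s0)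
    refine ⟨fun i => ((√(Sz a))⁻¹ : ℝ) * a i + -(((√(Sz a))⁻¹ : ℝ) * a 0), ⟨by simp, ?_⟩, ?_,
      ff_scale g hS ha c0 _⟩
    · have : ∀ (c : ℝ) (d : ℂ), 0 < c → Sz (fun i => c * a i + d) = c ^ 2 * Sz a := by
        intro c d hc
        simp only [Sz, add_sub_add_right_eq_sub, ← mul_sub, norm_mul, mul_pow, Complex.norm_real,
          Real.norm_of_nonneg hc.le, Finset.mul_sum]
      rw [this _ _ c0, inv_pow, Real.sq_sqrt s0.le, inv_mul_cancel₀ s0.ne']
    · intro i j hij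
      exact ha (mul_left_cancel₀ (by exact_mod_cast c0.ne') (add_right_cancel hij))
  set F : Cf → ℝ := fun a => if Injective a then ff e Hk a else 0 with hF
  have cF : ContinuousOn F N := by
    intro a ha
    by_cases hi : Injective a
    · refine ContinuousAt.continuousWithinAt ?_
      obtain ⟨D, dH, -⟩ := g.der a hi
      have c1 : ContinuousAt Hk a := dH.continuousAt
      have c2 : Continuous cw := by unfold cw; fun_prop
      have c3 : ContinuousAt (fun a => qf (Hk a) (cw a) (cw a)) a := by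
        simp only [qf, dotProduct, mulVec, Pi.star_apply]
        refine tendsto_finsetSum _ fun i _ => ((continuous_apply i).comp c2).continuousAt.mul
          (tendsto_finsetSum _ fun j _ => ContinuousAt.mul ?_
            ((continuous_apply j).comp c2).continuousAt.star)
        exact (continuous_apply_apply i j).continuousAt.comp c1
      refine ContinuousAt.congr ((Complex.continuous_re.continuousAt.comp c3).mul
        (cont_wg he).continuousAt) ?_
      filter_upwards [isOpen_inj.mem_nhds hi] with b hb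
      exact (if_pos hb).symm
    · have F0 : F a = 0 := if_neg hi
      rw [ContinuousWithinAt, F0]
      by_cases ht : ∀ l, Sl l a ≠ 0
      · obtain ⟨K, hK⟩ := hB a (noTriple_of_Sl ht)
        have t : Tendsto (fun b => |K| * wg e b) (𝓝[N] a) (𝓝 0) := by
          have := ((cont_wg he).tendsto a).const_mul |K|
          rw [wg, Pr_eq_zero hi, Real.zero_rpow (by norm_num), zero_mul, mul_zero] at this
          exact this.mono_left nhdsWithin_le_nhds
        refine squeeze_zero_norm' ?_ t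
        filter_upwards [nhdsWithin_le_nhds hK] with b hb
        by_cases hbi : Injective b
        · rw [hF]; simp only [if_pos hbi, ff, norm_mul, Real.norm_of_nonneg (wg_nonneg e b)]
          exact mul_le_mul_of_nonneg_right
            (((Complex.abs_re_le_norm _).trans (hb hbi)).trans (le_abs_self _)) (wg_nonneg e b)
        · rw [hF]; simp only [if_neg hbi, norm_zero]
          exact mul_nonneg (abs_nonneg _) (wg_nonneg e b)
      · push Not at ht
        obtain ⟨l, hl⟩ := ht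
        have t : Tendsto (fun b => |C| / e * Sl l b ^ (2 * e)) (𝓝[N] a) (𝓝 0) := by
          have := (((cont_Sl l).rpow_const (p := 2 * e) fun _ => Or.inr (by linarith)).tendsto
            a).const_mul (|C| / e)
          rw [hl, Real.zero_rpow (by linarith), mul_zero] at this
          exact this.mono_left nhdsWithin_le_nhds
        refine squeeze_zero_norm' ?_ t
        filter_upwards [self_mem_nhdsWithin, nhdsWithin_le_nhds
          ((cont_Sl l).continuousAt.eventually_lt continuousAt_const (hl ▸ hδ))] with b hb h2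
        by_cases hbi : Injective b
        · rw [hF]; simp only [if_pos hbi]
          exact ff_triple he0 hC l hbi hb.2 h2.le
        · rw [hF]; simp only [if_neg hbi, norm_zero]
          exact mul_nonneg (by positivity) (Real.rpow_nonneg (Sl_nonneg' l b) _)
  obtain ⟨p0, hp0, neg⟩ := h
  obtain ⟨b0, bN, bi, be0⟩ := nrm p0 hp0
  obtain ⟨p, pN, hp⟩ := cN.exists_isMinOn ⟨b0, bN⟩ cF
  have le : ∀ b ∈ N, Injective b → F p ≤ ff e Hk b := fun b hb hi =>
    (hp hb).trans_eq (if_pos hi)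
  have pi : Injective p := by
    by_contra hn
    have h1 := le b0 bN bi
    have h2 : F p = 0 := if_neg hn
    linarith
  refine ⟨p, pi, fun q hq => ?_⟩
  obtain ⟨b, h1, h2, h3⟩ := nrm q hq
  rw [← h3]
  exact (if_pos pi).symm.trans_le (le b h1 h2)

/-- The signs, strict form. -/
theorem sg_strict (g : Gr e Hk Hi) (he0 : 0 < e) (he : e < 1 / 12) (hS : ScaleSt)
    (hG : ∀ a, Injective a → ∀ l, l ≠ 0 → 0 < G e a l) (hN : ∃ a, Injective a ∧ NegPl (Hk a))
    (hB : Bdd Hk) (hGr : Grow e Hk) {p : Cf} (hp : Injective p) :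
    0 < (qf (Hk p) (cw p) (cw p)).re ∧ ∀ t ∈ LinearMap.range (BmL p), qf (Hk p) t (cw p) = 0 →
      t ≠ 0 → (qf (Hk p) t t).re < 0 := by
  obtain ⟨a, ha, hn⟩ := hN
  have hD : 5 * al e + 1 ≠ 0 := fun h => by
    have := congrArg Complex.re h
    simp [al] at this
    norm_num at this
    linarith
  refine signs {a : Cf | Injective a} (fun a => qf (Hk a)) (ff e Hk)
    (ff_min g he0 (by linarith) hS hB hGr) (fun a => LinearMap.range (BmL a))
    (fun a => LinearMap.range (UL (Hi a) a)) cw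
    (fun q hq => pt_at g hq (hG q hq) (negPl_all g ha hn hq))
    (fun q _ => ⟨q, funext fun n => (sq _).symm⟩)
    (fun q hq h => pow_ne_zero 2 (dif_ne hq 0) (congrFun h 0)) ?_ p hp
  rintro q hq _ ⟨v, rfl⟩
  obtain ⟨W, h1, h2, h3, h4⟩ := disc_at g (by linarith) hq ((5 * al e + 1)⁻¹ • v)
  refine ⟨fun z => q + z • (5 * al e + 1)⁻¹ • v, W, _, 0, by simp, h1, h2, ?_,
    psh_wg (e := e) (by linarith) hq _, h4⟩
  rw [h3, zero_smul, add_zero]
  change (5 * al e + 1) • BmL q _ = _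
  rw [map_smul, smul_smul, mul_inv_cancel₀ hD, one_smul]

/-- The signs. -/
theorem sg (g : Gr e Hk Hi) (he0 : 0 < e) (he : e < 1 / 12) (hS : ScaleSt)
    (hG : ∀ a, Injective a → ∀ l, l ≠ 0 → 0 < G e a l) (hN : ∃ a, Injective a ∧ NegPl (Hk a))
    (hB : Bdd Hk) (hGr : Grow e Hk) : Sg Hk :=
  ⟨fun _ ha => (sg_strict g he0 he hS hG hN hB hGr ha).1, fun a ha v =>
    rev_cs (herm_qf (g.herm a ha)) (F := LinearMap.range (BmL a)) ⟨a, funext fun _ => (sq _).symm⟩
      (sg_strict g he0 he hS hG hN hB hGr ha).1 (sg_strict g he0 he hS hG hN hB hGr ha).2 ⟨v, rfl⟩⟩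

/-- The signs from the statements of the cusp block. -/
theorem sg_of (hS : ScaleSt) (hN : NegSt) (hGr : GrowSt) {j : ℕ} (hj : 3 ≤ j)
    (he : e = 1 / (4 * j + 2)) (g : Gr e Hk Hi)
    (hG : ∀ a, Injective a → ∀ l, l ≠ 0 → 0 < G e a l) (hB : Bdd Hk) : Sg Hk := by
  have hj' : (3 : ℝ) ≤ j := by exact_mod_cast hj
  refine sg g (by rw [he]; positivity) ?_ hS hG (hN j e hj he Hk Hi g) hB (hGr j e hj he Hk Hi g)
  rw [he]
  exact one_div_lt_one_div_of_lt (by norm_num) (by linarith)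

/-- The block of the signs. -/
theorem sgSt (hN : NegSt) (hGr : GrowSt) : SgSt := by
  intro j e hj he Hk Hi g hB
  have hj' : (3 : ℝ) ≤ j := by exact_mod_cast hj
  refine sg_of scaleSt hN hGr hj he g (fun a ha l hl => G_pos intSt (by rw [he]; positivity) ?_ ha hl)
    hB
  rw [he]
  exact one_div_lt_one_div_of_lt (by norm_num) (by linarith)

end Pool.Agent.Lib.MP_0c623d_al.BP
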