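import Pool.Agent.Lib.MP_0c623d_al.BP.Asm
import Pool.Agent.Lib.MP_0c623d_al.BP.WSk
import Pool.Agent.Lib.MP_0c623d_al.BP.Mono
import Pool.Agent.Lib.MP_0c623d_al.BP.Sg
import Pool.Agent.Lib.MP_0c623d_al.BP.Bdd
import Pool.Agent.Lib.MP_0c623d_al.E.Glob
import Pool.Agent.Lib.MP_0c623d_al.F.Fin
import Pool.Agent.Lib.MP_0c623d_al.F.Main1
import Pool.Agent.Lib.MP_0c623d_al.F.Graph

set_option autoImplicit false

/-!
The analytic interface from the remaining statements.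
-/

namespace Pool.Agent.Lib.MP_0c623d_al.BP

open Pool.Agent.BP.F (AN)

theorem an_of (hH : HermSt) (hC : ChartSt) (hN : NegSt) (hGr : GrowSt) (hCu : CuspSt) (k : ℕ)
    (hk : Odd k) (h : 61 ≤ k) : Nonempty (AN k) := by
  obtain ⟨j, rfl⟩ := hk
  exact asm (by omega) frSt wSt mono hH (fun _ h0 h1 _ ha _ hl => G_pos intSt h0 h1 ha hl) gramSt
    hC bddSt (sgSt hN hGr) hN hCu

theorem mainStmt : Pool.Agent.BP.F.MainStmt :=
  Pool.Agent.BP.F.main_of_graph Pool.Agent.BP.F.graph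

end Pool.Agent.Lib.MP_0c623d_al.BP
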