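import Pool.Agent.Lib.MP_0c623d_al.F.Main
import Pool.Agent.Lib.MP_0c623d_al.BP.Asm
import Pool.Agent.Lib.MP_0c623d_al.BP.WSk
import Pool.Agent.Lib.MP_0c623d_al.BP.Mono
import Pool.Agent.Lib.MP_0c623d_al.BP.Bdd
import Pool.Agent.Lib.MP_0c623d_al.BP.Sg
import Pool.Agent.Lib.MP_0c623d_al.BP.Herm
import Pool.Agent.Lib.MP_0c623d_al.E.Glob
import Pool.Agent.Lib.MP_0c623d_al.B.Trans

set_option autoImplicit false

/-! The analytic data from the remaining statements. -/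

namespace Pool.Agent.Lib.MP_0c623d_al.BP

theorem an_of (hX : B.XSt) (hN : NegSt) (hG : GrowSt) (hC : CuspSt)
    (k : ℕ) (hk : Odd k) (h : 61 ≤ k) : Nonempty (Pool.Agent.BP.F.AN k) := by
  obtain ⟨j, rfl⟩ := hk
  exact asm (by omega) frSt wSt mono hermSt posSt gramSt (B.chart_of wSt hX) bddSt (sgSt hN hG) hN hC

end Pool.Agent.Lib.MP_0c623d_al.BP
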