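import Pool.Agent.Lib.MP_0c623d_al.BP.Pf
import Pool.Agent.Lib.MP_0c623d_al.BP.Polar
import Pool.Agent.Lib.MP_0c623d_al.BP.Cov

set_option autoImplicit false

/-!
The two columns of integrals are given by one constant Hermitian matrix.
-/

namespace Pool.Agent.Lib.MP_0c623d_al.BP

open Complex MeasureTheory Matrix
open scoped ComplexConjugate

namespace Hm0

open scoped Matrix.Norms.Operator in
/-- the inverse transpose of a solution solves the dual system -/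
lemma dual_sol {Y : Cf → Matrix (Fin 6) (Fin 6) ℂ} {a : Cf} (hu : IsUnit (Y a))
    {A : Cf → Matrix (Fin 6) (Fin 6) ℂ} {L : Cf →L[ℂ] Matrix (Fin 6) (Fin 6) ℂ}
    (hL : ∀ v, L v = A v * Y a) (hY : HasFDerivAt Y L a) :
    ∃ L1 : Cf →L[ℂ] Matrix (Fin 6) (Fin 6) ℂ, (∀ v, L1 v = -(A v)ᵀ * (Y a)⁻¹ᵀ) ∧
      HasFDerivAt (fun b => (Y b)⁻¹ᵀ) L1 a := by
  obtain ⟨y, hy⟩ := hu
  have h := hasFDerivAt_ringInverse (𝕜 := ℂ) y
  rw [hy] at h
  let T : Matrix (Fin 6) (Fin 6) ℂ →L[ℂ] Matrix (Fin 6) (Fin 6) ℂ :=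
    LinearMap.toContinuousLinearMap (transposeLinearEquiv (Fin 6) (Fin 6) ℂ ℂ).toLinearMap
  refine ⟨_, fun v => ?_, (T.hasFDerivAt.comp a (h.comp a hY)).congr_of_eventuallyEq
    (Filter.Eventually.of_forall fun b => ?_)⟩
  · show (-(y⁻¹.val * L v * y⁻¹.val))ᵀ = _
    simp [hL, ← hy, mul_assoc]
  · simp [T, nonsing_inv_eq_ringInverse]

lemma mv_der {Y : Cf → Matrix (Fin 6) (Fin 6) ℂ} {J : Cf → Fin 6 → ℂ} {a : Cf}
    {L : Cf →L[ℂ] Matrix (Fin 6) (Fin 6) ℂ} {D : Cf →L[ℝ] Fin 6 → ℂ} (hY : HasFDerivAt Y L a)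
    (hJ : HasFDerivAt J D a) :
    ∃ N : Cf →L[ℝ] Fin 6 → ℂ, HasFDerivAt (fun b => (Y b)ᵀ *ᵥ J b) N a ∧
      ∀ v, N v = (L v)ᵀ *ᵥ J a + (Y a)ᵀ *ᵥ D v := by
  have h1 := hasFDerivAt_pi'.mp (show HasFDerivAt (F := Fin 6 → Fin 6 → ℂ) Y L a from hY)
  have h2 := fun n c => (hasFDerivAt_pi'.mp (h1 n) c).restrictScalars ℝ
  have h3 := hasFDerivAt_pi'.mp hJ
  refine ⟨_, hasFDerivAt_pi.mpr fun c => HasFDerivAt.fun_sum (u := Finset.univ) fun n _ =>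
    (h2 n c).mul (h3 n), fun v => ?_⟩
  funext c
  simp [mulVec, dotProduct, Finset.sum_add_distrib, mul_comm]
  exact add_comm _ _

lemma den_ne {a : Cf} (ha : Function.Injective a) (n : Fin 6) :
    cw a n * Pc a n (a (fst n)) * Pc a n (a (snd n)) ≠ 0 := by
  have h : ∀ i k : Fin 4, i ≠ k → a i - a k ≠ 0 := fun i k h => sub_ne_zero.mpr fun g => h (ha g)
  simp only [cw, Pc]
  refine mul_ne_zero (mul_ne_zero (pow_ne_zero _ (h _ _ ?_)) (mul_ne_zero (h _ _ ?_) (h _ _ ?_)))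
    (mul_ne_zero (h _ _ ?_) (h _ _ ?_)) <;> revert n <;> decide

lemma y_diff {Y : Cf → Matrix (Fin 6) (Fin 6) ℂ} {l : Cf → Fin 3 → ℂ} {a : Cf}
    (ha : Function.Injective a) {L : Cf →L[ℂ] Matrix (Fin 6) (Fin 6) ℂ} (hY : HasFDerivAt Y L a)
    (hl : DifferentiableAt ℂ l a) : DifferentiableAt ℂ (fun b => Srow b (l b) ᵥ* Y b) a := by
  have h1 := hasFDerivAt_pi'.mp (show HasFDerivAt (F := Fin 6 → Fin 6 → ℂ) Y L a from hY)
  have h2 := fun n c => (hasFDerivAt_pi'.mp (h1 n) c).differentiableAt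
  have h3 := differentiableAt_pi.mp hl
  refine differentiableAt_pi.mpr fun c => DifferentiableAt.fun_sum (u := Finset.univ)
    (A := fun n b => Srow b (l b) n * Y b n c) fun n _ => .mul ?_ (h2 n c)
  simp only [Srow, div_eq_mul_inv]
  refine .mul ?_ (.inv ?_ (den_ne ha n))
  · simp only [ell]
    fun_prop
  · simp only [cw, Pc]
    fun_prop

end Hm0

open Hm0 in
/-- both columns come from one constant Hermitian matrix -/
theorem two_cols (hI : IntSt) (hD : DerSt) {e : ℝ} (e0 : 0 < e) (e1 : e < 1 / 12) {U : Set Cf}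
    (hU : IsOpen U) (hc : IsPreconnected U) (hi : ∀ a ∈ U, Function.Injective a)
    {Y : Cf → Matrix (Fin 6) (Fin 6) ℂ} (hu : ∀ a ∈ U, IsUnit (Y a))
    (hY : ∀ a ∈ U, ∃ L : Cf →L[ℂ] Matrix (Fin 6) (Fin 6) ℂ, (∀ v, L v = conn e a v * Y a) ∧
      HasFDerivAt Y L a)
    (s0 : ∀ a ∈ U, Srow a ![1, 0, 0] ⬝ᵥ Jc e 0 a = conj (Srow a ![1, 0, 0] ⬝ᵥ Jc e 0 a))
    (s1 : ∀ a ∈ U, Srow a ![1, 0, 0] ⬝ᵥ Jc e 1 a = conj (Srow a ![-a 0, 1 / 2, 0] ⬝ᵥ Jc e 0 a))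
    (hsp : Submodule.span ℂ ((fun a => Srow a ![1, 0, 0] ᵥ* (Y a)⁻¹ᵀ) '' U) = ⊤) :
    ∃ H : Matrix (Fin 6) (Fin 6) ℂ, H.IsHermitian ∧
      (∀ a ∈ U, Jc e 0 a = (Y a)⁻¹ᵀ *ᵥ (H *ᵥ star (Srow a ![1, 0, 0] ᵥ* (Y a)⁻¹ᵀ))) ∧
      ∀ a ∈ U, Jc e 1 a = (Y a)⁻¹ᵀ *ᵥ (H *ᵥ star (Srow a ![-a 0, 1 / 2, 0] ᵥ* (Y a)⁻¹ᵀ)) := by
  have inv : ∀ a ∈ U, ∀ x, (Y a)⁻¹ᵀ *ᵥ ((Y a)ᵀ *ᵥ x) = x := by
    intro a ha x
    rw [mulVec_mulVec, ← transpose_mul, mul_nonsing_inv _ ((isUnit_iff_isUnit_det _).mp (hu a ha)),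
      transpose_one, one_mulVec]
  let l : Bool → Cf → Fin 3 → ℂ := fun j a => bif j then ![-a 0, 1 / 2, 0] else ![1, 0, 0]
  obtain ⟨H, h1, h2⟩ := constH hU hc (fun j a => Srow a (l j a) ᵥ* (Y a)⁻¹ᵀ)
    (fun j a => (Y a)ᵀ *ᵥ Jc e (bif j then 1 else 0) a) false
    (by
      intro j
      refine MP_caab05_ag.GB.osg _ _ _ U hU fun a ha => ?_
      obtain ⟨L, hL, hd⟩ := hY a ha
      obtain ⟨L1, -, hd1⟩ := dual_sol (hu a ha) hL hd
      refine (y_diff (hi a ha) hd1 ?_).differentiableWithinAt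
      refine differentiableAt_pi.mpr fun i => ?_
      cases j <;> fin_cases i <;> simp [l]
      fun_prop)
    (by
      intro j
      refine anti_analytic hU fun a ha => ?_
      obtain ⟨L, hL, hd⟩ := hY a ha
      obtain ⟨p1, p2⟩ := pf hI hD covSt e0 e1 (j := bif j then 1 else 0) (by cases j <;> simp)
        (hi a ha)
      obtain ⟨N, n1, n2⟩ := mv_der hd p1.hasFDerivAt
      refine ⟨N, n1, fun v => ?_⟩
      have key : N v = I • N (I • v) := by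
        rw [n2, n2, map_smul L, hL, eq_add_of_sub_eq (p2 v)]
        simp only [transpose_smul, smul_mulVec, transpose_mul, ← mulVec_mulVec, mulVec_add,
          mulVec_smul, smul_add, smul_smul, I_mul_I]
        module
      rw [key, smul_smul]
      simp)
    (by
      intro k a ha
      simp only [← dotProduct_mulVec, inv a ha]
      cases k
      · exact s0 a ha
      · exact s1 a ha) hsp
  refine ⟨H, h1, fun a ha => ?_, fun a ha => ?_⟩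
  · exact (inv a ha _).symm.trans (congrArg _ (h2 false a ha))
  · exact (inv a ha _).symm.trans (congrArg _ (h2 true a ha))

end Pool.Agent.Lib.MP_0c623d_al.BP
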