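import Mathlib

set_option autoImplicit false

/-!
Irreducibility of a six dimensional braid representation from a determinant count, and the linear
algebra of the signs.
-/

namespace Pool.Agent.Lib.MP_0c623d_al.BP

open Module

section Irr
variable {V : Type*} [AddCommGroup V] [Module ℂ V] [FiniteDimensional ℂ V]

lemma det_pow_twelve (ζ η : ℂ) (hη : η ^ 12 = ζ ^ 6) (a : End ℂ V)
    (ha : (a - 1) * (a - ζ • 1) * (a - η • 1) = 0) :
    ∃ j : ℕ, j ≤ 2 * finrank ℂ V ∧ LinearMap.det a ^ 12 = ζ ^ (6 * j) := by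
  have hs : a.charpoly.Splits := IsAlgClosed.splits _
  have hd : LinearMap.det a = a.charpoly.roots.prod := Module.End.det_eq_prod_roots_charpoly_of_splits hs
  have hc : a.charpoly.roots.card = finrank ℂ V := by
    rw [← a.charpoly_natDegree]; exact hs.natDegree_eq_card_roots.symm
  have hr : ∀ r ∈ a.charpoly.roots, ∃ j : ℕ, j ≤ 2 ∧ r ^ 12 = ζ ^ (6 * j) := by
    intro r hr
    have h1 : a.HasEigenvalue r :=
      (Module.End.hasEigenvalue_iff_isRoot_charpoly a r).2 (Polynomial.isRoot_of_mem_roots hr)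
    obtain ⟨v, hv⟩ := h1.exists_hasEigenvector
    have e := hv.apply_eq_smul
    have h2 : ((r - 1) * (r - ζ) * (r - η)) • v = 0 := by
      have := congrArg (fun f : End ℂ V => f v) ha
      simp only [Module.End.mul_apply, LinearMap.sub_apply, LinearMap.smul_apply,
        Module.End.one_apply, map_sub, map_smul, e, LinearMap.zero_apply] at this
      rw [← this]; module
    rcases smul_eq_zero.1 h2 with h | h
    · rcases mul_eq_zero.1 h with h | h
      · rcases mul_eq_zero.1 h with h | h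
        · exact ⟨0, by omega, by rw [sub_eq_zero.1 h]; simp⟩
        · exact ⟨2, le_rfl, by rw [sub_eq_zero.1 h]⟩
      · exact ⟨1, by omega, by rw [sub_eq_zero.1 h, hη]⟩
    · exact absurd h hv.2
  rw [hd, ← hc]
  generalize a.charpoly.roots = s at hr
  induction s using Multiset.induction_on with
  | empty => exact ⟨0, by simp, by simp⟩
  | cons r s ih =>
    obtain ⟨j, hj, e⟩ := ih (fun x hx => hr x (Multiset.mem_cons_of_mem hx))
    obtain ⟨i, hi, e'⟩ := hr r (Multiset.mem_cons_self _ _)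
    refine ⟨i + j, by rw [Multiset.card_cons]; omega, ?_⟩
    rw [Multiset.prod_cons, mul_pow, e, e', ← pow_add]; congr 1; ring

/-- The dimension of such a representation is divisible by 6 (when it is at most 5 it is 0). -/
lemma finrank_eq_zero_of_braid {m : ℕ} (hm : 70 < m) {ζ η : ℂ} (hζ : IsPrimitiveRoot ζ m)
    (hη : η ^ 12 = ζ ^ 6) (a b c : End ℂ V) (hab : a * b * a = b * a * b)
    (hbc : b * c * b = c * b * c) (hz : (a * b * c) ^ 4 = (-ζ ^ 5) • 1)
    (hc : (a - 1) * (a - ζ • 1) * (a - η • 1) = 0 ∨ (b - 1) * (b - ζ • 1) * (b - η • 1) = 0 ∨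
      (c - 1) * (c - ζ • 1) * (c - η • 1) = 0) (h5 : finrank ℂ V ≤ 5) : finrank ℂ V = 0 := by
  have hζ0 : ζ ≠ 0 := hζ.ne_zero (by omega)
  have e1 := congrArg LinearMap.det hab
  have e2 := congrArg LinearMap.det hbc
  have e3 := congrArg LinearMap.det hz
  simp only [map_mul, map_pow, LinearMap.det_smul, map_one, mul_one] at e1 e2 e3
  have hne : LinearMap.det a * LinearMap.det b * LinearMap.det c ≠ 0 := by
    intro h; rw [h] at e3
    exact (pow_ne_zero _ (neg_ne_zero.2 (pow_ne_zero _ hζ0))) (by rw [← e3]; simp)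
  have ha0 : LinearMap.det a ≠ 0 := fun h => hne (by simp [h])
  have hb0 : LinearMap.det b ≠ 0 := fun h => hne (by simp [h])
  have hc0 : LinearMap.det c ≠ 0 := fun h => hne (by simp [h])
  have eab : LinearMap.det a = LinearMap.det b :=
    mul_left_cancel₀ (mul_ne_zero ha0 hb0) (by linear_combination e1)
  have ebc : LinearMap.det c = LinearMap.det b :=
    mul_left_cancel₀ (mul_ne_zero hc0 hb0) (by linear_combination -e2)
  obtain ⟨j, hj, e⟩ : ∃ j : ℕ, j ≤ 2 * finrank ℂ V ∧ LinearMap.det b ^ 12 = ζ ^ (6 * j) := by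
    rcases hc with h | h | h
    · rw [← eab]; exact det_pow_twelve ζ η hη a h
    · exact det_pow_twelve ζ η hη b h
    · rw [← ebc]; exact det_pow_twelve ζ η hη c h
  set k := finrank ℂ V
  have e4 : ζ ^ (10 * k) = ζ ^ (12 * j) := by
    have h1 : (-ζ ^ 5) ^ k = ζ ^ (6 * j) := by rw [← e3, ← e, eab, ebc]; ring
    have h2 : ((-ζ ^ 5) ^ k) ^ 2 = ζ ^ (10 * k) := by
      rw [← pow_mul, mul_comm k 2, pow_mul, neg_sq, ← pow_mul, ← pow_mul]; congr 1; ring
    rw [← h2, h1, ← pow_mul]; congr 1; ring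
  rcases le_total (10 * k) (12 * j) with h | h
  · obtain ⟨d, hd⟩ := Nat.exists_eq_add_of_le h
    rw [hd, pow_add] at e4
    have : ζ ^ d = 1 := mul_left_cancel₀ (pow_ne_zero (10 * k) hζ0) (by rw [← e4, mul_one])
    have h3 := Nat.eq_zero_of_dvd_of_lt (hζ.dvd_of_pow_eq_one d this) (by omega)
    omega
  · obtain ⟨d, hd⟩ := Nat.exists_eq_add_of_le h
    rw [hd, pow_add] at e4
    have : ζ ^ d = 1 := mul_left_cancel₀ (pow_ne_zero (12 * j) hζ0) (by rw [e4, mul_one])
    have h3 := Nat.eq_zero_of_dvd_of_lt (hζ.dvd_of_pow_eq_one d this) (by omega)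
    omega

/-- Irreducibility. -/
theorem irr {m : ℕ} (hm : 70 < m) {ζ η : ℂ} (hζ : IsPrimitiveRoot ζ m)
    (hη : η ^ 12 = ζ ^ 6) (a b c : End ℂ V) (hab : a * b * a = b * a * b)
    (hbc : b * c * b = c * b * c) (hz : (a * b * c) ^ 4 = (-ζ ^ 5) • 1)
    (hc : (a - 1) * (a - ζ • 1) * (a - η • 1) = 0 ∨ (b - 1) * (b - ζ • 1) * (b - η • 1) = 0 ∨
      (c - 1) * (c - ζ • 1) * (c - η • 1) = 0) (h6 : finrank ℂ V = 6) (R : Submodule ℂ V)
    (Ra : ∀ x ∈ R, a x ∈ R) (Rb : ∀ x ∈ R, b x ∈ R) (Rc : ∀ x ∈ R, c x ∈ R) : R = ⊥ ∨ R = ⊤ := by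
  by_cases ht : R = ⊤
  · exact Or.inr ht
  left
  have h5 : finrank ℂ R ≤ 5 := by have := Submodule.finrank_lt ht; omega
  have cub : ∀ (f : End ℂ V) (hf : ∀ x ∈ R, f x ∈ R), (f - 1) * (f - ζ • 1) * (f - η • 1) = 0 →
      ((f.restrict hf : End ℂ R) - 1) * ((f.restrict hf : End ℂ R) - ζ • 1) *
        ((f.restrict hf : End ℂ R) - η • 1) = 0 := by
    intro f hf h
    ext x
    have := congrArg (fun g : End ℂ V => g x) h
    simpa using this
  have := finrank_eq_zero_of_braid hm hζ hη (a.restrict Ra) (b.restrict Rb) (c.restrict Rc)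
    (by ext x; simpa using congrArg (fun g : End ℂ V => g x) hab)
    (by ext x; simpa using congrArg (fun g : End ℂ V => g x) hbc)
    (by
      ext x
      have := congrArg (fun g : End ℂ V => g x) hz
      simpa [pow_succ] using this)
    (hc.imp (cub a Ra) (Or.imp (cub b Rb) (cub c Rc))) h5
  exact Submodule.finrank_eq_zero.1 this

end Irr

/-- A Hermitian form, linear in the first slot. -/
structure Herm {V : Type*} [AddCommGroup V] [Module ℂ V] (h : V → V → ℂ) : Prop where
  add : ∀ u v w, h (u + v) w = h u w + h v w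
  smul : ∀ (c : ℂ) u v, h (c • u) v = c * h u v
  symm : ∀ u v, h v u = (starRingEnd ℂ) (h u v)

namespace Herm
variable {V : Type*} [AddCommGroup V] [Module ℂ V] {h : V → V → ℂ}

lemma add' (H : Herm h) (u v w : V) : h u (v + w) = h u v + h u w := by
  rw [H.symm (v + w) u, H.add, map_add, ← H.symm, ← H.symm]
lemma smul' (H : Herm h) (c : ℂ) (u v : V) : h u (c • v) = (starRingEnd ℂ) c * h u v := by
  rw [H.symm (c • v) u, H.smul, map_mul, ← H.symm]
lemma zero (H : Herm h) (v : V) : h 0 v = 0 := by simpa using H.smul 0 0 v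
lemma zero' (H : Herm h) (v : V) : h v 0 = 0 := by rw [H.symm 0 v, H.zero, map_zero]
lemma sub (H : Herm h) (u v w : V) : h (u - v) w = h u w - h v w := by
  rw [sub_eq_add_neg, H.add, ← neg_one_smul ℂ v, H.smul]; ring
lemma sub' (H : Herm h) (u v w : V) : h u (v - w) = h u v - h u w := by
  rw [H.symm (v - w) u, H.sub, map_sub, ← H.symm, ← H.symm]
lemma self_re (H : Herm h) (u : V) : h u u = ((h u u).re : ℂ) :=
  (Complex.conj_eq_iff_re.1 (H.symm u u).symm).symm
lemma orth (H : Herm h) {u v : V} (e : h u v = 0) : h v u = 0 := by rw [H.symm, e, map_zero]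

/-- The form as a linear functional in the first slot. -/
def lin (H : Herm h) (v : V) : V →ₗ[ℂ] ℂ where
  toFun u := h u v
  map_add' a b := H.add a b v
  map_smul' c a := H.smul c a v

@[simp] lemma lin_apply (H : Herm h) (v u : V) : H.lin v u = h u v := rfl

lemma re_add_orth (H : Herm h) {u v : V} (e : h u v = 0) :
    (h (u + v) (u + v)).re = (h u u).re + (h v v).re := by
  rw [H.add, H.add', H.add', e, H.orth e]; simp

lemma re_smul (H : Herm h) (c : ℂ) (u : V) : (h (c • u) (c • u)).re = ‖c‖ ^ 2 * (h u u).re := by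
  rw [H.smul, H.smul', ← mul_assoc, Complex.mul_conj, Complex.re_ofReal_mul,
    Complex.normSq_eq_norm_sq]

/-- Positive definite on a subspace. -/
def Pos (h : V → V → ℂ) (U : Submodule ℂ V) : Prop := ∀ u ∈ U, u ≠ 0 → 0 < (h u u).re

lemma Pos.nonneg (H : Herm h) {U : Submodule ℂ V} (P : Pos h U) {u : V} (hu : u ∈ U) :
    0 ≤ (h u u).re := by
  by_cases e : u = 0
  · rw [e, H.zero]; simp
  · exact (P u hu e).le

lemma Pos.sup (H : Herm h) {U W : Submodule ℂ V} (P : Pos h U) (Q : Pos h W)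
    (o : ∀ u ∈ U, ∀ w ∈ W, h u w = 0) : Pos h (U ⊔ W) ∧ U ⊓ W = ⊥ := by
  refine ⟨fun x hx h0 => ?_, ?_⟩
  · obtain ⟨u, hu, w, hw, rfl⟩ := Submodule.mem_sup.1 hx
    rw [H.re_add_orth (o u hu w hw)]
    by_cases e : u = 0
    · subst e
      have := Q w hw (by simpa using h0)
      have := P.nonneg H hu
      linarith
    · have := P u hu e
      have := Q.nonneg H hw
      linarith
  · rw [eq_bot_iff]
    intro x hx
    by_contra h0
    have := P x hx.1 h0
    rw [o x hx.1 x hx.2] at this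
    simp at this

/-- A semidefinite space has its null vectors in its radical. -/
lemma rad_of_semidef (H : Herm h) {T : Submodule ℂ V} (s : ℝ) (hs : s = 1 ∨ s = -1)
    (P : ∀ t ∈ T, 0 ≤ s * (h t t).re) {t : V} (ht : t ∈ T) (h0 : (h t t).re = 0) {x : V}
    (hx : x ∈ T) : h x t = 0 := by
  by_contra hne
  have hp : 0 < ‖h x t‖ ^ 2 := by positivity
  have key : ∀ r : ℝ, 0 ≤ s * ((h x x).re + 2 * r * ‖h x t‖ ^ 2) := by
    intro r
    have := P (x + ((r : ℂ) * h x t) • t) (T.add_mem hx (T.smul_mem _ ht))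
    have e : (h (x + ((r : ℂ) * h x t) • t) (x + ((r : ℂ) * h x t) • t)).re =
        (h x x).re + 2 * r * ‖h x t‖ ^ 2 := by
      rw [H.add, H.add', H.add', Complex.add_re, Complex.add_re, Complex.add_re, H.re_smul, h0,
        H.smul', H.smul, H.symm x t, Complex.sq_norm (h x t), Complex.normSq_apply]
      simp; ring
    rwa [e] at this
  have := key (-s * (|(h x x).re| + 1) / (2 * ‖h x t‖ ^ 2))
  have e : 2 * (-s * (|(h x x).re| + 1) / (2 * ‖h x t‖ ^ 2)) * ‖h x t‖ ^ 2 =
      -s * (|(h x x).re| + 1) := by field_simp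
  rw [e] at this
  have := le_abs_self (h x x).re
  have := neg_abs_le (h x x).re
  rcases hs with rfl | rfl <;> linarith

end Herm

/-- The pointwise situation: a nondegenerate form in dimension 6 with a negative semidefinite plane, a
positive 3-space `U` and a 3-space `F` orthogonal to it. -/
structure Pt {V : Type*} [AddCommGroup V] [Module ℂ V] (h : V → V → ℂ) (F U : Submodule ℂ V) :
    Prop where
  herm : Herm h
  six : finrank ℂ V = 6
  nondeg : ∀ v, (∀ u, h u v = 0) → v = 0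
  iso : ∃ I : Submodule ℂ V, 2 ≤ finrank ℂ I ∧ ∀ x ∈ I, (h x x).re ≤ 0
  dimF : finrank ℂ F = 3
  dimU : finrank ℂ U = 3
  pos : Herm.Pos h U
  orth : ∀ f ∈ F, ∀ u ∈ U, h f u = 0

namespace Pt
variable {V : Type*} [AddCommGroup V] [Module ℂ V] {h : V → V → ℂ} {F U : Submodule ℂ V}

lemma fin (p : Pt h F U) : FiniteDimensional ℂ V := .of_finrank_eq_succ p.six

lemma pos_le (p : Pt h F U) {W : Submodule ℂ V} (P : Herm.Pos h W) : finrank ℂ W ≤ 4 := by
  have := p.fin
  obtain ⟨I, h2, hI⟩ := p.iso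
  have hb : W ⊓ I = ⊥ := by
    rw [eq_bot_iff]
    intro x hx
    by_contra h0
    exact (P x hx.1 h0).not_ge (hI x hx.2)
  have e := Submodule.finrank_sup_add_finrank_inf_eq W I
  have := Submodule.finrank_le (W ⊔ I)
  rw [hb, finrank_bot] at e
  have := p.six
  omega

lemma sup_top (p : Pt h F U) : F ⊔ U = ⊤ := by
  have := p.fin
  have hb : F ⊓ U = ⊥ := by
    rw [eq_bot_iff]
    intro x hx
    by_contra h0
    have := p.pos x hx.2 h0
    rw [p.orth x hx.1 x hx.2] at this
    simp at this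
  have e := Submodule.finrank_sup_add_finrank_inf_eq F U
  rw [hb, finrank_bot, p.dimF, p.dimU] at e
  exact Submodule.eq_top_of_finrank_eq (by rw [p.six]; omega)

/-- `F` is nondegenerate. -/
lemma rad (p : Pt h F U) {w : V} (hw : w ∈ F) (o : ∀ f ∈ F, h f w = 0) : w = 0 := by
  refine p.nondeg w fun x => ?_
  have hx : x ∈ F ⊔ U := by rw [p.sup_top]; trivial
  obtain ⟨f, hf, u, hu, rfl⟩ := Submodule.mem_sup.1 hx
  rw [p.herm.add, o f hf, p.herm.orth (p.orth w hw u hu), add_zero]

/-- On the orthogonal of a non-null `w` inside `F` a semidefinite form is definite. -/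
lemma tan_def (p : Pt h F U) {w : V} (hw : w ∈ F) (h0 : (h w w).re ≠ 0) (s : ℝ)
    (hs : s = 1 ∨ s = -1) (P : ∀ t ∈ F, h t w = 0 → 0 ≤ s * (h t t).re) {t : V} (ht : t ∈ F)
    (o : h t w = 0) (z : (h t t).re = 0) : t = 0 := by
  have H := p.herm
  have hww : h w w ≠ 0 := fun e => h0 (by rw [e]; simp)
  refine p.rad ht fun f hf => ?_
  have m1 : f - (h f w / h w w) • w ∈ F ⊓ LinearMap.ker (H.lin w) :=
    ⟨F.sub_mem hf (F.smul_mem _ hw), by
      simp only [SetLike.mem_coe, LinearMap.mem_ker, Herm.lin_apply]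
      rw [H.sub, H.smul]; field_simp; ring⟩
  have := H.rad_of_semidef (T := F ⊓ LinearMap.ker (H.lin w)) s hs (fun t ht => P t ht.1 ht.2)
    (t := t) ⟨ht, o⟩ z m1
  rwa [H.sub, H.smul, H.orth o, mul_zero, sub_zero] at this

/-- A negative `w` in `F` has a negative vector of `F` orthogonal to it. -/
theorem neg_dir (p : Pt h F U) {w : V} (hw : w ∈ F) (hn : (h w w).re < 0) :
    ∃ t ∈ F, h t w = 0 ∧ (h t t).re < 0 := by
  have := p.fin
  have H := p.herm
  by_contra hc
  push Not at hc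
  set T := F ⊓ LinearMap.ker (H.lin w)
  have PT : Herm.Pos h T := fun t ht h0 => lt_of_le_of_ne (hc t ht.1 ht.2) fun e =>
    h0 (p.tan_def hw hn.ne 1 (Or.inl rfl) (fun t a b => by simpa using hc t a b) ht.1 ht.2 e.symm)
  obtain ⟨P, hb⟩ := PT.sup H p.pos (fun t ht u hu => p.orth t ht.1 u hu)
  have h4 := p.pos_le P
  have e := Submodule.finrank_sup_add_finrank_inf_eq T U
  rw [hb, finrank_bot, p.dimU] at e
  have e2 := Submodule.finrank_sup_add_finrank_inf_eq F (LinearMap.ker (H.lin w))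
  have e3 := Submodule.finrank_le (F ⊔ LinearMap.ker (H.lin w))
  have e4 := LinearMap.finrank_range_add_finrank_ker (H.lin w)
  have e5 := Submodule.finrank_le (LinearMap.range (H.lin w))
  rw [Module.finrank_self] at e5
  have := p.six
  have := p.dimF
  change _ + finrank ℂ T = _ at e2
  omega

/-- For a positive `w` in `F` its orthogonal in `F` is negative definite. -/
theorem tan_neg (p : Pt h F U) {w : V} (hw : w ∈ F) (hp : 0 < (h w w).re) {t : V} (ht : t ∈ F)
    (o : h t w = 0) (h0 : t ≠ 0) : (h t t).re < 0 := by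
  have := p.fin
  have H := p.herm
  have line : ∀ x : V, 0 < (h x x).re → Herm.Pos h (ℂ ∙ x) ∧ finrank ℂ (ℂ ∙ x) = 1 := by
    intro x hx
    refine ⟨fun y hy y0 => ?_, finrank_span_singleton fun e => ?_⟩
    · obtain ⟨c, rfl⟩ := Submodule.mem_span_singleton.1 hy
      have : c ≠ 0 := fun e => y0 (by simp [e])
      rw [H.re_smul]; positivity
    · rw [e, H.zero] at hx; simp at hx
  have key : ∀ t ∈ F, h t w = 0 → (h t t).re ≤ 0 := by
    intro t ht o
    by_contra hc
    push Not at hc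
    obtain ⟨P1, b1⟩ := (line t hc).1.sup H (line w hp).1 (fun x hx y hy => by
      obtain ⟨c, rfl⟩ := Submodule.mem_span_singleton.1 hx
      obtain ⟨d, rfl⟩ := Submodule.mem_span_singleton.1 hy
      rw [H.smul, H.smul', o]; simp)
    have hle : (ℂ ∙ t) ⊔ (ℂ ∙ w) ≤ F := sup_le ((Submodule.span_singleton_le_iff_mem _ _).2 ht)
      ((Submodule.span_singleton_le_iff_mem _ _).2 hw)
    obtain ⟨P2, b2⟩ := P1.sup H p.pos (fun x hx u hu => p.orth x (hle hx) u hu)
    have h4 := p.pos_le P2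
    have e1 := Submodule.finrank_sup_add_finrank_inf_eq (ℂ ∙ t) (ℂ ∙ w)
    have e2 := Submodule.finrank_sup_add_finrank_inf_eq ((ℂ ∙ t) ⊔ (ℂ ∙ w)) U
    rw [b1, finrank_bot, (line t hc).2, (line w hp).2] at e1
    rw [b2, finrank_bot, p.dimU] at e2
    omega
  exact lt_of_le_of_ne (key t ht o) fun e => h0
    (p.tan_def hw hp.ne' (-1) (Or.inr rfl) (fun t a b => by have := key t a b; linarith) ht o e)

end Pt

end Pool.Agent.Lib.MP_0c623d_al.BP
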