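import Mathlib

set_option autoImplicit false

/-!
Levinson type lemmas: a function whose derivative is bounded by an integrable multiple of its norm
has a limit at minus infinity.
-/

namespace Pool.Agent.BP.Lev

open Set Filter Topology

section L1
variable {V : Type*} [NormedAddCommGroup V] [NormedSpace ℝ V]

/-- Gronwall with a variable coefficient, forward. -/
lemma gron_fwd {f f' : ℝ → V} {k k' : ℝ → ℝ} {a b : ℝ} (hab : a ≤ b)
    (hf : ∀ x ∈ Icc a b, HasDerivAt f (f' x) x) (hk : ∀ x, HasDerivAt k (k' x) x)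
    (hb : ∀ x ∈ Icc a b, ‖f' x‖ ≤ k' x * ‖f x‖) :
    ‖f b‖ ≤ ‖f a‖ * Real.exp (k b - k a) := by
  have H : ∀ ε : ℝ, 0 < ε →
      ‖f b‖ ≤ (‖f a‖ + ε) * Real.exp (k b - k a + ε * (b - a)) := by
    intro ε hε
    have hB : ∀ x, HasDerivAt (fun x => (‖f a‖ + ε) * Real.exp (k x - k a + ε * (x - a)))
        ((‖f a‖ + ε) * (Real.exp (k x - k a + ε * (x - a)) * (k' x + ε))) x := by
      intro x
      have h1 : HasDerivAt (fun x => k x - k a + ε * (x - a)) (k' x + ε) x := by
        have h2 := ((hk x).sub_const (k a)).add (((hasDerivAt_id x).sub_const a).const_mul ε)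
        rw [mul_one] at h2
        exact h2
      exact h1.exp.const_mul _
    refine image_norm_le_of_norm_deriv_right_lt_deriv_boundary (f := f) (f' := f') (a := a)
      (b := b) (fun x hx => (hf x hx).continuousAt.continuousWithinAt)
      (fun x hx => (hf x (Ico_subset_Icc_self hx)).hasDerivWithinAt) ?_ hB ?_
      (right_mem_Icc.mpr hab)
    · simp [hε.le]
    · intro x hx he
      have h1 := hb x (Ico_subset_Icc_self hx)
      have h2 : 0 < (‖f a‖ + ε) * Real.exp (k x - k a + ε * (x - a)) := by positivity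
      rw [he] at h1
      nlinarith [mul_pos hε h2]
  have hc : Continuous fun ε : ℝ => (‖f a‖ + ε) * Real.exp (k b - k a + ε * (b - a)) := by
    fun_prop
  have ht := (hc.tendsto 0).mono_left (nhdsWithin_le_nhds (s := Ioi 0))
  simp only [add_zero, zero_mul] at ht
  exact ge_of_tendsto ht (eventually_nhdsWithin_of_forall fun ε hε => H ε hε)

/-- Gronwall with a variable coefficient, backward. -/
lemma gron_bwd {f f' : ℝ → V} {k k' : ℝ → ℝ} {a b : ℝ} (hab : a ≤ b)
    (hf : ∀ x ∈ Icc a b, HasDerivAt f (f' x) x) (hk : ∀ x, HasDerivAt k (k' x) x)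
    (hb : ∀ x ∈ Icc a b, ‖f' x‖ ≤ k' x * ‖f x‖) :
    ‖f a‖ ≤ ‖f b‖ * Real.exp (k b - k a) := by
  have hm : ∀ x ∈ Icc (-b) (-a), -x ∈ Icc a b := fun x hx =>
    ⟨by linarith [hx.2], by linarith [hx.1]⟩
  have h := gron_fwd (f := fun x => f (-x)) (f' := fun x => -f' (-x)) (k := fun x => -k (-x))
    (k' := fun x => k' (-x)) (a := -b) (b := -a) (by linarith)
    (fun x hx => by
      have h1 := (hf (-x) (hm x hx)).scomp x (hasDerivAt_neg x)
      rw [neg_one_smul] at h1
      exact h1)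
    (fun x => by
      have h1 := ((hk (-x)).comp x (hasDerivAt_neg x)).neg
      rw [mul_neg_one, neg_neg] at h1
      exact h1)
    (fun x hx => by rw [norm_neg]; exact hb (-x) (hm x hx))
  simp only [neg_neg] at h
  rw [show -k a - -k b = k b - k a by ring] at h
  exact h

lemma hasDerivAt_k (C d : ℝ) (hd : 0 < d) (x : ℝ) :
    HasDerivAt (fun x => C / d * Real.exp (d * x)) (C * Real.exp (d * x)) x := by
  have h := (((hasDerivAt_id x).const_mul d).exp).const_mul (C / d)
  simp only [id, mul_one] at h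
  rw [show C / d * (Real.exp (d * x) * d) = C * Real.exp (d * x) by field_simp] at h
  exact h

/-- Two-sided bound on a half line. -/
lemma two_sided {Z Z' : ℝ → V} {C d s0 : ℝ} (hC : 0 ≤ C) (hd : 0 < d)
    (hZ : ∀ s, s ≤ s0 → HasDerivAt Z (Z' s) s)
    (hb : ∀ s, s ≤ s0 → ‖Z' s‖ ≤ C * Real.exp (d * s) * ‖Z s‖) {s t : ℝ} (hs : s ≤ s0)
    (ht : t ≤ s0) : ‖Z s‖ ≤ Real.exp (C / d * Real.exp (d * s0)) * ‖Z t‖ := by
  have hk : ∀ a b : ℝ, b ≤ s0 →
      Real.exp (C / d * Real.exp (d * b) - C / d * Real.exp (d * a)) ≤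
        Real.exp (C / d * Real.exp (d * s0)) := by
    intro a b hb'
    apply Real.exp_le_exp.mpr
    have h1 : C / d * Real.exp (d * b) ≤ C / d * Real.exp (d * s0) := by gcongr
    have h2 : 0 ≤ C / d * Real.exp (d * a) := by positivity
    linarith
  rw [mul_comm]
  rcases le_total s t with h | h
  · refine (gron_bwd h (fun x hx => hZ x (hx.2.trans ht)) (hasDerivAt_k C d hd)
      (fun x hx => hb x (hx.2.trans ht))).trans ?_
    exact mul_le_mul_of_nonneg_left (hk s t ht) (norm_nonneg _)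
  · refine (gron_fwd h (fun x hx => hZ x (hx.2.trans hs)) (hasDerivAt_k C d hd)
      (fun x hx => hb x (hx.2.trans hs))).trans ?_
    exact mul_le_mul_of_nonneg_left (hk t s hs) (norm_nonneg _)

/-- A function with exponentially small derivative has a limit at minus infinity. -/
lemma lim_of_small [CompleteSpace V] {Z Z' : ℝ → V} {D d s0 : ℝ} (hD : 0 ≤ D) (hd : 0 < d)
    (hZ : ∀ s, s ≤ s0 → HasDerivAt Z (Z' s) s)
    (hb : ∀ s, s ≤ s0 → ‖Z' s‖ ≤ D * Real.exp (d * s)) :
    ∃ L : V, ∀ s, s ≤ s0 → ‖Z s - L‖ ≤ D / d * Real.exp (d * s) := by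
  have hdiff : ∀ s t, s ≤ t → t ≤ s0 → ‖Z t - Z s‖ ≤ D / d * Real.exp (d * t) := by
    intro s t hst ht
    refine image_norm_le_of_norm_deriv_right_le_deriv_boundary (f := fun x => Z x - Z s)
      (f' := Z') (a := s) (b := t)
      (fun x hx => ((hZ x (hx.2.trans ht)).sub_const _).continuousAt.continuousWithinAt)
      (fun x hx => ((hZ x (hx.2.le.trans ht)).sub_const _).hasDerivWithinAt) ?_
      (hasDerivAt_k D d hd) (fun x hx => hb x (hx.2.le.trans ht)) (right_mem_Icc.mpr hst)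
    simp only [sub_self, norm_zero]
    positivity
  have hlin : Tendsto (fun n : ℕ => s0 - (n : ℝ)) atTop atBot :=
    tendsto_atBot_add_const_left _ s0 (tendsto_neg_atTop_atBot.comp tendsto_natCast_atTop_atTop)
  have h0 : Tendsto (fun n : ℕ => D / d * Real.exp (d * (s0 - n))) atTop (𝓝 0) := by
    have h1 := (Real.tendsto_exp_atBot.comp (hlin.const_mul_atBot hd)).const_mul (D / d)
    rw [mul_zero] at h1
    exact h1
  have hc : CauchySeq fun n : ℕ => Z (s0 - n) := by
    refine cauchySeq_of_le_tendsto_0' _ (fun n m hnm => ?_) h0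
    rw [dist_eq_norm]
    have h1 : (n : ℝ) ≤ m := by exact_mod_cast hnm
    have h2 : (0 : ℝ) ≤ n := n.cast_nonneg
    exact hdiff _ _ (by linarith) (by linarith)
  obtain ⟨L, hL⟩ := cauchySeq_tendsto_of_complete hc
  refine ⟨L, fun s hs => ?_⟩
  have h1 : Tendsto (fun n : ℕ => ‖Z s - Z (s0 - n)‖) atTop (𝓝 ‖Z s - L‖) :=
    (tendsto_const_nhds.sub hL).norm
  refine le_of_tendsto h1 ?_
  filter_upwards [hlin.eventually (eventually_le_atBot s)] with n hn
  exact hdiff _ _ hn hs

/-- Levinson lemma: limit with a rate. -/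
lemma levinson [CompleteSpace V] {Z Z' : ℝ → V} {C d s0 : ℝ} (hC : 0 ≤ C) (hd : 0 < d)
    (hZ : ∀ s, s ≤ s0 → HasDerivAt Z (Z' s) s)
    (hb : ∀ s, s ≤ s0 → ‖Z' s‖ ≤ C * Real.exp (d * s) * ‖Z s‖) :
    ∃ L : V, ∀ s, s ≤ s0 → ‖Z s - L‖ ≤
      C * (Real.exp (C / d * Real.exp (d * s0)) * ‖Z s0‖) / d * Real.exp (d * s) := by
  refine lim_of_small (by positivity) hd hZ fun s hs => (hb s hs).trans ?_
  have h1 := two_sided hC hd hZ hb hs le_rfl
  calc C * Real.exp (d * s) * ‖Z s‖
      ≤ C * Real.exp (d * s) * (Real.exp (C / d * Real.exp (d * s0)) * ‖Z s0‖) := by gcongr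
    _ = _ := by ring

omit [NormedSpace ℝ V] in
lemma tendsto_of_rate {Z : ℝ → V} {L : V} {D d s0 : ℝ} (hd : 0 < d)
    (h : ∀ s, s ≤ s0 → ‖Z s - L‖ ≤ D * Real.exp (d * s)) : Tendsto Z atBot (𝓝 L) := by
  rw [tendsto_iff_norm_sub_tendsto_zero]
  have h1 := (Real.tendsto_exp_atBot.comp (tendsto_id.const_mul_atBot hd)).const_mul D
  rw [mul_zero] at h1
  refine squeeze_zero' (Eventually.of_forall fun _ => norm_nonneg _) ?_ h1
  filter_upwards [eventually_le_atBot s0] with s hs
  exact h s hs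

end L1

end Pool.Agent.BP.Lev
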