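import Pool.Agent.Lib.MP_0c623d_al.BP.Lev

set_option autoImplicit false

/-!
Asymptotics of a periodic two-sided linear system near a logarithmic singularity.
-/

namespace Pool.Agent.BP.Lev

open Set Filter Topology

variable {A : Type*} [NormedRing A] [NormedAlgebra ℂ A]

/-- The data of a residue `N + κ P` with `P` idempotent and `N` of square zero. -/
structure NP (N P : A) : Prop where
  pp : P * P = P
  nn : N * N = 0
  np : N * P = 0
  pn : P * N = 0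

/-- The exponential of `t (N + κ P)`. -/
noncomputable def Ez (κ : ℝ) (N P : A) (t : ℂ) : A :=
  (1 - P) + t • N + Complex.exp (κ * t) • P

lemma Ez_add {κ : ℝ} {N P : A} (h : NP N P) (t u : ℂ) :
    Ez κ N P t * Ez κ N P u = Ez κ N P (t + u) := by
  simp only [Ez, mul_add, add_mul, sub_mul, mul_sub, smul_mul_assoc, mul_smul_comm, h.pp, h.nn,
    h.np, h.pn, one_mul, mul_one, Complex.exp_add, smul_zero, sub_self, sub_zero, smul_smul,
    add_smul, add_zero, zero_add]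
  rw [mul_comm (Complex.exp (κ * u))]
  abel

lemma Ez_zero (κ : ℝ) (N P : A) : Ez κ N P 0 = 1 := by simp [Ez]

lemma Ez_mul_neg {κ : ℝ} {N P : A} (h : NP N P) (t : ℂ) :
    Ez κ N P t * Ez κ N P (-t) = 1 := by rw [Ez_add h, add_neg_cancel, Ez_zero]

lemma Ez_neg_mul {κ : ℝ} {N P : A} (h : NP N P) (t : ℂ) :
    Ez κ N P (-t) * Ez κ N P t = 1 := by rw [Ez_add h, neg_add_cancel, Ez_zero]

lemma Ez_mul_res {κ : ℝ} {N P : A} (h : NP N P) (t : ℂ) :
    Ez κ N P t * (N + (κ : ℂ) • P) = N + (Complex.exp (κ * t) * κ) • P := by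
  simp only [Ez, mul_add, add_mul, sub_mul, smul_mul_assoc, mul_smul_comm, h.pp, h.nn,
    h.np, h.pn, one_mul, smul_zero, sub_self, sub_zero, smul_smul, add_zero, zero_add]
  rw [mul_comm]

lemma res_mul_Ez {κ : ℝ} {N P : A} (h : NP N P) (t : ℂ) :
    (N + (κ : ℂ) • P) * Ez κ N P t = N + (Complex.exp (κ * t) * κ) • P := by
  simp only [Ez, mul_add, add_mul, mul_sub, smul_mul_assoc, mul_smul_comm, h.pp, h.nn,
    h.np, h.pn, mul_one, smul_zero, smul_smul, add_zero, zero_add]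
  abel

lemma hasDerivAt_Ez (κ : ℝ) (N P : A) (t ξ : ℂ) :
    HasDerivAt (fun x : ℝ => Ez κ N P (t + x * ξ))
      (ξ • (N + (Complex.exp (κ * t) * κ) • P)) 0 := by
  have h1 : HasDerivAt (fun x : ℝ => t + x * ξ) ξ 0 := by
    have h := (Complex.ofRealCLM.hasDerivAt (x := (0 : ℝ))).mul_const ξ |>.const_add t
    simpa using h
  have h2 : HasDerivAt (fun x : ℝ => Complex.exp (κ * (t + x * ξ)))
      (Complex.exp (κ * t) * (κ * ξ)) 0 := by
    have h := (h1.const_mul (κ : ℂ)).cexp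
    simpa using h
  have h3 := ((h1.smul_const N).const_add (1 - P)).add (h2.smul_const P)
  rw [smul_add, smul_smul, show ξ * (Complex.exp (κ * t) * κ) = Complex.exp (κ * t) * (κ * ξ) by
    ring]
  exact h3

lemma norm_Ez_le {κ b : ℝ} {N P : A} (h1 : ‖1 - P‖ ≤ b) (hN : ‖N‖ ≤ b) (hP : ‖P‖ ≤ b) (t : ℂ) :
    ‖Ez κ N P t‖ ≤ b * (1 + |t.re| + |t.im| + Real.exp (κ * t.re)) := by
  have hb : 0 ≤ b := (norm_nonneg _).trans hN
  have e1 : ‖t • N‖ ≤ (|t.re| + |t.im|) * b := by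
    refine (norm_smul_le _ _).trans ?_
    gcongr
    exact Complex.norm_le_abs_re_add_abs_im t
  have e2 : ‖Complex.exp (κ * t) • P‖ ≤ Real.exp (κ * t.re) * b := by
    refine (norm_smul_le _ _).trans ?_
    rw [Complex.norm_exp]
    simp only [Complex.mul_re, Complex.ofReal_re, Complex.ofReal_im, zero_mul, sub_zero]
    gcongr
  have e3 := norm_add₃_le (a := 1 - P) (b := t • N) (c := Complex.exp (κ * t) • P)
  unfold Ez
  nlinarith

lemma lin_le_exp {ε x : ℝ} (hε : 0 < ε) (hx : x ≤ 0) :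
    |x| ≤ ε⁻¹ * Real.exp (-ε * x) := by
  rw [abs_of_nonpos hx, le_inv_mul_iff₀ hε]
  have := Real.add_one_le_exp (-ε * x)
  linarith

lemma norm_Ez_pos {κ b ε : ℝ} {N P : A} (hκ : 0 ≤ κ) (hε : 0 < ε) (h1 : ‖1 - P‖ ≤ b)
    (hN : ‖N‖ ≤ b) (hP : ‖P‖ ≤ b) {t : ℂ} (ht : t.re ≤ 0) (hi : |t.im| ≤ 7) :
    ‖Ez κ N P t‖ ≤ b * (9 + ε⁻¹) * Real.exp (-ε * t.re) := by
  have hb : 0 ≤ b := (norm_nonneg _).trans hN
  refine (norm_Ez_le h1 hN hP t).trans ?_
  rw [mul_assoc]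
  gcongr
  have e1 := lin_le_exp hε ht
  have e2 : 1 ≤ Real.exp (-ε * t.re) := Real.one_le_exp (by nlinarith)
  have e3 : Real.exp (κ * t.re) ≤ 1 := Real.exp_le_one_iff.mpr (by nlinarith)
  nlinarith

lemma norm_Ez_neg {κ b ε : ℝ} {N P : A} (hκ : 0 ≤ κ) (hε : 0 < ε) (h1 : ‖1 - P‖ ≤ b)
    (hN : ‖N‖ ≤ b) (hP : ‖P‖ ≤ b) {t : ℂ} (ht : t.re ≤ 0) (hi : |t.im| ≤ 7) :
    ‖Ez κ N P (-t)‖ ≤ b * (9 + ε⁻¹) * Real.exp (-(κ + ε) * t.re) := by
  have hb : 0 ≤ b := (norm_nonneg _).trans hN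
  refine (norm_Ez_le h1 hN hP (-t)).trans ?_
  rw [mul_assoc]
  gcongr
  simp only [Complex.neg_re, Complex.neg_im, abs_neg]
  have e1 := lin_le_exp hε ht
  have e2 : 1 ≤ Real.exp (-(κ + ε) * t.re) := Real.one_le_exp (by nlinarith)
  have e3 : Real.exp (κ * -t.re) ≤ Real.exp (-(κ + ε) * t.re) :=
    Real.exp_le_exp.mpr (by nlinarith)
  have e4 : ε⁻¹ * Real.exp (-ε * t.re) ≤ ε⁻¹ * Real.exp (-(κ + ε) * t.re) := by
    refine mul_le_mul_of_nonneg_left (Real.exp_le_exp.mpr (by nlinarith)) (by positivity)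
  nlinarith

lemma hasDerivAt_shift {F : ℂ → A} {D : A} {t ξ : ℂ} {x0 : ℝ}
    (h : HasDerivAt (fun x : ℝ => F (t + x0 * ξ + x * ξ)) D 0) :
    HasDerivAt (fun x : ℝ => F (t + x * ξ)) D x0 := by
  rw [← sub_self x0] at h
  have h1 := h.comp_sub_const x0 x0
  refine h1.congr_of_eventuallyEq (Eventually.of_forall fun x => ?_)
  simp only
  congr 1
  push_cast
  ring

/-- Algebraic consequences of the invariance under the monodromy. -/
lemma alg_of_inv {N P N' P' G : A} (h : NP N P) (h' : NP N' P') {c l l' : ℂ} (hc : c ≠ 0)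
    (hl : l ≠ 1) (hl' : l' ≠ 1)
    (hG : ((1 - P) + (-c) • N + l • P) * G * ((1 - P') + c • N' + l' • P') = G) :
    (1 - P) * G * P' = 0 ∧ P * G * (1 - P') = 0 ∧ N * G = G * N' := by
  have a1 : (1 - P) * ((1 - P) + (-c) • N + l • P) = (1 - P) + (-c) • N := by
    simp only [mul_add, sub_mul, mul_sub, mul_smul_comm, h.pp, h.pn, one_mul, mul_one, sub_self,
      sub_zero, smul_zero, add_zero]
  have a2 : P * ((1 - P) + (-c) • N + l • P) = l • P := by
    simp only [mul_add, mul_sub, mul_smul_comm, h.pp, h.pn, mul_one, sub_self, smul_zero,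
      zero_add]
  have a3 : N * ((1 - P) + (-c) • N + l • P) = N := by
    simp only [mul_add, mul_sub, mul_smul_comm, h.np, h.nn, mul_one, sub_zero, smul_zero,
      add_zero]
  have b1 : ((1 - P') + c • N' + l' • P') * (1 - P') = (1 - P') + c • N' := by
    simp only [add_mul, sub_mul, mul_sub, smul_mul_assoc, h'.pp, h'.np, one_mul, mul_one,
      sub_self, smul_zero, add_zero, zero_add]
    abel
  have b2 : ((1 - P') + c • N' + l' • P') * P' = l' • P' := by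
    simp only [add_mul, sub_mul, smul_mul_assoc, h'.pp, h'.np, one_mul, sub_self, smul_zero,
      zero_add]
  have b3 : ((1 - P') + c • N' + l' • P') * N' = N' := by
    simp only [add_mul, sub_mul, smul_mul_assoc, h'.pn, h'.nn, one_mul, sub_zero, smul_zero,
      add_zero]
  have key : ∀ X Y : A, X * G * Y = (X * ((1 - P) + (-c) • N + l • P)) * G *
      (((1 - P') + c • N' + l' • P') * Y) := by
    intro X Y
    conv_lhs => rw [← hG]
    simp only [mul_assoc]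
  have z : ∀ {X : A} {m : ℂ}, m ≠ 1 → X = m • X → X = 0 := by
    intro X m hm hX
    have h1 : (1 - m) • X = 0 := by rw [sub_smul, one_smul, ← hX, sub_self]
    exact (smul_eq_zero.mp h1).resolve_left (sub_ne_zero.mpr hm.symm)
  have c1 : N * G * P' = 0 := by
    refine z hl' ?_
    conv_lhs => rw [key, a3, b2, mul_smul_comm]
  have c2 : (1 - P) * G * P' = 0 := by
    refine z hl' ?_
    conv_lhs => rw [key, a1, b2, mul_smul_comm, add_mul, add_mul, smul_mul_assoc, smul_mul_assoc,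
      c1, smul_zero, add_zero]
  have c3 : P * G * N' = 0 := by
    refine z hl ?_
    conv_lhs => rw [key, a2, b3, smul_mul_assoc, smul_mul_assoc]
  have c4 : P * G * (1 - P') = 0 := by
    refine z hl ?_
    conv_lhs => rw [key, a2, b1, smul_mul_assoc, smul_mul_assoc, mul_add, mul_smul_comm, c3,
      smul_zero, add_zero]
  have d1 : N * G * N' = 0 := by
    have k := key N (1 - P')
    rw [a3, b1, mul_add, mul_smul_comm] at k
    have k2 : c • (N * G * N') = 0 := by simpa using k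
    exact (smul_eq_zero.mp k2).resolve_left hc
  have d2 : N * G * (1 - P') = (1 - P) * G * N' := by
    have k := key (1 - P) (1 - P')
    rw [a1, b1, mul_add, add_mul, add_mul, add_mul, mul_smul_comm, smul_mul_assoc,
      smul_mul_assoc, mul_smul_comm, smul_mul_assoc, d1, smul_zero, smul_zero, add_zero] at k
    have k2 : c • ((1 - P) * G * N' - N * G * (1 - P')) = 0 := by
      rw [smul_sub]
      rw [neg_smul, add_assoc] at k
      have k3 := left_eq_add.mp k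
      rw [← k3]
      abel
    exact (sub_eq_zero.mp ((smul_eq_zero.mp k2).resolve_left hc)).symm
  refine ⟨c2, c4, ?_⟩
  rw [mul_sub, mul_one, c1, sub_zero, sub_mul, sub_mul, c3, sub_zero, one_mul] at d2
  exact d2


/-- The hypothesis: a two-sided linear system on the half plane `re t ≤ s0`. -/
def Sys (s0 : ℝ) (M M' H : ℂ → A) : Prop :=
  ∀ t : ℂ, t.re ≤ s0 → ∀ ξ : ℂ, HasDerivAt (fun x : ℝ => H (t + x * ξ))
    (ξ • (M t * H t) + (starRingEnd ℂ ξ) • (H t * M' t)) 0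

/-- The gauge transformed function. -/
noncomputable def Gt (κ : ℝ) (N P N' P' : A) (H : ℂ → A) (t : ℂ) : A :=
  Ez κ N P (-t) * H t * Ez κ N' P' (-(starRingEnd ℂ t))

lemma Sys.gauge {κ s0 : ℝ} {N P N' P' : A} (h : NP N P) (h' : NP N' P') {M M' H : ℂ → A}
    (hs : Sys s0 M M' H) :
    Sys s0 (fun t => Ez κ N P (-t) * (M t - (N + (κ : ℂ) • P)) * Ez κ N P t)
      (fun t => Ez κ N' P' (starRingEnd ℂ t) * (M' t - (N' + (κ : ℂ) • P')) *
        Ez κ N' P' (-(starRingEnd ℂ t))) (Gt κ N P N' P' H) := by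
  intro t ht ξ
  have e1 := hasDerivAt_Ez κ N P (-t) (-ξ)
  have e2 := hasDerivAt_Ez κ N' P' (-(starRingEnd ℂ t)) (-(starRingEnd ℂ ξ))
  rw [← Ez_mul_res h] at e1
  rw [← res_mul_Ez h'] at e2
  have e3 := (e1.mul (hs t ht ξ)).mul e2
  simp only [Pi.mul_apply, Complex.ofReal_zero, zero_mul, add_zero] at e3
  have e4 : (ξ • (Ez κ N P (-t) * (M t - (N + (κ : ℂ) • P)) * Ez κ N P t *
        Gt κ N P N' P' H t) + (starRingEnd ℂ ξ) • (Gt κ N P N' P' H t *
        (Ez κ N' P' (starRingEnd ℂ t) * (M' t - (N' + (κ : ℂ) • P')) *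
          Ez κ N' P' (-(starRingEnd ℂ t))))) =
      (-ξ • (Ez κ N P (-t) * (N + (κ : ℂ) • P)) * H t +
        Ez κ N P (-t) * (ξ • (M t * H t) + (starRingEnd ℂ ξ) • (H t * M' t))) *
          Ez κ N' P' (-(starRingEnd ℂ t)) +
        Ez κ N P (-t) * H t * -(starRingEnd ℂ ξ) • ((N' + (κ : ℂ) • P') *
          Ez κ N' P' (-(starRingEnd ℂ t))) := by
    have i1 : ∀ X : A, Ez κ N P t * (Ez κ N P (-t) * X) = X := fun X => by
      rw [← mul_assoc, Ez_mul_neg h, one_mul]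
    have i2 : ∀ X : A, Ez κ N' P' (-(starRingEnd ℂ t)) * (Ez κ N' P' (starRingEnd ℂ t) * X) = X :=
      fun X => by rw [← mul_assoc, Ez_neg_mul h', one_mul]
    unfold Gt
    generalize N + (κ : ℂ) • P = R at *
    generalize N' + (κ : ℂ) • P' = R' at *
    simp only [mul_assoc, i1, i2, mul_sub, sub_mul, mul_add, add_mul, smul_mul_assoc,
      mul_smul_comm, smul_sub, neg_smul, neg_mul, mul_neg]
    abel
  rw [e4]
  refine e3.congr_of_eventuallyEq (Eventually.of_forall fun x => ?_)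
  simp only [Gt, Pi.mul_apply, map_add, map_mul, Complex.conj_ofReal, neg_add, mul_neg]

lemma Sys.norm_le {s0 C d : ℝ} {B B' G : ℂ → A} {t ξ : ℂ} (hξ : ‖ξ‖ = 1)
    (h1 : ‖B t‖ ≤ C * Real.exp (d * t.re)) (h2 : ‖B' t‖ ≤ C * Real.exp (d * t.re))
    (_hs : Sys s0 B B' G) :
    ‖ξ • (B t * G t) + (starRingEnd ℂ ξ) • (G t * B' t)‖ ≤
      2 * C * Real.exp (d * t.re) * ‖G t‖ := by
  refine (norm_add_le _ _).trans ?_
  rw [norm_smul, norm_smul, Complex.norm_conj, hξ, one_mul, one_mul]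
  have e1 : ‖B t * G t‖ ≤ C * Real.exp (d * t.re) * ‖G t‖ :=
    (norm_mul_le _ _).trans (by gcongr)
  have e2 : ‖G t * B' t‖ ≤ ‖G t‖ * (C * Real.exp (d * t.re)) :=
    (norm_mul_le _ _).trans (by gcongr)
  linarith

lemma Sys.rad {s0 : ℝ} {B B' G : ℂ → A} (hs : Sys s0 B B' G) {s : ℝ} (h : s ≤ s0) :
    HasDerivAt (fun x : ℝ => G x) ((1 : ℂ) • (B s * G s) + (starRingEnd ℂ 1) • (G s * B' s))
      s := by
  have h1 := hs s (by simpa using h) 1
  have h2 : HasDerivAt (fun x : ℝ => G (0 + s * 1 + x * 1))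
      ((1 : ℂ) • (B s * G s) + (starRingEnd ℂ 1) • (G s * B' s)) 0 := by
    rw [zero_add, mul_one]
    exact h1
  have h3 := hasDerivAt_shift h2
  simp only [zero_add, mul_one] at h3
  exact h3

lemma Sys.ang {s0 : ℝ} {B B' G : ℂ → A} (hs : Sys s0 B B' G) {s : ℝ} (h : s ≤ s0) (y : ℝ) :
    HasDerivAt (fun x : ℝ => G (s + x * Complex.I))
      (Complex.I • (B (s + y * Complex.I) * G (s + y * Complex.I)) +
        (starRingEnd ℂ Complex.I) • (G (s + y * Complex.I) * B' (s + y * Complex.I))) y :=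
  hasDerivAt_shift (hs (s + y * Complex.I) (by simpa using h) Complex.I)

lemma Sys.strip {s0 C d : ℝ} {B B' G : ℂ → A} (hs : Sys s0 B B' G) (hC : 0 ≤ C) (hd : 0 < d)
    (hs0 : s0 ≤ 0)
    (hB : ∀ t : ℂ, t.re ≤ s0 → |t.im| ≤ 7 →
      ‖B t‖ ≤ C * Real.exp (d * t.re) ∧ ‖B' t‖ ≤ C * Real.exp (d * t.re))
    {s y : ℝ} (h : s ≤ s0) (hy0 : 0 ≤ y) (hy : y ≤ 7) :
    ‖G (s + y * Complex.I) - G s‖ ≤
      14 * C * Real.exp (14 * C) * ‖G s‖ * Real.exp (d * s) := by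
  have he : Real.exp (d * s) ≤ 1 := Real.exp_le_one_iff.mpr (by nlinarith)
  have hb : ∀ x : ℝ, x ∈ Icc 0 y →
      ‖Complex.I • (B (s + x * Complex.I) * G (s + x * Complex.I)) +
        (starRingEnd ℂ Complex.I) • (G (s + x * Complex.I) * B' (s + x * Complex.I))‖ ≤
      2 * C * Real.exp (d * s) * ‖G (s + x * Complex.I)‖ := by
    intro x hx
    have h1 := hB (s + x * Complex.I) (by simpa using h)
      (by simpa [abs_of_nonneg hx.1] using hx.2.trans hy)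
    have h2 := hs.norm_le Complex.norm_I h1.1 h1.2
    simpa using h2
  have hn : ∀ x : ℝ, x ∈ Icc 0 y → ‖G (s + x * Complex.I)‖ ≤ ‖G s‖ * Real.exp (14 * C) := by
    intro x hx
    have h1 := gron_fwd (f := fun x : ℝ => G (s + x * Complex.I)) (k := fun x => 2 * C * x)
      (k' := fun _ => 2 * C) hx.1 (fun z _ => hs.ang h z)
      (fun z => by simpa using (hasDerivAt_id z).const_mul (2 * C))
      (fun z hz => (hb z ⟨hz.1, hz.2.trans hx.2⟩).trans (by
        have : 2 * C * Real.exp (d * s) ≤ 2 * C := by nlinarith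
        gcongr))
    simp only [Complex.ofReal_zero, zero_mul, add_zero, mul_zero, sub_zero] at h1
    refine h1.trans (mul_le_mul_of_nonneg_left (Real.exp_le_exp.mpr ?_) (norm_nonneg _))
    nlinarith [hx.2]
  have h3 := norm_image_sub_le_of_norm_deriv_right_le_segment
    (f := fun x : ℝ => G (s + x * Complex.I)) (a := 0) (b := y)
    (C := 2 * C * Real.exp (d * s) * (‖G s‖ * Real.exp (14 * C)))
    (fun z _ => (hs.ang h z).continuousAt.continuousWithinAt)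
    (fun z _ => (hs.ang h z).hasDerivWithinAt)
    (fun z hz => (hb z (Ico_subset_Icc_self hz)).trans (by
      have := hn z (Ico_subset_Icc_self hz)
      gcongr)) y (right_mem_Icc.mpr hy0)
  simp only [Complex.ofReal_zero, zero_mul, add_zero, sub_zero] at h3
  refine h3.trans ?_
  calc 2 * C * Real.exp (d * s) * (‖G s‖ * Real.exp (14 * C)) * y
      ≤ 2 * C * Real.exp (d * s) * (‖G s‖ * Real.exp (14 * C)) * 7 := by gcongr
    _ = _ := by ring

/-- Limit of a two-sided system with exponentially small coefficients. -/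
lemma Sys.limit [CompleteSpace A] {s0 C d M : ℝ} {B B' G : ℂ → A} (hs : Sys s0 B B' G)
    (hC : 0 ≤ C) (hd : 0 < d) (hs0 : s0 ≤ 0)
    (hB : ∀ t : ℂ, t.re ≤ s0 → |t.im| ≤ 7 →
      ‖B t‖ ≤ C * Real.exp (d * t.re) ∧ ‖B' t‖ ≤ C * Real.exp (d * t.re))
    (hu : ∀ s : ℝ, s ≤ s0 → IsUnit (G s)) (hM : ‖G s0‖ ≤ M) (hM' : ‖Ring.inverse (G s0)‖ ≤ M) :
    ∃ L J : A, L * J = 1 ∧ J * L = 1 ∧ ‖L‖ ≤ Real.exp (2 * C / d) * M ∧
      ‖J‖ ≤ Real.exp (2 * C / d) * M ∧
      (∀ s : ℝ, s ≤ s0 → ‖G s‖ ≤ Real.exp (2 * C / d) * M ∧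
        ‖Ring.inverse (G s)‖ ≤ Real.exp (2 * C / d) * M) ∧ ∀ s y : ℝ, s ≤ s0 → 0 ≤ y → y ≤ 7 →
        ‖G (s + y * Complex.I) - L‖ ≤
          (14 * C * Real.exp (14 * C) + 2 * C / d) * (Real.exp (2 * C / d) * M) *
            Real.exp (d * s) := by
  have hM0 : 0 ≤ M := (norm_nonneg _).trans hM
  have hK : Real.exp (2 * C / d * Real.exp (d * s0)) ≤ Real.exp (2 * C / d) := by
    have he : Real.exp (d * s0) ≤ 1 := Real.exp_le_one_iff.mpr (by nlinarith)
    have : 0 ≤ 2 * C / d := by positivity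
    exact Real.exp_le_exp.mpr (by nlinarith)
  have hB0 : ∀ s : ℝ, s ≤ s0 →
      ‖B s‖ ≤ C * Real.exp (d * s) ∧ ‖B' s‖ ≤ C * Real.exp (d * s) := fun s h => by
    simpa using hB s (by simpa using h) (by simp)
  have hb : ∀ s : ℝ, s ≤ s0 → ‖(1 : ℂ) • (B s * G s) + (starRingEnd ℂ 1) • (G s * B' s)‖ ≤
      2 * C * Real.exp (d * s) * ‖G s‖ := fun s h =>
    hs.norm_le (t := s) norm_one (hB0 s h).1 (hB0 s h).2
  have hG : ∀ s : ℝ, s ≤ s0 → ‖G s‖ ≤ Real.exp (2 * C / d) * M := fun s h =>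
    (two_sided (Z := fun x : ℝ => G x) (by positivity) hd (fun s h => hs.rad h) hb h le_rfl).trans
      (by gcongr)
  obtain ⟨L, hL⟩ := lim_of_small (Z := fun x : ℝ => G x)
    (D := 2 * C * (Real.exp (2 * C / d) * M)) (by positivity) hd (fun s h => hs.rad h)
    (fun s h => (hb s h).trans (by
      have := hG s h
      calc 2 * C * Real.exp (d * s) * ‖G s‖
          ≤ 2 * C * Real.exp (d * s) * (Real.exp (2 * C / d) * M) := by gcongr
        _ = _ := by ring))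
  have hJd : ∀ s : ℝ, s ≤ s0 → HasDerivAt (fun x : ℝ => Ring.inverse (G x))
      (-(Ring.inverse (G s) * B s + B' s * Ring.inverse (G s))) s := by
    intro s h
    obtain ⟨u, hu'⟩ := hu s h
    have h1 := hasFDerivAt_ringInverse (𝕜 := ℝ) u
    rw [hu'] at h1
    have h2 := h1.comp_hasDerivAt s (hs.rad h)
    have h3 : (-ContinuousLinearMap.mulLeftRight ℝ A (↑u⁻¹) (↑u⁻¹))
        ((1 : ℂ) • (B s * G s) + (starRingEnd ℂ 1) • (G s * B' s)) =
        -(Ring.inverse (G s) * B s + B' s * Ring.inverse (G s)) := by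
      rw [← hu', Ring.inverse_unit]
      simp [mul_add, add_mul, mul_assoc]
    rw [h3] at h2
    exact h2
  have hJb : ∀ s : ℝ, s ≤ s0 → ‖-(Ring.inverse (G s) * B s + B' s * Ring.inverse (G s))‖ ≤
      2 * C * Real.exp (d * s) * ‖Ring.inverse (G s)‖ := by
    intro s h
    rw [norm_neg]
    refine (norm_add_le _ _).trans ?_
    have h1 := (hB0 s h).1
    have h2 := (hB0 s h).2
    have e1 : ‖Ring.inverse (G s) * B s‖ ≤ ‖Ring.inverse (G s)‖ * (C * Real.exp (d * s)) :=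
      (norm_mul_le _ _).trans (by gcongr)
    have e2 : ‖B' s * Ring.inverse (G s)‖ ≤ C * Real.exp (d * s) * ‖Ring.inverse (G s)‖ :=
      (norm_mul_le _ _).trans (by gcongr)
    linarith
  obtain ⟨J, hJ⟩ := levinson (by positivity) hd hJd hJb
  have tL := tendsto_of_rate hd hL
  have tJ := tendsto_of_rate hd hJ
  have ev := eventually_le_atBot s0
  have hJn : ∀ s : ℝ, s ≤ s0 → ‖Ring.inverse (G s)‖ ≤ Real.exp (2 * C / d) * M := fun s h =>
    (two_sided (by positivity) hd hJd hJb h le_rfl).trans (by gcongr)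
  refine ⟨L, J, ?_, ?_, ?_, ?_, fun s h => ⟨hG s h, hJn s h⟩, fun s y h hy0 hy => ?_⟩
  · refine tendsto_nhds_unique (tL.mul tJ) (tendsto_const_nhds.congr' ?_)
    filter_upwards [ev] with s h
    exact (Ring.mul_inverse_cancel _ (hu s h)).symm
  · refine tendsto_nhds_unique (tJ.mul tL) (tendsto_const_nhds.congr' ?_)
    filter_upwards [ev] with s h
    exact (Ring.inverse_mul_cancel _ (hu s h)).symm
  · exact le_of_tendsto tL.norm (ev.mono hG)
  · exact le_of_tendsto tJ.norm (ev.mono hJn)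
  · have h1 := hs.strip hC hd hs0 hB h hy0 hy
    have h2 := hL s h
    have h3 := hG s h
    have h4 : 14 * C * Real.exp (14 * C) * ‖G s‖ * Real.exp (d * s) ≤
        14 * C * Real.exp (14 * C) * (Real.exp (2 * C / d) * M) * Real.exp (d * s) := by gcongr
    calc ‖G (s + y * Complex.I) - L‖
        ≤ ‖G (s + y * Complex.I) - G s‖ + ‖G s - L‖ := norm_sub_le_norm_sub_add_norm_sub _ _ _
      _ ≤ 14 * C * Real.exp (14 * C) * (Real.exp (2 * C / d) * M) * Real.exp (d * s) +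
          2 * C * (Real.exp (2 * C / d) * M) / d * Real.exp (d * s) := add_le_add (h1.trans h4) h2
      _ = _ := by ring

lemma exp_ne_one {κ : ℝ} (h0 : 0 < κ) (h1 : κ < 1) :
    Complex.exp (κ * (2 * Real.pi * Complex.I)) ≠ 1 ∧
      Complex.exp (κ * -(2 * Real.pi * Complex.I)) ≠ 1 := by
  have h : Complex.exp (κ * (2 * Real.pi * Complex.I)) ≠ 1 := by
    intro h
    obtain ⟨n, hn⟩ := Complex.exp_eq_one_iff.mp h
    have h2 : (κ : ℂ) = n := mul_right_cancel₀ Complex.two_pi_I_ne_zero hn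
    have h3 : κ = n := by exact_mod_cast h2
    rw [h3] at h0 h1
    have h4 : 0 < n := by exact_mod_cast h0
    have h5 : n < 1 := by exact_mod_cast h1
    omega
  refine ⟨h, fun h' => h ?_⟩
  rw [mul_neg, Complex.exp_neg, inv_eq_one] at h'
  exact h'

lemma norm_conj_le {κ ε d b C : ℝ} {N P X : A} (hκ : 0 ≤ κ) (hε : 0 < ε) (hr : κ + 2 * ε + d ≤ 1)
    (h1 : ‖1 - P‖ ≤ b) (hN : ‖N‖ ≤ b) (hP : ‖P‖ ≤ b) {t : ℂ} (ht : t.re ≤ 0) (hi : |t.im| ≤ 7)
    (hX : ‖X‖ ≤ C * Real.exp t.re) :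
    ‖Ez κ N P (-t) * X * Ez κ N P t‖ ≤ (b * (9 + ε⁻¹)) ^ 2 * C * Real.exp (d * t.re) ∧
      ‖Ez κ N P t * X * Ez κ N P (-t)‖ ≤ (b * (9 + ε⁻¹)) ^ 2 * C * Real.exp (d * t.re) := by
  have hb : 0 ≤ b := (norm_nonneg _).trans hN
  have hC : 0 ≤ C := nonneg_of_mul_nonneg_left ((norm_nonneg _).trans hX) (Real.exp_pos _)
  have e1 := norm_Ez_pos hκ hε h1 hN hP ht hi
  have e2 := norm_Ez_neg hκ hε h1 hN hP ht hi
  have e3 : ‖Ez κ N P (-t)‖ * ‖X‖ * ‖Ez κ N P t‖ ≤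
      (b * (9 + ε⁻¹)) ^ 2 * C * Real.exp (d * t.re) := by
    calc ‖Ez κ N P (-t)‖ * ‖X‖ * ‖Ez κ N P t‖
        ≤ (b * (9 + ε⁻¹) * Real.exp (-(κ + ε) * t.re)) * (C * Real.exp t.re) *
          (b * (9 + ε⁻¹) * Real.exp (-ε * t.re)) := by gcongr
      _ = (b * (9 + ε⁻¹)) ^ 2 * C * Real.exp (-(κ + ε) * t.re + t.re + -ε * t.re) := by
          rw [Real.exp_add, Real.exp_add]; ring
      _ ≤ _ := mul_le_mul_of_nonneg_left (Real.exp_le_exp.mpr (by nlinarith)) (by positivity)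
  constructor
  · exact ((norm_mul_le _ _).trans
      (mul_le_mul_of_nonneg_right (norm_mul_le _ _) (norm_nonneg _))).trans e3
  · refine ((norm_mul_le _ _).trans
      (mul_le_mul_of_nonneg_right (norm_mul_le _ _) (norm_nonneg _))).trans ?_
    linarith [show ‖Ez κ N P t‖ * ‖X‖ * ‖Ez κ N P (-t)‖ =
      ‖Ez κ N P (-t)‖ * ‖X‖ * ‖Ez κ N P t‖ by ring]

/-- Main asymptotic statement for the gauge transformed function. -/
theorem core [CompleteSpace A] {κ ε d b C M s0 : ℝ} {N P N' P' : A} {B B' H : ℂ → A}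
    (hκ : 0 < κ) (hε : 0 < ε) (hd : 0 < d) (hr : κ + 2 * ε + d ≤ 1) (hC : 0 ≤ C) (hs0 : s0 ≤ 0)
    (h : NP N P) (h' : NP N' P') (h1 : ‖1 - P‖ ≤ b) (hN : ‖N‖ ≤ b) (hP : ‖P‖ ≤ b)
    (h1' : ‖1 - P'‖ ≤ b) (hN' : ‖N'‖ ≤ b) (hP' : ‖P'‖ ≤ b) (hs : Sys s0 B B' H)
    (hB : ∀ t : ℂ, t.re ≤ s0 → ‖B t - (N + (κ : ℂ) • P)‖ ≤ C * Real.exp t.re ∧
      ‖B' t - (N' + (κ : ℂ) • P')‖ ≤ C * Real.exp t.re)
    (hp : ∀ s : ℝ, s ≤ s0 → H (s + 2 * Real.pi * Complex.I) = H s)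
    (hu : ∀ s : ℝ, s ≤ s0 → IsUnit (H s)) (hM : ‖Gt κ N P N' P' H s0‖ ≤ M)
    (hM' : ‖Ring.inverse (Gt κ N P N' P' H s0)‖ ≤ M) {C1 K1 : ℝ}
    (hC1 : C1 = (b * (9 + ε⁻¹)) ^ 2 * C) (hK1 : K1 = Real.exp (2 * C1 / d) * M) :
    ∃ L J : A, L * J = 1 ∧ J * L = 1 ∧ ‖L‖ ≤ K1 ∧ ‖J‖ ≤ K1 ∧
      (1 - P) * L * P' = 0 ∧ P * L * (1 - P') = 0 ∧ N * L = L * N' ∧
      (∀ s : ℝ, s ≤ s0 → ‖Gt κ N P N' P' H s‖ ≤ K1 ∧
        ‖Ring.inverse (Gt κ N P N' P' H s)‖ ≤ K1) ∧
      ∀ s y : ℝ, s ≤ s0 → 0 ≤ y → y ≤ 7 →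
        ‖Gt κ N P N' P' H (s + y * Complex.I) - L‖ ≤
          (14 * C1 * Real.exp (14 * C1) + 2 * C1 / d) * K1 * Real.exp (d * s) := by
  have hEu : ∀ {N P : A}, NP N P → ∀ t, IsUnit (Ez κ N P (-t)) := fun h t =>
    ⟨⟨_, _, Ez_neg_mul h t, Ez_mul_neg h t⟩, rfl⟩
  obtain ⟨L, J, a1, a2, a3, a4, a5, a6⟩ := (hs.gauge (κ := κ) h h').limit (C := C1) (d := d)
    (M := M) (by rw [hC1]; positivity) hd hs0 (fun t ht hi => by
      rw [hC1]
      refine ⟨(norm_conj_le hκ.le hε hr h1 hN hP (ht.trans hs0) hi (hB t ht).1).1, ?_⟩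
      exact (norm_conj_le (t := starRingEnd ℂ t) hκ.le hε hr h1' hN' hP' (ht.trans hs0)
        (by simpa using hi) (hB t ht).2).2)
    (fun s hs' => ((hEu h _).mul (hu s hs')).mul (hEu h' _)) hM hM'
  rw [← hK1] at a3 a4 a5 a6
  have t0 : Tendsto (fun s : ℝ => Gt κ N P N' P' H s) atBot (𝓝 L) :=
    tendsto_of_rate hd fun s hs' => by simpa using a6 s 0 hs' le_rfl (by norm_num)
  have t1 : Tendsto (fun s : ℝ => Gt κ N P N' P' H (s + ((2 * Real.pi : ℝ) : ℂ) * Complex.I))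
      atBot (𝓝 L) :=
    tendsto_of_rate hd fun s hs' => a6 s (2 * Real.pi) hs' (by positivity)
      (by linarith [Real.pi_lt_d2])
  have t2 : Ez κ N P (-(2 * Real.pi * Complex.I)) * L * Ez κ N' P' (2 * Real.pi * Complex.I) =
      L := by
    refine tendsto_nhds_unique ((t0.const_mul _).mul_const _) (t1.congr' ?_)
    filter_upwards [eventually_le_atBot s0] with s hs'
    have e1 : -((s : ℂ) + 2 * Real.pi * Complex.I) = -(2 * Real.pi * Complex.I) + -s := by ring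
    have e2 : -(starRingEnd ℂ ((s : ℂ) + 2 * Real.pi * Complex.I)) =
        -(starRingEnd ℂ s) + 2 * Real.pi * Complex.I := by
      simp only [map_add, map_mul, Complex.conj_ofReal, Complex.conj_I, map_ofNat]
      ring
    push_cast
    unfold Gt
    rw [hp s hs', e1, e2, ← Ez_add h, ← Ez_add h']
    simp only [mul_assoc]
  have hk := exp_ne_one hκ (by linarith)
  obtain ⟨c1, c2, c3⟩ := alg_of_inv h h' Complex.two_pi_I_ne_zero hk.2 hk.1 t2
  exact ⟨L, J, a1, a2, a3, a4, c1, c2, c3, a5, a6⟩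

end Pool.Agent.BP.Lev
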