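import Pool.Agent.Lib.MP_0c623d_al.BP.Final

set_option autoImplicit false

/-!
The embedding into the general linear group, and finite quotients.
-/

namespace Pool.Agent.Lib.MP_0c623d_al.BP

open Pool.Agent.BP.F Pool.Agent.BP.G

theorem lin_of {k : ℕ} (hk : Odd k) (h3 : 6 ∣ 2 * k) (A : AN k) :
    ∃ ρ : F2 ⧸ Pm (2 * k) →* GL (Fin 6) ℂ, Function.Injective ρ := by
  obtain ⟨r1, r2, r3, r4⟩ := relStmt k hk A
  have k0 : 2 * k ≠ 0 := by have := hk.pos; omega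
  let u : Fin 3 → Matˣ := fun p => Units.ofPowEqOne (A.R p) (2 * k) (r4 p) k0
  have hb : Braid (u 0) (u 1) (u 2) := ⟨Units.ext r1, Units.ext r2, Units.ext r3⟩
  have hp : u 0 ^ (2 * k) = 1 := Units.pow_ofPowEqOne _ _
  have b := genB_braid (2 * k)
  let L : Lab k (Pool.Agent.BP.G.Bm (2 * k)) := ⟨genB (2 * k), ⟨b.ab, b.bc, b.ac⟩, genB_pow_all _⟩
  have hρ : A.Rep L.s (liftB hb hp) := fun p => by
    show ((liftB hb hp (genB (2 * k) p) : Matˣ) : Mat) = _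
    rw [liftB_gen]
    fin_cases p <;> rfl
  refine ⟨(liftB hb hp).comp (embB (2 * k)), (injective_iff_map_eq_one _).2 fun g hg => ?_⟩
  by_contra hne
  exact embB_notMem h3 hne (mainStmt k hk A _ L (genB_closure _) _ hρ _ hg)

theorem fin_quot {G : Type} [Group G] {g : G} {H : Subgroup G} (h1 : H.index ≠ 0) (h2 : g ∉ H) :
    ∃ (Q : Type) (_ : Group Q) (_ : Finite Q) (φ : G →* Q), φ g ≠ 1 := by
  have : H.FiniteIndex := ⟨h1⟩
  refine ⟨G ⧸ H.normalCore, inferInstance, inferInstance, QuotientGroup.mk' _, fun h => h2 ?_⟩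
  exact H.normalCore_le ((QuotientGroup.eq_one_iff g).1 h)

theorem rf_of {k : ℕ} (hk : Odd k) (h3 : 6 ∣ 2 * k) (A : AN k) (g : F2 ⧸ Pm (2 * k))
    (hg : g ≠ 1) : ∃ (Q : Type) (_ : Group Q) (_ : Finite Q) (φ : F2 ⧸ Pm (2 * k) →* Q),
      φ g ≠ 1 := by
  obtain ⟨H, h1, h2⟩ := rf_of_sep h3 (sep_of_AN mainStmt relStmt hk A) g hg
  exact fin_quot h1 h2

end Pool.Agent.Lib.MP_0c623d_al.BP
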