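import Pool.Agent.Lib.MP_0c623d_al.BP.ADefs

set_option autoImplicit false

/-!
A logarithmic lower bound for the square norm of `(x + y) Φ'` near a triple collision.
-/

namespace Pool.Agent.Lib.MP_0c623d_al.BP

open Complex MeasureTheory Set
open scoped ComplexConjugate

noncomputable section

theorem lg_ann (u v : ℝ) (hu : 0 < u) (huv : u ≤ v) :
    ∫ y : ℂ, (Ioo u v).indicator (fun t : ℝ => (t ^ 2)⁻¹) ‖y‖ = 2 * Real.pi * Real.log (v / u) := by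
  rw [integral_fun_norm_addHaar (volume : Measure ℂ)
    ((Ioo u v).indicator (fun t : ℝ => (t ^ 2)⁻¹))]
  have h1 : ∫ y in Ioi (0 : ℝ), y ^ (Module.finrank ℝ ℂ - 1) •
      (Ioo u v).indicator (fun t : ℝ => (t ^ 2)⁻¹) y = Real.log (v / u) := by
    have h2 : ∀ y : ℝ, y ^ (Module.finrank ℝ ℂ - 1) •
        (Ioo u v).indicator (fun t : ℝ => (t ^ 2)⁻¹) y =
        (Ioo u v).indicator (fun t : ℝ => t⁻¹) y := by
      intro y
      by_cases hy : y ∈ Ioo u v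
      · have : y ≠ 0 := (hu.trans hy.1).ne'
        simp only [indicator_of_mem hy, Complex.finrank_real_complex, smul_eq_mul]
        field_simp
        simp
      · simp [indicator_of_notMem hy]
    simp only [h2]
    rw [setIntegral_indicator measurableSet_Ioo]
    have h3 : Ioi (0 : ℝ) ∩ Ioo u v = Ioo u v :=
      inter_eq_right.mpr fun y hy => hu.trans hy.1
    rw [h3, ← integral_Ioc_eq_integral_Ioo, ← intervalIntegral.integral_of_le huv,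
      integral_inv_of_pos hu (hu.trans_le huv)]
  rw [h1]
  simp [Complex.finrank_real_complex, Measure.real, Complex.volume_ball]
  ring

theorem lg_ball (ρ : ℝ) (hρ : 0 < ρ) :
    ∫ x : ℂ, (Metric.ball (0 : ℂ) ρ).indicator (fun _ => (1 : ℝ)) x = Real.pi * ρ ^ 2 := by
  rw [integral_indicator measurableSet_ball]
  simp [Measure.real, Complex.volume_ball, hρ.le]
  ring

theorem lg_pow {u b σ : ℝ} (hu : 0 < u) (hb : u ≤ b) (hσ : σ ≤ 0) : b ^ σ ≤ u ^ σ :=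
  Real.rpow_le_rpow_of_nonpos hu hb hσ

theorem lg_two {σ : ℝ} (h : -2 ≤ σ) : (1 / 4 : ℝ) ≤ 2 ^ σ := by
  have := Real.rpow_le_rpow_of_exponent_le (x := 2) (by norm_num) h
  refine le_trans (le_of_eq ?_) this
  rw [Real.rpow_neg (by norm_num)]
  norm_num

theorem lg_dbl {u b σ : ℝ} (hu : 0 < u) (hb : 0 < b) (h : u ≤ 2 * b) (h0 : σ ≤ 0) (h2 : -2 ≤ σ) :
    1 / 4 * b ^ σ ≤ u ^ σ := by
  refine le_trans ?_ (lg_pow hu h h0)
  rw [Real.mul_rpow (by norm_num) hb.le]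
  exact mul_le_mul_of_nonneg_right (lg_two h2) (Real.rpow_nonneg hb.le _)

theorem lg_pt (e : ℝ) (he : 0 < e) (he' : e < 1 / 12) (ρ r : ℝ) (hρ : 0 < ρ) (hρr : ρ ≤ r)
    (hr : 8 * r < 1) (a : Cf) (h0 : ‖a 0‖ ≤ ρ) (h1 : ‖a 1‖ ≤ ρ) (h2 : ‖a 2‖ ≤ r) (h3 : ‖a 3‖ ≤ 1)
    (x y : ℂ) (hx : ∀ i, x ≠ a i) (hy : ∀ i, y ≠ a i) (hxρ : ‖x‖ < ρ) (hy1 : 4 * r < ‖y‖)
    (hy2 : ‖y‖ < 1 / 2) :
    (1 / 4) ^ 10 * (ρ ^ (2 * (-1 / 2 - e)) * ρ ^ (2 * (-1 / 2 - e)) * r ^ (2 * (-1 / 2 - e))) *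
      (‖y‖ ^ 2)⁻¹ ≤ ‖ell ![0, 1, 0] x y‖ ^ 2 * wt e a (x, y) := by
  set σ : ℝ := 2 * (-1 / 2 - e) with hσ
  set τ : ℝ := 2 * (-1 / 2 + 3 * e) with hτ
  have hσ0 : σ ≤ 0 := by rw [hσ]; linarith
  have hσ2 : -2 ≤ σ := by rw [hσ]; linarith
  have hτ0 : τ ≤ 0 := by rw [hτ]; linarith
  have hτ2 : -2 ≤ τ := by rw [hτ]; linarith
  have hr0 : 0 < r := hρ.trans_le hρr
  have hy0 : 0 < ‖y‖ := by linarith
  have px : ∀ i, 0 < ‖x - a i‖ := fun i => norm_pos_iff.mpr (sub_ne_zero.mpr (hx i))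
  have py : ∀ i, 0 < ‖y - a i‖ := fun i => norm_pos_iff.mpr (sub_ne_zero.mpr (hy i))
  have ux : ∀ i, ‖x - a i‖ ≤ ‖x‖ + ‖a i‖ := fun i => norm_sub_le _ _
  have uy : ∀ i, ‖y - a i‖ ≤ ‖y‖ + ‖a i‖ := fun i => norm_sub_le _ _
  have x0 := lg_dbl (px 0) hρ (by linarith [ux 0]) hσ0 hσ2
  have x1 := lg_dbl (px 1) hρ (by linarith [ux 1]) hσ0 hσ2
  have x2 := lg_dbl (px 2) hr0 (by linarith [ux 2]) hσ0 hσ2
  have x3 := lg_dbl (px 3) one_pos (by linarith [ux 3]) hσ0 hσ2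
  have y0 := lg_dbl (py 0) hy0 (by linarith [uy 0]) hσ0 hσ2
  have y1 := lg_dbl (py 1) hy0 (by linarith [uy 1]) hσ0 hσ2
  have y2 := lg_dbl (py 2) hy0 (by linarith [uy 2]) hσ0 hσ2
  have y3 := lg_dbl (py 3) one_pos (by linarith [uy 3]) hσ0 hσ2
  rw [Real.one_rpow] at x3 y3
  have hd0 : 0 < ‖x - y‖ := by
    refine norm_pos_iff.mpr (sub_ne_zero.mpr ?_)
    rintro rfl
    linarith
  have hd := lg_dbl hd0 hy0 (by linarith [norm_sub_le x y]) hτ0 hτ2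
  have hs : 1 / 4 * ‖y‖ ^ 2 ≤ ‖ell ![0, 1, 0] x y‖ ^ 2 := by
    have h4 : ell ![0, 1, 0] x y = x + y := by simp [ell]
    have h5 : ‖y‖ ≤ ‖x + y‖ + ‖x‖ := by
      simpa using norm_sub_le (x + y) x
    have h6 : ‖y‖ / 2 ≤ ‖x + y‖ := by linarith
    rw [h4]
    nlinarith
  have hyy : ‖y‖ ^ 2 * (‖y‖ ^ σ * ‖y‖ ^ σ * ‖y‖ ^ σ * ‖y‖ ^ τ) = (‖y‖ ^ 2)⁻¹ := by
    rw [← Real.rpow_add hy0, ← Real.rpow_add hy0, ← Real.rpow_add hy0, ← Real.rpow_natCast,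
      ← Real.rpow_add hy0, ← Real.rpow_neg hy0.le]
    congr 1
    rw [hσ, hτ]
    push_cast
    ring
  have nρ : 0 ≤ ρ ^ σ := Real.rpow_nonneg hρ.le _
  have nr : 0 ≤ r ^ σ := Real.rpow_nonneg hr0.le _
  have ny : 0 ≤ ‖y‖ ^ σ := Real.rpow_nonneg hy0.le _
  have nt : 0 ≤ ‖y‖ ^ τ := Real.rpow_nonneg hy0.le _
  rw [← hyy]
  simp only [wt, Fin.prod_univ_four]
  calc _ = (1 / 4 * ‖y‖ ^ 2) * ((1 / 4 * ρ ^ σ) * (1 / 4 * ρ ^ σ) * (1 / 4 * r ^ σ) * (1 / 4 * 1) *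
        ((1 / 4 * ‖y‖ ^ σ) * (1 / 4 * ‖y‖ ^ σ) * (1 / 4 * ‖y‖ ^ σ) * (1 / 4 * 1)) *
        (1 / 4 * ‖y‖ ^ τ)) := by ring
    _ ≤ _ := by gcongr

/-- the logarithmic lower bound -/
theorem G_log (e : ℝ) (he : 0 < e) (he' : e < 1 / 12) (ρ r : ℝ) (hρ : 0 < ρ) (hρr : ρ ≤ r)
    (hr : 8 * r < 1) (a : Cf) (h0 : ‖a 0‖ ≤ ρ) (h1 : ‖a 1‖ ≤ ρ) (h2 : ‖a 2‖ ≤ r) (h3 : ‖a 3‖ ≤ 1)
    (hi : Integrable fun z : ℂ × ℂ => ‖ell ![0, 1, 0] z.1 z.2‖ ^ 2 * wt e a z) :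
    (1 / 4) ^ 10 * (2 * Real.pi ^ 2) * (ρ ^ (-4 * e) * r ^ (-1 - 2 * e) * Real.log (1 / (8 * r))) ≤
      G e a ![0, 1, 0] := by
  have hr0 : 0 < r := hρ.trans_le hρr
  set C : ℝ := (1 / 4) ^ 10 *
    (ρ ^ (2 * (-1 / 2 - e)) * ρ ^ (2 * (-1 / 2 - e)) * r ^ (2 * (-1 / 2 - e))) with hC
  have hC0 : 0 ≤ C := by positivity
  have hI : ∫ z : ℂ × ℂ, C * ((Metric.ball (0 : ℂ) ρ).indicator (fun _ => (1 : ℝ)) z.1 *
      (Ioo (4 * r) (1 / 2)).indicator (fun t : ℝ => (t ^ 2)⁻¹) ‖z.2‖) =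
      C * (Real.pi * ρ ^ 2 * (2 * Real.pi * Real.log (1 / 2 / (4 * r)))) := by
    rw [integral_const_mul, Measure.volume_eq_prod,
      integral_prod_mul (fun x : ℂ => (Metric.ball (0 : ℂ) ρ).indicator (fun _ => (1 : ℝ)) x)
        (fun y : ℂ => (Ioo (4 * r) (1 / 2)).indicator (fun t : ℝ => (t ^ 2)⁻¹) ‖y‖),
      lg_ball ρ hρ, lg_ann _ _ (by linarith) (by linarith)]
  have hE : C * (Real.pi * ρ ^ 2 * (2 * Real.pi * Real.log (1 / 2 / (4 * r)))) =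
      (1 / 4) ^ 10 * (2 * Real.pi ^ 2) *
        (ρ ^ (-4 * e) * r ^ (-1 - 2 * e) * Real.log (1 / (8 * r))) := by
    have e1 : ρ ^ (2 * (-1 / 2 - e)) * ρ ^ (2 * (-1 / 2 - e)) * ρ ^ 2 = ρ ^ (-4 * e) := by
      rw [← Real.rpow_add hρ, ← Real.rpow_natCast, ← Real.rpow_add hρ]
      congr 1
      push_cast
      ring
    have e2 : 2 * (-1 / 2 - e) = -1 - 2 * e := by ring
    have e3 : 1 / 2 / (4 * r) = 1 / (8 * r) := by field_simp; norm_num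
    rw [← e1, e3, hC, e2]
    ring
  rw [← hE, ← hI]
  have hne : ∀ᵐ x : ℂ, ∀ i, x ≠ a i := by
    rw [ae_all_iff]
    exact fun i => Measure.ae_ne volume (a i)
  have hw : ∀ z : ℂ × ℂ, 0 ≤ ‖ell ![0, 1, 0] z.1 z.2‖ ^ 2 * wt e a z := by
    intro z
    unfold wt
    positivity
  refine integral_mono_of_nonneg (Filter.Eventually.of_forall fun z => ?_) hi ?_
  · refine mul_nonneg hC0 (mul_nonneg (indicator_nonneg (fun _ _ => zero_le_one) _)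
      (indicator_nonneg (fun t _ => by positivity) _))
  · have q1 := (Measure.quasiMeasurePreserving_fst (μ := (volume : Measure ℂ))
      (ν := (volume : Measure ℂ))).ae hne
    have q2 := (Measure.quasiMeasurePreserving_snd (μ := (volume : Measure ℂ))
      (ν := (volume : Measure ℂ))).ae hne
    rw [Measure.volume_eq_prod]
    filter_upwards [q1, q2] with z z1 z2
    by_cases b1 : z.1 ∈ Metric.ball (0 : ℂ) ρ
    · by_cases b2 : ‖z.2‖ ∈ Ioo (4 * r) (1 / 2)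
      · rw [indicator_of_mem b1, indicator_of_mem b2, one_mul]
        exact lg_pt e he he' ρ r hρ hρr hr a h0 h1 h2 h3 z.1 z.2 z1 z2 (by simpa using b1) b2.1 b2.2
      · rw [indicator_of_notMem b2, mul_zero, mul_zero]
        exact hw z
    · rw [indicator_of_notMem b1, zero_mul, mul_zero]
      exact hw z

theorem lg_normE (s : ℝ) (p q : ℤ) (z : ℂ) : ‖E s p q z‖ = ‖z‖ ^ (2 * s) * (‖z‖ ^ p * ‖z‖ ^ q) := by
  simp only [E, norm_mul, norm_zpow, Complex.norm_real, RCLike.norm_conj, Real.norm_eq_abs]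
  rw [abs_of_nonneg (Real.rpow_nonneg (norm_nonneg _) _), mul_assoc]

theorem lg_normIg (e : ℝ) (p q r t : Fin 4 → ℤ) (a : Cf) (z : ℂ × ℂ) :
    ‖Ig e p q r t a z‖ = (∏ i, ‖z.1 - a i‖ ^ p i * ‖z.1 - a i‖ ^ q i) *
      (∏ i, ‖z.2 - a i‖ ^ r i * ‖z.2 - a i‖ ^ t i) * wt e a z := by
  simp only [Ig, wt, norm_mul, norm_prod, lg_normE, Finset.prod_mul_distrib, Complex.norm_real,
    Real.norm_eq_abs]
  rw [abs_of_nonneg (Real.rpow_nonneg (norm_nonneg _) _)]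
  ring

theorem lg_int (hI : IntSt) (e : ℝ) (he : 0 < e) (he' : e < 1 / 12) (a : Cf)
    (ha : Function.Injective a) :
    Integrable fun z : ℂ × ℂ => ‖ell ![0, 1, 0] z.1 z.2‖ ^ 2 * wt e a z := by
  have i0 := (hI e he he' 0 0 0 0 (by simp [Ok]) a ha).norm
  have i1 := (hI e he he' (Pi.single 0 1) (Pi.single 0 1) 0 0
    (by unfold Ok; decide) a ha).norm
  have i2 := (hI e he he' 0 0 (Pi.single 0 1) (Pi.single 0 1)
    (by unfold Ok; decide) a ha).norm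
  refine (((i1.add i2).add (i0.const_mul (4 * ‖a 0‖ ^ 2))).const_mul 3).mono' ?_
    (Filter.Eventually.of_forall fun z => ?_)
  · refine Measurable.aestronglyMeasurable ?_
    unfold wt ell
    fun_prop
  · have hw : 0 ≤ wt e a z := by unfold wt; positivity
    have h4 : ell ![0, 1, 0] z.1 z.2 = (z.1 - a 0) + (z.2 - a 0) + 2 * a 0 := by
      simp [ell]; ring
    have h5 : ‖ell ![0, 1, 0] z.1 z.2‖ ≤ ‖z.1 - a 0‖ + ‖z.2 - a 0‖ + 2 * ‖a 0‖ := by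
      rw [h4]
      refine (norm_add₃_le).trans (le_of_eq ?_)
      simp
    have h6 : ‖ell ![0, 1, 0] z.1 z.2‖ ^ 2 ≤
        3 * (‖z.1 - a 0‖ ^ 2 + ‖z.2 - a 0‖ ^ 2 + 4 * ‖a 0‖ ^ 2) := by
      refine (pow_le_pow_left₀ (norm_nonneg _) h5 2).trans ?_
      nlinarith [sq_nonneg (‖z.1 - a 0‖ - ‖z.2 - a 0‖), sq_nonneg (‖z.1 - a 0‖ - 2 * ‖a 0‖),
        sq_nonneg (‖z.2 - a 0‖ - 2 * ‖a 0‖)]
    rw [Real.norm_of_nonneg (by positivity)]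
    simp only [Pi.add_apply, lg_normIg, Fin.prod_univ_four]
    simp
    nlinarith [mul_le_mul_of_nonneg_right h6 hw]

/-- the bound along the family `(-s z / 2, s z / 2, s, 1)` -/
theorem G_log' (hI : IntSt) (e : ℝ) (he : 0 < e) (he' : e < 1 / 12) (s z : ℂ) (hs : s ≠ 0)
    (hz : z ≠ 0) (hs1 : 8 * ‖s‖ < 1) (hz1 : ‖z‖ ≤ 2)
    (ha : Function.Injective (![-(s * z) / 2, s * z / 2, s, 1] : Cf)) :
    (1 / 4) ^ 10 * (2 * Real.pi ^ 2) *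
      (‖z‖ ^ (-4 * e) * ‖s‖ ^ (-1 - 6 * e) * Real.log (1 / (8 * ‖s‖))) ≤
      G e ![-(s * z) / 2, s * z / 2, s, 1] ![0, 1, 0] := by
  have s0 : 0 < ‖s‖ := norm_pos_iff.mpr hs
  have z0 : 0 < ‖z‖ := norm_pos_iff.mpr hz
  have hρ : 0 < ‖s‖ * ‖z‖ / 2 := by positivity
  refine le_trans ?_ (G_log e he he' (‖s‖ * ‖z‖ / 2) ‖s‖ hρ (by nlinarith) hs1 _ (by simp)
    (by simp) (by simp) (by simp) (lg_int hI e he he' _ ha))
  have hl : 0 ≤ Real.log (1 / (8 * ‖s‖)) := by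
    refine Real.log_nonneg ?_
    rw [le_div_iff₀ (by positivity)]
    linarith
  have h1 : (‖s‖ * ‖z‖) ^ (-4 * e) ≤ (‖s‖ * ‖z‖ / 2) ^ (-4 * e) :=
    lg_pow hρ (by nlinarith) (by linarith)
  have h2 : ‖z‖ ^ (-4 * e) * ‖s‖ ^ (-1 - 6 * e) =
      (‖s‖ * ‖z‖) ^ (-4 * e) * ‖s‖ ^ (-1 - 2 * e) := by
    rw [Real.mul_rpow s0.le z0.le, mul_comm (‖s‖ ^ _) (‖z‖ ^ _), mul_assoc, ← Real.rpow_add s0]
    congr 2
    ring
  rw [h2]
  gcongr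

end

end Pool.Agent.Lib.MP_0c623d_al.BP
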