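import Mathlib

set_option autoImplicit false

/-!
Malcev's theorem: finitely generated linear groups are residually finite, in a linear and in a
projective form.
-/

namespace Pool.Agent.Lib.MP_0c623d_al.BP

open scoped Classical

lemma int_jac : IsJacobsonRing ℤ := by
  rw [isJacobsonRing_iff_prime_eq]
  intro P hP
  by_cases h0 : P = ⊥
  · subst h0
    refine le_antisymm (fun x hx => ?_) Ideal.le_jacobson
    rw [Ideal.mem_jacobson_bot] at hx
    have := Int.isUnit_iff.mp (hx x)
    rw [Ideal.mem_bot]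
    rcases this with h | h <;> nlinarith [mul_self_nonneg x]
  · have := Ring.DimensionLEOne.maximalOfPrime h0 hP
    exact Ideal.jacobson_eq_self_of_isMaximal

/-- A nonzero element of a finitely generated domain survives in a finite quotient. -/
lemma exists_finite_quot {R : Type} [CommRing R] [IsDomain R] [Algebra.FiniteType ℤ R] {x : R}
    (hx : x ≠ 0) : ∃ m : Ideal R, Finite (R ⧸ m) ∧ x ∉ m := by
  have := int_jac
  have : IsJacobsonRing R := isJacobsonRing_of_finiteType (A := ℤ)
  have h : (⊥ : Ideal R).jacobson = ⊥ :=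
    isJacobsonRing_iff_prime_eq.mp ‹_› ⊥ Ideal.isPrime_bot
  obtain ⟨m, hm, hxm⟩ : ∃ m : Ideal R, m.IsMaximal ∧ x ∉ m := by
    by_contra hcon
    push Not at hcon
    apply hx
    rw [← Ideal.mem_bot, ← h, Ideal.jacobson, Ideal.mem_sInf]
    intro J hJ
    exact hcon J hJ.2
  refine ⟨m, ?_, hxm⟩
  let := Ideal.Quotient.field m
  have hfin := finite_of_finite_type_of_isJacobsonRing ℤ (R ⧸ m)
  obtain ⟨p, hp⟩ := CharP.exists (R ⧸ m)
  have hp0 : p ≠ 0 := by
    rintro rfl
    have : CharZero (R ⧸ m) := CharP.charP_to_charZero _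
    exact Int.not_isField (isField_of_isIntegral_of_isField (R := ℤ) (S := R ⧸ m)
      (algebraMap ℤ (R ⧸ m)).injective_int (Field.toIsField _))
  refine Module.finite_of_fg_torsion (R ⧸ m) fun y => ?_
  refine ⟨⟨(p : ℤ), mem_nonZeroDivisors_of_ne_zero (by exact_mod_cast hp0)⟩, ?_⟩
  simp [Submonoid.smul_def]

/-- Malcev, matrix form. -/
theorem malcev {G K n : Type} [Group G] [Group.FG G] [Field K] [Fintype n] [DecidableEq n]
    (ρ : G →* Matrix n n K) {g : G} (hg : ρ g ≠ 1) :
    ∃ H : Subgroup G, H.index ≠ 0 ∧ g ∉ H := by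
  obtain ⟨S, hS⟩ := (Group.fg_def.mp ‹_›)
  let E : Set K := ⋃ s ∈ S, ⋃ i, ⋃ j, {ρ s i j, ρ s⁻¹ i j}
  have hE : E.Finite := S.finite_toSet.biUnion fun s _ =>
    Set.finite_iUnion fun i => Set.finite_iUnion fun j => Set.toFinite _
  let A := Algebra.adjoin ℤ E
  have : Algebra.FiniteType ℤ A := .adjoin_of_finite hE
  have hmem : ∀ x : G, ∀ i j, ρ x i j ∈ A := by
    intro x
    have hx : x ∈ Subgroup.closure (S : Set G) := hS ▸ Subgroup.mem_top x
    induction hx using Subgroup.closure_induction'' with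
    | mem s hs =>
      intro i j
      exact Algebra.subset_adjoin (by
        simp only [E, Set.mem_iUnion]
        exact ⟨s, hs, i, j, Or.inl rfl⟩)
    | inv_mem s hs =>
      intro i j
      exact Algebra.subset_adjoin (by
        simp only [E, Set.mem_iUnion]
        exact ⟨s, hs, i, j, Or.inr rfl⟩)
    | one =>
      intro i j
      rw [map_one, Matrix.one_apply]
      split_ifs
      · exact A.one_mem
      · exact A.zero_mem
    | mul x y _ _ hx hy =>
      intro i j
      rw [map_mul, Matrix.mul_apply]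
      exact A.sum_mem fun k _ => A.mul_mem (hx i k) (hy k j)
  let ρA : G →* Matrix n n A :=
    { toFun := fun x => Matrix.of fun i j => ⟨ρ x i j, hmem x i j⟩
      map_one' := by
        ext i j
        simp only [Matrix.of_apply, map_one, Matrix.one_apply]
        split_ifs <;> rfl
      map_mul' := by
        intro x y
        ext i j
        simp [Matrix.mul_apply] }
  obtain ⟨i, j, hij⟩ : ∃ i j, ρA g i j - (1 : Matrix n n A) i j ≠ 0 := by
    by_contra hcon
    push Not at hcon
    apply hg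
    ext i j
    have h := congrArg Subtype.val (sub_eq_zero.mp (hcon i j))
    simp only [ρA, MonoidHom.coe_mk, OneHom.coe_mk, Matrix.of_apply, Matrix.one_apply] at h
    rw [h, Matrix.one_apply]
    split_ifs <;> rfl
  obtain ⟨m, hm, hx⟩ := exists_finite_quot hij
  let φ : G →* Matrix n n (A ⧸ m) := ((Ideal.Quotient.mk m).mapMatrix (m := n)).toMonoidHom.comp ρA
  refine ⟨φ.toHomUnits.ker, ?_, fun hk => hx ?_⟩
  · rw [Subgroup.index_ker]
    exact Nat.card_pos.ne'
  · rw [MonoidHom.mem_ker] at hk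
    have h1 : φ g = 1 := by simpa using congrArg Units.val hk
    have h2 := congrFun (congrFun h1 i) j
    rw [← Ideal.Quotient.eq_zero_iff_mem, map_sub, sub_eq_zero]
    refine h2.trans ?_
    simp only [Matrix.one_apply]
    split_ifs <;> simp

/-- Malcev, for a finite dimensional representation. -/
theorem malcev_end {G K V : Type} [Group G] [Group.FG G] [Field K] [AddCommGroup V] [Module K V]
    [FiniteDimensional K V] (ρ : G →* Module.End K V) {g : G} (hg : ρ g ≠ 1) :
    ∃ H : Subgroup G, H.index ≠ 0 ∧ g ∉ H := by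
  let b := Module.finBasis K V
  refine malcev ((LinearMap.toMatrixAlgEquiv b).toMulEquiv.toMonoidHom.comp ρ) fun h => hg ?_
  apply (LinearMap.toMatrixAlgEquiv b).injective
  rw [map_one]
  exact h

/-- Malcev, projective form: `ρ` is multiplicative up to scalars and `ρ g` is not a scalar. -/
theorem malcev_proj {G K n : Type} [Group G] [Group.FG G] [Field K] [Fintype n] [DecidableEq n]
    (ρ : G → Matrix n n K) (hu : ∀ x, IsUnit (ρ x))
    (hρ : ∀ x y, ∃ c : K, ρ (x * y) = c • (ρ x * ρ y)) {g : G}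
    (hg : ∀ c : K, ρ g ≠ c • (1 : Matrix n n K)) :
    ∃ H : Subgroup G, H.index ≠ 0 ∧ g ∉ H := by
  rcases isEmpty_or_nonempty n with hn | hn
  · exact absurd (Subsingleton.elim _ _) (hg 1)
  have hd : ∀ x, IsUnit (ρ x).det := fun x => (Matrix.isUnit_iff_isUnit_det _).mp (hu x)
  let ad : G → Module.End K (Matrix n n K) := fun x =>
    (LinearMap.mulLeft K (ρ x)).comp (LinearMap.mulRight K (ρ x)⁻¹)
  have had : ∀ x M, ad x M = ρ x * (M * (ρ x)⁻¹) := fun x M => rfl
  have hmul : ∀ x y, ad (x * y) = ad x * ad y := by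
    intro x y
    obtain ⟨c, hc⟩ := hρ x y
    have hc0 : c ≠ 0 := by
      rintro rfl
      have := hu (x * y)
      rw [hc, zero_smul] at this
      exact not_isUnit_zero this
    have hinv : (ρ (x * y))⁻¹ = c⁻¹ • ((ρ y)⁻¹ * (ρ x)⁻¹) := by
      apply Matrix.inv_eq_right_inv
      rw [hc, Matrix.smul_mul, Matrix.mul_smul, smul_smul, mul_inv_cancel₀ hc0, one_smul,
        Matrix.mul_assoc, ← Matrix.mul_assoc (ρ y), Matrix.mul_nonsing_inv _ (hd y),
        Matrix.one_mul, Matrix.mul_nonsing_inv _ (hd x)]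
    ext1 M
    rw [Module.End.mul_apply, had, had, had, hinv, hc]
    simp only [Matrix.smul_mul, Matrix.mul_smul, smul_smul, Matrix.mul_assoc]
    rw [inv_mul_cancel₀ hc0, one_smul]
  have hone : ad 1 = 1 := by
    obtain ⟨c, hc⟩ := hρ 1 1
    rw [mul_one] at hc
    have h1 : c • ρ 1 = 1 := by
      have := congrArg (· * (ρ 1)⁻¹) hc
      simp only [Matrix.smul_mul, Matrix.mul_assoc, Matrix.mul_nonsing_inv _ (hd 1),
        Matrix.mul_one] at this
      exact this.symm
    have hc0 : c ≠ 0 := by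
      rintro rfl
      rw [zero_smul] at h1
      exact zero_ne_one h1
    have h2 : ρ 1 = c⁻¹ • (1 : Matrix n n K) := by
      rw [← h1, smul_smul, inv_mul_cancel₀ hc0, one_smul]
    ext1 M
    rw [had, ← Matrix.mul_assoc]
    have h3 : ρ 1 * M = M * ρ 1 := by rw [h2]; simp
    rw [h3, Matrix.mul_assoc, Matrix.mul_nonsing_inv _ (hd 1), Matrix.mul_one]
    rfl
  let α : G →* Module.End K (Matrix n n K) := ⟨⟨ad, hone⟩, hmul⟩
  refine malcev_end α fun h => ?_
  have hcomm : ∀ M : Matrix n n K, ρ g * M = M * ρ g := by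
    intro M
    have h1 : ρ g * (M * (ρ g)⁻¹) = M := LinearMap.congr_fun h M
    have h2 := congrArg (· * ρ g) h1
    simp only [Matrix.mul_assoc, Matrix.nonsing_inv_mul _ (hd g), Matrix.mul_one] at h2
    exact h2
  obtain ⟨c, hc⟩ := (Matrix.mem_range_scalar_iff_commute_single' (M := ρ g)).mpr
    fun i j => (hcomm _).symm
  exact hg c (by rw [← hc, Matrix.scalar_apply, Matrix.smul_one_eq_diagonal])

end Pool.Agent.Lib.MP_0c623d_al.BP
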