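import Pool.Agent.Lib.MP_0c623d_al.BP.Flat
import Pool.Agent.Lib.MP_0c623d_al.E.Defs

set_option autoImplicit false

/-!
Eigenvalues of a half turn around a regular singular point, and words in wall matrices.
-/

namespace Pool.Agent.Lib.MP_0c623d_al.BP

open Set Complex
open scoped Matrix.Norms.Operator

/-- the one parameter group generated by `x • p + y • q` -/
noncomputable def ex (p q : M6) (x y s : ℂ) : M6 :=
  1 + (exp (s * x) - 1) • p + (exp (s * y) - 1) • q

section
variable {p q : M6} {x y : ℂ}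

theorem ex_zero : ex p q x y 0 = 1 := by simp [ex]

theorem ex_add (hp : p * p = p) (hq : q * q = q) (h1 : p * q = 0) (h2 : q * p = 0) (s t : ℂ) :
    ex p q x y s * ex p q x y t = ex p q x y (s + t) := by
  simp only [ex, mul_add, add_mul, mul_one, one_mul, smul_mul_assoc, mul_smul_comm, hp, hq, h1, h2,
    exp_add]
  module

theorem ex_deriv (hp : p * p = p) (hq : q * q = q) (h1 : p * q = 0) (h2 : q * p = 0) (s : ℝ) :
    HasDerivAt (fun s : ℝ => ex p q x y (-s)) (-(ex p q x y (-s) * (x • p + y • q))) s := by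
  have d : ∀ z : ℂ, HasDerivAt (fun s : ℝ => exp (-(s : ℂ) * z) - 1) (-z * exp (-(s : ℂ) * z)) s := by
    intro z
    have := ((ofRealCLM.hasDerivAt (x := s)).neg.mul_const z).cexp.sub_const 1
    refine this.congr_deriv ?_
    simp [mul_comm]
  refine ((((d x).smul_const p).const_add 1).add ((d y).smul_const q)).congr_deriv ?_
  simp only [ex, mul_add, add_mul, one_mul, smul_mul_assoc, mul_smul_comm, hp, hq, h1, h2]
  module

theorem ex_cont : Continuous fun s : ℝ => ex p q x y s := by
  unfold ex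
  fun_prop

theorem eig_half (hp : p * p = p) (hq : q * q = q) (h1 : p * q = 0) (h2 : q * p = 0)
    {P C : M6} (hP : P * P = 1) (c1 : P * p = p * P) (c2 : P * q = q * P)
    (h : ∀ ε : ℝ, 0 < ε → ∃ F w : ℝ → M6, IsUnit (F 0) ∧ F 1 = P * F 0 * C ∧
      ∀ s ∈ Icc (0 : ℝ) 1, HasDerivAt F ((x • p + y • q + w s) * F s) s ∧ ‖w s‖ ≤ ε)
    {μ : ℂ} (hμ : (C - μ • 1).det = 0) : μ ^ 2 = 1 ∨ μ ^ 2 = exp (2 * x) ∨ μ ^ 2 = exp (2 * y) := by
  obtain ⟨K, hK⟩ := (isCompact_Icc (a := (-1 : ℝ)) (b := 1)).exists_bound_of_continuousOn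
    (ex_cont (p := p) (q := q) (x := x) (y := y)).continuousOn
  have K0 : 0 ≤ K := (norm_nonneg _).trans (hK 0 (by simp))
  have key : (P * ex p q x y 1 - μ • 1).det = 0 := by
    have hcl : IsClosed {Z : M6 | (P * ex p q x y 1 * Z - μ • 1).det = 0} :=
      isClosed_eq (by fun_prop) continuous_const
    suffices (1 : M6) ∈ {Z : M6 | (P * ex p q x y 1 * Z - μ • 1).det = 0} by simpa using this
    refine hcl.closure_subset (Metric.mem_closure_iff.2 fun δ hδ => ?_)
    have hc : ContinuousAt (fun ε : ℝ => (0 + K * (ε * K) * ‖(1 : M6)‖) * Real.exp (K * (ε * K))) 0 := by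
      fun_prop
    obtain ⟨η, η0, hη⟩ := Metric.continuousAt_iff.1 hc δ hδ
    obtain ⟨F, w, ⟨u, hu⟩, hF1, hF⟩ := h (η / 2) (by positivity)
    have e1 : ∀ s : ℝ, ex p q x y s * ex p q x y (-s) = 1 := fun s => by
      rw [ex_add hp hq h1 h2, add_neg_cancel, ex_zero]
    have g := gron (f := fun s : ℝ => ex p q x y (-s) * F s * (↑u⁻¹ : M6) - 1)
      (f' := fun s : ℝ => ex p q x y (-s) * w s * ex p q x y s *
        (ex p q x y (-s) * F s * (↑u⁻¹ : M6)))
      (K := K * (η / 2 * K)) (d := 0) (e := K * (η / 2 * K) * ‖(1 : M6)‖)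
      (by positivity) le_rfl (by positivity) (fun s hs => ?_) ?_ (fun s hs => ?_) 1 (by simp)
    · refine ⟨ex p q x y (-(1 : ℝ)) * F 1 * (↑u⁻¹ : M6), ?_, ?_⟩
      · have e2 : P * ex p q x y 1 * (ex p q x y (-(1 : ℝ)) * F 1 * (↑u⁻¹ : M6)) - μ • 1 =
            u * (C - μ • 1) * (↑u⁻¹ : M6) := by
          have e3 := e1 1
          rw [ofReal_one] at e3 ⊢
          rw [mul_assoc P, ← mul_assoc (ex p q x y 1), ← mul_assoc (ex p q x y 1), e3, hF1, ← hu,
            one_mul, ← mul_assoc, ← mul_assoc, ← mul_assoc, hP]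
          simp [mul_sub, sub_mul]
        show Matrix.det _ = 0
        rw [e2, Matrix.det_mul, Matrix.det_mul, hμ]
        simp
      · rw [dist_comm, dist_eq_norm]
        refine g.trans_lt ?_
        have := hη (x := η / 2) (by rw [Real.dist_eq, sub_zero, abs_of_pos (by positivity)]; linarith)
        rw [Real.dist_eq] at this
        simp only [zero_mul, mul_zero, add_zero, sub_zero] at this
        exact (le_abs_self _).trans_lt this
    · refine ((((ex_deriv hp hq h1 h2 s).mul (hF s hs).1).mul_const _).sub_const 1).congr_deriv ?_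
      rw [mul_assoc _ (ex p q x y s), ← mul_assoc (ex p q x y s), ← mul_assoc (ex p q x y s), e1]
      noncomm_ring
    · simp [ex_zero, ← hu]
    · have b1 : ‖ex p q x y (-s)‖ ≤ K := by
        simpa using hK (-s) ⟨by linarith [hs.2], by linarith [hs.1]⟩
      have b2 : ‖ex p q x y s‖ ≤ K := hK s ⟨by linarith [hs.1], hs.2⟩
      have b3 : ‖ex p q x y (-s) * w s * ex p q x y s‖ ≤ K * (η / 2 * K) := by
        rw [mul_assoc]
        refine (norm_mul_le _ _).trans (mul_le_mul b1 ((norm_mul_le _ _).trans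
          (mul_le_mul (hF s hs).2 b2 (norm_nonneg _) (by positivity))) (norm_nonneg _) K0)
      refine (norm_mul_le _ _).trans ?_
      rw [← mul_add]
      refine mul_le_mul b3 ?_ (norm_nonneg _) (by positivity)
      simpa using norm_add_le (ex p q x y (-s) * F s * (↑u⁻¹ : M6) - 1) 1
  obtain ⟨v, hv, e⟩ := Matrix.exists_mulVec_eq_zero_iff.2 key
  rw [Matrix.sub_mulVec, sub_eq_zero, Matrix.smul_mulVec, Matrix.one_mulVec] at e
  have c3 : ex p q x y 1 * P = P * ex p q x y 1 := by
    simp [ex, mul_add, add_mul, c1, c2]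
  have e2 : (ex p q x y 2).mulVec v = μ ^ 2 • v := by
    have : P * ex p q x y 1 * (P * ex p q x y 1) = ex p q x y 2 := by
      rw [mul_assoc, ← mul_assoc _ P, c3, ← mul_assoc, ← mul_assoc, hP, one_mul,
        ex_add hp hq h1 h2, one_add_one_eq_two]
    rw [← this, ← Matrix.mulVec_mulVec, e, Matrix.mulVec_smul, e, smul_smul, sq]
  by_contra hcon
  push Not at hcon
  have a1 : p.mulVec v = 0 := by
    have := congrArg p.mulVec e2
    rw [Matrix.mulVec_mulVec, Matrix.mulVec_smul,
      show p * ex p q x y 2 = exp (2 * x) • p by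
        simp only [ex, mul_add, mul_one, mul_smul_comm, hp, h1]; module,
      Matrix.smul_mulVec, ← sub_eq_zero, ← sub_smul, smul_eq_zero] at this
    exact this.resolve_left (sub_ne_zero.2 hcon.2.1.symm)
  have a2 : q.mulVec v = 0 := by
    have := congrArg q.mulVec e2
    rw [Matrix.mulVec_mulVec, Matrix.mulVec_smul,
      show q * ex p q x y 2 = exp (2 * y) • q by
        simp only [ex, mul_add, mul_one, mul_smul_comm, hq, h2]; module,
      Matrix.smul_mulVec, ← sub_eq_zero, ← sub_smul, smul_eq_zero] at this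
    exact this.resolve_left (sub_ne_zero.2 hcon.2.2.symm)
  simp only [ex, Matrix.add_mulVec, Matrix.smul_mulVec, a1, a2, smul_zero, add_zero,
    Matrix.one_mulVec] at e2
  have : (μ ^ 2 - 1) • v = 0 := by rw [sub_smul, ← e2, one_smul, sub_self]
  exact hv ((smul_eq_zero.1 this).resolve_left (sub_ne_zero.2 hcon.1))

end

theorem twist_four {A : Type} [Monoid A] {a b c : A} (hab : a * b * a = b * a * b)
    (hbc : b * c * b = c * b * c) (hac : a * c = c * a) :
    (a * b * c) ^ 4 = (a * b * a * c * b * a) * (a * b * a * c * b * a) := by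
  have d1 : a * b * c * a = b * (a * b * c) := by
    rw [mul_assoc (a * b), ← hac, ← mul_assoc, hab]
    simp only [mul_assoc]
  have d2 : a * b * c * b = c * (a * b * c) := by
    rw [mul_assoc a, mul_assoc a, hbc, ← mul_assoc, ← mul_assoc, hac]
    simp only [mul_assoc]
  have e1 : a * b * a * c * b * a = a * b * c * (a * b * a) := by
    rw [mul_assoc (a * b) a, hac]
    simp only [mul_assoc]
  have e2 : a * b * c * (a * b * a) = b * c * b * (a * b * c) := by
    rw [← mul_assoc, ← mul_assoc, d1, mul_assoc b, d2, mul_assoc b, mul_assoc c, d1]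
    simp only [mul_assoc]
  have e3 : a * b * a * (b * c * b) = a * b * c * (a * b * c) := by
    rw [hbc, ← mul_assoc, ← mul_assoc, mul_assoc (a * b) a, hac]
    simp only [mul_assoc]
  rw [e1]
  nth_rewrite 2 [e2]
  rw [mul_assoc _ (a * b * a), ← mul_assoc (a * b * a), e3]
  simp only [pow_succ, pow_zero, one_mul, mul_assoc]

end Pool.Agent.Lib.MP_0c623d_al.BP
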