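import Pool.Agent.Lib.MP_0c623d_al.BP.Sk2
import Pool.Agent.Lib.MP_0c623d_al.B.Spc

set_option autoImplicit false

/-!
The signs at the centres of charts.
-/

namespace Pool.Agent.Lib.MP_0c623d_al.BP

theorem spSt : SpSt := fun k _ _ _ g hp hN => g.sgn k hN fun a ha => (hp a ha).le

end Pool.Agent.Lib.MP_0c623d_al.BP
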